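import Pool.Agent.H671R2.CK.CDefs

/-!
# Padding with tautological clauses
-/

namespace Pool.Agent.CK

open Pool.Agent.NPC

/-- S10 -/
theorem padTo_sat (m : ℕ) (φ : Form) : SAT3 (padTo m φ) ↔ SAT3 φ := by
  unfold SAT3 Sat3V padTo
  constructor
  · rintro ⟨τ, h⟩
    exact ⟨τ, fun c hc => h c (List.mem_append_left _ hc)⟩
  · rintro ⟨τ, h⟩
    refine ⟨τ, fun c hc => ?_⟩
    rcases List.mem_append.1 hc with hc | hc
    · exact h c hc
    · rw [List.eq_of_mem_replicate hc]
      cases hτ : τ 0 <;> simp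

theorem padTo_norm (m : ℕ) (φ : Form) (h : Bounded3 φ) (hm : 1 ≤ m) (hl : φ.length ≤ m) :
    Norm m (padTo m φ) := by
  refine ⟨hm, ?_, ?_⟩
  · unfold padTo
    rw [List.length_append, List.length_replicate]
    omega
  · intro c hc
    rcases List.mem_append.1 hc with hc | hc
    · obtain ⟨h1, h2, h3⟩ := h c hc
      omega
    · rw [List.eq_of_mem_replicate hc]
      refine ⟨?_, ?_, ?_⟩ <;> simp only <;> omega

end Pool.Agent.CK
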