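import Pool.Agent.H671R2.CK.CDefs
import Pool.Agent.H671R2.PolyAuto
import Pool.Agent.NPC.Dec

/-! Task K13. -/

namespace Pool.Agent.CK

open Pool.Agent.NPC

namespace K13aux

theorem lt_fold (fs : List Form) (a0 k : ℕ) :
    k < fs.foldl (fun a φ => max a φ.length) a0 ↔ k < a0 ∨ ∃ φ ∈ fs, k < φ.length := by
  induction fs generalizing a0 with
  | nil => simp
  | cons φ fs ih =>
    rw [List.foldl_cons, ih]
    constructor
    · rintro (h | ⟨ψ, hψ, h⟩)
      · rcases lt_max_iff.1 h with h | h
        · exact Or.inl h
        · exact Or.inr ⟨φ, List.mem_cons_self, h⟩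
      · exact Or.inr ⟨ψ, List.mem_cons_of_mem _ hψ, h⟩
    · rintro (h | ⟨ψ, hψ, h⟩)
      · exact Or.inl (lt_max_iff.2 (Or.inl h))
      · rcases List.mem_cons.1 hψ with rfl | hψ
        · exact Or.inl (lt_max_iff.2 (Or.inr h))
        · exact Or.inr ⟨ψ, hψ, h⟩

theorem maxLen_le (fs : List Form) : maxLen fs ≤ fs.flatten.length + 1 := by
  by_contra h
  have h1 : fs.flatten.length + 1 < maxLen fs := not_le.1 h
  unfold maxLen at h1
  rw [lt_fold] at h1
  rcases h1 with h1 | ⟨φ, hφ, h1⟩
  · omega
  · have h2 : φ.length ≤ fs.flatten.length := (List.sublist_flatten_of_mem hφ).length_le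
    omega

theorem key (m n : ℕ) (hmn : m ≤ n) :
    ((List.range n).filter (fun k => decide (k < m))).length = m := by
  have : (List.range n).filter (fun k => decide (k < m)) = List.range m := by
    obtain ⟨d, rfl⟩ := Nat.exists_eq_add_of_le hmn
    rw [List.range_add, List.filter_append]
    have h1 : (List.range m).filter (fun k => decide (k < m)) = List.range m := by
      rw [List.filter_eq_self]
      intro k hk
      simpa using hk
    have h2 : ((List.range d).map (fun x => m + x)).filter (fun k => decide (k < m)) = [] := by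
      rw [List.filter_eq_nil_iff]
      intro k hk
      simp at hk ⊢
      omega
    rw [h1, h2, List.append_nil]
  rw [this, List.length_range]

end K13aux

variable {α : Type} [TEnc α]

theorem upoly_maxLen {fs : α → List Form} (hf : Poly fs) : UPoly (fun a => maxLen (fs a)) := by
  have hN : UPoly (fun a => (fs a).flatten.length + 1) :=
    UPoly.add (UPoly.length (Poly.flatten hf)) (UPoly.const 1)
  have hp : Poly (fun x : α × ℕ => decide (x.2 < 1) ||
      (fs x.1).any (fun φ => decide (x.2 < φ.length))) :=
    Poly.or (Poly.decide_lt (Poly.snd Poly.id) (NPC.Poly.const 1))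
      (Poly.any (p := fun (x : α × ℕ) (φ : Form) => decide (x.2 < φ.length))
        (hf.comp (Poly.fst Poly.id))
        (Poly.decide_lt (Poly.snd (Poly.fst Poly.id)) (Poly.length (Poly.snd Poly.id))))
  have h1 : Poly (fun a => (List.range ((fs a).flatten.length + 1)).filter
      (fun k => decide (k < 1) || (fs a).any (fun φ => decide (k < φ.length)))) :=
    Poly.filter (p := fun a k => decide (k < 1) || (fs a).any (fun φ => decide (k < φ.length)))
      hN.range hp
  refine (UPoly.length h1).congr fun a => ?_
  congr 1
  have h2 : (fun k => decide (k < 1) || (fs a).any (fun φ => decide (k < φ.length))) =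
      fun k => decide (k < maxLen (fs a)) := by
    funext k
    rw [Bool.eq_iff_iff]
    simp only [Bool.or_eq_true, decide_eq_true_eq, List.any_eq_true]
    exact (K13aux.lt_fold (fs a) 1 k).symm
  have h3 := K13aux.key _ _ (K13aux.maxLen_le (fs a))
  rw [← h2] at h3
  exact h3

theorem poly_padTo {m : α → ℕ} {φ : α → Form} (hm : UPoly m) (hφ : Poly φ) :
    Poly (fun a => padTo (m a) (φ a)) := by
  have h1 : UPoly (fun a => m a - (φ a).length) :=
    UPoly.of_le (Poly.sub hm.toPoly (Poly.length hφ)) hm (fun a => Nat.sub_le _ _)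
  have h2 : Poly (fun a => (List.range (m a - (φ a).length)).map
      (fun _ => (((true, 0), (false, 0), (true, 0)) : Lit ℕ × Lit ℕ × Lit ℕ))) :=
    NPC.Poly.map (F := fun _ _ => (((true, 0), (false, 0), (true, 0)) : Lit ℕ × Lit ℕ × Lit ℕ))
      h1.range (NPC.Poly.const _)
  refine (Poly.append hφ h2).congr fun a => ?_
  unfold padTo
  congr 1
  rw [List.map_const', List.length_range]

end Pool.Agent.CK
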