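import Pool.Agent.H671R2.CK.CDefs

/-!
# K2: the threshold (helper64)
-/

namespace Pool.Agent.CK

/-- a polynomial is bounded by a monomial -/
theorem K2_bound (q : Polynomial ℕ) : ∃ C c : ℕ, 1 ≤ C ∧ 1 ≤ c ∧ ∀ k, q.eval k ≤ C * (k + 1) ^ c := by
  induction q using Polynomial.induction_on' with
  | add p q hp hq =>
    obtain ⟨C, c, hC, hc, h⟩ := hp
    obtain ⟨C', c', hC', hc', h'⟩ := hq
    refine ⟨C + C', c + c', by omega, by omega, fun k => ?_⟩
    rw [Polynomial.eval_add, add_mul]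
    have e1 : (k + 1) ^ c ≤ (k + 1) ^ (c + c') := Nat.pow_le_pow_right (by omega) (by omega)
    have e2 : (k + 1) ^ c' ≤ (k + 1) ^ (c + c') := Nat.pow_le_pow_right (by omega) (by omega)
    exact Nat.add_le_add ((h k).trans (Nat.mul_le_mul_left _ e1))
      ((h' k).trans (Nat.mul_le_mul_left _ e2))
  | monomial n a =>
    refine ⟨a + 1, n + 1, by omega, by omega, fun k => ?_⟩
    rw [Polynomial.eval_monomial]
    have e1 : k ^ n ≤ (k + 1) ^ (n + 1) :=
      (Nat.pow_le_pow_left (Nat.le_succ k) n).trans (Nat.pow_le_pow_right (by omega) (by omega))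
    exact Nat.mul_le_mul (Nat.le_succ a) e1

theorem K2_size (u : ℕ) (_hu : 1 ≤ u) (m : ℕ) : (u ^ m).size ≤ m * u + 1 := by
  rw [Nat.size_le]
  have h1 : u < 2 ^ u := Nat.lt_two_pow_self
  calc u ^ m ≤ (2 ^ u) ^ m := Nat.pow_le_pow_left h1.le m
    _ = 2 ^ (m * u) := by rw [← pow_mul, mul_comm]
    _ < 2 ^ (m * u + 1) := Nat.pow_lt_pow_right (by norm_num) (by omega)

/-- K2 -/
theorem threshold (q : Polynomial ℕ) :
    ∃ p : Polynomial ℕ, ∀ n, ∃ t, 1 ≤ t ∧ t ≤ p.eval n ∧ q.eval (n + t.size) + 1 ≤ t := by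
  obtain ⟨C, c, hC, hc, h⟩ := K2_bound q
  -- `u = (C + 1) * (n + 2 c + 3)`, `t = u ^ (2 c + 1)`
  refine ⟨(Polynomial.C (C + 1) * (Polynomial.X + Polynomial.C (2 * c + 4))) ^ (2 * c + 1),
    fun n => ?_⟩
  set u : ℕ := (C + 1) * (n + (2 * c + 4)) with hu
  refine ⟨u ^ (2 * c + 1), ?_, ?_, ?_⟩
  · exact Nat.one_le_pow _ _ (by rw [hu]; positivity)
  · simp [hu]
  · have hu1 : 1 ≤ u := by rw [hu]; nlinarith
    have hs := K2_size u hu1 (2 * c + 1)
    have hnu : n + (2 * c + 4) ≤ u := by rw [hu]; nlinarith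
    have hCu : C + 1 ≤ u := by rw [hu]; nlinarith
    have h1 : n + (u ^ (2 * c + 1)).size + 1 ≤ u * u := by
      have e1 : n + (u ^ (2 * c + 1)).size + 1 ≤ (n + 2) + (2 * c + 1) * u := by omega
      have e2 : (n + 2) + (2 * c + 1) * u ≤ (2 * c + 2) * u := by nlinarith
      have e3 : (2 * c + 2) * u ≤ u * u := Nat.mul_le_mul_right _ (by omega)
      omega
    have h2 : q.eval (n + (u ^ (2 * c + 1)).size) ≤ C * (u * u) ^ c :=
      (h _).trans (Nat.mul_le_mul_left _ (Nat.pow_le_pow_left h1 c))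
    have h3 : (u * u) ^ c = u ^ (2 * c) := by rw [← pow_two, ← pow_mul]
    rw [h3] at h2
    have h4 : u ^ (2 * c + 1) = u ^ (2 * c) * u := pow_succ _ _
    have h5 : 1 ≤ u ^ (2 * c) := Nat.one_le_pow _ _ (by omega)
    rw [h4]
    calc q.eval (n + (u ^ (2 * c) * u).size) + 1 ≤ C * u ^ (2 * c) + 1 := by
          rw [← h4]; omega
      _ ≤ C * u ^ (2 * c) + u ^ (2 * c) := by omega
      _ = u ^ (2 * c) * (C + 1) := by ring
      _ ≤ u ^ (2 * c) * u := Nat.mul_le_mul_left _ hCu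

end Pool.Agent.CK
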