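import Pool.Agent.H671R2.CK.K1
import Pool.Agent.H671R2.CK.K2
import Pool.Agent.NPC.Dec

/-! K3: the lemma of Fortnow and Santhanam. -/

namespace Pool.Agent.CK

open Pool.Agent.NPC

/-- the test -/
def K3_test {β : Type} [TEnc β] [TDec β] [DecidableEq β] (comp : List (List Bool) → β)
    (y : List Bool) : Bool :=
  match unbits (List β) (unpair (unpair y).1).2 with
  | none => false
  | some ys => match unbits (List (List Bool)) (unpair y).2 with
    | none => false
    | some xs => decide ((unpair (unpair y).1).1 ∈ xs) &&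
        (xs.all (fun z => decide (z.length = (unpair (unpair y).1).1.length)) &&
          decide (comp xs ∈ ys))

theorem K3_test_poly {β : Type} [TEnc β] [TDec β] [DecidableEq β]
    (comp : List (List Bool) → β) (hc : Poly comp) : Poly (K3_test comp) := by
  have hx : Poly (fun p : (List Bool × List β) × List (List Bool) =>
      (unpair (unpair p.1.1).1).1) :=
    Poly.fst (poly_unpair.comp (Poly.fst (poly_unpair.comp (Poly.fst (Poly.fst Poly.id)))))
  have h3 : Poly (fun p : (List Bool × List β) × List (List Bool) =>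
      (decide ((unpair (unpair p.1.1).1).1 ∈ p.2) &&
          (p.2.all (fun z => decide (z.length = (unpair (unpair p.1.1).1).1.length)) &&
            decide (comp p.2 ∈ p.1.2)))) := by
    refine Poly.and ((Poly.decide_mem hx (Poly.snd Poly.id)).congr fun a => by congr)
      (Poly.and ?_ ?_)
    · refine Poly.all (p := fun (p : (List Bool × List β) × List (List Bool)) (z : List Bool) =>
        decide (z.length = (unpair (unpair p.1.1).1).1.length)) (Poly.snd Poly.id) ?_
      exact Poly.decide_eq (Poly.length (Poly.snd Poly.id))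
        (Poly.length (hx.comp (Poly.fst Poly.id)))
    · exact Poly.decide_mem (hc.comp (Poly.snd Poly.id)) (Poly.snd (Poly.fst Poly.id))
  have h2 := Poly.optCases (o := fun p : List Bool × List β =>
      unbits (List (List Bool)) (unpair p.1).2) (g := fun _ => false)
    (h := fun (p : List Bool × List β) (xs : List (List Bool)) =>
      (decide ((unpair (unpair p.1).1).1 ∈ xs) &&
          (xs.all (fun z => decide (z.length = (unpair (unpair p.1).1).1.length)) &&
            decide (comp xs ∈ p.2))))
    (poly_unbits.comp (Poly.snd (poly_unpair.comp (Poly.fst Poly.id)))) (NPC.Poly.const _) h3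
  have h1 := Poly.optCases (o := fun y : List Bool => unbits (List β) (unpair (unpair y).1).2)
    (g := fun _ => false)
    (h := fun (y : List Bool) (ys : List β) => match unbits (List (List Bool)) (unpair y).2 with
      | none => false
      | some xs => (decide ((unpair (unpair y).1).1 ∈ xs) &&
          (xs.all (fun z => decide (z.length = (unpair (unpair y).1).1.length)) &&
            decide (comp xs ∈ ys))))
    (poly_unbits.comp (Poly.snd (poly_unpair.comp (Poly.fst poly_unpair)))) (NPC.Poly.const _)
    (h2.congr fun p => by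
      cases unbits (List (List Bool)) (unpair p.1).2 <;> simp)
  refine h1.congr fun y => ?_
  unfold K3_test
  cases unbits (List β) (unpair (unpair y).1).2 with
  | none => rfl
  | some ys =>
    cases unbits (List (List Bool)) (unpair y).2 with
    | none => simp
    | some xs => simp

/-- the bit strings of length `k` -/
def K3_str (k : ℕ) : Finset (List Bool) :=
  (Finset.univ : Finset (List.Vector Bool k)).image (fun v => v.toList)

theorem K3_mem_str {k : ℕ} {x : List Bool} : x ∈ K3_str k ↔ x.length = k := by
  unfold K3_str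
  rw [Finset.mem_image]
  constructor
  · rintro ⟨v, -, rfl⟩
    exact v.toList_length
  · intro h
    exact ⟨⟨x, h⟩, Finset.mem_univ _, rfl⟩

theorem K3_card_str (k : ℕ) : (K3_str k).card ≤ 2 ^ k := by
  refine le_trans Finset.card_image_le ?_
  rw [Finset.card_univ, card_vector, Fintype.card_bool]

theorem K3_card_le {β : Type} [TEnc β] [DecidableEq β] (R : Finset β) (m : ℕ)
    (h : ∀ b ∈ R, sz b ≤ m) : R.card ≤ 2 ^ (m + 1) := by
  have h1 : R.card = (R.image (bits : β → List Bool)).card :=
    (Finset.card_image_of_injective _ bits_injective).symm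
  have h2 : R.image (bits : β → List Bool) ⊆ (Finset.range (m + 1)).biUnion K3_str := by
    intro x hx
    obtain ⟨b, hb, rfl⟩ := Finset.mem_image.1 hx
    rw [Finset.mem_biUnion]
    refine ⟨(bits b).length, ?_, K3_mem_str.2 rfl⟩
    rw [Finset.mem_range, bits_length]
    have := h b hb
    omega
  rw [h1]
  refine le_trans (Finset.card_le_card h2) (le_trans Finset.card_biUnion_le ?_)
  refine le_trans (Finset.sum_le_sum fun k _ => K3_card_str k) ?_
  have h3 : ∀ n : ℕ, ∑ k ∈ Finset.range n, 2 ^ k ≤ 2 ^ n := by
    intro n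
    induction n with
    | zero => simp
    | succ n ih => rw [Finset.sum_range_succ, pow_succ]; omega
  exact h3 _

theorem K3_advice {β : Type} [TEnc β] [DecidableEq β] (L : Set (List Bool))
    (comp : List (List Bool) → β) (A : β → Prop) (q : Polynomial ℕ)
    (hq : ∀ n xs, xs ≠ [] → (∀ x ∈ xs, x.length = n) →
      sz (comp xs) ≤ q.eval (n + xs.length.size))
    (hA : ∀ n xs, xs ≠ [] → (∀ x ∈ xs, x.length = n) → (A (comp xs) ↔ ∃ x ∈ xs, x ∉ L))
    (n t : ℕ) (ht : 1 ≤ t) (hst : q.eval (n + t.size) + 1 ≤ t) :
    ∃ ys : List β, sz ys ≤ (n + 1) * t + 1 ∧ (∀ y ∈ ys, ¬ A y) ∧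
      ∀ x ∈ L, x.length = n → ∃ xs : List (List Bool), sz xs ≤ t * (4 * n + 2) + 1 ∧
        x ∈ xs ∧ (∀ z ∈ xs, z.length = n) ∧ comp xs ∈ ys := by
  classical
  set S : Finset (List Bool) := (K3_str n).filter (· ∈ L) with hS
  have hSc : S.card ≤ 2 ^ n := le_trans (Finset.card_filter_le _ _) (K3_card_str n)
  have hSm : ∀ {x : List Bool}, x ∈ S ↔ x.length = n ∧ x ∈ L := by
    intro x
    rw [hS, Finset.mem_filter, K3_mem_str]
  set R : Finset β := (Fintype.piFinset (fun _ : Fin t => S)).image
    (fun v => comp (List.ofFn v)) with hR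
  have hne : ∀ v : Fin t → List Bool, List.ofFn v ≠ [] := by
    intro v h
    have := congrArg List.length h
    simp at this
    omega
  have hlen : ∀ v : Fin t → List Bool, (∀ i, v i ∈ S) → ∀ x ∈ List.ofFn v, x.length = n := by
    intro v hv x hx
    rw [List.mem_ofFn] at hx
    obtain ⟨i, rfl⟩ := hx
    exact (hSm.1 (hv i)).1
  have hRsz : ∀ b ∈ R, sz b ≤ q.eval (n + t.size) := by
    intro b hb
    obtain ⟨v, hv, rfl⟩ := Finset.mem_image.1 hb
    rw [Fintype.mem_piFinset] at hv
    have := hq n (List.ofFn v) (hne v) (hlen v hv)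
    rwa [List.length_ofFn] at this
  obtain ⟨Y, hY, hYc⟩ := cover S n (q.eval (n + t.size) + 1) t hSc (fun v => comp (List.ofFn v)) R
    (K3_card_le R _ hRsz) (fun v hv => Finset.mem_image.2 ⟨v, Fintype.mem_piFinset.2 hv, rfl⟩)
    ht hst
  refine ⟨(Y ∩ R).toList, ?_, ?_, ?_⟩
  · have h1 : sz (Y ∩ R).toList ≤ (Y ∩ R).toList.length * (q.eval (n + t.size) + 1) + 1 := by
      refine sz_le_length_mul _ _ fun a ha => ?_
      rw [Finset.mem_toList, Finset.mem_inter] at ha
      exact hRsz a ha.2
    rw [Finset.length_toList] at h1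
    have h2 : (Y ∩ R).card ≤ n + 1 :=
      le_trans (Finset.card_le_card Finset.inter_subset_left) hY
    refine le_trans h1 ?_
    have := Nat.mul_le_mul h2 hst
    omega
  · intro y hy
    rw [Finset.mem_toList, Finset.mem_inter] at hy
    obtain ⟨v, hv, rfl⟩ := Finset.mem_image.1 hy.2
    rw [Fintype.mem_piFinset] at hv
    rw [hA n _ (hne v) (hlen v hv)]
    rintro ⟨x, hx, hxL⟩
    rw [List.mem_ofFn] at hx
    obtain ⟨i, rfl⟩ := hx
    exact hxL (hSm.1 (hv i)).2
  · intro x hx hxn
    obtain ⟨v, hv, ⟨i, hi⟩, hvY⟩ := hYc x (hSm.2 ⟨hxn, hx⟩)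
    refine ⟨List.ofFn v, ?_, ?_, hlen v hv, ?_⟩
    · have h1 : sz (List.ofFn v) ≤ (List.ofFn v).length * (4 * n + 1 + 1) + 1 := by
        refine sz_le_length_mul _ _ fun a ha => ?_
        have h2 := sz_le_length_mul a 3 (fun b _ => sz_bool_le b)
        rw [hlen v hv a ha] at h2
        omega
      rwa [List.length_ofFn] at h1
    · rw [List.mem_ofFn]
      exact ⟨i, hi⟩
    · rw [Finset.mem_toList, Finset.mem_inter]
      exact ⟨hvY, Finset.mem_image.2 ⟨v, Fintype.mem_piFinset.2 hv, rfl⟩⟩

/-- K3: the lemma of Fortnow and Santhanam -/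
theorem fs {β : Type} [TEnc β] [TDec β] [DecidableEq β] (L : Set (List Bool))
    (comp : List (List Bool) → β) (hc : Poly comp) (A : β → Prop) (q : Polynomial ℕ)
    (hq : ∀ n xs, xs ≠ [] → (∀ x ∈ xs, x.length = n) →
      sz (comp xs) ≤ q.eval (n + xs.length.size))
    (hA : ∀ n xs, xs ≠ [] → (∀ x ∈ xs, x.length = n) → (A (comp xs) ↔ ∃ x ∈ xs, x ∉ L)) :
    InNPPoly L := by
  obtain ⟨p, hp⟩ := threshold q
  choose t ht1 htp hst using hp
  have hadv := fun n => K3_advice L comp A q hq hA n (t n) (ht1 n) (hst n)
  choose ys hys1 hys2 hys3 using hadv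
  refine ⟨_, (Polynomial.X + 1) * p + 1 + (p * (4 * Polynomial.X + 2) + 1), fun n => bits (ys n),
    polyTime_of_poly (K3_test_poly comp hc), ?_, ?_⟩
  · intro n
    rw [bits_length]
    refine le_trans (hys1 n) ?_
    have := Nat.mul_le_mul_left (n + 1) (htp n)
    simp only [Polynomial.eval_add, Polynomial.eval_mul, Polynomial.eval_X,
      Polynomial.eval_one, Polynomial.eval_ofNat]
    omega
  · intro x
    constructor
    · intro hx
      obtain ⟨xs, h1, h2, h3, h4⟩ := hys3 x.length x hx rfl
      refine ⟨bits xs, ?_, ?_⟩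
      · rw [bits_length]
        refine le_trans h1 ?_
        have := Nat.mul_le_mul_right (4 * x.length + 2) (htp x.length)
        simp only [Polynomial.eval_add, Polynomial.eval_mul, Polynomial.eval_X,
          Polynomial.eval_one, Polynomial.eval_ofNat]
        omega
      · unfold K3_test
        simp only [unpair_pairBits, unbits_bits]
        simp only [List.cons.injEq, and_true, Bool.and_eq_true, decide_eq_true_eq,
          List.all_eq_true]
        exact ⟨h2, h3, h4⟩
    · rintro ⟨w, -, hw⟩
      unfold K3_test at hw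
      simp only [unpair_pairBits, unbits_bits, List.cons.injEq, and_true] at hw
      cases hxs : unbits (List (List Bool)) w with
      | none => rw [hxs] at hw; simp at hw
      | some xs =>
        rw [hxs] at hw
        simp only [Bool.and_eq_true, decide_eq_true_eq, List.all_eq_true] at hw
        obtain ⟨h1, h2, h3⟩ := hw
        by_contra hxL
        have hne : xs ≠ [] := by
          rintro rfl
          simp at h1
        exact hys2 _ _ h3 ((hA x.length xs hne h2).2 ⟨x, h1, hxL⟩)

end Pool.Agent.CK
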