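import Pool.Agent.H671R2.CK.GDefs

/-!
# Basic facts on the arrangement
-/

namespace Pool.Agent.CK

theorem cluster_lt (P : Par) {i c : ℕ} (hi : i < P.t) (hc : c < P.s) :
    i * P.s + c < P.t * P.s := by
  have h1 : (i + 1) * P.s ≤ P.t * P.s := Nat.mul_le_mul_right _ hi
  nlinarith

theorem Q_cluster (P : Par) (co : ℕ → ℕ → ℕ × ℕ) {i c : ℕ} (hi : i < P.t) (hc : c < P.s) :
    P.Q co (i * P.s + c) = cen P.E P.d i + loc (co i c) := by
  have h1 : (i * P.s + c) / P.s = i := by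
    rw [mul_comm, Nat.mul_add_div (by omega), Nat.div_eq_of_lt hc, add_zero]
  have h2 : (i * P.s + c) % P.s = c := by
    rw [mul_comm, Nat.mul_add_mod, Nat.mod_eq_of_lt hc]
  unfold Par.Q
  rw [if_pos (cluster_lt P hi hc), h1, h2]

theorem Q_guard (P : Par) (co : ℕ → ℕ → ℕ × ℕ) {k j : ℕ} (_hk : k < 3) (hj : j < P.g) :
    P.Q co (P.w k j) = guard P.r P.A P.G k j := by
  have h0 : P.w k j - P.t * P.s = k * P.g + j := by unfold Par.w; omega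
  have h1 : (k * P.g + j) / P.g = k := by
    rw [mul_comm, Nat.mul_add_div (by omega), Nat.div_eq_of_lt hj, add_zero]
  have h2 : (k * P.g + j) % P.g = j := by
    rw [mul_comm, Nat.mul_add_mod, Nat.mod_eq_of_lt hj]
  unfold Par.Q
  rw [if_neg (by unfold Par.w; omega), h0, h1, h2]

theorem w_lt (P : Par) {k j : ℕ} (hk : k < 3) (hj : j < P.g) : P.w k j < P.n := by
  have := P.hn
  unfold Par.w
  have h1 : (k + 1) * P.g ≤ 3 * P.g := Nat.mul_le_mul_right _ hk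
  nlinarith

/-- every index below `n` is a cluster index or a guard index -/
theorem index_cases (P : Par) {a : ℕ} (ha : a < P.n) :
    (∃ i < P.t, ∃ c < P.s, a = i * P.s + c) ∨ (∃ k < 3, ∃ j < P.g, a = P.w k j) := by
  have hs := P.hs
  have hg := P.hg
  by_cases h : a < P.t * P.s
  · left
    refine ⟨a / P.s, (Nat.div_lt_iff_lt_mul (by omega)).2 h, a % P.s, Nat.mod_lt _ (by omega), ?_⟩
    rw [mul_comm]
    exact (Nat.div_add_mod a P.s).symm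
  · right
    have hn := P.hn
    have hgp : 0 < P.g := by omega
    refine ⟨(a - P.t * P.s) / P.g, ?_, (a - P.t * P.s) % P.g, Nat.mod_lt _ hgp, ?_⟩
    · rw [Nat.div_lt_iff_lt_mul hgp]
      omega
    · unfold Par.w
      have := Nat.div_add_mod (a - P.t * P.s) P.g
      rw [mul_comm] at this
      omega

theorem loc_bounds {r : ℕ} (hr : 1 ≤ r) {p : ℕ × ℕ} (h1 : p.1 ≤ r) (h2 : p.2 ≤ r) :
    0 ≤ (loc p).1 ∧ (loc p).1 ≤ 1024 * r ∧ 0 ≤ (loc p).2.1 ∧ (loc p).2.1 ≤ 1024 * r ∧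
      0 ≤ (loc p).2.2 ∧ (loc p).2.2 ≤ 8192 * (r : ℤ) ^ 2 := by
  have h1' : (p.1 : ℤ) ≤ r := by exact_mod_cast h1
  have h2' : (p.2 : ℤ) ≤ r := by exact_mod_cast h2
  have h10 : (0 : ℤ) ≤ p.1 := by positivity
  have h20 : (0 : ℤ) ≤ p.2 := by positivity
  have hr' : (1 : ℤ) ≤ r := by exact_mod_cast hr
  have e1 : (p.1 : ℤ) ^ 2 ≤ r ^ 2 := by nlinarith
  have e2 : (p.2 : ℤ) ^ 2 ≤ r ^ 2 := by nlinarith
  have e3 : (1 : ℤ) ≤ r ^ 2 := by nlinarith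
  have e4 : (0 : ℤ) ≤ (p.1 : ℤ) ^ 2 := by positivity
  have e5 : (0 : ℤ) ≤ (p.2 : ℤ) ^ 2 := by positivity
  unfold loc
  refine ⟨by simp only; positivity, by simp only; linarith, by simp only; positivity,
    by simp only; linarith, ?_, ?_⟩
  · dsimp only
    split_ifs <;> linarith
  · dsimp only
    split_ifs <;> linarith

theorem E_pos (P : Par) (k : ℕ) : 2 ^ 17 ≤ P.E k := by
  induction k with
  | zero =>
    have := P.hE0
    have hr := P.hr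
    have : 2 ^ 17 * 1 ≤ 2 ^ 17 * P.r ^ 2 := Nat.mul_le_mul_left _ (Nat.one_le_pow _ _ hr)
    omega
  | succ k ih =>
    rw [P.hE k]
    calc 2 ^ 17 ≤ P.E k := ih
      _ = P.E k ^ 1 := (pow_one _).symm
      _ ≤ P.E k ^ 8 := Nat.pow_le_pow_right (by omega) (by norm_num)

theorem E_mono (P : Par) {j k : ℕ} (h : j ≤ k) : P.E j ≤ P.E k := by
  induction k, h using Nat.le_induction with
  | base => exact le_rfl
  | succ k hk ih =>
    refine ih.trans ?_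
    rw [P.hE k]
    have := E_pos P k
    calc P.E k = P.E k ^ 1 := (pow_one _).symm
      _ ≤ P.E k ^ 8 := Nat.pow_le_pow_right (by omega) (by norm_num)

theorem E_ge (P : Par) (k : ℕ) : 2 ^ 17 * P.r ^ 2 ≤ P.E k := P.hE0.trans (E_mono P (Nat.zero_le k))

theorem E_pow (P : Par) {j k : ℕ} (h : j < k) : P.E j ^ 8 ≤ P.E k := by
  rw [← P.hE j]
  exact E_mono P h

theorem E_sum (P : Par) (k q : ℕ) (hq : 1 ≤ q) :
    4 * ∑ j ∈ Finset.range k, P.E j ^ q ≤ P.E k ^ q := by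
  induction k with
  | zero => simp
  | succ k ih =>
    rw [Finset.sum_range_succ, mul_add]
    have h1 := E_pos P k
    have h2 : P.E (k + 1) ^ q = P.E k ^ q * (P.E k ^ 7) ^ q := by
      rw [P.hE k, ← mul_pow]
      ring_nf
    have h3 : 5 ≤ (P.E k ^ 7) ^ q := by
      calc 5 ≤ P.E k := by omega
        _ = (P.E k ^ 1) ^ 1 := by simp
        _ ≤ (P.E k ^ 7) ^ 1 := Nat.pow_le_pow_left (Nat.pow_le_pow_right (by omega) (by norm_num)) 1
        _ ≤ (P.E k ^ 7) ^ q := Nat.pow_le_pow_right (Nat.pos_of_ne_zero (by positivity)) hq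
    rw [h2]
    calc 4 * ∑ j ∈ Finset.range k, P.E j ^ q + 4 * P.E k ^ q ≤ P.E k ^ q + 4 * P.E k ^ q := by omega
      _ = P.E k ^ q * 5 := by ring
      _ ≤ P.E k ^ q * (P.E k ^ 7) ^ q := Nat.mul_le_mul_left _ h3

theorem cen_bound_aux (E : ℕ → ℕ) (d i q : ℕ) :
    (0 : ℤ) ≤ (∑ k ∈ Finset.range d, if i.testBit k then (E k : ℤ) ^ q else 0) ∧
      (∑ k ∈ Finset.range d, if i.testBit k then (E k : ℤ) ^ q else 0) ≤
        ((∑ k ∈ Finset.range d, E k ^ q : ℕ) : ℤ) := by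
  constructor
  · apply Finset.sum_nonneg
    intro k _
    split_ifs <;> positivity
  · rw [Nat.cast_sum]
    apply Finset.sum_le_sum
    intro k _
    split_ifs
    · push_cast
      exact le_rfl
    · positivity

/-- the coordinates of the cluster centers -/
theorem cen_bounds (P : Par) (i : ℕ) :
    (0 ≤ (cen P.E P.d i).1 ∧ 4 * (cen P.E P.d i).1 ≤ P.E P.d) ∧
    (0 ≤ (cen P.E P.d i).2.1 ∧ 4 * (cen P.E P.d i).2.1 ≤ (P.E P.d : ℤ) ^ 2) ∧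
    (0 ≤ (cen P.E P.d i).2.2 ∧ 4 * (cen P.E P.d i).2.2 ≤ (P.E P.d : ℤ) ^ 4) := by
  have h1 := cen_bound_aux P.E P.d i 1
  have h2 := cen_bound_aux P.E P.d i 2
  have h4 := cen_bound_aux P.E P.d i 4
  have e1 := E_sum P P.d 1 le_rfl
  have e2 := E_sum P P.d 2 (by norm_num)
  have e4 := E_sum P P.d 4 (by norm_num)
  have e1' : (4 : ℤ) * ((∑ k ∈ Finset.range P.d, P.E k ^ 1 : ℕ) : ℤ) ≤ (P.E P.d : ℤ) ^ 1 := by
    exact_mod_cast e1
  have e2' : (4 : ℤ) * ((∑ k ∈ Finset.range P.d, P.E k ^ 2 : ℕ) : ℤ) ≤ (P.E P.d : ℤ) ^ 2 := by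
    exact_mod_cast e2
  have e4' : (4 : ℤ) * ((∑ k ∈ Finset.range P.d, P.E k ^ 4 : ℕ) : ℤ) ≤ (P.E P.d : ℤ) ^ 4 := by
    exact_mod_cast e4
  simp only [pow_one] at h1 e1'
  unfold cen
  refine ⟨⟨h1.1, ?_⟩, ⟨h2.1, ?_⟩, ⟨h4.1, ?_⟩⟩
  · dsimp only; linarith [h1.2]
  · dsimp only; linarith [h2.2]
  · dsimp only; linarith [h4.2]

/-- the coordinates of the cluster points are between `0` and `B` -/
theorem cluster_bound (P : Par) (co : ℕ → ℕ → ℕ × ℕ) (ok : P.Ok co) {a : ℕ} (ha : a < P.t * P.s) :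
    0 ≤ (P.Q co a).1 ∧ (P.Q co a).1 ≤ P.B ∧ 0 ≤ (P.Q co a).2.1 ∧ (P.Q co a).2.1 ≤ P.B ∧
      0 ≤ (P.Q co a).2.2 ∧ (P.Q co a).2.2 ≤ P.B := by
  have hs := P.hs
  have hi : a / P.s < P.t := (Nat.div_lt_iff_lt_mul (by omega)).2 ha
  have hc : a % P.s < P.s := Nat.mod_lt _ (by omega)
  have hQ : P.Q co a = cen P.E P.d (a / P.s) + loc (co (a / P.s) (a % P.s)) := by
    unfold Par.Q
    rw [if_pos ha]
  obtain ⟨l1, l2, l3, l4, l5, l6⟩ := loc_bounds P.hr (ok.le1 _ hi _ hc) (ok.le2 _ hi _ hc)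
  obtain ⟨⟨c1, c2⟩, ⟨c3, c4⟩, ⟨c5, c6⟩⟩ := cen_bounds P (a / P.s)
  have hB : (P.B : ℤ) = (P.E P.d : ℤ) ^ 4 := by rw [P.hB]; push_cast; ring
  have hE : (2 : ℤ) ^ 17 * (P.r : ℤ) ^ 2 ≤ P.E P.d := by exact_mod_cast E_ge P P.d
  have hr : (1 : ℤ) ≤ P.r := by exact_mod_cast P.hr
  have hr2 : (P.r : ℤ) ≤ (P.r : ℤ) ^ 2 := by nlinarith
  have hE1 : (1 : ℤ) ≤ P.E P.d := by nlinarith
  have m1 : (P.E P.d : ℤ) ≤ (P.E P.d : ℤ) ^ 4 := by
    calc (P.E P.d : ℤ) = (P.E P.d : ℤ) ^ 1 := (pow_one _).symm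
      _ ≤ (P.E P.d : ℤ) ^ 4 := pow_le_pow_right₀ hE1 (by norm_num)
  have m2 : (P.E P.d : ℤ) ^ 2 ≤ (P.E P.d : ℤ) ^ 4 := pow_le_pow_right₀ hE1 (by norm_num)
  rw [hQ, hB]
  simp only [Prod.fst_add, Prod.snd_add]
  refine ⟨by linarith, by linarith, by linarith, by linarith, by linarith, by linarith⟩

/-- numerical facts on the parameters -/
theorem par_facts (P : Par) : 3 ≤ P.g ∧ P.g ≤ P.A ∧ P.g ≤ P.n ∧ 1 ≤ P.B ∧ 64 * P.A ^ 2 ≤ P.G ∧
    64 * P.B ≤ P.G ∧ 2 ^ 14 * P.r * P.A * (P.n + 1) ^ 6 ≤ P.N ∧ P.t * P.s ≤ P.n := by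
  have hg := P.hg
  have hs := P.hs
  have hA := P.hA
  have hn := P.hn
  have hG := P.hG
  have h1 : 2 * 1 ^ 2 * 1 ≤ 2 * (P.d + 1) ^ 2 * P.s :=
    Nat.mul_le_mul (Nat.mul_le_mul_left _ (Nat.pow_le_pow_left (by omega) 2)) hs
  have hE := E_pos P P.d
  have hB : 1 ≤ P.B := by
    rw [P.hB]
    exact Nat.one_le_pow _ _ (by omega)
  have hN := P.hN
  refine ⟨by omega, by omega, by omega, hB, ?_, ?_, by omega, by omega⟩
  · rw [hG]; omega
  · rw [hG]; omega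

end Pool.Agent.CK
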