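import Pool.Agent.H671R2.CK.GDefs
import Pool.Agent.NPC.Sat2

/-!
# The gadgets for satisfiability, and the instances
-/

namespace Pool.Agent.CK

open Pool.Agent.NPC

/-- Formulas with three literals in every clause. -/
abbrev Form := List (Lit ℕ × Lit ℕ × Lit ℕ)

/-! ### The core of a formula with `m` clauses and with variables below `3 * m` -/

/-- the row of a literal -/
def rowOf (l : Lit ℕ) : ℕ := 2 * l.2 + (if l.1 then 0 else 1)

/-- the rows: for every row `ρ` and every `j ≤ 3 m`, the left point, the right point and the site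
between them -/
def rowsL (m : ℕ) : List (ℕ × ℕ) :=
  (List.range (6 * m)).flatMap fun ρ => (List.range (3 * m + 1)).flatMap fun j =>
    [(8 * j + 4, 8 * ρ + 8), (8 * j + 8, 8 * ρ + 8), (8 * j + 6, 8 * ρ + 8)]

/-- the crossing sites -/
def crossL (m : ℕ) : List (ℕ × ℕ) :=
  (List.range (6 * m)).flatMap fun ρ => (List.range (3 * m)).map fun e => (8 * e + 10, 8 * ρ + 8)

/-- the columns: for every column `e` and every `i ≤ 6 m`, two points and the site between them -/
def colsL (m : ℕ) : List (ℕ × ℕ) :=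
  (List.range (3 * m)).flatMap fun e => (List.range (6 * m + 1)).flatMap fun i =>
    if i = 0 ∧ e % 3 = 1 then []
    else [(8 * e + 10, 8 * i + 2), (8 * e + 10, 8 * i + 6), (8 * e + 10, 8 * i + 4)]

/-- the sites which attach column `e` to the row of the literal `l` -/
def attP (l : Lit ℕ) (e : ℕ) : ℕ × ℕ := (8 * e + 9, 8 * rowOf l + 7)

/-- the gadget of a clause -/
def clauseP (c : (Lit ℕ × Lit ℕ × Lit ℕ) × ℕ) : List (ℕ × ℕ) :=
  let j := c.2
  [(24 * j + 14, 2), (24 * j + 18, 2), (24 * j + 16, 0), (24 * j + 16, 2), (24 * j + 15, 1),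
    (24 * j + 17, 1), (24 * j + 20, 4), (24 * j + 18, 6), (24 * j + 19, 5), (24 * j + 20, 0),
    (24 * j + 24, 0), (24 * j + 22, 0), (24 * j + 12, 2), (24 * j + 18, 0), (24 * j + 19, 3),
    (24 * j + 25, 1), attP c.1.1 (3 * j), attP c.1.2.1 (3 * j + 1), attP c.1.2.2 (3 * j + 2)]

/-- the connectors between the two rows of a variable -/
def connL (m : ℕ) : List (ℕ × ℕ) :=
  (List.range (3 * m)).flatMap fun v =>
    [(2, 16 * v + 10), (2, 16 * v + 14), (2, 16 * v + 12), (3, 16 * v + 9), (3, 16 * v + 15)]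

/-- the core of a formula -/
def core (φ : Form) : List (ℕ × ℕ) :=
  rowsL φ.length ++ (crossL φ.length ++ (colsL φ.length ++
    (φ.zipIdx.flatMap clauseP ++ connL φ.length)))

/-- the number of points of the core of a formula with `m` clauses -/
def coreSize (m : ℕ) : ℕ := 126 * m ^ 2 + 58 * m

/-- the number of points to be found -/
def target (m : ℕ) : ℕ := 90 * m ^ 2 + 43 * m

/-- a bound for the coordinates -/
def radius (m : ℕ) : ℕ := 48 * m + 8

/-- Formulas with `m` clauses, `m ≥ 1`, and variables less than `3 * m`. -/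
def Norm (m : ℕ) (φ : Form) : Prop :=
  1 ≤ m ∧ φ.length = m ∧ ∀ c ∈ φ, c.1.2 < 3 * m ∧ c.2.1.2 < 3 * m ∧ c.2.2.2 < 3 * m

/-- padding with tautological clauses -/
def padTo (m : ℕ) (φ : Form) : Form :=
  φ ++ List.replicate (m - φ.length) ((true, 0), (false, 0), (true, 0))

/-! ### The instances -/

/-- the number of guards in a group -/
def cg (t s : ℕ) : ℕ := 2 * (t.size + 1) ^ 2 * s + 1

/-- the parameter `A` -/
def cA (t s : ℕ) : ℕ := 100 * cg t s

/-- the parameter `B` -/
def cB (t r : ℕ) : ℕ := (2 ^ (8 ^ t.size * e0 r)) ^ 4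

/-- the parameter `G` -/
def cG (t s r : ℕ) : ℕ := 64 * ((cA t s) ^ 2 + cB t r)

/-- the number of points -/
def cn (t s : ℕ) : ℕ := t * s + 3 * cg t s

/-- the parameter `N` -/
def cN (t s r : ℕ) : ℕ := 2 ^ 14 * r * cA t s * (cn t s + 1) ^ 6

/-- the scale of level `k` -/
def cE (r k : ℕ) : ℕ := 2 ^ (8 ^ k * e0 r)

/-- the unperturbed position of the point number `a` -/
def cQ (cores : List (List (ℕ × ℕ))) (s r a : ℕ) : ℤ × ℤ × ℤ :=
  if a < cores.length * s then
    cen (cE r) cores.length.size (a / s) + loc (coOf cores (a / s) (a % s))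
  else guard r (cA cores.length s) (cG cores.length s r)
    ((a - cores.length * s) / cg cores.length s) ((a - cores.length * s) % cg cores.length s)

/-- the position of the point number `a` -/
def cpos (cores : List (List (ℕ × ℕ))) (s r a : ℕ) : ℤ × ℤ × ℤ :=
  (cN cores.length s r * (cQ cores s r a).1 + a,
    cN cores.length s r * (cQ cores s r a).2.1 + (a : ℤ) ^ 2,
    cN cores.length s r * (cQ cores s r a).2.2 + (a : ℤ) ^ 3)

theorem cpos_eq (cores : List (List (ℕ × ℕ))) (s r a : ℕ) (hr : 1 ≤ r) (hs : 1 ≤ s) :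
    cpos cores s r a = (par cores.length s r hr hs).pos (coOf cores) a := rfl

/-- the instance for a list of cores with `s` points each -/
def arr (cores : List (List (ℕ × ℕ))) (s r : ℕ) : List QPt :=
  (List.range (cn cores.length s)).map fun a => toQ (cpos cores s r a)

/-- the maximal number of clauses of the formulas of a list, and at least one -/
def maxLen (fs : List Form) : ℕ := fs.foldl (fun a φ => max a φ.length) 1

/-- the instance for a list of formulas: its points -/
def inst (fs : List Form) : List QPt :=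
  arr (fs.map fun φ => core (padTo (maxLen fs) φ)) (coreSize (maxLen fs)) (radius (maxLen fs))

/-- the instance for a list of formulas: the number of points to be found -/
def instK (fs : List Form) : ℕ :=
  3 * cg fs.length (coreSize (maxLen fs)) + target (maxLen fs)

/-! ### Order types -/

/-- A point of rational space given by numerators and denominators. -/
abbrev RPt := (ℤ × ℕ) × (ℤ × ℕ) × (ℤ × ℕ)

/-- numerators and denominators of a rational point -/
def raw (p : QPt) : RPt := ((p.1.num, p.1.den), (p.2.1.num, p.2.1.den), (p.2.2.num, p.2.2.den))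

/-- homogeneous integer coordinates -/
def hom (p : RPt) : ℤ × ℤ × ℤ × ℤ :=
  ((p.1.2 : ℤ) * ((p.2.1.2 : ℤ) * (p.2.2.2 : ℤ)), p.1.1 * ((p.2.1.2 : ℤ) * (p.2.2.2 : ℤ)),
    p.2.1.1 * ((p.1.2 : ℤ) * (p.2.2.2 : ℤ)), p.2.2.1 * ((p.1.2 : ℤ) * (p.2.1.2 : ℤ)))

/-- the determinant with three rows -/
def det3 (a b c : ℤ × ℤ × ℤ) : ℤ :=
  a.1 * (b.2.1 * c.2.2 - b.2.2 * c.2.1) - a.2.1 * (b.1 * c.2.2 - b.2.2 * c.1) +
    a.2.2 * (b.1 * c.2.1 - b.2.1 * c.1)

/-- the determinant with four rows -/
def det4 (a b c d : ℤ × ℤ × ℤ × ℤ) : ℤ :=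
  a.1 * det3 b.2 c.2 d.2 - b.1 * det3 a.2 c.2 d.2 + c.1 * det3 a.2 b.2 d.2 -
    d.1 * det3 a.2 b.2 c.2

/-- the orientation of four points -/
def sgn (a b c d : RPt) : Bool × Bool :=
  (decide (0 < det4 (hom a) (hom b) (hom c) (hom d)),
    decide (det4 (hom a) (hom b) (hom c) (hom d) < 0))

/-- four points which are not coplanar, used to treat sets with at most three points -/
def frame : List RPt :=
  [((0, 1), (0, 1), (0, 1)), ((1, 1), (0, 1), (0, 1)), ((0, 1), (1, 1), (0, 1)),
    ((0, 1), (0, 1), (1, 1))]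

/-- the table of all orientations of four points -/
def sig (S : List RPt) : List (Bool × Bool) :=
  (S ++ frame).flatMap fun a => (S ++ frame).flatMap fun b => (S ++ frame).flatMap fun c =>
    (S ++ frame).map fun d => sgn a b c d

/-- what is kept of the output of the kernelization -/
def summary (x : List RPt × ℕ) : ℕ × ℕ × List (Bool × Bool) :=
  (x.1.length, min x.2 (x.1.length + 1), sig x.1)

end Pool.Agent.CK
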