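import Pool.Agent.NPC.Classes

/-!
# Convex subsets of points in space: the problem, kernels, and NP with polynomial advice
-/

namespace Pool.Agent.CK

open Pool.Agent.NPC

/-- Points of three-dimensional space with rational coordinates. -/
abbrev QPt := ℚ × ℚ × ℚ

/-- A rational point as a point of real space. -/
def toR (p : QPt) : ℝ × ℝ × ℝ := ((p.1 : ℝ), (p.2.1 : ℝ), (p.2.2 : ℝ))

/-- A finite set of points is in convex position if no point of it lies in the convex hull of the
other points. -/
def ConvexPosition (Q : Finset QPt) : Prop :=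
  ∀ p ∈ Q, toR p ∉ convexHull ℝ (toR '' ((Q : Set QPt) \ {p}))

/-- `S` contains `k` points in convex position. -/
def HasConvexSubset (S : List QPt) (k : ℕ) : Prop :=
  ∃ Q : Finset QPt, (∀ p ∈ Q, p ∈ S) ∧ Q.card = k ∧ ConvexPosition Q

/-- The four points lie on a common plane of real space. -/
def OnCommonPlane (a b c d : QPt) : Prop :=
  ∃ α β γ δ : ℝ, (α ≠ 0 ∨ β ≠ 0 ∨ γ ≠ 0) ∧
    ∀ p ∈ [a, b, c, d], α * (p.1 : ℝ) + β * (p.2.1 : ℝ) + γ * (p.2.2 : ℝ) = δ

/-- General position: no four points of `S` lie on a common plane. -/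
def GeneralPosition (S : List QPt) : Prop :=
  ∀ a ∈ S, ∀ b ∈ S, ∀ c ∈ S, ∀ d ∈ S, a ≠ b → a ≠ c → a ≠ d → b ≠ c → b ≠ d → c ≠ d →
    ¬ OnCommonPlane a b c d

/-- The instances of CONVEX SET IN 3D: a finite set of points in general position, given by a list
without repetitions, and a positive integer. -/
def IsInstance (S : List QPt) (k : ℕ) : Prop := S.Nodup ∧ GeneralPosition S ∧ 0 < k

/-- `F` is a kernelization for CONVEX SET IN 3D (parameterized by `k`) whose output parameter is
bounded by `f k` and whose output has at most `g k` points. -/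
def IsKernelization (F : List Bool → List Bool) (f g : ℕ → ℕ) : Prop :=
  PolyTime F ∧ ∀ (S : List QPt) (k : ℕ), IsInstance S k →
    ∃ (S' : List QPt) (k' : ℕ), F (bits (S, k)) = bits (S', k') ∧ IsInstance S' k' ∧
      (HasConvexSubset S k ↔ HasConvexSubset S' k') ∧ k' ≤ f k ∧ S'.length ≤ g k

/-- CONVEX SET IN 3D has a polynomial kernel. -/
def HasPolyKernel : Prop :=
  ∃ (F : List Bool → List Bool) (f : ℕ → ℕ) (g : Polynomial ℕ), Computable f ∧
    IsKernelization F f (fun k => g.eval k)

/-- The class `NP/poly`: languages with polynomially bounded certificates which can be verified in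
polynomial time with the help of an advice string of polynomial length which depends only on the
length of the input. -/
def InNPPoly (L : Set (List Bool)) : Prop :=
  ∃ (V : List Bool → List Bool) (p : Polynomial ℕ) (adv : ℕ → List Bool), PolyTime V ∧
    (∀ n, (adv n).length ≤ p.eval n) ∧
    ∀ x, x ∈ L ↔ ∃ w : List Bool, w.length ≤ p.eval x.length ∧
      V (pairBits (pairBits x (adv x.length)) w) = [true]

/-- `coNP ⊆ NP/poly`. -/
def CoNPSubsetNPPoly : Prop := ∀ L : Set (List Bool), InCoNP L → InNPPoly L

end Pool.Agent.CK
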