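import Pool.Agent.H671R2.CK.CDefs

/-! K15, K16 -/

namespace Pool.Agent.CK

open Pool.Agent.NPC

theorem K15_foldl (fs : List Form) (b m : ℕ) (h : ∀ φ ∈ fs, φ.length ≤ m) :
    fs.foldl (fun a φ => max a φ.length) b ≤ max b m := by
  induction fs generalizing b with
  | nil => simp
  | cons φ fs ih =>
    rw [List.foldl_cons]
    refine (ih _ fun ψ hψ => h ψ (List.mem_cons_of_mem _ hψ)).trans ?_
    have := h φ List.mem_cons_self
    omega

/-- K15 -/
theorem instK_bound : ∃ q : Polynomial ℕ, ∀ (fs : List Form) (m : ℕ), (∀ φ ∈ fs, φ.length ≤ m) →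
    instK fs ≤ q.eval (m + fs.length.size) := by
  refine ⟨3 * (2 * (Polynomial.X + 1) ^ 2 * (126 * (Polynomial.X + 1) ^ 2 +
    58 * (Polynomial.X + 1)) + 1) + (90 * (Polynomial.X + 1) ^ 2 + 43 * (Polynomial.X + 1)), ?_⟩
  intro fs m h
  have hM : maxLen fs ≤ m + 1 := by
    unfold maxLen
    refine (K15_foldl fs 1 m h).trans ?_
    omega
  have hev : (3 * (2 * (Polynomial.X + 1) ^ 2 * (126 * (Polynomial.X + 1) ^ 2 +
    58 * (Polynomial.X + 1)) + 1) + (90 * (Polynomial.X + 1) ^ 2 + 43 * (Polynomial.X + 1)) :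
      Polynomial ℕ).eval (m + fs.length.size) =
      3 * (2 * (m + fs.length.size + 1) ^ 2 * (126 * (m + fs.length.size + 1) ^ 2 +
        58 * (m + fs.length.size + 1)) + 1) + (90 * (m + fs.length.size + 1) ^ 2 +
        43 * (m + fs.length.size + 1)) := by
    simp
  rw [hev]
  unfold instK cg coreSize target
  have h1 : fs.length.size + 1 ≤ m + fs.length.size + 1 := by omega
  have h2 : maxLen fs ≤ m + fs.length.size + 1 := by omega
  gcongr

/-- K16 -/
theorem bits_raw (S : List QPt) (k : ℕ) : bits (S, k) = bits (S.map raw, k) := by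
  have h : ∀ S : List QPt, toT S = toT (S.map raw) := by
    intro S
    induction S with
    | nil => rfl
    | cons p S ih =>
      show T.node (toT p) (toT S) = T.node (toT (raw p)) (toT (S.map raw))
      rw [ih]
      rfl
  show (T.node (toT S) (toT k)).enc = (T.node (toT (S.map raw)) (toT k)).enc
  rw [h]

end Pool.Agent.CK
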