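import Pool.Agent.H671R2.PolyAuto
import Pool.Agent.H687R2.IntPoly

/-!
# Task K4: integer arithmetic is computable in polynomial time
-/

namespace Pool.Agent.CK

open Pool.Agent.NPC

variable {α : Type} [TEnc α]

/-- K4 -/
@[fun_prop]
theorem poly_zneg {x : α → ℤ} (hx : Poly x) : Poly (fun a => - x a) := Poly.ineg hx

@[fun_prop]
theorem poly_zadd {x y : α → ℤ} (hx : Poly x) (hy : Poly y) : Poly (fun a => x a + y a) :=
  Poly.iadd hx hy

@[fun_prop]
theorem poly_zsub {x y : α → ℤ} (hx : Poly x) (hy : Poly y) : Poly (fun a => x a - y a) :=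
  Poly.isub hx hy

@[fun_prop]
theorem poly_zmul {x y : α → ℤ} (hx : Poly x) (hy : Poly y) : Poly (fun a => x a * y a) :=
  Poly.imul hx hy

theorem poly_zlt0 {x : α → ℤ} (hx : Poly x) : Poly (fun a => decide (x a < 0)) := Poly.isNeg hx

theorem poly_zpos {x : α → ℤ} (hx : Poly x) : Poly (fun a => decide (0 < x a)) :=
  (Poly.isNeg (Poly.ineg hx)).congr fun a => by
    simp only [Left.neg_neg_iff]

attribute [fun_prop] poly_zlt0 poly_zpos

@[fun_prop]
theorem poly_zcast {x : α → ℤ} (hx : Poly x) : Poly (fun a => ((x a : ℤ) : ℚ)) := by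
  have h : Poly (fun a => (x a, (1 : ℕ))) := NPC.Poly.pair hx (NPC.Poly.const 1)
  have h2 : Poly (fun a => (((x a : ℤ) : ℚ).num, ((x a : ℤ) : ℚ).den)) := h.congr fun a => by simp
  exact h2

end Pool.Agent.CK
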