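import Pool.Agent.H671R2.CK.CDefs
import Pool.Agent.H671R2.CK.K4

/-!
# K5: the summary is computable in polynomial time
-/

namespace Pool.Agent.CK

open Pool.Agent.NPC

section
variable {α : Type} [TEnc α]

theorem poly_hom {p : α → RPt} (hp : Poly p) : Poly (fun a => hom (p a)) := by
  unfold hom
  fun_prop

theorem poly_det3 {x y z : α → ℤ × ℤ × ℤ} (hx : Poly x) (hy : Poly y) (hz : Poly z) :
    Poly (fun a => det3 (x a) (y a) (z a)) := by
  unfold det3
  fun_prop

theorem poly_det4 {x y z w : α → ℤ × ℤ × ℤ × ℤ} (hx : Poly x) (hy : Poly y) (hz : Poly z) (hw : Poly w) :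
    Poly (fun a => det4 (x a) (y a) (z a) (w a)) := by
  unfold det4
  exact poly_zsub (poly_zadd (poly_zsub (poly_zmul (by fun_prop) (poly_det3 (by fun_prop) (by fun_prop) (by fun_prop)))
    (poly_zmul (by fun_prop) (poly_det3 (by fun_prop) (by fun_prop) (by fun_prop))))
    (poly_zmul (by fun_prop) (poly_det3 (by fun_prop) (by fun_prop) (by fun_prop))))
    (poly_zmul (by fun_prop) (poly_det3 (by fun_prop) (by fun_prop) (by fun_prop)))

theorem poly_sgn {x y z w : α → RPt} (hx : Poly x) (hy : Poly y) (hz : Poly z) (hw : Poly w) :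
    Poly (fun a => sgn (x a) (y a) (z a) (w a)) := by
  unfold sgn
  have h := poly_det4 (poly_hom hx) (poly_hom hy) (poly_hom hz) (poly_hom hw)
  exact Poly.pair (poly_zpos h) (poly_zlt0 h)

end

theorem poly_sig : Poly sig := by
  unfold sig
  have h0 : Poly (fun S : List RPt => S ++ frame) := by fun_prop
  refine Poly.flatMap (l := fun S : List RPt => S ++ frame)
    (F := fun S a => (S ++ frame).flatMap fun b => (S ++ frame).flatMap fun c =>
      (S ++ frame).map fun d => sgn a b c d) h0 ?_
  refine Poly.flatMap (l := fun p : List RPt × RPt => p.1 ++ frame)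
    (F := fun p b => (p.1 ++ frame).flatMap fun c => (p.1 ++ frame).map fun d => sgn p.2 b c d)
    (by fun_prop) ?_
  refine Poly.flatMap (l := fun p : (List RPt × RPt) × RPt => p.1.1 ++ frame)
    (F := fun p c => (p.1.1 ++ frame).map fun d => sgn p.1.2 p.2 c d)
    (by fun_prop) ?_
  refine NPC.Poly.map (l := fun p : ((List RPt × RPt) × RPt) × RPt => p.1.1.1 ++ frame)
    (F := fun p d => sgn p.1.1.2 p.1.2 p.2 d)
    (by fun_prop) ?_
  exact poly_sgn (by fun_prop) (by fun_prop) (by fun_prop) (by fun_prop)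

theorem poly_summary : Poly summary := by
  unfold summary
  refine Poly.pair (by fun_prop) (Poly.pair (by fun_prop) ?_)
  exact Poly.comp (g := sig) poly_sig (by fun_prop)

end Pool.Agent.CK
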