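import Pool.Agent.H671R2.CK.CDefs

/-!
# K6: the size of the summary
-/

namespace Pool.Agent.CK

open Pool.Agent.NPC

theorem K6.length_sig (S : List RPt) : (sig S).length = (S.length + 4) ^ 4 := by
  simp only [sig, frame, List.length_flatMap, List.length_map, List.map_const', List.sum_replicate,
    List.length_append, List.length_cons, List.length_nil, smul_eq_mul]
  ring

theorem K6.sz_nat_le_lin (n : ℕ) : sz n ≤ 4 * n + 1 := by
  have h := sz_nat_le n
  have h2 : n.size ≤ n := Nat.size_le.2 Nat.lt_two_pow_self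
  omega

theorem K6.sz_bb (b : Bool × Bool) : sz b ≤ 7 := by
  obtain ⟨a, b⟩ := b
  rw [sz_pair]
  have h1 := sz_bool_le a
  have h2 := sz_bool_le b
  omega

/-- K6 -/
theorem summary_size : ∃ q : Polynomial ℕ, ∀ x : List RPt × ℕ,
    sz (summary x) ≤ q.eval x.1.length := by
  refine ⟨Polynomial.C 8 * (Polynomial.X + Polynomial.C 4) ^ 4 + Polynomial.C 8 * Polynomial.X +
    Polynomial.C 9, fun x => ?_⟩
  simp only [Polynomial.eval_add, Polynomial.eval_mul, Polynomial.eval_pow, Polynomial.eval_C,
    Polynomial.eval_X]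
  rw [summary, sz_pair, sz_pair]
  have h1 := K6.sz_nat_le_lin x.1.length
  have h2 := K6.sz_nat_le_lin (min x.2 (x.1.length + 1))
  have h3 : min x.2 (x.1.length + 1) ≤ x.1.length + 1 := min_le_right _ _
  have h4 := sz_le_length_mul (sig x.1) 7 (fun a _ => K6.sz_bb a)
  rw [K6.length_sig] at h4
  omega

end Pool.Agent.CK
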