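import Mathlib
import Pool.Agent.H671R2.CK.CDefs

/-! The determinant of four rational points (copied from `Stubs`). -/

namespace Pool.Agent.CK

open Pool.Agent.NPC

/-- the real determinant of four points -/
def rdet (a b c d : QPt) : ℚ :=
  ((b.1 - a.1) * ((c.2.1 - a.2.1) * (d.2.2 - a.2.2) - (c.2.2 - a.2.2) * (d.2.1 - a.2.1)) -
    (b.2.1 - a.2.1) * ((c.1 - a.1) * (d.2.2 - a.2.2) - (c.2.2 - a.2.2) * (d.1 - a.1)) +
    (b.2.2 - a.2.2) * ((c.1 - a.1) * (d.2.1 - a.2.1) - (c.2.1 - a.2.1) * (d.1 - a.1)))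

end Pool.Agent.CK
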