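import Pool.Agent.H671R2.CK.CDefs
import Pool.Agent.H671R2.CK.RDet

namespace Pool.Agent.CK

/-- the common denominator -/
def dP (p : QPt) : ℚ := (p.1.den : ℚ) * ((p.2.1.den : ℚ) * (p.2.2.den : ℚ))

theorem dP_pos (p : QPt) : 0 < dP p := by
  have h1 : (0 : ℚ) < p.1.den := by exact_mod_cast p.1.den_pos
  have h2 : (0 : ℚ) < p.2.1.den := by exact_mod_cast p.2.1.den_pos
  have h3 : (0 : ℚ) < p.2.2.den := by exact_mod_cast p.2.2.den_pos
  unfold dP
  positivity

theorem hom_raw (p : QPt) :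
    (((hom (raw p)).1 : ℤ) : ℚ) = dP p ∧ (((hom (raw p)).2.1 : ℤ) : ℚ) = dP p * p.1 ∧
      (((hom (raw p)).2.2.1 : ℤ) : ℚ) = dP p * p.2.1 ∧
      (((hom (raw p)).2.2.2 : ℤ) : ℚ) = dP p * p.2.2 := by
  have h1 : (p.1.num : ℚ) = p.1 * p.1.den := (Rat.mul_den_eq_num p.1).symm
  have h2 : (p.2.1.num : ℚ) = p.2.1 * p.2.1.den := (Rat.mul_den_eq_num p.2.1).symm
  have h3 : (p.2.2.num : ℚ) = p.2.2 * p.2.2.den := (Rat.mul_den_eq_num p.2.2).symm
  refine ⟨?_, ?_, ?_, ?_⟩
  · simp only [hom, raw, dP]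
    push_cast
    ring
  · simp only [hom, raw, dP]
    push_cast
    rw [h1]
    ring
  · simp only [hom, raw, dP]
    push_cast
    rw [h2]
    ring
  · simp only [hom, raw, dP]
    push_cast
    rw [h3]
    ring

theorem det4_raw (a b c d : QPt) :
    ((det4 (hom (raw a)) (hom (raw b)) (hom (raw c)) (hom (raw d)) : ℤ) : ℚ) =
      dP a * dP b * dP c * dP d * rdet a b c d := by
  obtain ⟨a0, a1, a2, a3⟩ := hom_raw a
  obtain ⟨b0, b1, b2, b3⟩ := hom_raw b
  obtain ⟨c0, c1, c2, c3⟩ := hom_raw c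
  obtain ⟨d0, d1, d2, d3⟩ := hom_raw d
  unfold det4 det3
  push_cast
  rw [a0, a1, a2, a3, b0, b1, b2, b3, c0, c1, c2, c3, d0, d1, d2, d3]
  unfold rdet
  ring

/-- O2 -/
theorem sgn_raw (a b c d : QPt) :
    sgn (raw a) (raw b) (raw c) (raw d) =
      (decide (0 < rdet a b c d), decide (rdet a b c d < 0)) := by
  have h := det4_raw a b c d
  have hD : 0 < dP a * dP b * dP c * dP d := by
    have := dP_pos a
    have := dP_pos b
    have := dP_pos c
    have := dP_pos d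
    positivity
  unfold sgn
  have e1 : 0 < det4 (hom (raw a)) (hom (raw b)) (hom (raw c)) (hom (raw d)) ↔
      0 < rdet a b c d := by
    rw [← Int.cast_pos (R := ℚ), h]
    exact mul_pos_iff_of_pos_left hD
  have e2 : det4 (hom (raw a)) (hom (raw b)) (hom (raw c)) (hom (raw d)) < 0 ↔
      rdet a b c d < 0 := by
    rw [← Int.cast_lt_zero (R := ℚ), h]
    constructor
    · intro h1
      by_contra h2
      push Not at h2
      exact absurd h1 (not_lt.2 (mul_nonneg hD.le h2))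
    · intro h1
      exact mul_neg_of_pos_of_neg hD h1
  simp only [e1, e2]

end Pool.Agent.CK
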