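import Mathlib
import Pool.Agent.H671R2.CK.RDet

/-! Task O3: four rational points lie on a common plane iff the determinant vanishes. -/

namespace Pool.Agent.CK

open Pool.Agent.NPC

/-- O3, with the determinant written out (`Stub.rdet`). -/
theorem plane_iff' (a b c d : QPt) : OnCommonPlane a b c d ↔
    ((b.1 - a.1) * ((c.2.1 - a.2.1) * (d.2.2 - a.2.2) - (c.2.2 - a.2.2) * (d.2.1 - a.2.1)) -
    (b.2.1 - a.2.1) * ((c.1 - a.1) * (d.2.2 - a.2.2) - (c.2.2 - a.2.2) * (d.1 - a.1)) +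
    (b.2.2 - a.2.2) * ((c.1 - a.1) * (d.2.1 - a.2.1) - (c.2.1 - a.2.1) * (d.1 - a.1)) : ℚ) = 0 := by
  obtain ⟨a1, a2, a3⟩ := a
  obtain ⟨b1, b2, b3⟩ := b
  obtain ⟨c1, c2, c3⟩ := c
  obtain ⟨d1, d2, d3⟩ := d
  simp only
  constructor
  · rintro ⟨α, β, γ, δ, hne, h⟩
    simp only [List.mem_cons, List.not_mem_nil, or_false, forall_eq_or_imp, forall_eq] at h
    obtain ⟨ha, hb, hc, hd⟩ := h
    have e1 : α * ((b1 : ℝ) - a1) + β * ((b2 : ℝ) - a2) + γ * ((b3 : ℝ) - a3) = 0 := by linarith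
    have e2 : α * ((c1 : ℝ) - a1) + β * ((c2 : ℝ) - a2) + γ * ((c3 : ℝ) - a3) = 0 := by linarith
    have e3 : α * ((d1 : ℝ) - a1) + β * ((d2 : ℝ) - a2) + γ * ((d3 : ℝ) - a3) = 0 := by linarith
    have key : (((b1 : ℝ) - a1) * (((c2 : ℝ) - a2) * ((d3 : ℝ) - a3) - ((c3 : ℝ) - a3) * ((d2 : ℝ) - a2)) -
        ((b2 : ℝ) - a2) * (((c1 : ℝ) - a1) * ((d3 : ℝ) - a3) - ((c3 : ℝ) - a3) * ((d1 : ℝ) - a1)) +
        ((b3 : ℝ) - a3) * (((c1 : ℝ) - a1) * ((d2 : ℝ) - a2) - ((c2 : ℝ) - a2) * ((d1 : ℝ) - a1))) = 0 := by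
      rcases hne with hne | hne | hne
      · refine (mul_eq_zero.1 ?_).resolve_left hne
        linear_combination (((c2 : ℝ) - a2) * ((d3 : ℝ) - a3) - ((c3 : ℝ) - a3) * ((d2 : ℝ) - a2)) * e1 -
          (((b2 : ℝ) - a2) * ((d3 : ℝ) - a3) - ((b3 : ℝ) - a3) * ((d2 : ℝ) - a2)) * e2 +
          (((b2 : ℝ) - a2) * ((c3 : ℝ) - a3) - ((b3 : ℝ) - a3) * ((c2 : ℝ) - a2)) * e3
      · refine (mul_eq_zero.1 ?_).resolve_left hne
        linear_combination -(((c1 : ℝ) - a1) * ((d3 : ℝ) - a3) - ((c3 : ℝ) - a3) * ((d1 : ℝ) - a1)) * e1 +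
          (((b1 : ℝ) - a1) * ((d3 : ℝ) - a3) - ((b3 : ℝ) - a3) * ((d1 : ℝ) - a1)) * e2 -
          (((b1 : ℝ) - a1) * ((c3 : ℝ) - a3) - ((b3 : ℝ) - a3) * ((c1 : ℝ) - a1)) * e3
      · refine (mul_eq_zero.1 ?_).resolve_left hne
        linear_combination (((c1 : ℝ) - a1) * ((d2 : ℝ) - a2) - ((c2 : ℝ) - a2) * ((d1 : ℝ) - a1)) * e1 -
          (((b1 : ℝ) - a1) * ((d2 : ℝ) - a2) - ((b2 : ℝ) - a2) * ((d1 : ℝ) - a1)) * e2 +
          (((b1 : ℝ) - a1) * ((c2 : ℝ) - a2) - ((b2 : ℝ) - a2) * ((c1 : ℝ) - a1)) * e3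
    exact_mod_cast key
  · intro h
    have hdet : (Matrix.of ![![((b1 : ℝ) - a1), ((b2 : ℝ) - a2), ((b3 : ℝ) - a3)],
        ![((c1 : ℝ) - a1), ((c2 : ℝ) - a2), ((c3 : ℝ) - a3)],
        ![((d1 : ℝ) - a1), ((d2 : ℝ) - a2), ((d3 : ℝ) - a3)]]).det = 0 := by
      rw [Matrix.det_fin_three]
      simp only [Matrix.of_apply, Matrix.cons_val', Matrix.cons_val_zero, Matrix.cons_val_one,
        Matrix.cons_val_fin_one, Matrix.cons_val]
      have h' : (((b1 : ℝ) - a1) * (((c2 : ℝ) - a2) * ((d3 : ℝ) - a3) - ((c3 : ℝ) - a3) * ((d2 : ℝ) - a2)) -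
        ((b2 : ℝ) - a2) * (((c1 : ℝ) - a1) * ((d3 : ℝ) - a3) - ((c3 : ℝ) - a3) * ((d1 : ℝ) - a1)) +
        ((b3 : ℝ) - a3) * (((c1 : ℝ) - a1) * ((d2 : ℝ) - a2) - ((c2 : ℝ) - a2) * ((d1 : ℝ) - a1))) = 0 := by
        exact_mod_cast h
      linear_combination h'
    obtain ⟨v, hv0, hv⟩ := Matrix.exists_mulVec_eq_zero_iff.2 hdet
    have h1 := congrFun hv 0
    have h2 := congrFun hv 1
    have h3 := congrFun hv 2
    simp only [Matrix.mulVec, dotProduct, Fin.sum_univ_three, Matrix.of_apply, Matrix.cons_val',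
      Matrix.cons_val_zero, Matrix.cons_val_one, Matrix.cons_val_fin_one, Matrix.cons_val,
      Pi.zero_apply] at h1 h2 h3
    refine ⟨v 0, v 1, v 2, v 0 * a1 + v 1 * a2 + v 2 * a3, ?_, ?_⟩
    · by_contra hcon
      push Not at hcon
      apply hv0
      ext i
      fin_cases i
      · exact hcon.1
      · exact hcon.2.1
      · exact hcon.2.2
    · simp only [List.mem_cons, List.not_mem_nil, or_false, forall_eq_or_imp, forall_eq]
      refine ⟨trivial, ?_, ?_, ?_⟩ <;> linarith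

/-- O3 -/
theorem plane_iff (a b c d : QPt) : OnCommonPlane a b c d ↔ rdet a b c d = 0 :=
  plane_iff' a b c d

end Pool.Agent.CK
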