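import Pool.Agent.H671R2.CK.RDet
import Pool.Agent.H671R2.CK.CDefs
import Pool.Agent.H671R2.PolyAuto
import Pool.Agent.NPC.Dec

set_option autoImplicit false

namespace Pool.Agent.CK

open Pool.Agent.NPC
/-- the determinant over the reals -/
def O4_R (a b c d : ℝ × ℝ × ℝ) : ℝ :=
  ((b.1 - a.1) * ((c.2.1 - a.2.1) * (d.2.2 - a.2.2) - (c.2.2 - a.2.2) * (d.2.1 - a.2.1)) -
    (b.2.1 - a.2.1) * ((c.1 - a.1) * (d.2.2 - a.2.2) - (c.2.2 - a.2.2) * (d.1 - a.1)) +
    (b.2.2 - a.2.2) * ((c.1 - a.1) * (d.2.1 - a.2.1) - (c.2.1 - a.2.1) * (d.1 - a.1)))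

theorem O4_cast (a b c d : QPt) :
    ((rdet a b c d : ℚ) : ℝ) = O4_R (toR a) (toR b) (toR c) (toR d) := by
  simp only [rdet, O4_R, toR]
  push_cast
  ring

theorem O4_pos (a b c d : QPt) : 0 < rdet a b c d ↔ 0 < O4_R (toR a) (toR b) (toR c) (toR d) := by
  rw [← O4_cast]; exact Rat.cast_pos.symm

theorem O4_neg (a b c d : QPt) : rdet a b c d < 0 ↔ O4_R (toR a) (toR b) (toR c) (toR d) < 0 := by
  rw [← O4_cast]; exact Rat.cast_lt_zero.symm

theorem O4_ne {a b c d : QPt} (h : rdet a b c d ≠ 0) :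
    O4_R (toR a) (toR b) (toR c) (toR d) ≠ 0 := by
  rw [← O4_cast]; exact Rat.cast_ne_zero.2 h

/-- the hull of four points -/
theorem O4_hull (x a b c d : ℝ × ℝ × ℝ) : x ∈ convexHull ℝ ({a, b, c, d} : Set (ℝ × ℝ × ℝ)) →
    ∃ wa wb wc wd : ℝ, 0 ≤ wa ∧ 0 ≤ wb ∧ 0 ≤ wc ∧ 0 ≤ wd ∧ wa + wb + wc + wd = 1 ∧
      x = wa • a + wb • b + wc • c + wd • d := by
  intro hx
  set C : Set (ℝ × ℝ × ℝ) := {x | ∃ wa wb wc wd : ℝ, 0 ≤ wa ∧ 0 ≤ wb ∧ 0 ≤ wc ∧ 0 ≤ wd ∧
    wa + wb + wc + wd = 1 ∧ x = wa • a + wb • b + wc • c + wd • d} with hC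
  have hconv : Convex ℝ C := by
    rintro x ⟨wa, wb, wc, wd, h1, h2, h3, h4, h5, rfl⟩ y ⟨va, vb, vc, vd, k1, k2, k3, k4, k5, rfl⟩
      s t hs ht hst
    refine ⟨s * wa + t * va, s * wb + t * vb, s * wc + t * vc, s * wd + t * vd, by positivity,
      by positivity, by positivity, by positivity, ?_, ?_⟩
    · calc s * wa + t * va + (s * wb + t * vb) + (s * wc + t * vc) + (s * wd + t * vd)
          = s * (wa + wb + wc + wd) + t * (va + vb + vc + vd) := by ring
        _ = 1 := by rw [h5, k5]; linarith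
    · simp only [smul_add, smul_smul, add_smul]
      abel
  have hsub : ({a, b, c, d} : Set (ℝ × ℝ × ℝ)) ⊆ C := by
    intro y hy
    simp only [Set.mem_insert_iff, Set.mem_singleton_iff] at hy
    rcases hy with rfl | rfl | rfl | rfl
    · exact ⟨1, 0, 0, 0, by norm_num, by norm_num, by norm_num, by norm_num, by norm_num, by simp⟩
    · exact ⟨0, 1, 0, 0, by norm_num, by norm_num, by norm_num, by norm_num, by norm_num, by simp⟩
    · exact ⟨0, 0, 1, 0, by norm_num, by norm_num, by norm_num, by norm_num, by norm_num, by simp⟩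
    · exact ⟨0, 0, 0, 1, by norm_num, by norm_num, by norm_num, by norm_num, by norm_num, by simp⟩
  exact convexHull_min hsub hconv hx

theorem O4_hull' (x a b c d : ℝ × ℝ × ℝ) (wa wb wc wd : ℝ) (h1 : 0 ≤ wa) (h2 : 0 ≤ wb)
    (h3 : 0 ≤ wc) (h4 : 0 ≤ wd) (h5 : wa + wb + wc + wd = 1)
    (h6 : x = wa • a + wb • b + wc • c + wd • d) :
    x ∈ convexHull ℝ ({a, b, c, d} : Set (ℝ × ℝ × ℝ)) := by
  have hm : ∀ p ∈ ({a, b, c, d} : Set (ℝ × ℝ × ℝ)), p ∈ convexHull ℝ ({a, b, c, d} : Set _) :=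
    fun p hp => subset_convexHull ℝ _ hp
  have := (convex_convexHull ℝ ({a, b, c, d} : Set (ℝ × ℝ × ℝ))).sum_mem
    (t := (Finset.univ : Finset (Fin 4))) (w := ![wa, wb, wc, wd]) (z := ![a, b, c, d])
    (by intro i _; fin_cases i <;> simp [h1, h2, h3, h4])
    (by simp [Fin.sum_univ_four, h5])
    (by
      intro i _
      fin_cases i
      · exact hm _ (by simp)
      · exact hm _ (by simp)
      · exact hm _ (by simp)
      · exact hm _ (by simp))
  rw [Fin.sum_univ_four] at this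
  rw [h6]
  simpa using this

theorem O4_real (x a b c d : ℝ × ℝ × ℝ) (h : O4_R a b c d ≠ 0) (h1 : O4_R x b c d ≠ 0)
    (h2 : O4_R a x c d ≠ 0) (h3 : O4_R a b x d ≠ 0) (h4 : O4_R a b c x ≠ 0) :
    x ∈ convexHull ℝ ({a, b, c, d} : Set (ℝ × ℝ × ℝ)) ↔
      ((0 < O4_R a b c d ∧ 0 < O4_R x b c d ∧ 0 < O4_R a x c d ∧ 0 < O4_R a b x d ∧
          0 < O4_R a b c x) ∨
        (O4_R a b c d < 0 ∧ O4_R x b c d < 0 ∧ O4_R a x c d < 0 ∧ O4_R a b x d < 0 ∧
          O4_R a b c x < 0)) := by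
  constructor
  · intro hx
    obtain ⟨wa, wb, wc, wd, p1, p2, p3, p4, p5, hx⟩ := O4_hull x a b c d hx
    have e0 : wa = 1 - wb - wc - wd := by linarith
    have x1 : x.1 = wa * a.1 + wb * b.1 + wc * c.1 + wd * d.1 := by rw [hx]; simp
    have x2 : x.2.1 = wa * a.2.1 + wb * b.2.1 + wc * c.2.1 + wd * d.2.1 := by rw [hx]; simp
    have x3 : x.2.2 = wa * a.2.2 + wb * b.2.2 + wc * c.2.2 + wd * d.2.2 := by rw [hx]; simp
    have q1 : O4_R x b c d = wa * O4_R a b c d := by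
      simp only [O4_R, x1, x2, x3, e0]; ring
    have q2 : O4_R a x c d = wb * O4_R a b c d := by
      simp only [O4_R, x1, x2, x3, e0]; ring
    have q3 : O4_R a b x d = wc * O4_R a b c d := by
      simp only [O4_R, x1, x2, x3, e0]; ring
    have q4 : O4_R a b c x = wd * O4_R a b c d := by
      simp only [O4_R, x1, x2, x3, e0]; ring
    have r1 : 0 < wa := lt_of_le_of_ne p1 (by rintro rfl; exact h1 (by rw [q1]; ring))
    have r2 : 0 < wb := lt_of_le_of_ne p2 (by rintro rfl; exact h2 (by rw [q2]; ring))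
    have r3 : 0 < wc := lt_of_le_of_ne p3 (by rintro rfl; exact h3 (by rw [q3]; ring))
    have r4 : 0 < wd := lt_of_le_of_ne p4 (by rintro rfl; exact h4 (by rw [q4]; ring))
    rw [q1, q2, q3, q4]
    rcases lt_or_gt_of_ne h with hn | hp
    · right
      exact ⟨hn, mul_neg_of_pos_of_neg r1 hn, mul_neg_of_pos_of_neg r2 hn,
        mul_neg_of_pos_of_neg r3 hn, mul_neg_of_pos_of_neg r4 hn⟩
    · left
      exact ⟨hp, mul_pos r1 hp, mul_pos r2 hp, mul_pos r3 hp, mul_pos r4 hp⟩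
  · intro hs
    have hD := h
    refine O4_hull' x a b c d (O4_R x b c d / O4_R a b c d) (O4_R a x c d / O4_R a b c d)
      (O4_R a b x d / O4_R a b c d) (O4_R a b c x / O4_R a b c d) ?_ ?_ ?_ ?_ ?_ ?_
    · rcases hs with ⟨s0, s1, s2, s3, s4⟩ | ⟨s0, s1, s2, s3, s4⟩
      · exact (div_pos s1 s0).le
      · exact (div_pos_of_neg_of_neg s1 s0).le
    · rcases hs with ⟨s0, s1, s2, s3, s4⟩ | ⟨s0, s1, s2, s3, s4⟩
      · exact (div_pos s2 s0).le
      · exact (div_pos_of_neg_of_neg s2 s0).le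
    · rcases hs with ⟨s0, s1, s2, s3, s4⟩ | ⟨s0, s1, s2, s3, s4⟩
      · exact (div_pos s3 s0).le
      · exact (div_pos_of_neg_of_neg s3 s0).le
    · rcases hs with ⟨s0, s1, s2, s3, s4⟩ | ⟨s0, s1, s2, s3, s4⟩
      · exact (div_pos s4 s0).le
      · exact (div_pos_of_neg_of_neg s4 s0).le
    · rw [← add_div, ← add_div, ← add_div, div_eq_one_iff_eq hD]
      simp only [O4_R]; ring
    · have e1 : O4_R a b c d * x.1 = O4_R x b c d * a.1 + O4_R a x c d * b.1 + O4_R a b x d * c.1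
          + O4_R a b c x * d.1 := by simp only [O4_R]; ring
      have e2 : O4_R a b c d * x.2.1 = O4_R x b c d * a.2.1 + O4_R a x c d * b.2.1 +
          O4_R a b x d * c.2.1 + O4_R a b c x * d.2.1 := by simp only [O4_R]; ring
      have e3 : O4_R a b c d * x.2.2 = O4_R x b c d * a.2.2 + O4_R a x c d * b.2.2 +
          O4_R a b x d * c.2.2 + O4_R a b c x * d.2.2 := by simp only [O4_R]; ring
      refine Prod.ext ?_ (Prod.ext ?_ ?_)
      · simp only [Prod.fst_add, Prod.smul_fst, smul_eq_mul]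
        field_simp
        linarith
      · simp only [Prod.fst_add, Prod.smul_fst, Prod.snd_add, Prod.smul_snd, smul_eq_mul]
        field_simp
        linarith
      · simp only [Prod.snd_add, Prod.smul_snd, smul_eq_mul]
        field_simp
        linarith

/-- O4: membership in a tetrahedron -/
theorem tet_iff (x a b c d : QPt) (h : rdet a b c d ≠ 0) (h1 : rdet x b c d ≠ 0)
    (h2 : rdet a x c d ≠ 0) (h3 : rdet a b x d ≠ 0) (h4 : rdet a b c x ≠ 0) :
    toR x ∈ convexHull ℝ (toR '' {a, b, c, d}) ↔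
      ((0 < rdet a b c d ∧ 0 < rdet x b c d ∧ 0 < rdet a x c d ∧ 0 < rdet a b x d ∧
          0 < rdet a b c x) ∨
        (rdet a b c d < 0 ∧ rdet x b c d < 0 ∧ rdet a x c d < 0 ∧ rdet a b x d < 0 ∧
          rdet a b c x < 0)) := by
  rw [Set.image_insert_eq, Set.image_insert_eq, Set.image_insert_eq, Set.image_singleton,
    O4_real (toR x) (toR a) (toR b) (toR c) (toR d) (O4_ne h) (O4_ne h1) (O4_ne h2) (O4_ne h3)
      (O4_ne h4)]
  simp only [O4_pos, O4_neg]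

end Pool.Agent.CK
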