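import Pool.Agent.H671R2.CK.Defs

/-! O5: Caratheodory's theorem in general position. -/

namespace Pool.Agent.CK

open Finset

theorem O5_toR_inj : Function.Injective toR := by
  intro a b h
  unfold toR at h
  rw [Prod.mk.injEq, Prod.mk.injEq] at h
  refine Prod.ext ?_ (Prod.ext ?_ ?_)
  · exact_mod_cast h.1
  · exact_mod_cast h.2.1
  · exact_mod_cast h.2.2

theorem O5_plane (a b c : ℝ × ℝ × ℝ) : ∃ α β γ δ : ℝ, (α ≠ 0 ∨ β ≠ 0 ∨ γ ≠ 0) ∧
    α * a.1 + β * a.2.1 + γ * a.2.2 = δ ∧ α * b.1 + β * b.2.1 + γ * b.2.2 = δ ∧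
    α * c.1 + β * c.2.1 + γ * c.2.2 = δ := by
  obtain ⟨w, hw, hM⟩ := (Matrix.exists_mulVec_eq_zero_iff
    (M := !![b.1 - a.1, b.2.1 - a.2.1, b.2.2 - a.2.2; c.1 - a.1, c.2.1 - a.2.1, c.2.2 - a.2.2;
      0, 0, 0])).2 (by rw [Matrix.det_fin_three]; simp)
  have h0 := congrFun hM 0
  have h1 := congrFun hM 1
  simp [Matrix.mulVec, dotProduct, Fin.sum_univ_three] at h0 h1
  refine ⟨w 0, w 1, w 2, w 0 * a.1 + w 1 * a.2.1 + w 2 * a.2.2, ?_, rfl, ?_, ?_⟩
  · by_contra hcon
    push Not at hcon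
    apply hw
    funext i
    fin_cases i
    · exact hcon.1
    · exact hcon.2.1
    · exact hcon.2.2
  · linarith
  · linarith

theorem O5_three {S : List QPt} (hS : GeneralPosition S) {x a b c : QPt} (hx : x ∈ S)
    (ha : a ∈ S) (hb : b ∈ S) (hc : c ∈ S) (hxa : x ≠ a) (hxb : x ≠ b) (hxc : x ≠ c)
    (hab : a ≠ b) (hac : a ≠ c) (hbc : b ≠ c) :
    toR x ∉ convexHull ℝ (toR '' {a, b, c}) := by
  intro h
  obtain ⟨α, β, γ, δ, h0, h1, h2, h3⟩ := O5_plane (toR a) (toR b) (toR c)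
  have hconv : Convex ℝ {y : ℝ × ℝ × ℝ | α * y.1 + β * y.2.1 + γ * y.2.2 = δ} := by
    intro y hy z hz s t _ _ hst
    have hy' : α * y.1 + β * y.2.1 + γ * y.2.2 = δ := hy
    have hz' : α * z.1 + β * z.2.1 + γ * z.2.2 = δ := hz
    show α * (s * y.1 + t * z.1) + β * (s * y.2.1 + t * z.2.1) + γ * (s * y.2.2 + t * z.2.2) = δ
    calc _ = s * (α * y.1 + β * y.2.1 + γ * y.2.2) + t * (α * z.1 + β * z.2.1 + γ * z.2.2) := by
          ring
      _ = (s + t) * δ := by rw [hy', hz']; ring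
      _ = δ := by rw [hst, one_mul]
  have hsub : toR '' {a, b, c} ⊆ {y : ℝ × ℝ × ℝ | α * y.1 + β * y.2.1 + γ * y.2.2 = δ} := by
    rintro _ ⟨p, hp, rfl⟩
    rcases hp with rfl | rfl | rfl
    · exact h1
    · exact h2
    · exact h3
  have hx' : α * (toR x).1 + β * (toR x).2.1 + γ * (toR x).2.2 = δ := convexHull_min hsub hconv h
  refine hS x hx a ha b hb c hc hxa hxb hxc hab hac hbc ⟨α, β, γ, δ, h0, ?_⟩
  intro p hp
  simp only [List.mem_cons, List.not_mem_nil, or_false] at hp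
  rcases hp with rfl | rfl | rfl | rfl
  · exact hx'
  · exact h1
  · exact h2
  · exact h3

/-- O5: Carathéodory in general position -/
theorem hull_iff (S : List QPt) (hS : GeneralPosition S) (hn : S.Nodup) (h4 : 4 ≤ S.length)
    (Q : Finset QPt) (hQ : ∀ p ∈ Q, p ∈ S) (x : QPt) (hx : x ∈ Q) :
    toR x ∈ convexHull ℝ (toR '' ((Q : Set QPt) \ {x})) ↔
      ∃ a ∈ Q, ∃ b ∈ Q, ∃ c ∈ Q, ∃ d ∈ Q, a ≠ x ∧ b ≠ x ∧ c ≠ x ∧ d ≠ x ∧ a ≠ b ∧ a ≠ c ∧ a ≠ d ∧
        b ≠ c ∧ b ≠ d ∧ c ≠ d ∧ toR x ∈ convexHull ℝ (toR '' {a, b, c, d}) := by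
  classical
  constructor
  · intro h
    rw [convexHull_eq_union] at h
    simp only [Set.mem_iUnion] at h
    obtain ⟨t, hts, hai, hxt⟩ := h
    set T := Q.filter (fun p => p ≠ x ∧ toR p ∈ t) with hT
    have himg : T.image toR = t := by
      ext y
      rw [mem_image]
      constructor
      · rintro ⟨p, hp, rfl⟩
        rw [hT, mem_filter] at hp
        exact hp.2.2
      · intro hy
        obtain ⟨p, hp, rfl⟩ := hts hy
        exact ⟨p, mem_filter.2 ⟨hp.1, hp.2, hy⟩, rfl⟩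
    have hTc : T.card = t.card := by
      rw [← himg, card_image_of_injective _ O5_toR_inj]
    have htc : t.card ≤ 4 := by
      have h1 := hai.card_le_finrank_succ
      rw [Fintype.card_coe] at h1
      refine h1.trans ?_
      have h2 := Submodule.finrank_le (vectorSpan ℝ (Set.range ((↑) : t → ℝ × ℝ × ℝ)))
      have h3 : Module.finrank ℝ (ℝ × ℝ × ℝ) = 3 := by simp
      omega
    have hxT : toR x ∈ convexHull ℝ (toR '' (T : Set QPt)) := by
      rw [← coe_image, himg]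
      exact hxt
    have hTx : x ∉ T := by
      intro hcon
      rw [hT, mem_filter] at hcon
      exact hcon.2.1 rfl
    have hTQ : T ⊆ Q := filter_subset _ _
    rcases Nat.lt_or_ge T.card 4 with hlt | hge
    · exfalso
      have hTS : T ⊆ S.toFinset.erase x := by
        intro p hp
        rw [mem_erase, List.mem_toFinset]
        exact ⟨fun h => hTx (h ▸ hp), hQ p (hTQ hp)⟩
      have hcard : 3 ≤ (S.toFinset.erase x).card := by
        rw [card_erase_of_mem (List.mem_toFinset.2 (hQ x hx)), List.toFinset_card_of_nodup hn]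
        omega
      obtain ⟨T', hTT', hT'S, hT'c⟩ := exists_subsuperset_card_eq hTS (by omega : T.card ≤ 3) hcard
      obtain ⟨a, b, c, hab, hac, hbc, rfl⟩ := card_eq_three.1 hT'c
      have hS' : ∀ p ∈ ({a, b, c} : Finset QPt), p ∈ S ∧ x ≠ p := by
        intro p hp
        have := hT'S hp
        rw [mem_erase, List.mem_toFinset] at this
        exact ⟨this.2, this.1.symm⟩
      have ha := hS' a (by simp)
      have hb := hS' b (by simp)
      have hc := hS' c (by simp)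
      refine O5_three hS (hQ x hx) ha.1 hb.1 hc.1 ha.2 hb.2 hc.2 hab hac hbc ?_
      refine convexHull_mono (Set.image_mono ?_) hxT
      have : (T : Set QPt) ⊆ (({a, b, c} : Finset QPt) : Set QPt) := coe_subset.2 hTT'
      simpa using this
    · have hc4 : T.card = 4 := by omega
      obtain ⟨a, ha⟩ := card_pos.1 (by omega : 0 < T.card)
      have h3 : (T.erase a).card = 3 := by rw [card_erase_of_mem ha]; omega
      obtain ⟨b, c, d, hbc, hbd, hcd, hE⟩ := card_eq_three.1 h3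
      have hb : b ∈ T.erase a := by rw [hE]; simp
      have hc : c ∈ T.erase a := by rw [hE]; simp
      have hd : d ∈ T.erase a := by rw [hE]; simp
      rw [mem_erase] at hb hc hd
      have hne : ∀ p ∈ T, p ≠ x := fun p hp h => hTx (h ▸ hp)
      refine ⟨a, hTQ ha, b, hTQ hb.2, c, hTQ hc.2, d, hTQ hd.2, hne a ha, hne b hb.2, hne c hc.2,
        hne d hd.2, hb.1.symm, hc.1.symm, hd.1.symm, hbc, hbd, hcd, ?_⟩
      have hTe : T = {a, b, c, d} := by
        rw [← insert_erase ha, hE]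
      rw [hTe] at hxT
      simpa using hxT
  · rintro ⟨a, ha, b, hb, c, hc, d, hd, hax, hbx, hcx, hdx, -, -, -, -, -, -, h⟩
    refine convexHull_mono (Set.image_mono ?_) h
    rintro p (rfl | rfl | rfl | rfl)
    · exact ⟨ha, hax⟩
    · exact ⟨hb, hbx⟩
    · exact ⟨hc, hcx⟩
    · exact ⟨hd, hdx⟩

end Pool.Agent.CK
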