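import Mathlib
import Pool.Agent.H671R2.CK.RDet

/-! Task O6 (and O7): three points, and at most two points. -/

namespace Pool.Agent.CK

open Pool.Agent.NPC

theorem O6_inj {p q : QPt} (h : toR p = toR q) : p = q := by
  obtain ⟨p1, p2, p3⟩ := p
  obtain ⟨q1, q2, q3⟩ := q
  simp only [toR, Prod.mk.injEq, Rat.cast_inj] at h
  obtain ⟨h1, h2, h3⟩ := h
  subst h1; subst h2; subst h3; rfl

/-- a set of at most two points is in convex position -/
theorem O6_card (Q : Finset QPt) (h : Q.card ≤ 2) : ConvexPosition Q := by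
  intro p hp hmem
  have hne : (toR '' ((Q : Set QPt) \ {p})).Nonempty := by
    rw [← convexHull_nonempty_iff (𝕜 := ℝ)]
    exact ⟨_, hmem⟩
  obtain ⟨_, q, hq, rfl⟩ := hne
  have hsub : toR '' ((Q : Set QPt) \ {p}) ⊆ {toR q} := by
    rintro _ ⟨r, hr, rfl⟩
    have hc : (Q.erase p).card ≤ 1 := by
      rw [Finset.card_erase_of_mem hp]; omega
    have hrq := Finset.card_le_one.1 hc r (Finset.mem_erase.2 ⟨hr.2, hr.1⟩) q
      (Finset.mem_erase.2 ⟨hq.2, hq.1⟩)
    rw [hrq]
    exact Set.mem_singleton _
  have h2 := convexHull_mono hsub hmem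
  rw [convexHull_singleton] at h2
  exact hq.2 (O6_inj (Set.mem_singleton_iff.1 h2)).symm

/-- O7: at most two points -/
theorem two_pts (S : List QPt) (hn : S.Nodup) (k : ℕ) (hk : k ≤ 2) (h : k ≤ S.length) :
    HasConvexSubset S k := by
  have hc : (S.take k).toFinset.card = k := by
    rw [List.toFinset_card_of_nodup (hn.sublist (List.take_sublist k S)), List.length_take]
    omega
  refine ⟨(S.take k).toFinset, ?_, hc, O6_card _ (by omega)⟩
  intro p hp
  exact List.mem_of_mem_take (List.mem_toFinset.1 hp)

theorem O6_erase (x y z : QPt) (hxy : x ≠ y) (hxz : x ≠ z) :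
    toR '' (((({x, y, z} : Finset QPt)) : Set QPt) \ {x}) = {toR y, toR z} := by
  have : (((({x, y, z} : Finset QPt)) : Set QPt) \ {x}) = {y, z} := by
    ext w
    simp only [Finset.coe_insert, Finset.coe_singleton, Set.mem_sdiff, Set.mem_insert_iff,
      Set.mem_singleton_iff]
    constructor
    · rintro ⟨h1, h2⟩
      exact h1.resolve_left h2
    · rintro (rfl | rfl)
      · exact ⟨Or.inr (Or.inl rfl), hxy.symm⟩
      · exact ⟨Or.inr (Or.inr rfl), hxz.symm⟩
  rw [this, Set.image_insert_eq, Set.image_singleton]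

theorem O6_pos (x y z : QPt) (hxy : x ≠ y) (hxz : x ≠ z) (hyz : y ≠ z) :
    ConvexPosition {x, y, z} ↔ toR x ∉ segment ℝ (toR y) (toR z) ∧
      toR y ∉ segment ℝ (toR x) (toR z) ∧ toR z ∉ segment ℝ (toR x) (toR y) := by
  have e1 : ({x, y, z} : Finset QPt) = {y, x, z} := by
    ext w; simp only [Finset.mem_insert, Finset.mem_singleton]; tauto
  have e2 : ({x, y, z} : Finset QPt) = {z, x, y} := by
    ext w; simp only [Finset.mem_insert, Finset.mem_singleton]; tauto
  have h1 := O6_erase x y z hxy hxz
  have h2 := O6_erase y x z hxy.symm hyz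
  have h3 := O6_erase z x y hxz.symm hyz.symm
  rw [← e1] at h2
  rw [← e2] at h3
  constructor
  · intro h
    refine ⟨?_, ?_, ?_⟩
    · have := h x (by simp)
      rwa [h1, convexHull_pair] at this
    · have := h y (by simp)
      rwa [h2, convexHull_pair] at this
    · have := h z (by simp)
      rwa [h3, convexHull_pair] at this
  · rintro ⟨k1, k2, k3⟩ p hp
    simp only [Finset.mem_insert, Finset.mem_singleton] at hp
    rcases hp with rfl | rfl | rfl
    · rwa [h1, convexHull_pair]
    · rwa [h2, convexHull_pair]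
    · rwa [h3, convexHull_pair]

theorem O6_seg1 (a b c w : QPt) (h : toR a ∈ segment ℝ (toR b) (toR c)) : rdet a b c w = 0 := by
  obtain ⟨s, t, hs, ht, hst, he⟩ := h
  have es : s = 1 - t := by linarith
  have x1 : (a.1 : ℝ) = s * b.1 + t * c.1 := by
    have := congrArg (fun v : ℝ × ℝ × ℝ => v.1) he
    simpa [toR] using this.symm
  have x2 : (a.2.1 : ℝ) = s * b.2.1 + t * c.2.1 := by
    have := congrArg (fun v : ℝ × ℝ × ℝ => v.2.1) he
    simpa [toR] using this.symm
  have x3 : (a.2.2 : ℝ) = s * b.2.2 + t * c.2.2 := by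
    have := congrArg (fun v : ℝ × ℝ × ℝ => v.2.2) he
    simpa [toR] using this.symm
  have : ((rdet a b c w : ℚ) : ℝ) = 0 := by
    simp only [rdet]
    push_cast
    rw [x1, x2, x3, es]
    ring
  exact_mod_cast this

theorem O6_sw1 (a b c w : QPt) : rdet b a c w = - rdet a b c w := by
  simp only [rdet]; ring

theorem O6_sw2 (a b c w : QPt) : rdet c a b w = rdet a b c w := by
  simp only [rdet]; ring

theorem O6_line (a b c : QPt) (hab : a ≠ b)
    (h : ∀ w ∈ [((0, 0, 0) : QPt), (1, 0, 0), (0, 1, 0), (0, 0, 1)], rdet a b c w = 0) :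
    ∃ t : ℚ, c.1 = a.1 + t * (b.1 - a.1) ∧ c.2.1 = a.2.1 + t * (b.2.1 - a.2.1) ∧
      c.2.2 = a.2.2 + t * (b.2.2 - a.2.2) := by
  simp only [List.mem_cons, List.not_mem_nil, or_false, forall_eq_or_imp, forall_eq] at h
  obtain ⟨h0, h1, h2, h3⟩ := h
  obtain ⟨a1, a2, a3⟩ := a
  obtain ⟨b1, b2, b3⟩ := b
  obtain ⟨c1, c2, c3⟩ := c
  simp only [rdet] at h0 h1 h2 h3
  have n1 : (b2 - a2) * (c3 - a3) = (b3 - a3) * (c2 - a2) := by linear_combination h1 - h0
  have n2 : (b3 - a3) * (c1 - a1) = (b1 - a1) * (c3 - a3) := by linear_combination h2 - h0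
  have n3 : (b1 - a1) * (c2 - a2) = (b2 - a2) * (c1 - a1) := by linear_combination h3 - h0
  simp only
  by_cases k1 : b1 - a1 = 0
  · by_cases k2 : b2 - a2 = 0
    · by_cases k3 : b3 - a3 = 0
      · exfalso
        apply hab
        rw [sub_eq_zero] at k1 k2 k3
        rw [k1, k2, k3]
      · refine ⟨(c3 - a3) / (b3 - a3), ?_, ?_, ?_⟩
        · field_simp
          linear_combination n2
        · field_simp
          linear_combination -n1
        · field_simp
          ring
    · refine ⟨(c2 - a2) / (b2 - a2), ?_, ?_, ?_⟩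
      · field_simp
        linear_combination -n3
      · field_simp
        ring
      · field_simp
        linear_combination n1
  · refine ⟨(c1 - a1) / (b1 - a1), ?_, ?_, ?_⟩
    · field_simp
      ring
    · field_simp
      linear_combination n3
    · field_simp
      linear_combination -n2

/-- O6: three points -/
theorem three_iff (a b c : QPt) (hab : a ≠ b) (hac : a ≠ c) (hbc : b ≠ c) :
    HasConvexSubset [a, b, c] 3 ↔
      ¬ ∀ w ∈ [((0, 0, 0) : QPt), (1, 0, 0), (0, 1, 0), (0, 0, 1)], rdet a b c w = 0 := by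
  have hQ : HasConvexSubset [a, b, c] 3 ↔ ConvexPosition {a, b, c} := by
    have hcard : ({a, b, c} : Finset QPt).card = 3 := by
      rw [Finset.card_eq_three]
      exact ⟨a, b, c, hab, hac, hbc, rfl⟩
    constructor
    · rintro ⟨Q, h1, h2, h3⟩
      have : Q = {a, b, c} := by
        apply Finset.eq_of_subset_of_card_le
        · intro p hp
          have := h1 p hp
          simpa using this
        · rw [hcard, h2]
      rwa [this] at h3
    · intro h
      refine ⟨{a, b, c}, ?_, hcard, h⟩
      intro p hp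
      simpa using hp
  rw [hQ, O6_pos a b c hab hac hbc]
  constructor
  · rintro ⟨k1, k2, k3⟩ h
    obtain ⟨t, t1, t2, t3⟩ := O6_line a b c hab h
    have u1 : (c.1 : ℝ) = a.1 + t * (b.1 - a.1) := by exact_mod_cast t1
    have u2 : (c.2.1 : ℝ) = a.2.1 + t * (b.2.1 - a.2.1) := by exact_mod_cast t2
    have u3 : (c.2.2 : ℝ) = a.2.2 + t * (b.2.2 - a.2.2) := by exact_mod_cast t3
    rcases lt_or_ge t 0 with ht | ht
    · -- `a` is between `b` and `c`
      apply k1
      have ht' : (t : ℝ) < 0 := by exact_mod_cast ht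
      have hp : (0 : ℝ) < 1 - t := by linarith
      refine ⟨-t / (1 - t), 1 / (1 - t), by apply div_nonneg <;> linarith, by positivity, ?_, ?_⟩
      · field_simp
        ring
      · refine Prod.ext ?_ (Prod.ext ?_ ?_)
        · simp only [toR, Prod.fst_add, Prod.smul_fst, smul_eq_mul, u1]
          field_simp
          ring
        · simp only [toR, Prod.fst_add, Prod.smul_fst, Prod.snd_add, Prod.smul_snd, smul_eq_mul, u2]
          field_simp
          ring
        · simp only [toR, Prod.snd_add, Prod.smul_snd, smul_eq_mul, u3]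
          field_simp
          ring
    · rcases le_or_gt t 1 with ht1 | ht1
      · -- `c` is between `a` and `b`
        apply k3
        have ht' : (0 : ℝ) ≤ t := by exact_mod_cast ht
        have ht1' : (t : ℝ) ≤ 1 := by exact_mod_cast ht1
        refine ⟨1 - t, t, by linarith, ht', by ring, ?_⟩
        refine Prod.ext ?_ (Prod.ext ?_ ?_)
        · simp only [toR, Prod.fst_add, Prod.smul_fst, smul_eq_mul, u1]
          ring
        · simp only [toR, Prod.fst_add, Prod.smul_fst, Prod.snd_add, Prod.smul_snd, smul_eq_mul, u2]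
          ring
        · simp only [toR, Prod.snd_add, Prod.smul_snd, smul_eq_mul, u3]
          ring
      · -- `b` is between `a` and `c`
        apply k2
        have ht1' : (1 : ℝ) < t := by exact_mod_cast ht1
        have hp : (0 : ℝ) < t := by linarith
        refine ⟨(t - 1) / t, 1 / t, by apply div_nonneg <;> linarith, by positivity, ?_, ?_⟩
        · field_simp
          ring
        · refine Prod.ext ?_ (Prod.ext ?_ ?_)
          · simp only [toR, Prod.fst_add, Prod.smul_fst, smul_eq_mul, u1]
            field_simp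
            ring
          · simp only [toR, Prod.fst_add, Prod.smul_fst, Prod.snd_add, Prod.smul_snd, smul_eq_mul,
              u2]
            field_simp
            ring
          · simp only [toR, Prod.snd_add, Prod.smul_snd, smul_eq_mul, u3]
            field_simp
            ring
  · intro h
    push Not at h
    obtain ⟨w, -, hw⟩ := h
    refine ⟨?_, ?_, ?_⟩
    · intro hs
      exact hw (O6_seg1 a b c w hs)
    · intro hs
      apply hw
      have := O6_seg1 b a c w hs
      rw [O6_sw1] at this
      linarith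
    · intro hs
      apply hw
      have := O6_seg1 c a b w hs
      rwa [O6_sw2] at this

end Pool.Agent.CK
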