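import Pool.Agent.H671R2.CK.O1
import Pool.Agent.H671R2.CK.O2
import Pool.Agent.H671R2.CK.O3
import Pool.Agent.H671R2.CK.O4
import Pool.Agent.H671R2.CK.O5
import Pool.Agent.H671R2.CK.O6
import Pool.Agent.H671R2.CK.RDet
import Pool.Agent.H671R2.CK.CDefs
import Pool.Agent.H671R2.PolyAuto
import Pool.Agent.NPC.Dec

/-!
# The summary determines the answer
-/

namespace Pool.Agent.CK

open Pool.Agent.NPC
/-- the frame as rational points -/
def frameQ : List QPt := [((0, 0, 0) : QPt), (1, 0, 0), (0, 1, 0), (0, 0, 1)]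

theorem frameQ_raw : frameQ.map raw = frame := by
  unfold frameQ frame raw
  simp

/-- the points of the list and of the frame -/
def gp (S : List QPt) (i : ℕ) : QPt := (S ++ frameQ).getD i (0, 0, 0)

theorem getD_raw (S : List QPt) (i : ℕ) :
    (S.map raw ++ frame).getD i (raw (0, 0, 0)) = raw (gp S i) := by
  rw [← frameQ_raw, ← List.map_append, List.getD_map]
  rfl

theorem gp_get (S : List QPt) {i : ℕ} (hi : i < S.length) : gp S i = S[i] := by
  unfold gp
  rw [List.getD_eq_getElem _ _ (by rw [List.length_append]; omega), List.getElem_append_left hi]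

theorem gp_mem (S : List QPt) {i : ℕ} (hi : i < S.length) : gp S i ∈ S := by
  rw [gp_get S hi]
  exact List.getElem_mem hi

theorem gp_inj (S : List QPt) (hn : S.Nodup) {i j : ℕ} (hi : i < S.length) (hj : j < S.length)
    (h : gp S i = gp S j) : i = j := by
  rw [gp_get S hi, gp_get S hj] at h
  exact (List.Nodup.getElem_inj_iff hn).1 h

theorem mem_gp (S : List QPt) {p : QPt} (hp : p ∈ S) : ∃ i < S.length, gp S i = p := by
  obtain ⟨i, hi, rfl⟩ := List.mem_iff_getElem.1 hp
  exact ⟨i, hi, gp_get S hi⟩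

/-- the same orientations -/
def SameO (S S' : List QPt) : Prop :=
  S.length = S'.length ∧ ∀ i < S.length + 4, ∀ j < S.length + 4, ∀ k < S.length + 4,
    ∀ l < S.length + 4, (0 < rdet (gp S i) (gp S j) (gp S k) (gp S l) ↔
      0 < rdet (gp S' i) (gp S' j) (gp S' k) (gp S' l)) ∧
      (rdet (gp S i) (gp S j) (gp S k) (gp S l) < 0 ↔
      rdet (gp S' i) (gp S' j) (gp S' k) (gp S' l) < 0)

theorem SameO.symm {S S' : List QPt} (h : SameO S S') : SameO S' S := by
  obtain ⟨h1, h2⟩ := h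
  refine ⟨h1.symm, fun i hi j hj k hk l hl => ?_⟩
  rw [← h1] at hi hj hk hl
  exact ⟨(h2 i hi j hj k hk l hl).1.symm, (h2 i hi j hj k hk l hl).2.symm⟩

theorem sameO_of_sig {S S' : List QPt} (hlen : S.length = S'.length)
    (h : sig (S.map raw) = sig (S'.map raw)) : SameO S S' := by
  refine ⟨hlen, fun i hi j hj k hk l hl => ?_⟩
  have h1 := sig_get (S := S.map raw) (S' := S'.map raw) (by simpa using hlen) h
    (i := i) (j := j) (k := k) (l := l) (by simpa using hi) (by simpa using hj)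
    (by simpa using hk) (by simpa using hl) (raw (0, 0, 0))
  simp only [getD_raw] at h1
  rw [sgn_raw, sgn_raw] at h1
  have h2 := congrArg Prod.fst h1
  have h3 := congrArg Prod.snd h1
  simp only at h2 h3
  exact ⟨decide_eq_decide.1 h2, decide_eq_decide.1 h3⟩

theorem rdet_ne {S : List QPt} (hS : GeneralPosition S) {a b c d : QPt} (ha : a ∈ S) (hb : b ∈ S)
    (hc : c ∈ S) (hd : d ∈ S) (hab : a ≠ b) (hac : a ≠ c) (had : a ≠ d) (hbc : b ≠ c)
    (hbd : b ≠ d) (hcd : c ≠ d) : rdet a b c d ≠ 0 := fun h =>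
  hS a ha b hb c hc d hd hab hac had hbc hbd hcd ((plane_iff a b c d).2 h)

/-- transport of convex position -/
theorem transport {S S' : List QPt} (hn : S.Nodup) (hS : GeneralPosition S) (hn' : S'.Nodup)
    (hS' : GeneralPosition S') (hO : SameO S S') (h4 : 4 ≤ S.length) (k : ℕ)
    (h : HasConvexSubset S k) : HasConvexSubset S' k := by
  classical
  obtain ⟨hlen, hO⟩ := hO
  obtain ⟨Q, hQ, hcard, hconv⟩ := h
  set I := (Finset.range S.length).filter (fun i => gp S i ∈ Q) with hI
  have hIs : ∀ i ∈ I, i < S.length := fun i hi => Finset.mem_range.1 (Finset.mem_filter.1 hi).1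
  have hIQ : ∀ i ∈ I, gp S i ∈ Q := fun i hi => (Finset.mem_filter.1 hi).2
  have himg : I.image (gp S) = Q := by
    ext p
    rw [Finset.mem_image]
    constructor
    · rintro ⟨i, hi, rfl⟩
      exact hIQ i hi
    · intro hp
      obtain ⟨i, hi, rfl⟩ := mem_gp S (hQ p hp)
      exact ⟨i, Finset.mem_filter.2 ⟨Finset.mem_range.2 hi, hp⟩, rfl⟩
  have hIcard : I.card = k := by
    rw [← hcard, ← himg, Finset.card_image_of_injOn]
    intro i hi j hj h
    exact gp_inj S hn (hIs i (Finset.mem_coe.1 hi)) (hIs j (Finset.mem_coe.1 hj)) h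
  have hQ' : ∀ p ∈ I.image (gp S'), p ∈ S' := by
    intro p hp
    obtain ⟨i, hi, rfl⟩ := Finset.mem_image.1 hp
    exact gp_mem S' (hlen ▸ hIs i hi)
  refine ⟨I.image (gp S'), hQ', ?_, ?_⟩
  · rw [Finset.card_image_of_injOn, hIcard]
    intro i hi j hj h
    exact gp_inj S' hn' (hlen ▸ hIs i (Finset.mem_coe.1 hi)) (hlen ▸ hIs j (Finset.mem_coe.1 hj)) h
  · intro p hp hmem
    obtain ⟨a, ha, b, hb, c, hc, d, hd, hax, hbx, hcx, hdx, hab, hac, had, hbc, hbd, hcd, hx⟩ :=
      (hull_iff S' hS' hn' (hlen ▸ h4) _ hQ' p hp).1 hmem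
    have hSp := hQ' p hp
    have hSa := hQ' a ha
    have hSb := hQ' b hb
    have hSc := hQ' c hc
    have hSd := hQ' d hd
    have e := (tet_iff p a b c d (rdet_ne hS' hSa hSb hSc hSd hab hac had hbc hbd hcd)
      (rdet_ne hS' hSp hSb hSc hSd (Ne.symm hbx) (Ne.symm hcx) (Ne.symm hdx) hbc hbd hcd)
      (rdet_ne hS' hSa hSp hSc hSd hax hac had (Ne.symm hcx) (Ne.symm hdx) hcd)
      (rdet_ne hS' hSa hSb hSp hSd hab hax had hbx hbd (Ne.symm hdx))
      (rdet_ne hS' hSa hSb hSc hSp hab hac hax hbc hbx hcx)).1 hx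
    obtain ⟨i, hi, rfl⟩ := Finset.mem_image.1 hp
    obtain ⟨ia, hia, rfl⟩ := Finset.mem_image.1 ha
    obtain ⟨ib, hib, rfl⟩ := Finset.mem_image.1 hb
    obtain ⟨ic, hic, rfl⟩ := Finset.mem_image.1 hc
    obtain ⟨id, hid, rfl⟩ := Finset.mem_image.1 hd
    have ne : ∀ {x y : ℕ}, x ∈ I → y ∈ I → gp S' x ≠ gp S' y → gp S x ≠ gp S y := by
      intro x y hx hy h1 h2
      exact h1 (by rw [gp_inj S hn (hIs x hx) (hIs y hy) h2])
    have lt : ∀ {x : ℕ}, x ∈ I → x < S.length + 4 := fun hx => by have := hIs _ hx; omega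
    have s1 := hO ia (lt hia) ib (lt hib) ic (lt hic) id (lt hid)
    have s2 := hO i (lt hi) ib (lt hib) ic (lt hic) id (lt hid)
    have s3 := hO ia (lt hia) i (lt hi) ic (lt hic) id (lt hid)
    have s4 := hO ia (lt hia) ib (lt hib) i (lt hi) id (lt hid)
    have s5 := hO ia (lt hia) ib (lt hib) ic (lt hic) i (lt hi)
    rw [← s1.1, ← s2.1, ← s3.1, ← s4.1, ← s5.1, ← s1.2, ← s2.2, ← s3.2, ← s4.2, ← s5.2] at e
    have m : ∀ {x : ℕ}, x ∈ I → gp S x ∈ S := fun hx => gp_mem S (hIs _ hx)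
    have nax := ne hia hi hax
    have nbx := ne hib hi hbx
    have ncx := ne hic hi hcx
    have ndx := ne hid hi hdx
    have nab := ne hia hib hab
    have nac := ne hia hic hac
    have nad := ne hia hid had
    have nbc := ne hib hic hbc
    have nbd := ne hib hid hbd
    have ncd := ne hic hid hcd
    have hx2 := (tet_iff (gp S i) (gp S ia) (gp S ib) (gp S ic) (gp S id)
      (rdet_ne hS (m hia) (m hib) (m hic) (m hid) nab nac nad nbc nbd ncd)
      (rdet_ne hS (m hi) (m hib) (m hic) (m hid) nbx.symm ncx.symm ndx.symm nbc nbd ncd)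
      (rdet_ne hS (m hia) (m hi) (m hic) (m hid) nax nac nad ncx.symm ndx.symm ncd)
      (rdet_ne hS (m hia) (m hib) (m hi) (m hid) nab nax nad nbx nbd ndx.symm)
      (rdet_ne hS (m hia) (m hib) (m hic) (m hi) nab nac nax nbc nbx ncx)).2 e
    refine hconv (gp S i) (hIQ i hi) ((hull_iff S hS hn h4 Q hQ _ (hIQ i hi)).2 ?_)
    exact ⟨_, hIQ ia hia, _, hIQ ib hib, _, hIQ ic hic, _, hIQ id hid, nax, nbx, ncx, ndx, nab, nac,
      nad, nbc, nbd, ncd, hx2⟩

theorem card_le_of_convex {S : List QPt} {k : ℕ} (h : HasConvexSubset S k) : k ≤ S.length := by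
  classical
  obtain ⟨Q, hQ, hcard, -⟩ := h
  rw [← hcard]
  exact (Finset.card_le_card fun p hp => List.mem_toFinset.2 (hQ p hp)).trans
    (List.toFinset_card_le S)

theorem three_case {a b c a' b' c' : QPt} (hn : [a, b, c].Nodup) (hn' : [a', b', c'].Nodup)
    (hO : SameO [a, b, c] [a', b', c']) :
    HasConvexSubset [a, b, c] 3 ↔ HasConvexSubset [a', b', c'] 3 := by
  simp only [List.nodup_cons, List.mem_cons, List.not_mem_nil, or_false, not_or,
    not_false_eq_true, List.nodup_nil, and_true] at hn hn'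
  rw [three_iff a b c hn.1.1 hn.1.2 hn.2, three_iff a' b' c' hn'.1.1 hn'.1.2 hn'.2]
  refine not_congr ?_
  obtain ⟨-, hO⟩ := hO
  have key : ∀ w : QPt, ∀ m < 4, frameQ.getD m (0, 0, 0) = w →
      (rdet a b c w = 0 ↔ rdet a' b' c' w = 0) := by
    intro w m hm hw
    have h1 := hO 0 (by norm_num) 1 (by norm_num) 2 (by norm_num) (3 + m)
      (by show 3 + m < 3 + 4; omega)
    have e1 : gp [a, b, c] (3 + m) = w := by
      rw [← hw]
      interval_cases m <;> rfl
    have e2 : gp [a', b', c'] (3 + m) = w := by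
      rw [← hw]
      interval_cases m <;> rfl
    rw [e1, e2] at h1
    have f1 : ((0 < rdet a b c w ↔ 0 < rdet a' b' c' w) ∧ (rdet a b c w < 0 ↔ rdet a' b' c' w < 0)) :=
      h1
    generalize rdet a b c w = x at f1 ⊢
    generalize rdet a' b' c' w = y at f1 ⊢
    constructor
    · rintro rfl
      have g1 := f1.1.not.1 (lt_irrefl _)
      have g2 := f1.2.not.1 (lt_irrefl _)
      exact le_antisymm (not_lt.1 g1) (not_lt.1 g2)
    · rintro rfl
      have g1 := f1.1.not.2 (lt_irrefl _)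
      have g2 := f1.2.not.2 (lt_irrefl _)
      exact le_antisymm (not_lt.1 g1) (not_lt.1 g2)
  have k0 := key _ 0 (by norm_num) rfl
  have k1 := key _ 1 (by norm_num) rfl
  have k2 := key _ 2 (by norm_num) rfl
  have k3 := key _ 3 (by norm_num) rfl
  simp only [List.mem_cons, List.not_mem_nil, or_false, forall_eq_or_imp, forall_eq]
  have e0 : frameQ.getD 0 (0, 0, 0) = ((0, 0, 0) : QPt) := rfl
  have e1 : frameQ.getD 1 (0, 0, 0) = ((1, 0, 0) : QPt) := rfl
  have e2 : frameQ.getD 2 (0, 0, 0) = ((0, 1, 0) : QPt) := rfl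
  have e3 : frameQ.getD 3 (0, 0, 0) = ((0, 0, 1) : QPt) := rfl
  rw [e0] at k0
  rw [e1] at k1
  rw [e2] at k2
  rw [e3] at k3
  rw [k0, k1, k2, k3]

/-- O8: the summary determines the answer -/
theorem summary_eq {S S' : List QPt} {k k' : ℕ} (h : IsInstance S k) (h' : IsInstance S' k')
    (heq : summary (S.map raw, k) = summary (S'.map raw, k')) :
    HasConvexSubset S k ↔ HasConvexSubset S' k' := by
  unfold summary at heq
  simp only [Prod.mk.injEq, List.length_map] at heq
  obtain ⟨hlen, hmin, hsig⟩ := heq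
  have hO := sameO_of_sig hlen hsig
  obtain ⟨hn, hS, hk⟩ := h
  obtain ⟨hn', hS', hk'⟩ := h'
  by_cases hkn : S.length < k
  · constructor
    · intro h
      have := card_le_of_convex h
      omega
    · intro h
      have := card_le_of_convex h
      omega
  have hkk : k = k' := by omega
  subst hkk
  by_cases h4 : 4 ≤ S.length
  · exact ⟨transport hn hS hn' hS' hO h4 k, transport hn' hS' hn hS hO.symm (hlen ▸ h4) k⟩
  by_cases hk2 : k ≤ 2
  · exact ⟨fun _ => two_pts S' hn' k hk2 (by omega), fun _ => two_pts S hn k hk2 (by omega)⟩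
  have hk3 : k = 3 := by omega
  subst hk3
  have hl3 : S.length = 3 := by omega
  have hl3' : S'.length = 3 := by omega
  obtain ⟨a, b, c, rfl⟩ := List.length_eq_three.1 hl3
  obtain ⟨a', b', c', rfl⟩ := List.length_eq_three.1 hl3'
  exact three_case hn hn' hO

end Pool.Agent.CK
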