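import Pool.Agent.H671R2.CK.CDefs

/-!
# S1: the length of the core
-/

namespace Pool.Agent.CK

open Pool.Agent.NPC

namespace S1

theorem sum_const {α : Type} (l : List α) (c : ℕ) : (l.map fun _ => c).sum = l.length * c := by
  rw [List.map_const', List.sum_replicate, smul_eq_mul]

theorem rowsL_length (m : ℕ) : (rowsL m).length = 6 * m * ((3 * m + 1) * 3) := by
  unfold rowsL
  simp only [List.length_flatMap, List.length_cons, List.length_nil, sum_const, List.length_range]

theorem crossL_length (m : ℕ) : (crossL m).length = 6 * m * (3 * m) := by
  unfold crossL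
  simp only [List.length_flatMap, List.length_map, sum_const, List.length_range]

theorem connL_length (m : ℕ) : (connL m).length = 3 * m * 5 := by
  unfold connL
  simp only [List.length_flatMap, List.length_cons, List.length_nil, sum_const, List.length_range]

theorem col_length (m e : ℕ) :
    ((List.range (6 * m + 1)).flatMap fun i =>
      if i = 0 ∧ e % 3 = 1 then ([] : List (ℕ × ℕ))
      else [(8 * e + 10, 8 * i + 2), (8 * e + 10, 8 * i + 6), (8 * e + 10, 8 * i + 4)]).length =
      18 * m + (if e % 3 = 1 then 0 else 3) := by
  rw [List.length_flatMap, List.range_succ_eq_map, List.map_cons, List.sum_cons, List.map_map]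
  have h : (fun i => (if i = 0 ∧ e % 3 = 1 then ([] : List (ℕ × ℕ))
      else [(8 * e + 10, 8 * i + 2), (8 * e + 10, 8 * i + 6), (8 * e + 10, 8 * i + 4)]).length) ∘
      Nat.succ = fun _ => 3 := by
    funext i
    simp
  rw [h, sum_const, List.length_range]
  by_cases he : e % 3 = 1
  · simp [he]
    ring
  · simp [he]
    ring

theorem sum_mod (m c : ℕ) :
    ((List.range (3 * m)).map fun e => c + (if e % 3 = 1 then 0 else 3)).sum =
      3 * m * c + 6 * m := by
  induction m with
  | zero => simp
  | succ m ih =>
    have h : 3 * (m + 1) = 3 * m + 1 + 1 + 1 := by ring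
    rw [h, List.range_succ, List.range_succ, List.range_succ]
    simp only [List.map_append, List.sum_append, List.map_cons, List.map_nil, List.sum_cons,
      List.sum_nil, ih]
    have h0 : (3 * m) % 3 = 0 := by omega
    have h1 : (3 * m + 1) % 3 = 1 := by omega
    have h2 : (3 * m + 1 + 1) % 3 = 2 := by omega
    rw [h0, h1, h2]
    simp
    ring

theorem colsL_length (m : ℕ) : (colsL m).length = 54 * m ^ 2 + 6 * m := by
  unfold colsL
  rw [List.length_flatMap]
  simp only [col_length]
  rw [sum_mod]
  ring

theorem clause_length (φ : Form) : (φ.zipIdx.flatMap clauseP).length = φ.length * 19 := by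
  rw [List.length_flatMap]
  have h : (fun c => (clauseP c).length) = fun _ => 19 := by
    funext c
    rfl
  rw [h, sum_const, List.length_zipIdx]

end S1

/-- S1 -/
theorem core_length (m : ℕ) (φ : Form) (hφ : φ.length = m) (hm : 1 ≤ m) :
    (core φ).length = coreSize m := by
  unfold core coreSize
  rw [List.length_append, List.length_append, List.length_append, List.length_append,
    S1.rowsL_length, S1.crossL_length, S1.colsL_length, S1.clause_length, S1.connL_length, hφ]
  ring

end Pool.Agent.CK
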