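import Pool.Agent.H671R2.CK.CDefs

/-! S2: the core has no duplicates. -/

namespace Pool.Agent.CK

open Pool.Agent.NPC

namespace S2

theorem nodup_range_flatMap {α : Type} (n : ℕ) (f : ℕ → List α) (h1 : ∀ i < n, (f i).Nodup)
    (h2 : ∀ i < n, ∀ j < n, i ≠ j → ∀ p, p ∈ f i → p ∈ f j → False) :
    ((List.range n).flatMap f).Nodup := by
  rw [List.nodup_flatMap]
  refine ⟨fun i hi => h1 i (List.mem_range.mp hi), ?_⟩
  refine List.nodup_range.pairwise_of_forall_ne ?_
  intro i hi j hj hij p hp hq
  exact h2 i (List.mem_range.mp hi) j (List.mem_range.mp hj) hij p hp hq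

theorem rows_nodup (m : ℕ) : (rowsL m).Nodup := by
  unfold rowsL
  refine nodup_range_flatMap _ _ ?_ ?_
  · intro ρ _
    refine nodup_range_flatMap _ _ ?_ ?_
    · intro j _
      simp only [List.nodup_cons, List.mem_cons, Prod.mk.injEq, List.not_mem_nil, or_false,
        not_false_iff, List.nodup_nil, and_true]
      omega
    · intro i _ j _ hij p hp hq
      simp only [List.mem_cons, List.not_mem_nil, or_false] at hp hq
      rcases hp with rfl | rfl | rfl <;> simp only [Prod.mk.injEq] at hq <;> omega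
  · intro i _ j _ hij p hp hq
    simp only [List.mem_flatMap, List.mem_range, List.mem_cons, List.not_mem_nil,
      or_false] at hp hq
    obtain ⟨a, _, hp⟩ := hp
    obtain ⟨b, _, hq⟩ := hq
    rcases hp with rfl | rfl | rfl <;> simp only [Prod.mk.injEq] at hq <;> omega

theorem cross_nodup (m : ℕ) : (crossL m).Nodup := by
  unfold crossL
  refine nodup_range_flatMap _ _ ?_ ?_
  · intro ρ _
    refine List.nodup_range.map ?_
    intro a b hab
    simp only [Prod.mk.injEq] at hab
    omega
  · intro i _ j _ hij p hp hq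
    simp only [List.mem_map, List.mem_range] at hp hq
    obtain ⟨a, _, rfl⟩ := hp
    obtain ⟨b, _, hq⟩ := hq
    simp only [Prod.mk.injEq] at hq
    omega

theorem cols_nodup (m : ℕ) : (colsL m).Nodup := by
  unfold colsL
  refine nodup_range_flatMap _ _ ?_ ?_
  · intro e _
    refine nodup_range_flatMap _ _ ?_ ?_
    · intro j _
      split_ifs
      · exact List.nodup_nil
      · simp only [List.nodup_cons, List.mem_cons, Prod.mk.injEq, List.not_mem_nil, or_false,
          not_false_iff, List.nodup_nil, and_true]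
        omega
    · intro i _ j _ hij p hp hq
      split_ifs at hp hq
      · exact (List.not_mem_nil hp).elim
      · exact (List.not_mem_nil hp).elim
      · exact (List.not_mem_nil hq).elim
      · simp only [List.mem_cons, List.not_mem_nil, or_false] at hp hq
        rcases hp with rfl | rfl | rfl <;> simp only [Prod.mk.injEq] at hq <;> omega
  · intro i _ j _ hij p hp hq
    simp only [List.mem_flatMap, List.mem_range] at hp hq
    obtain ⟨a, _, hp⟩ := hp
    obtain ⟨b, _, hq⟩ := hq
    split_ifs at hp hq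
    · exact (List.not_mem_nil hp).elim
    · exact (List.not_mem_nil hp).elim
    · exact (List.not_mem_nil hq).elim
    · simp only [List.mem_cons, List.not_mem_nil, or_false] at hp hq
      rcases hp with rfl | rfl | rfl <;> simp only [Prod.mk.injEq] at hq <;> omega

theorem conn_nodup (m : ℕ) : (connL m).Nodup := by
  unfold connL
  refine nodup_range_flatMap _ _ ?_ ?_
  · intro j _
    simp only [List.nodup_cons, List.mem_cons, Prod.mk.injEq, List.not_mem_nil, or_false,
      not_false_iff, List.nodup_nil, and_true]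
    omega
  · intro i _ j _ hij p hp hq
    simp only [List.mem_cons, List.not_mem_nil, or_false] at hp hq
    rcases hp with rfl | rfl | rfl | rfl | rfl <;> simp only [Prod.mk.injEq] at hq <;> omega

/-- bounds for the points of a clause gadget -/
theorem clause_mem {c : (Lit ℕ × Lit ℕ × Lit ℕ) × ℕ} {p : ℕ × ℕ} (hp : p ∈ clauseP c) :
    24 * c.2 + 9 ≤ p.1 ∧ p.1 ≤ 24 * c.2 + 25 ∧ (p.1 % 2 = 1 ∨ p.2 < 8) ∧
      (p.1 % 8 = 2 → p.1 % 24 = 18 ∧ p.2 < 8) := by
  unfold clauseP attP at hp
  simp only [List.mem_cons, List.not_mem_nil, or_false] at hp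
  rcases hp with rfl | rfl | rfl | rfl | rfl | rfl | rfl | rfl | rfl | rfl | rfl | rfl | rfl |
    rfl | rfl | rfl | rfl | rfl | rfl <;> simp only [] <;> omega

theorem clause_nodup (c : (Lit ℕ × Lit ℕ × Lit ℕ) × ℕ) : (clauseP c).Nodup := by
  unfold clauseP attP
  simp only [List.nodup_cons, List.mem_cons, Prod.mk.injEq, List.not_mem_nil, or_false,
    not_false_iff, List.nodup_nil, and_true]
  generalize rowOf c.1.1 = a
  generalize rowOf c.1.2.1 = b
  generalize rowOf c.1.2.2 = d
  refine ⟨?_, ?_, ?_, ?_, ?_, ?_, ?_, ?_, ?_, ?_, ?_, ?_, ?_, ?_, ?_, ?_, ?_, ?_⟩ <;> omega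

theorem zipIdx_pairwise (φ : Form) : φ.zipIdx.Pairwise (fun a b => a.2 ≠ b.2) := by
  rw [List.pairwise_iff_getElem]
  intro i j hi hj hij
  simp only [List.getElem_zipIdx]
  omega

theorem clauses_nodup (φ : Form) : (φ.zipIdx.flatMap clauseP).Nodup := by
  rw [List.nodup_flatMap]
  refine ⟨fun c _ => clause_nodup c, ?_⟩
  refine (zipIdx_pairwise φ).imp ?_
  intro a b hab p hp hq
  have h1 := clause_mem hp
  have h2 := clause_mem hq
  omega

end S2

/-- S2 -/
theorem core_nodup (φ : Form) : (core φ).Nodup := by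
  have hrow : ∀ p ∈ rowsL φ.length, p.2 % 8 = 0 ∧ 8 ≤ p.2 ∧ p.1 % 2 = 0 ∧ p.1 % 8 ≠ 2 ∧
      4 ≤ p.1 := by
    intro p hp
    simp only [rowsL, List.mem_flatMap, List.mem_range, List.mem_cons, List.not_mem_nil,
      or_false] at hp
    obtain ⟨a, _, b, _, rfl | rfl | rfl⟩ := hp <;> simp only [] <;> omega
  have hcross : ∀ p ∈ crossL φ.length, p.2 % 8 = 0 ∧ 8 ≤ p.2 ∧ p.1 % 8 = 2 ∧ 10 ≤ p.1 := by
    intro p hp
    simp only [crossL, List.mem_flatMap, List.mem_range, List.mem_map] at hp
    obtain ⟨a, _, b, _, rfl⟩ := hp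
    simp only []
    omega
  have hcol : ∀ p ∈ colsL φ.length, p.2 % 8 ≠ 0 ∧ p.1 % 8 = 2 ∧ 10 ≤ p.1 ∧ p.2 % 2 = 0 ∧
      (p.1 % 24 = 18 → 8 ≤ p.2) := by
    intro p hp
    simp only [colsL, List.mem_flatMap, List.mem_range] at hp
    obtain ⟨a, _, b, _, hp⟩ := hp
    split_ifs at hp with h
    · exact (List.not_mem_nil hp).elim
    · simp only [List.mem_cons, List.not_mem_nil, or_false] at hp
      rcases hp with rfl | rfl | rfl <;> simp only [] <;> omega
  have hcl : ∀ p ∈ φ.zipIdx.flatMap clauseP, 9 ≤ p.1 ∧ (p.1 % 2 = 1 ∨ p.2 < 8) ∧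
      (p.1 % 8 = 2 → p.1 % 24 = 18 ∧ p.2 < 8) := by
    intro p hp
    simp only [List.mem_flatMap] at hp
    obtain ⟨c, _, hp⟩ := hp
    have h := S2.clause_mem hp
    exact ⟨by omega, h.2.2.1, h.2.2.2⟩
  have hconn : ∀ p ∈ connL φ.length, p.1 = 2 ∨ p.1 = 3 := by
    intro p hp
    simp only [connL, List.mem_flatMap, List.mem_range, List.mem_cons, List.not_mem_nil,
      or_false] at hp
    obtain ⟨a, _, rfl | rfl | rfl | rfl | rfl⟩ := hp <;> simp
  unfold core
  rw [List.nodup_append', List.nodup_append', List.nodup_append', List.nodup_append']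
  refine ⟨S2.rows_nodup _, ⟨S2.cross_nodup _, ⟨S2.cols_nodup _, ⟨S2.clauses_nodup _,
    S2.conn_nodup _, ?_⟩, ?_⟩, ?_⟩, ?_⟩
  · intro p hp hq
    have h1 := hcl p hp
    have h2 := hconn p hq
    omega
  · intro p hp hq
    have h1 := hcol p hp
    rw [List.mem_append] at hq
    rcases hq with hq | hq
    · have h2 := hcl p hq
      omega
    · have h2 := hconn p hq
      omega
  · intro p hp hq
    have h1 := hcross p hp
    rw [List.mem_append, List.mem_append] at hq
    rcases hq with hq | hq | hq
    · have h2 := hcol p hq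
      omega
    · have h2 := hcl p hq
      omega
    · have h2 := hconn p hq
      omega
  · intro p hp hq
    have h1 := hrow p hp
    rw [List.mem_append, List.mem_append, List.mem_append] at hq
    rcases hq with hq | hq | hq | hq
    · have h2 := hcross p hq
      omega
    · have h2 := hcol p hq
      omega
    · have h2 := hcl p hq
      omega
    · have h2 := hconn p hq
      omega

end Pool.Agent.CK
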