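import Pool.Agent.H671R2.CK.CDefs

/-!
# S3: bounds for the core
-/

namespace Pool.Agent.CK

open Pool.Agent.NPC

/-- S3 -/
theorem core_bounds (m : ℕ) (φ : Form) (hφ : Norm m φ) :
    ∀ p ∈ core φ, p.1 % 2 = p.2 % 2 ∧ p.1 ≤ radius m ∧ p.2 ≤ radius m := by
  obtain ⟨hm, hlen, hvar⟩ := hφ
  intro p hp
  unfold core at hp
  rw [hlen] at hp
  simp only [List.mem_append] at hp
  unfold radius
  rcases hp with hp | hp | hp | hp | hp
  · unfold rowsL at hp
    simp only [List.mem_flatMap, List.mem_range, List.mem_cons, List.not_mem_nil, or_false] at hp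
    obtain ⟨ρ, hρ, j, hj, rfl | rfl | rfl⟩ := hp <;> refine ⟨?_, ?_, ?_⟩ <;> dsimp only <;> omega
  · unfold crossL at hp
    simp only [List.mem_flatMap, List.mem_range, List.mem_map] at hp
    obtain ⟨ρ, hρ, e, he, rfl⟩ := hp
    refine ⟨?_, ?_, ?_⟩ <;> dsimp only <;> omega
  · unfold colsL at hp
    simp only [List.mem_flatMap, List.mem_range] at hp
    obtain ⟨e, he, i, hi, hp⟩ := hp
    split_ifs at hp with h
    · simp at hp
    · simp only [List.mem_cons, List.not_mem_nil, or_false] at hp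
      rcases hp with rfl | rfl | rfl <;> refine ⟨?_, ?_, ?_⟩ <;> dsimp only <;> omega
  · rw [List.mem_flatMap] at hp
    obtain ⟨⟨⟨a, b, c⟩, j⟩, hc, hp⟩ := hp
    rw [List.mem_zipIdx_iff_getElem?] at hc
    have hc' : φ[j]? = some (a, b, c) := hc
    obtain ⟨hj, hcj⟩ := List.getElem?_eq_some_iff.1 hc'
    rw [hlen] at hj
    have hmem : (a, b, c) ∈ φ := by
      rw [← hcj]
      exact List.getElem_mem _
    obtain ⟨ha, hb, hcc⟩ := hvar _ hmem
    have hrow : ∀ l : Lit ℕ, l.2 < 3 * m → rowOf l ≤ 6 * m - 1 := by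
      intro l hl
      unfold rowOf
      split_ifs <;> omega
    have ra := hrow a ha
    have rb := hrow b hb
    have rc := hrow c hcc
    unfold clauseP attP at hp
    simp only [List.mem_cons, List.not_mem_nil, or_false] at hp
    rcases hp with rfl | rfl | rfl | rfl | rfl | rfl | rfl | rfl | rfl | rfl | rfl | rfl | rfl |
      rfl | rfl | rfl | rfl | rfl | rfl <;> refine ⟨?_, ?_, ?_⟩ <;> dsimp only <;> omega
  · unfold connL at hp
    simp only [List.mem_flatMap, List.mem_range, List.mem_cons, List.not_mem_nil, or_false] at hp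
    obtain ⟨v, hv, rfl | rfl | rfl | rfl | rfl⟩ := hp <;> refine ⟨?_, ?_, ?_⟩ <;> dsimp only <;>
      omega

end Pool.Agent.CK
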