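import Pool.Agent.H671R2.CK.SDefs

/-! S4: counting -/

namespace Pool.Agent.CK

open Pool.Agent.NPC

namespace S4

/-- number of members of a list in `T` -/
def cnt (T : Finset (ℕ × ℕ)) (l : List (ℕ × ℕ)) : ℕ := (l.filter (fun p => decide (p ∈ T))).length

/-- at most `B` members, and equality implies `P` -/
def Tight (T : Finset (ℕ × ℕ)) (l : List (ℕ × ℕ)) (B : ℕ) (P : Prop) : Prop :=
  cnt T l ≤ B ∧ (B ≤ cnt T l → P)

variable {T : Finset (ℕ × ℕ)}

theorem cnt_append (l l' : List (ℕ × ℕ)) : cnt T (l ++ l') = cnt T l + cnt T l' := by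
  simp [cnt]

theorem cnt_nil : cnt T [] = 0 := by simp [cnt]

theorem cnt_cons (p : ℕ × ℕ) (l : List (ℕ × ℕ)) :
    cnt T (p :: l) = (if p ∈ T then 1 else 0) + cnt T l := by
  unfold cnt
  by_cases h : p ∈ T
  · rw [List.filter_cons_of_pos (by simpa using h)]; simp [h]; omega
  · rw [List.filter_cons_of_neg (by simpa using h)]; simp [h]

theorem tight_append {l l' : List (ℕ × ℕ)} {B B' : ℕ} {P P' : Prop} (h : Tight T l B P)
    (h' : Tight T l' B' P') : Tight T (l ++ l') (B + B') (P ∧ P') := by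
  obtain ⟨h1, h2⟩ := h
  obtain ⟨h3, h4⟩ := h'
  unfold Tight
  rw [cnt_append]
  refine ⟨by omega, fun h => ⟨h2 (by omega), h4 (by omega)⟩⟩

theorem tight_nil {P : Prop} (h : P) : Tight T [] 0 P := ⟨by simp [cnt], fun _ => h⟩

theorem tight_range (n : ℕ) (g : ℕ → List (ℕ × ℕ)) (b : ℕ → ℕ) (P : ℕ → Prop)
    (h : ∀ x < n, Tight T (g x) (b x) (P x)) :
    Tight T ((List.range n).flatMap g) (∑ x ∈ Finset.range n, b x) (∀ x < n, P x) := by
  induction n with
  | zero => exact tight_nil (by intro x hx; omega)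
  | succ n ih =>
    rw [List.range_succ, List.flatMap_append, Finset.sum_range_succ]
    have h1 := ih (fun x hx => h x (by omega))
    have h2 := h n (by omega)
    have h3 : [n].flatMap g = g n := by simp
    rw [h3]
    obtain ⟨h4, h5⟩ := tight_append h1 h2
    refine ⟨h4, fun h6 x hx => ?_⟩
    obtain ⟨h7, h8⟩ := h5 h6
    rcases Nat.lt_succ_iff_lt_or_eq.1 hx with h | h
    · exact h7 x h
    · rw [h]; exact h8

theorem tight_list {α : Type} (l : List α) (g : α → List (ℕ × ℕ)) (b : ℕ) (P : α → Prop)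
    (h : ∀ x ∈ l, Tight T (g x) b (P x)) :
    Tight T (l.flatMap g) (l.length * b) (∀ x ∈ l, P x) := by
  induction l with
  | nil =>
    have : (([] : List α).flatMap g) = [] := rfl
    rw [this]
    have e : ([] : List α).length * b = 0 := by simp
    rw [e]
    exact tight_nil (by simp)
  | cons a l ih =>
    rw [List.flatMap_cons]
    have e : (a :: l).length * b = b + l.length * b := by rw [List.length_cons]; ring
    rw [e]
    have h1 := ih (fun x hx => h x (List.mem_cons_of_mem _ hx))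
    have h2 := h a List.mem_cons_self
    obtain ⟨h4, h5⟩ := tight_append h2 h1
    refine ⟨h4, fun h6 x hx => ?_⟩
    obtain ⟨h7, h8⟩ := h5 h6
    rcases List.mem_cons.1 hx with h | h
    · rw [h]; exact h7
    · exact h8 x h

theorem tight_single (p : ℕ × ℕ) : Tight T [p] 1 (p ∈ T) := by
  unfold Tight
  rw [cnt_cons, cnt_nil]
  by_cases h : p ∈ T
  · simp [h]
  · simp [h]

theorem tight_triple (hv : Valid T) {a b c : ℕ × ℕ} (h : Conf b c a) :
    Tight T [a, b, c] 2 (a ∈ T ∨ b ∈ T) := by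
  unfold Tight
  rw [cnt_cons, cnt_cons, cnt_cons, cnt_nil]
  have h1 : ¬ (b ∈ T ∧ c ∈ T ∧ a ∈ T) := fun h2 => hv b h2.1 c h2.2.1 a h2.2.2 h
  by_cases ha : a ∈ T <;> by_cases hb : b ∈ T <;> by_cases hc : c ∈ T <;> simp_all

theorem tight_tri (hv : Valid T) {a b c p q r : ℕ × ℕ} (h1 : Conf b p a) (h2 : Conf c q a)
    (h3 : Conf b r c) : Tight T [a, b, c, p, q, r] 4 (a ∈ T ∨ b ∈ T ∨ c ∈ T) := by
  unfold Tight
  rw [cnt_cons, cnt_cons, cnt_cons, cnt_cons, cnt_cons, cnt_cons, cnt_nil]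
  have e1 : ¬ (b ∈ T ∧ p ∈ T ∧ a ∈ T) := fun h => hv b h.1 p h.2.1 a h.2.2 h1
  have e2 : ¬ (c ∈ T ∧ q ∈ T ∧ a ∈ T) := fun h => hv c h.1 q h.2.1 a h.2.2 h2
  have e3 : ¬ (b ∈ T ∧ r ∈ T ∧ c ∈ T) := fun h => hv b h.1 r h.2.1 c h.2.2 h3
  by_cases ha : a ∈ T <;> by_cases hb : b ∈ T <;> by_cases hc : c ∈ T <;>
    by_cases hp : p ∈ T <;> by_cases hq : q ∈ T <;> by_cases hr : r ∈ T <;> simp_all

theorem tight_mono {l : List (ℕ × ℕ)} {B B' : ℕ} {P P' : Prop} (h : Tight T l B P) (hB : B = B')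
    (hP : P → P') : Tight T l B' P' := by
  subst hB
  exact ⟨h.1, fun h' => hP (h.2 h')⟩

theorem tight_rows (hv : Valid T) (m : ℕ) : Tight T (rowsL m) (36 * m ^ 2 + 12 * m)
    (∀ ρ < 6 * m, ∀ j < 3 * m + 1, (8 * j + 4, 8 * ρ + 8) ∈ T ∨ (8 * j + 8, 8 * ρ + 8) ∈ T) := by
  unfold rowsL
  refine tight_mono (tight_range (6 * m) _ (fun _ => (3 * m + 1) * 2)
    (fun ρ => ∀ j < 3 * m + 1, (8 * j + 4, 8 * ρ + 8) ∈ T ∨ (8 * j + 8, 8 * ρ + 8) ∈ T) ?_) ?_ id
  · intro ρ _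
    refine tight_mono (tight_range (3 * m + 1) _ (fun _ => 2)
      (fun j => (8 * j + 4, 8 * ρ + 8) ∈ T ∨ (8 * j + 8, 8 * ρ + 8) ∈ T) ?_) (by simp) id
    intro j _
    refine tight_triple hv ?_
    left
    refine ⟨?_, ?_, ?_, ?_, ?_, ?_⟩ <;> simp only [] <;> omega
  · simp
    ring

theorem tight_cross (m : ℕ) : Tight T (crossL m) (18 * m ^ 2)
    (∀ ρ < 6 * m, ∀ e < 3 * m, (8 * e + 10, 8 * ρ + 8) ∈ T) := by
  unfold crossL
  refine tight_mono (tight_range (6 * m) _ (fun _ => (3 * m))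
    (fun ρ => ∀ e < 3 * m, (8 * e + 10, 8 * ρ + 8) ∈ T) ?_) ?_ id
  · intro ρ _
    have e : (List.range (3 * m)).map (fun e => (8 * e + 10, 8 * ρ + 8)) =
        (List.range (3 * m)).flatMap (fun e => [(8 * e + 10, 8 * ρ + 8)]) := by
      rw [List.flatMap_def]
      induction (List.range (3 * m)) with
      | nil => rfl
      | cons a l ih => simp [ih]
    rw [e]
    refine tight_mono (tight_range (3 * m) _ (fun _ => 1)
      (fun e => (8 * e + 10, 8 * ρ + 8) ∈ T) ?_) (by simp) id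
    intro j _
    exact tight_single _
  · simp
    ring

theorem sum3 (m : ℕ) : ∑ e ∈ Finset.range (3 * m), (if e % 3 = 1 then 0 else 2) = 4 * m := by
  induction m with
  | zero => simp
  | succ m ih =>
    have e : 3 * (m + 1) = 3 * m + 1 + 1 + 1 := by ring
    rw [e, Finset.sum_range_succ, Finset.sum_range_succ, Finset.sum_range_succ, ih]
    have h1 : (3 * m) % 3 = 0 := by omega
    have h2 : (3 * m + 1) % 3 = 1 := by omega
    have h3 : (3 * m + 1 + 1) % 3 = 2 := by omega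
    rw [h1, h2, h3]
    simp
    ring

theorem tight_cols (hv : Valid T) (m : ℕ) : Tight T (colsL m) (36 * m ^ 2 + 4 * m)
    (∀ e < 3 * m, ∀ i < 6 * m + 1, ¬ (i = 0 ∧ e % 3 = 1) →
    (8 * e + 10, 8 * i + 2) ∈ T ∨ (8 * e + 10, 8 * i + 6) ∈ T) := by
  unfold colsL
  refine tight_mono (tight_range (3 * m) _
    (fun e => ∑ i ∈ Finset.range (6 * m + 1), (if i = 0 ∧ e % 3 = 1 then 0 else 2))
    (fun e => ∀ i < 6 * m + 1, ¬ (i = 0 ∧ e % 3 = 1) →
    (8 * e + 10, 8 * i + 2) ∈ T ∨ (8 * e + 10, 8 * i + 6) ∈ T) ?_) ?_ id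
  · intro e _
    refine tight_range (6 * m + 1) _ _ _ ?_
    intro i _
    by_cases h : i = 0 ∧ e % 3 = 1
    · rw [if_pos h, if_pos h]
      exact tight_nil (fun h' => absurd h h')
    · rw [if_neg h, if_neg h]
      refine tight_mono (tight_triple hv ?_) rfl (fun h' _ => h')
      right; left
      refine ⟨?_, ?_, ?_, ?_, ?_, ?_⟩ <;> simp only [] <;> omega
  · have h1 : ∀ e, ∑ i ∈ Finset.range (6 * m + 1), (if i = 0 ∧ e % 3 = 1 then 0 else 2) =
        12 * m + (if e % 3 = 1 then 0 else 2) := by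
      intro e
      rw [Finset.sum_range_succ']
      simp
      ring
    simp only [h1]
    rw [Finset.sum_add_distrib, sum3]
    simp
    ring

theorem tight_clause (hv : Valid T) (c : (Lit ℕ × Lit ℕ × Lit ℕ) × ℕ) : Tight T (clauseP c) 15
    (((24 * c.2 + 14, 2) ∈ T ∨ (24 * c.2 + 18, 2) ∈ T ∨ (24 * c.2 + 16, 0) ∈ T) ∧
      ((24 * c.2 + 20, 4) ∈ T ∨ (24 * c.2 + 18, 6) ∈ T) ∧
      ((24 * c.2 + 20, 0) ∈ T ∨ (24 * c.2 + 24, 0) ∈ T) ∧ (24 * c.2 + 12, 2) ∈ T ∧
      (24 * c.2 + 18, 0) ∈ T ∧ (24 * c.2 + 19, 3) ∈ T ∧ (24 * c.2 + 25, 1) ∈ T ∧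
      attP c.1.1 (3 * c.2) ∈ T ∧ attP c.1.2.1 (3 * c.2 + 1) ∈ T ∧
      attP c.1.2.2 (3 * c.2 + 2) ∈ T) := by
  have t1 : Tight T [(24 * c.2 + 14, 2), (24 * c.2 + 18, 2), (24 * c.2 + 16, 0),
      (24 * c.2 + 16, 2), (24 * c.2 + 15, 1), (24 * c.2 + 17, 1)] 4
      ((24 * c.2 + 14, 2) ∈ T ∨ (24 * c.2 + 18, 2) ∈ T ∨ (24 * c.2 + 16, 0) ∈ T) := by
    refine tight_tri hv ?_ ?_ ?_
    · left
      refine ⟨?_, ?_, ?_, ?_, ?_, ?_⟩ <;> simp only [] <;> omega
    · right; right; right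
      refine ⟨?_, ?_, ?_, ?_, ?_, ?_⟩ <;> simp only [] <;> omega
    · right; right; left
      refine ⟨?_, ?_, ?_, ?_, ?_, ?_⟩ <;> simp only [] <;> omega
  have t2 : Tight T [(24 * c.2 + 18, 6), (24 * c.2 + 20, 4), (24 * c.2 + 19, 5)] 2
      ((24 * c.2 + 18, 6) ∈ T ∨ (24 * c.2 + 20, 4) ∈ T) := by
    refine tight_triple hv ?_
    right; right; right
    refine ⟨?_, ?_, ?_, ?_, ?_, ?_⟩ <;> simp only [] <;> omega
  have t3 : Tight T [(24 * c.2 + 20, 0), (24 * c.2 + 24, 0), (24 * c.2 + 22, 0)] 2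
      ((24 * c.2 + 20, 0) ∈ T ∨ (24 * c.2 + 24, 0) ∈ T) := by
    refine tight_triple hv ?_
    left
    refine ⟨?_, ?_, ?_, ?_, ?_, ?_⟩ <;> simp only [] <;> omega
  have t4 := tight_single (T := T) (24 * c.2 + 12, 2)
  have t5 := tight_single (T := T) (24 * c.2 + 18, 0)
  have t6 := tight_single (T := T) (24 * c.2 + 19, 3)
  have t7 := tight_single (T := T) (24 * c.2 + 25, 1)
  have t8 := tight_single (T := T) (attP c.1.1 (3 * c.2))
  have t9 := tight_single (T := T) (attP c.1.2.1 (3 * c.2 + 1))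
  have t10 := tight_single (T := T) (attP c.1.2.2 (3 * c.2 + 2))
  have t2' : Tight T [(24 * c.2 + 20, 4), (24 * c.2 + 18, 6), (24 * c.2 + 19, 5)] 2
      ((24 * c.2 + 20, 4) ∈ T ∨ (24 * c.2 + 18, 6) ∈ T) := by
    have e : cnt T [(24 * c.2 + 20, 4), (24 * c.2 + 18, 6), (24 * c.2 + 19, 5)] =
        cnt T [(24 * c.2 + 18, 6), (24 * c.2 + 20, 4), (24 * c.2 + 19, 5)] := by
      simp only [cnt_cons]; omega
    unfold Tight at t2 ⊢
    rw [e]
    exact ⟨t2.1, fun h => (t2.2 h).symm⟩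
  have t := tight_append t1 (tight_append t2' (tight_append t3 (tight_append t4 (tight_append t5
    (tight_append t6 (tight_append t7 (tight_append t8 (tight_append t9 t10))))))))
  exact tight_mono t rfl id

theorem tight_conn (hv : Valid T) (m : ℕ) : Tight T (connL m) (12 * m)
    (∀ v < 3 * m, ((2, 16 * v + 10) ∈ T ∨ (2, 16 * v + 14) ∈ T) ∧ (3, 16 * v + 9) ∈ T ∧
      (3, 16 * v + 15) ∈ T) := by
  unfold connL
  refine tight_mono (tight_range (3 * m) _ (fun _ => 4) _ ?_) ?_ id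
  · intro v _
    have t1 : Tight T [(2, 16 * v + 10), (2, 16 * v + 14), (2, 16 * v + 12)] 2
        ((2, 16 * v + 10) ∈ T ∨ (2, 16 * v + 14) ∈ T) := by
      refine tight_triple hv ?_
      right; left
      refine ⟨?_, ?_, ?_, ?_, ?_, ?_⟩ <;> simp only [] <;> omega
    have t2 := tight_single (T := T) (3, 16 * v + 9)
    have t3 := tight_single (T := T) (3, 16 * v + 15)
    exact tight_mono (tight_append t1 (tight_append t2 t3)) rfl id
  · simp
    ring

end S4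

open S4 in
/-- S4: counting -/
theorem perfect_of_card (m : ℕ) (φ : Form) (hφ : Norm m φ) (T : Finset (ℕ × ℕ))
    (hT : T ⊆ (core φ).toFinset) (hv : Valid T) (hcard : target m ≤ T.card) : Perfect m φ T := by
  obtain ⟨hm, hlen, -⟩ := hφ
  have h1 : T.card ≤ cnt T (core φ) := by
    have h2 : T ⊆ ((core φ).filter (fun p => decide (p ∈ T))).toFinset := by
      intro p hp
      rw [List.mem_toFinset, List.mem_filter]
      exact ⟨List.mem_toFinset.1 (hT hp), by simpa using hp⟩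
    exact (Finset.card_le_card h2).trans (List.toFinset_card_le _)
  have tc := tight_list (T := T) φ.zipIdx clauseP 15 _ (fun c _ => tight_clause hv c)
  have t := tight_append (tight_rows hv m) (tight_append (tight_cross m)
    (tight_append (tight_cols hv m) (tight_append tc (tight_conn hv m))))
  have hcore : core φ = rowsL m ++ (crossL m ++ (colsL m ++ (φ.zipIdx.flatMap clauseP ++ connL m))) := by
    unfold core
    rw [hlen]
  rw [hcore] at h1
  have hsum : 36 * m ^ 2 + 12 * m + (18 * m ^ 2 + (36 * m ^ 2 + 4 * m +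
      ((φ.zipIdx).length * 15 + 12 * m))) = target m := by
    rw [List.length_zipIdx, hlen]
    unfold target
    ring
  obtain ⟨-, t2⟩ := t
  rw [hsum] at t2
  obtain ⟨hrow, hcross, hcol, hcl, hcon⟩ := t2 (hcard.trans h1)
  have hmem : ∀ j < m, ∃ c ∈ φ.zipIdx, c.2 = j := by
    intro j hj
    refine ⟨(φ[j]'(by omega), j), ?_, rfl⟩
    rw [List.mem_zipIdx_iff_getElem?]
    simp
  refine ⟨hrow, hcross, hcol, ?_, ?_, ?_, ?_, ?_, ?_, ?_, ?_, ?_, ?_, ?_⟩
  · intro j hj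
    obtain ⟨c, hc, rfl⟩ := hmem j hj
    exact (hcl c hc).1
  · intro j hj
    obtain ⟨c, hc, rfl⟩ := hmem j hj
    exact (hcl c hc).2.1
  · intro j hj
    obtain ⟨c, hc, rfl⟩ := hmem j hj
    exact (hcl c hc).2.2.1
  · intro j hj
    obtain ⟨c, hc, rfl⟩ := hmem j hj
    exact (hcl c hc).2.2.2.1
  · intro j hj
    obtain ⟨c, hc, rfl⟩ := hmem j hj
    exact (hcl c hc).2.2.2.2.1
  · intro j hj
    obtain ⟨c, hc, rfl⟩ := hmem j hj
    exact (hcl c hc).2.2.2.2.2.1
  · intro j hj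
    obtain ⟨c, hc, rfl⟩ := hmem j hj
    exact (hcl c hc).2.2.2.2.2.2.1
  · intro c hc
    exact (hcl c hc).2.2.2.2.2.2.2
  · intro v hv'
    exact (hcon v hv').1
  · intro v hv'
    exact (hcon v hv').2.1
  · intro v hv'
    exact (hcon v hv').2.2

end Pool.Agent.CK
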