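import Pool.Agent.H671R2.CK.SDefs

/-! Task S5 (helper457): a perfect selection gives a satisfying assignment. -/

namespace Pool.Agent.CK

open Pool.Agent.NPC

/-- a conflict -/
theorem S5_conf {T : Finset (ℕ × ℕ)} (hv : Valid T) {a c b : ℕ × ℕ} (ha : a ∈ T) (hc : c ∈ T)
    (h : Conf a c b) : b ∉ T := fun hb => hv a ha c hc b hb h

theorem S5_conf' {T : Finset (ℕ × ℕ)} (hv : Valid T) {a c b : ℕ × ℕ} (hb : b ∈ T) (hc : c ∈ T)
    (h : Conf a c b) : a ∉ T := fun ha => hv a ha c hc b hb h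

theorem S5_conn {m : ℕ} {φ : Form} {T : Finset (ℕ × ℕ)} (hv : Valid T) (hp : Perfect m φ T)
    {v : ℕ} (hvm : v < 3 * m) (h1 : (4, 16 * v + 8) ∈ T) (h2 : (4, 16 * v + 16) ∈ T) : False := by
  rcases hp.con v hvm with h | h
  · refine hv (4, 16 * v + 8) h1 (3, 16 * v + 9) (hp.c1 v hvm) (2, 16 * v + 10) h ?_
    right; right; right
    refine ⟨?_, ?_, rfl, rfl, rfl, rfl⟩
    · show 3 % 2 = 1
      norm_num
    · show (3 + (16 * v + 9)) % 4 = 0
      omega
  · refine hv (4, 16 * v + 16) h2 (3, 16 * v + 15) (hp.c2 v hvm) (2, 16 * v + 14) h ?_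
    right; right; left
    refine ⟨?_, ?_, rfl, rfl, rfl, rfl⟩
    · show 3 % 2 = 1
      norm_num
    · show (3 + (16 * v + 15)) % 4 = 2
      omega

/-- the columns -/
theorem S5_col {m : ℕ} {φ : Form} {T : Finset (ℕ × ℕ)} (hv : Valid T) (hp : Perfect m φ T)
    {e : ℕ} (he : e < 3 * m) (h6 : (8 * e + 10, 6) ∈ T) :
    ∀ i, i < 6 * m + 1 → (8 * e + 10, 8 * i + 6) ∈ T := by
  intro i
  induction i with
  | zero => intro _; simpa using h6
  | succ i ih =>
    intro hi
    have h1 := ih (by omega)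
    have h2 : (8 * e + 10, 8 * i + 10) ∉ T := by
      refine S5_conf' hv h1 (hp.cross i (by omega) e he) ?_
      right; left
      refine ⟨?_, ?_, rfl, rfl, rfl, rfl⟩
      · show (8 * e + 10) % 2 = 0
        omega
      · show (8 * e + 10 + (8 * i + 8)) % 4 = 2
        omega
    rcases hp.col e he (i + 1) hi (by omega) with h | h
    · have e1 : 8 * (i + 1) + 2 = 8 * i + 10 := by ring
      rw [e1] at h
      exact absurd h h2
    · exact h

/-- the rows -/
theorem S5_row {m : ℕ} {φ : Form} {T : Finset (ℕ × ℕ)} (hv : Valid T) (hp : Perfect m φ T)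
    {ρ : ℕ} (hρ : ρ < 6 * m) : ∀ j, j < 3 * m + 1 → (8 * j + 4, 8 * ρ + 8) ∈ T →
    (4, 8 * ρ + 8) ∈ T := by
  intro j
  induction j with
  | zero => intro _ h; simpa using h
  | succ j ih =>
    intro hj h
    apply ih (by omega)
    have h2 : (8 * j + 8, 8 * ρ + 8) ∉ T := by
      refine S5_conf hv (a := (8 * (j + 1) + 4, 8 * ρ + 8)) h (hp.cross ρ hρ j (by omega)) ?_
      left
      refine ⟨?_, ?_, ?_, ?_, rfl, rfl⟩
      · show (8 * j + 10) % 2 = 0
        omega
      · show (8 * j + 10 + (8 * ρ + 8)) % 4 = 2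
        omega
      · show 8 * (j + 1) + 4 = 8 * j + 10 + 2
        ring
      · show 8 * j + 10 = 8 * j + 8 + 2
        ring
    rcases hp.row ρ hρ j (by omega) with h3 | h3
    · exact h3
    · exact absurd h3 h2

theorem S5_lit {m : ℕ} {φ : Form} {T : Finset (ℕ × ℕ)} (hv : Valid T) (hp : Perfect m φ T)
    (l : Lit ℕ) (hl : l.2 < 3 * m) {e : ℕ} (he : e < 3 * m) (h6 : (8 * e + 10, 6) ∈ T)
    (hatt : attP l e ∈ T) : decide ((4, 16 * l.2 + 8) ∈ T) = l.1 := by
  have hρ : rowOf l < 6 * m := by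
    unfold rowOf
    split_ifs <;> omega
  have h1 := S5_col hv hp he h6 (rowOf l) (by omega)
  have h2 : (8 * e + 8, 8 * rowOf l + 8) ∉ T := by
    refine S5_conf hv h1 hatt ?_
    right; right; right
    refine ⟨?_, ?_, rfl, rfl, rfl, rfl⟩
    · show (8 * e + 9) % 2 = 1
      omega
    · show (8 * e + 9 + (8 * rowOf l + 7)) % 4 = 0
      omega
  have h3 : (8 * e + 4, 8 * rowOf l + 8) ∈ T := by
    rcases hp.row (rowOf l) hρ e (by omega) with h | h
    · exact h
    · exact absurd h h2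
  have h4 := S5_row hv hp hρ e (by omega) h3
  obtain ⟨b, v⟩ := l
  cases b with
  | true =>
    have e1 : 8 * rowOf ((true, v) : Lit ℕ) + 8 = 16 * v + 8 := by simp [rowOf]; ring
    rw [e1] at h4
    exact decide_eq_true h4
  | false =>
    have e1 : 8 * rowOf ((false, v) : Lit ℕ) + 8 = 16 * v + 16 := by simp [rowOf]; ring
    rw [e1] at h4
    exact decide_eq_false fun h => S5_conn hv hp hl h h4

/-- S5: a perfect selection gives a satisfying assignment -/
theorem sat_of_perfect (m : ℕ) (φ : Form) (hφ : Norm m φ) (T : Finset (ℕ × ℕ)) (hv : Valid T)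
    (hp : Perfect m φ T) : SAT3 φ := by
  refine ⟨fun v => decide ((4, 16 * v + 8) ∈ T), ?_⟩
  intro c hc
  obtain ⟨j, hj, hcj⟩ := List.getElem_of_mem hc
  have hjm : j < m := by rw [← hφ.2.1]; exact hj
  have hz : (c, j) ∈ φ.zipIdx := by
    rw [List.mem_zipIdx_iff_getElem?]
    simp [hcj, hj]
  obtain ⟨a1, a2, a3⟩ := hp.att (c, j) hz
  obtain ⟨v1, v2, v3⟩ := hφ.2.2 c hc
  rcases hp.tri j hjm with h | h | h
  · left
    apply S5_lit hv hp c.1 v1 (e := 3 * j) (by omega) _ a1
    have h2 : (8 * (3 * j) + 10, 2) ∉ T := by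
      refine S5_conf hv h (hp.s1 j hjm) ?_
      left
      refine ⟨?_, ?_, rfl, ?_, rfl, rfl⟩
      · show (24 * j + 12) % 2 = 0
        omega
      · show (24 * j + 12 + 2) % 4 = 2
        omega
      · show 24 * j + 12 = 8 * (3 * j) + 10 + 2
        ring
    rcases hp.col (3 * j) (by omega) 0 (by omega) (by omega) with h3 | h3
    · exact absurd (by simpa using h3) h2
    · simpa using h3
  · right; left
    apply S5_lit hv hp c.2.1 v2 (e := 3 * j + 1) (by omega) _ a2
    have h2 : (24 * j + 20, 4) ∉ T := by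
      refine S5_conf' hv h (hp.s3 j hjm) ?_
      right; right; left
      refine ⟨?_, ?_, rfl, rfl, rfl, rfl⟩
      · show (24 * j + 19) % 2 = 1
        omega
      · show (24 * j + 19 + 3) % 4 = 2
        omega
    rcases hp.p1 j hjm with h3 | h3
    · exact absurd h3 h2
    · have e1 : 8 * (3 * j + 1) + 10 = 24 * j + 18 := by ring
      rw [e1]; exact h3
  · right; right
    apply S5_lit hv hp c.2.2 v3 (e := 3 * j + 2) (by omega) _ a3
    have h2 : (24 * j + 20, 0) ∉ T := by
      refine S5_conf' hv h (hp.s2 j hjm) ?_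
      left
      refine ⟨?_, ?_, rfl, rfl, rfl, rfl⟩
      · show (24 * j + 18) % 2 = 0
        omega
      · show (24 * j + 18 + 0) % 4 = 2
        omega
    have h3 : (24 * j + 24, 0) ∈ T := (hp.p2 j hjm).resolve_left h2
    have h4 : (24 * j + 26, 2) ∉ T := by
      refine S5_conf' hv h3 (hp.s4 j hjm) ?_
      right; right; left
      refine ⟨?_, ?_, rfl, rfl, rfl, rfl⟩
      · show (24 * j + 25) % 2 = 1
        omega
      · show (24 * j + 25 + 1) % 4 = 2
        omega
    have e1 : 8 * (3 * j + 2) + 10 = 24 * j + 26 := by ring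
    rcases hp.col (3 * j + 2) (by omega) 0 (by omega) (by omega) with h5 | h5
    · rw [e1] at h5
      exact absurd (by simpa using h5) h4
    · rw [e1] at h5 ⊢
      simpa using h5

end Pool.Agent.CK
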