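import Pool.Agent.H671R2.CK.SDefs

/-!
# S6: choice of the active columns
-/

namespace Pool.Agent.CK

open Pool.Agent.NPC

/-- S6 -/
theorem exists_act (φ : Form) (h : SAT3 φ) : ∃ τ act, Act φ τ act := by
  classical
  obtain ⟨τ, hτ⟩ := h
  -- the index of a true literal
  have hex : ∀ j : ℕ, ∃ i : ℕ, i < 3 ∧ ∀ hj : j < φ.length,
      (i = 0 → τ (φ[j]).1.2 = (φ[j]).1.1) ∧ (i = 1 → τ (φ[j]).2.1.2 = (φ[j]).2.1.1) ∧
      (i = 2 → τ (φ[j]).2.2.2 = (φ[j]).2.2.1) := by
    intro j
    by_cases hj : j < φ.length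
    · rcases hτ _ (List.getElem_mem hj) with h | h | h
      · exact ⟨0, by norm_num, fun _ => ⟨fun _ => h, by omega, by omega⟩⟩
      · exact ⟨1, by norm_num, fun _ => ⟨by omega, fun _ => h, by omega⟩⟩
      · exact ⟨2, by norm_num, fun _ => ⟨by omega, by omega, fun _ => h⟩⟩
    · exact ⟨0, by norm_num, fun h => absurd h hj⟩
  choose ix hix hlit using hex
  refine ⟨τ, fun e => decide (e % 3 = ix (e / 3)), ?_, ?_⟩
  · intro c hc
    obtain ⟨cl, j⟩ := c
    rw [List.mem_zipIdx_iff_getElem?] at hc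
    simp only at hc ⊢
    obtain ⟨hj, hcl⟩ := List.getElem?_eq_some_iff.mp hc
    obtain ⟨h0, h1, h2⟩ := hlit j hj
    rw [hcl] at h0 h1 h2
    have e0 : 3 * j % 3 = 0 := by omega
    have e1 : (3 * j + 1) % 3 = 1 := by omega
    have e2 : (3 * j + 2) % 3 = 2 := by omega
    have d0 : 3 * j / 3 = j := by omega
    have d1 : (3 * j + 1) / 3 = j := by omega
    have d2 : (3 * j + 2) / 3 = j := by omega
    simp only [e0, e1, e2, d0, d1, d2, decide_eq_true_eq]
    exact ⟨fun h => h0 h.symm, fun h => h1 h.symm, fun h => h2 h.symm⟩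
  · intro j _
    have e0 : 3 * j % 3 = 0 := by omega
    have e1 : (3 * j + 1) % 3 = 1 := by omega
    have e2 : (3 * j + 2) % 3 = 2 := by omega
    have d0 : 3 * j / 3 = j := by omega
    have d1 : (3 * j + 1) / 3 = j := by omega
    have d2 : (3 * j + 2) / 3 = j := by omega
    simp only [e0, e1, e2, d0, d1, d2, decide_eq_true_eq, decide_eq_false_iff_not]
    have := hix j
    omega

end Pool.Agent.CK
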