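import Pool.Agent.H671R2.CK.S8

/-!
# S7: the selected points have no conflict
-/

namespace Pool.Agent.CK

open Pool.Agent.NPC

/-- the kinds of points of the core -/
inductive Kind (φ : Form) : ℕ × ℕ → Prop
  | r1 (j ρ : ℕ) : Kind φ (8 * j + 4, 8 * ρ + 8)
  | r2 (j ρ : ℕ) : Kind φ (8 * j + 8, 8 * ρ + 8)
  | r3 (j ρ : ℕ) : Kind φ (8 * j + 6, 8 * ρ + 8)
  | x (e ρ : ℕ) : Kind φ (8 * e + 10, 8 * ρ + 8)
  | c1 (e i : ℕ) (h : ¬ (i = 0 ∧ e % 3 = 1)) : Kind φ (8 * e + 10, 8 * i + 2)
  | c2 (e i : ℕ) : Kind φ (8 * e + 10, 8 * i + 6)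
  | c3 (e i : ℕ) (h : ¬ (i = 0 ∧ e % 3 = 1)) : Kind φ (8 * e + 10, 8 * i + 4)
  | k1 (j : ℕ) (hj : j < φ.length) : Kind φ (24 * j + 14, 2)
  | k2 (j : ℕ) (hj : j < φ.length) : Kind φ (24 * j + 18, 2)
  | k3 (j : ℕ) (hj : j < φ.length) : Kind φ (24 * j + 16, 0)
  | k4 (j : ℕ) (hj : j < φ.length) : Kind φ (24 * j + 16, 2)
  | k5 (j : ℕ) (hj : j < φ.length) : Kind φ (24 * j + 15, 1)
  | k6 (j : ℕ) (hj : j < φ.length) : Kind φ (24 * j + 17, 1)
  | k7 (j : ℕ) (hj : j < φ.length) : Kind φ (24 * j + 20, 4)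
  | k8 (j : ℕ) (hj : j < φ.length) : Kind φ (24 * j + 18, 6)
  | k9 (j : ℕ) (hj : j < φ.length) : Kind φ (24 * j + 19, 5)
  | k10 (j : ℕ) (hj : j < φ.length) : Kind φ (24 * j + 20, 0)
  | k11 (j : ℕ) (hj : j < φ.length) : Kind φ (24 * j + 24, 0)
  | k12 (j : ℕ) (hj : j < φ.length) : Kind φ (24 * j + 22, 0)
  | k13 (j : ℕ) (hj : j < φ.length) : Kind φ (24 * j + 12, 2)
  | k14 (j : ℕ) (hj : j < φ.length) : Kind φ (24 * j + 18, 0)
  | k15 (j : ℕ) (hj : j < φ.length) : Kind φ (24 * j + 19, 3)
  | k16 (j : ℕ) (hj : j < φ.length) : Kind φ (24 * j + 25, 1)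
  | a (l : Lit ℕ) (e : ℕ) (h : ∀ τ act, Act φ τ act → act e = true → τ l.2 = l.1) :
      Kind φ (8 * e + 9, 8 * rowOf l + 7)
  | v1 (v : ℕ) : Kind φ (2, 16 * v + 10)
  | v2 (v : ℕ) : Kind φ (2, 16 * v + 14)
  | v3 (v : ℕ) : Kind φ (2, 16 * v + 12)
  | v4 (v : ℕ) : Kind φ (3, 16 * v + 9)
  | v5 (v : ℕ) : Kind φ (3, 16 * v + 15)

theorem kind_of_mem (φ : Form) (p : ℕ × ℕ) (hp : p ∈ core φ) : Kind φ p := by
  unfold core at hp
  simp only [List.mem_append] at hp
  rcases hp with hp | hp | hp | hp | hp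
  · unfold rowsL at hp
    simp only [List.mem_flatMap, List.mem_range, List.mem_cons, List.not_mem_nil, or_false] at hp
    obtain ⟨ρ, hρ, j, hj, rfl | rfl | rfl⟩ := hp
    · exact Kind.r1 j ρ
    · exact Kind.r2 j ρ
    · exact Kind.r3 j ρ
  · unfold crossL at hp
    simp only [List.mem_flatMap, List.mem_range, List.mem_map] at hp
    obtain ⟨ρ, hρ, e, he, rfl⟩ := hp
    exact Kind.x e ρ
  · unfold colsL at hp
    simp only [List.mem_flatMap, List.mem_range] at hp
    obtain ⟨e, he, i, hi, hp⟩ := hp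
    split_ifs at hp with h
    · simp at hp
    · simp only [List.mem_cons, List.not_mem_nil, or_false] at hp
      rcases hp with rfl | rfl | rfl
      · exact Kind.c1 e i h
      · exact Kind.c2 e i
      · exact Kind.c3 e i h
  · rw [List.mem_flatMap] at hp
    obtain ⟨⟨⟨a, b, c⟩, j⟩, hc, hp⟩ := hp
    have hc0 := hc
    rw [List.mem_zipIdx_iff_getElem?] at hc
    have hc' : φ[j]? = some (a, b, c) := hc
    obtain ⟨hj, hcj⟩ := List.getElem?_eq_some_iff.1 hc'
    unfold clauseP attP at hp
    simp only [List.mem_cons, List.not_mem_nil, or_false] at hp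
    rcases hp with rfl | rfl | rfl | rfl | rfl | rfl | rfl | rfl | rfl | rfl | rfl | rfl | rfl |
      rfl | rfl | rfl | rfl | rfl | rfl
    · exact Kind.k1 j hj
    · exact Kind.k2 j hj
    · exact Kind.k3 j hj
    · exact Kind.k4 j hj
    · exact Kind.k5 j hj
    · exact Kind.k6 j hj
    · exact Kind.k7 j hj
    · exact Kind.k8 j hj
    · exact Kind.k9 j hj
    · exact Kind.k10 j hj
    · exact Kind.k11 j hj
    · exact Kind.k12 j hj
    · exact Kind.k13 j hj
    · exact Kind.k14 j hj
    · exact Kind.k15 j hj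
    · exact Kind.k16 j hj
    · exact Kind.a a (3 * j) fun τ act h => (h.lit _ hc0).1
    · exact Kind.a b (3 * j + 1) fun τ act h => (h.lit _ hc0).2.1
    · exact Kind.a c (3 * j + 2) fun τ act h => (h.lit _ hc0).2.2
  · unfold connL at hp
    simp only [List.mem_flatMap, List.mem_range, List.mem_cons, List.not_mem_nil, or_false] at hp
    obtain ⟨v, hv, rfl | rfl | rfl | rfl | rfl⟩ := hp
    · exact Kind.v1 v
    · exact Kind.v2 v
    · exact Kind.v3 v
    · exact Kind.v4 v
    · exact Kind.v5 v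

theorem kind_n1 {φ : Form} {p : ℕ × ℕ} (h : Kind φ p) (h1 : p.1 % 8 = 6) (h2 : p.2 % 8 = 2) :
    p.2 = 2 := by
  cases h <;> simp only at h1 h2 ⊢ <;> omega

theorem kind_n2 {φ : Form} {p : ℕ × ℕ} (h : Kind φ p) (h2 : p.2 % 8 = 4) : p.1 % 8 ≠ 0 := by
  cases h <;> simp only at h2 ⊢ <;> omega

theorem kind_n3 {φ : Form} {p : ℕ × ℕ} (h : Kind φ p) (h2 : p.2 = 0) : p.1 % 24 ≠ 12 := by
  cases h <;> simp only at h2 ⊢ <;> omega

theorem kind_n4 {φ : Form} {p : ℕ × ℕ} (h : Kind φ p) : p.1 ≠ 0 := by
  cases h <;> simp only <;> omega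

/-- two points with opposite choices -/
theorem opp {τ act : ℕ → Bool} {a b a' b' : ℕ × ℕ} {u v : Bool} (ha : chosen τ act a = true)
    (hb : chosen τ act b = true) (e1 : a = a') (e2 : b = b') (h1 : chosen τ act a' = u)
    (h2 : chosen τ act b' = v) (huv : ¬ (u = true ∧ v = true)) : False := by
  subst e1 e2
  exact huv ⟨h1 ▸ ha, h2 ▸ hb⟩

theorem not_act {φ : Form} {τ act : ℕ → Bool} (h : Act φ τ act) {j : ℕ} (hj : j < φ.length) :
    ¬ (act (3 * j) = true ∧ act (3 * j + 1) = true) ∧
    ¬ (act (3 * j) = true ∧ act (3 * j + 2) = true) ∧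
    ¬ (act (3 * j + 1) = true ∧ act (3 * j + 2) = true) := by
  rcases h.one j hj with ⟨h1, h2, h3⟩ | ⟨h1, h2, h3⟩ | ⟨h1, h2, h3⟩ <;> simp [h1, h2, h3]

theorem pe {a : ℕ × ℕ} {x y : ℕ} (h1 : a.1 = x) (h2 : a.2 = y) : a = (x, y) := Prod.ext h1 h2

theorem no_conf {φ : Form} {τ act : ℕ → Bool} (h : Act φ τ act) {a c b : ℕ × ℕ} (ka : Kind φ a)
    (kc : Kind φ c) (kb : Kind φ b) (ha : chosen τ act a = true) (hb : chosen τ act b = true)
    (hC : Conf a c b) : False := by
  have bn : ∀ u : Bool, ¬ (u = true ∧ (!u) = true) := by intro u; cases u <;> simp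
  have nb : ∀ u : Bool, ¬ ((!u) = true ∧ u = true) := by intro u; cases u <;> simp
  unfold Conf at hC
  cases kc with
  | r1 j ρ => simp only at hC; omega
  | r2 j ρ => simp only at hC; omega
  | r3 j ρ =>
    simp only at hC
    rcases hC with hC | hC | hC | hC
    · exact opp ha hb (pe (y := 8 * ρ + 8) (x := 8 * j + 8) (by omega) (by omega))
        (pe (y := 8 * ρ + 8) (x := 8 * j + 4) (by omega) (by omega))
        (ch_row2 τ act j ρ) (ch_row1 τ act j ρ) (nb _)
    · have := kind_n1 ka (by omega) (by omega)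
      omega
    · omega
    · omega
  | x e ρ =>
    simp only at hC
    rcases hC with hC | hC | hC | hC
    · exact opp ha hb (pe (y := 8 * ρ + 8) (x := 8 * (e + 1) + 4) (by omega) (by omega))
        (pe (y := 8 * ρ + 8) (x := 8 * e + 8) (by omega) (by omega))
        (ch_row1 τ act (e + 1) ρ) (ch_row2 τ act e ρ) (bn _)
    · exact opp ha hb (pe (y := 8 * (ρ + 1) + 2) (x := 8 * e + 10) (by omega) (by omega))
        (pe (y := 8 * ρ + 6) (x := 8 * e + 10) (by omega) (by omega))
        (ch_col1 τ act e (ρ + 1) (by omega)) (ch_col2 τ act e ρ) (nb _)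
    · omega
    · omega
  | c1 e i hi => simp only at hC; omega
  | c2 e i => simp only at hC; omega
  | c3 e i hi =>
    simp only at hC
    rcases hC with hC | hC | hC | hC
    · exact kind_n2 kb (by omega) (by omega)
    · exact opp ha hb (pe (y := 8 * i + 6) (x := 8 * e + 10) (by omega) (by omega))
        (pe (y := 8 * i + 2) (x := 8 * e + 10) (by omega) (by omega))
        (ch_col2 τ act e i) (ch_col1 τ act e i hi) (bn _)
    · omega
    · omega
  | k1 j hj => simp only at hC; omega
  | k2 j hj => simp only at hC; omega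
  | k3 j hj => simp only at hC; omega
  | k4 j hj =>
    simp only at hC
    rcases hC with hC | hC | hC | hC
    · exact opp ha hb (pe (y := 2) (x := 24 * j + 18) (by omega) (by omega))
        (pe (y := 2) (x := 24 * j + 14) (by omega) (by omega))
        (ch_c2 τ act j) (ch_c1 τ act j) (fun hh => (not_act h hj).1 ⟨hh.2, hh.1⟩)
    · exact kind_n2 ka (by omega) (by omega)
    · omega
    · omega
  | k5 j hj =>
    simp only at hC
    rcases hC with hC | hC | hC | hC
    · omega
    · omega
    · omega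
    · exact opp ha hb (pe (y := 0) (x := 24 * j + 16) (by omega) (by omega))
        (pe (y := 2) (x := 24 * j + 14) (by omega) (by omega))
        (ch_c3 τ act j) (ch_c1 τ act j) (fun hh => (not_act h hj).2.1 ⟨hh.2, hh.1⟩)
  | k6 j hj =>
    simp only at hC
    rcases hC with hC | hC | hC | hC
    · omega
    · omega
    · exact opp ha hb (pe (y := 2) (x := 24 * j + 18) (by omega) (by omega))
        (pe (y := 0) (x := 24 * j + 16) (by omega) (by omega))
        (ch_c2 τ act j) (ch_c3 τ act j) (not_act h hj).2.2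
    · omega
  | k7 j hj => simp only at hC; omega
  | k8 j hj => simp only at hC; omega
  | k9 j hj =>
    simp only at hC
    rcases hC with hC | hC | hC | hC
    · omega
    · omega
    · omega
    · exact opp ha hb (pe (y := 4) (x := 24 * j + 20) (by omega) (by omega))
        (pe (y := 6) (x := 24 * j + 18) (by omega) (by omega))
        (ch_c4 τ act j) (ch_c5 τ act j) (nb _)
  | k10 j hj => simp only at hC; omega
  | k11 j hj => simp only at hC; omega
  | k12 j hj =>
    simp only at hC
    rcases hC with hC | hC | hC | hC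
    · exact opp ha hb (pe (y := 0) (x := 24 * j + 24) (by omega) (by omega))
        (pe (y := 0) (x := 24 * j + 20) (by omega) (by omega))
        (ch_c7 τ act j) (ch_c6 τ act j) (bn _)
    · omega
    · omega
    · omega
  | k13 j hj =>
    simp only at hC
    rcases hC with hC | hC | hC | hC
    · refine opp ha hb (pe (y := 2) (x := 24 * j + 14) (by omega) (by omega))
        (pe (y := 8 * 0 + 2) (x := 8 * (3 * j) + 10) (by omega) (by omega))
        (ch_c1 τ act j) (ch_col1 τ act (3 * j) 0 (by omega)) ?_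
      have : (8 * (3 * j) + 10 - 10) / 8 = 3 * j := by omega
      rw [this]
      exact bn _
    · exact kind_n3 kb (by omega) (by omega)
    · omega
    · omega
  | k14 j hj =>
    simp only at hC
    rcases hC with hC | hC | hC | hC
    · exact opp ha hb (pe (y := 0) (x := 24 * j + 20) (by omega) (by omega))
        (pe (y := 0) (x := 24 * j + 16) (by omega) (by omega))
        (ch_c6 τ act j) (ch_c3 τ act j) (nb _)
    · omega
    · omega
    · omega
  | k15 j hj =>
    simp only at hC
    rcases hC with hC | hC | hC | hC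
    · omega
    · omega
    · exact opp ha hb (pe (y := 4) (x := 24 * j + 20) (by omega) (by omega))
        (pe (y := 2) (x := 24 * j + 18) (by omega) (by omega))
        (ch_c4 τ act j) (ch_c2 τ act j) (nb _)
    · omega
  | k16 j hj =>
    simp only at hC
    rcases hC with hC | hC | hC | hC
    · omega
    · omega
    · refine opp ha hb (pe (y := 8 * 0 + 2) (x := 8 * (3 * j + 2) + 10) (by omega) (by omega))
        (pe (y := 0) (x := 24 * j + 24) (by omega) (by omega))
        (ch_col1 τ act (3 * j + 2) 0 (by omega)) (ch_c7 τ act j) ?_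
      have : (8 * (3 * j + 2) + 10 - 10) / 8 = 3 * j + 2 := by omega
      rw [this]
      exact nb _
    · omega
  | a l e hl =>
    simp only at hC
    rcases hC with hC | hC | hC | hC
    · omega
    · omega
    · omega
    · refine opp ha hb (pe (y := 8 * rowOf l + 6) (x := 8 * e + 10) (by omega) (by omega))
        (pe (y := 8 * rowOf l + 8) (x := 8 * e + 8) (by omega) (by omega))
        (ch_col2 τ act e _) (ch_row2 τ act e _) ?_
      have e1 : (8 * e + 10 - 10) / 8 = e := by omega
      rw [e1]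
      rintro ⟨h1, h2⟩
      have h3 := hl τ act h h1
      have h4 : (8 * rowOf l + 8 - 8) / 16 = l.2 := by
        unfold rowOf
        split_ifs <;> omega
      have h5 : decide ((8 * rowOf l + 8 - 8) % 16 = 0) = l.1 := by
        unfold rowOf
        cases l.1
        · simp only [Bool.false_eq_true, if_false]
          exact decide_eq_false (by omega)
        · simp only [if_true]
          exact decide_eq_true (by omega)
      rw [h4, h5, h3] at h2
      simp at h2
  | v1 v => simp only at hC; omega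
  | v2 v => simp only at hC; omega
  | v3 v =>
    simp only at hC
    rcases hC with hC | hC | hC | hC
    · exact kind_n4 kb (by omega)
    · exact opp ha hb (pe (y := 16 * v + 14) (x := 2) (by omega) (by omega))
        (pe (y := 16 * v + 10) (x := 2) (by omega) (by omega))
        (ch_v2 τ act v) (ch_v1 τ act v) (bn _)
    · omega
    · omega
  | v4 v =>
    simp only at hC
    rcases hC with hC | hC | hC | hC
    · omega
    · omega
    · omega
    · refine opp ha hb (pe (y := 8 * (2 * v) + 8) (x := 8 * 0 + 4) (by omega) (by omega))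
        (pe (y := 16 * v + 10) (x := 2) (by omega) (by omega))
        (ch_row1 τ act 0 (2 * v)) (ch_v1 τ act v) ?_
      have h4 : (8 * (2 * v) + 8 - 8) / 16 = v := by omega
      have h5 : decide ((8 * (2 * v) + 8 - 8) % 16 = 0) = true := decide_eq_true (by omega)
      rw [h4, h5]
      cases τ v <;> simp
  | v5 v =>
    simp only at hC
    rcases hC with hC | hC | hC | hC
    · omega
    · omega
    · refine opp ha hb (pe (y := 8 * (2 * v + 1) + 8) (x := 8 * 0 + 4) (by omega) (by omega))
        (pe (y := 16 * v + 14) (x := 2) (by omega) (by omega))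
        (ch_row1 τ act 0 (2 * v + 1)) (ch_v2 τ act v) ?_
      have h4 : (8 * (2 * v + 1) + 8 - 8) / 16 = v := by omega
      have h5 : decide ((8 * (2 * v + 1) + 8 - 8) % 16 = 0) = false := decide_eq_false (by omega)
      rw [h4, h5]
      cases τ v <;> simp
    · omega

/-- S7 -/
theorem chosen_valid (m : ℕ) (φ : Form) (hφ : Norm m φ) (τ act : ℕ → Bool) (h : Act φ τ act) :
    Valid ((core φ).toFinset.filter (fun p => chosen τ act p = true)) := by
  intro a ha c hc b hb hC
  simp only [Finset.mem_filter, List.mem_toFinset] at ha hb hc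
  exact no_conf h (kind_of_mem φ a ha.1) (kind_of_mem φ c hc.1) (kind_of_mem φ b hb.1) ha.2 hb.2 hC

end Pool.Agent.CK
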