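import Pool.Agent.H671R2.CK.SDefs
import Pool.Agent.H671R2.CK.CDefs
import Pool.Agent.H671R2.PolyAuto
import Pool.Agent.NPC.Dec

/-!
# The number of selected points
-/

namespace Pool.Agent.CK

open Pool.Agent.NPC
section

variable (τ act : ℕ → Bool)

theorem ch_true {p : ℕ × ℕ} (h : p.1 % 2 = 1 ∨ (p.1 + p.2) % 4 = 2) : chosen τ act p = true := by
  unfold chosen
  rw [if_pos h]

theorem ch_row1 (j ρ : ℕ) : chosen τ act (8 * j + 4, 8 * ρ + 8) =
    (τ ((8 * ρ + 8 - 8) / 16) == decide ((8 * ρ + 8 - 8) % 16 = 0)) := by
  unfold chosen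
  rw [if_neg (by simp only; omega), if_neg (by simp only; omega), if_neg (by simp only; omega),
    if_neg (by simp only; omega), if_pos (by simp only; omega)]
  have : decide ((8 * j + 4) % 8 = 4) = true := decide_eq_true (by omega)
  simp only [this]
  exact Bool.true_beq _

theorem ch_row2 (j ρ : ℕ) : chosen τ act (8 * j + 8, 8 * ρ + 8) =
    !(τ ((8 * ρ + 8 - 8) / 16) == decide ((8 * ρ + 8 - 8) % 16 = 0)) := by
  unfold chosen
  rw [if_neg (by simp only; omega), if_neg (by simp only; omega), if_neg (by simp only; omega),
    if_neg (by simp only; omega), if_pos (by simp only; omega)]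
  have : decide ((8 * j + 8) % 8 = 4) = false := decide_eq_false (by omega)
  simp only [this]
  exact Bool.false_beq _

theorem ch_col1 (e i : ℕ) (h : ¬ (i = 0 ∧ e % 3 = 1)) :
    chosen τ act (8 * e + 10, 8 * i + 2) = !act ((8 * e + 10 - 10) / 8) := by
  unfold chosen
  rw [if_neg (by simp only; omega), if_neg (by simp only; omega), if_neg (by simp only; omega),
    if_neg (by simp only; omega), if_neg (by simp only; omega), if_neg (by simp only; omega),
    if_neg (by simp only; omega)]
  have : decide ((8 * i + 2) % 8 = 6) = false := decide_eq_false (by omega)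
  simp only [this]
  exact Bool.false_beq _

theorem ch_col2 (e i : ℕ) :
    chosen τ act (8 * e + 10, 8 * i + 6) = act ((8 * e + 10 - 10) / 8) := by
  unfold chosen
  rw [if_neg (by simp only; omega), if_neg (by simp only; omega), if_neg (by simp only; omega),
    if_neg (by simp only; omega), if_neg (by simp only; omega), if_neg (by simp only; omega),
    if_neg (by simp only; omega)]
  have : decide ((8 * i + 6) % 8 = 6) = true := decide_eq_true (by omega)
  simp only [this]
  exact Bool.true_beq _

theorem ch_c1 (j : ℕ) : chosen τ act (24 * j + 14, 2) = act (3 * j) := by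
  unfold chosen
  rw [if_neg (by simp only; omega), if_neg (by simp only; omega), if_neg (by simp only; omega),
    if_neg (by simp only; omega), if_neg (by simp only; omega), if_pos ⟨rfl, by simp only; omega⟩]
  have : 3 * ((24 * j + 14 - 14) / 24) = 3 * j := by omega
  simp only [this]

theorem ch_c2 (j : ℕ) : chosen τ act (24 * j + 18, 2) = act (3 * j + 1) := by
  unfold chosen
  rw [if_neg (by simp only; omega), if_neg (by simp only; omega), if_neg (by simp only; omega),
    if_neg (by simp only; omega), if_neg (by simp only; omega), if_neg (by simp only; omega),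
    if_pos ⟨rfl, by simp only; omega⟩]
  have : 3 * ((24 * j + 18 - 18) / 24) + 1 = 3 * j + 1 := by omega
  simp only [this]

theorem ch_c3 (j : ℕ) : chosen τ act (24 * j + 16, 0) = act (3 * j + 2) := by
  unfold chosen
  rw [if_neg (by simp only; omega), if_neg (by simp only; omega), if_pos (by simp only),
    if_pos (by simp only; omega)]
  have : 3 * ((24 * j + 16 - 16) / 24) + 2 = 3 * j + 2 := by omega
  simp only [this]

theorem ch_c4 (j : ℕ) : chosen τ act (24 * j + 20, 4) = !act (3 * j + 1) := by
  unfold chosen
  rw [if_neg (by simp only; omega), if_neg (by simp only; omega), if_neg (by simp only; omega),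
    if_pos (by simp only)]
  have : 3 * ((24 * j + 20 - 20) / 24) + 1 = 3 * j + 1 := by omega
  simp only [this]

theorem ch_c5 (j : ℕ) : chosen τ act (24 * j + 18, 6) = act (3 * j + 1) := by
  unfold chosen
  rw [if_neg (by simp only; omega), if_neg (by simp only; omega), if_neg (by simp only; omega),
    if_neg (by simp only; omega), if_neg (by simp only; omega), if_neg (by simp only; omega),
    if_neg (by simp only; omega)]
  have h2 : (24 * j + 18 - 10) / 8 = 3 * j + 1 := by omega
  simp only [h2]
  exact Bool.true_beq _

theorem ch_c6 (j : ℕ) : chosen τ act (24 * j + 20, 0) = !act (3 * j + 2) := by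
  unfold chosen
  rw [if_neg (by simp only; omega), if_neg (by simp only; omega), if_pos (by simp only),
    if_neg (by simp only; omega), if_pos (by simp only; omega)]
  have : 3 * ((24 * j + 20 - 20) / 24) + 2 = 3 * j + 2 := by omega
  simp only [this]

theorem ch_c7 (j : ℕ) : chosen τ act (24 * j + 24, 0) = act (3 * j + 2) := by
  unfold chosen
  rw [if_neg (by simp only; omega), if_neg (by simp only; omega), if_pos (by simp only),
    if_neg (by simp only; omega), if_neg (by simp only; omega)]
  have : 3 * ((24 * j + 24 - 24) / 24) + 2 = 3 * j + 2 := by omega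
  simp only [this]

theorem ch_v1 (v : ℕ) : chosen τ act (2, 16 * v + 10) = !τ v := by
  unfold chosen
  rw [if_neg (by simp only; omega), if_pos (by simp only), if_pos (by simp only; omega)]
  have : (16 * v + 10 - 10) / 16 = v := by omega
  simp only [this]

theorem ch_v2 (v : ℕ) : chosen τ act (2, 16 * v + 14) = τ v := by
  unfold chosen
  rw [if_neg (by simp only; omega), if_pos (by simp only), if_neg (by simp only; omega)]
  have : (16 * v + 14 - 14) / 16 = v := by omega
  simp only [this]

theorem cnt_rows (m : ℕ) : (rowsL m).countP (chosen τ act) = 6 * m * ((3 * m + 1) * 2) := by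
  unfold rowsL
  have h1 : ∀ ρ j : ℕ, List.countP (chosen τ act)
      [(8 * j + 4, 8 * ρ + 8), (8 * j + 8, 8 * ρ + 8), (8 * j + 6, 8 * ρ + 8)] = 2 := by
    intro ρ j
    rw [List.countP_cons, List.countP_cons, List.countP_cons, ch_row1, ch_row2,
      ch_true τ act (p := (8 * j + 6, 8 * ρ + 8)) (by simp only; omega)]
    generalize (τ ((8 * ρ + 8 - 8) / 16) == decide ((8 * ρ + 8 - 8) % 16 = 0)) = x
    cases x <;> rfl
  rw [List.countP_flatMap]
  have h2 : (List.map (List.countP (chosen τ act) ∘ fun ρ => (List.range (3 * m + 1)).flatMap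
      fun j => [(8 * j + 4, 8 * ρ + 8), (8 * j + 8, 8 * ρ + 8), (8 * j + 6, 8 * ρ + 8)])
      (List.range (6 * m))) = List.map (fun _ => (3 * m + 1) * 2) (List.range (6 * m)) := by
    refine List.map_congr_left fun ρ _ => ?_
    show List.countP (chosen τ act) ((List.range (3 * m + 1)).flatMap
      fun j => [(8 * j + 4, 8 * ρ + 8), (8 * j + 8, 8 * ρ + 8), (8 * j + 6, 8 * ρ + 8)]) = _
    rw [List.countP_flatMap]
    have h3 : (List.map (List.countP (chosen τ act) ∘ fun j => [(8 * j + 4, 8 * ρ + 8),
        (8 * j + 8, 8 * ρ + 8), (8 * j + 6, 8 * ρ + 8)]) (List.range (3 * m + 1))) =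
        List.map (fun _ => 2) (List.range (3 * m + 1)) :=
      List.map_congr_left fun j _ => h1 ρ j
    rw [h3, List.map_const', List.sum_replicate, List.length_range, smul_eq_mul]
  rw [h2, List.map_const', List.sum_replicate, List.length_range, smul_eq_mul]

theorem cnt_cross (m : ℕ) : (crossL m).countP (chosen τ act) = 6 * m * (3 * m) := by
  unfold crossL
  rw [List.countP_flatMap]
  have h2 : (List.map (List.countP (chosen τ act) ∘ fun ρ => (List.range (3 * m)).map
      fun e => (8 * e + 10, 8 * ρ + 8)) (List.range (6 * m))) =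
      List.map (fun _ => 3 * m) (List.range (6 * m)) := by
    refine List.map_congr_left fun ρ _ => ?_
    show List.countP (chosen τ act) ((List.range (3 * m)).map
      fun e => (8 * e + 10, 8 * ρ + 8)) = _
    rw [List.countP_eq_length.2]
    · simp
    · intro p hp
      obtain ⟨e, _, rfl⟩ := List.mem_map.1 hp
      exact ch_true τ act (by simp only; omega)
  rw [h2, List.map_const', List.sum_replicate, List.length_range, smul_eq_mul]

theorem sum_mod3 (m a b : ℕ) : ((List.range (3 * m)).map fun e => if e % 3 = 1 then a else b).sum =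
    m * (a + 2 * b) := by
  induction m with
  | zero => simp
  | succ m ih =>
    have h : 3 * (m + 1) = 3 * m + 1 + 1 + 1 := by ring
    rw [h, List.range_succ, List.range_succ, List.range_succ]
    simp only [List.map_append, List.sum_append, List.map_cons, List.map_nil, List.sum_cons,
      List.sum_nil]
    rw [ih, if_neg (by omega), if_pos (by omega), if_neg (by omega)]
    ring

theorem cnt_cols (m : ℕ) : (colsL m).countP (chosen τ act) = m * (36 * m + 4) := by
  unfold colsL
  rw [List.countP_flatMap]
  have hsite : ∀ e i : ℕ, ¬ (i = 0 ∧ e % 3 = 1) → List.countP (chosen τ act)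
      [(8 * e + 10, 8 * i + 2), (8 * e + 10, 8 * i + 6), (8 * e + 10, 8 * i + 4)] = 2 := by
    intro e i h
    rw [List.countP_cons, List.countP_cons, List.countP_cons, ch_col1 τ act e i h, ch_col2,
      ch_true τ act (p := (8 * e + 10, 8 * i + 4)) (by simp only; omega)]
    generalize act ((8 * e + 10 - 10) / 8) = x
    cases x <;> rfl
  have h2 : (List.map (List.countP (chosen τ act) ∘ fun e => (List.range (6 * m + 1)).flatMap
      fun i => if i = 0 ∧ e % 3 = 1 then []
        else [(8 * e + 10, 8 * i + 2), (8 * e + 10, 8 * i + 6), (8 * e + 10, 8 * i + 4)])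
      (List.range (3 * m))) =
      List.map (fun e => if e % 3 = 1 then 6 * m * 2 else (6 * m + 1) * 2) (List.range (3 * m)) := by
    refine List.map_congr_left fun e _ => ?_
    show List.countP (chosen τ act) ((List.range (6 * m + 1)).flatMap
      fun i => if i = 0 ∧ e % 3 = 1 then []
        else [(8 * e + 10, 8 * i + 2), (8 * e + 10, 8 * i + 6), (8 * e + 10, 8 * i + 4)]) = _
    rw [List.countP_flatMap, List.range_succ_eq_map, List.map_cons, List.sum_cons, List.map_map]
    have h3 : List.map ((List.countP (chosen τ act) ∘ fun i => if i = 0 ∧ e % 3 = 1 then []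
        else [(8 * e + 10, 8 * i + 2), (8 * e + 10, 8 * i + 6), (8 * e + 10, 8 * i + 4)]) ∘
        Nat.succ) (List.range (6 * m)) = List.map (fun _ => 2) (List.range (6 * m)) := by
      refine List.map_congr_left fun i _ => ?_
      show List.countP (chosen τ act) (if i + 1 = 0 ∧ e % 3 = 1 then []
        else [(8 * e + 10, 8 * (i + 1) + 2), (8 * e + 10, 8 * (i + 1) + 6),
          (8 * e + 10, 8 * (i + 1) + 4)]) = 2
      rw [if_neg (by omega)]
      exact hsite e (i + 1) (by omega)
    rw [h3, List.map_const', List.sum_replicate, List.length_range, smul_eq_mul]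
    show List.countP (chosen τ act) (if 0 = 0 ∧ e % 3 = 1 then []
        else [(8 * e + 10, 8 * 0 + 2), (8 * e + 10, 8 * 0 + 6), (8 * e + 10, 8 * 0 + 4)]) +
        6 * m * 2 = _
    by_cases he : e % 3 = 1
    · rw [if_pos ⟨rfl, he⟩, if_pos he, List.countP_nil]
      omega
    · rw [if_neg (fun h => he h.2), if_neg he, hsite e 0 (fun h => he h.2)]
      omega
  rw [h2, sum_mod3]
  ring

theorem cnt_clause (c : (Lit ℕ × Lit ℕ × Lit ℕ) × ℕ)
    (h : (act (3 * c.2) = true ∧ act (3 * c.2 + 1) = false ∧ act (3 * c.2 + 2) = false) ∨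
    (act (3 * c.2) = false ∧ act (3 * c.2 + 1) = true ∧ act (3 * c.2 + 2) = false) ∨
    (act (3 * c.2) = false ∧ act (3 * c.2 + 1) = false ∧ act (3 * c.2 + 2) = true)) :
    (clauseP c).countP (chosen τ act) = 15 := by
  obtain ⟨⟨l1, l2, l3⟩, j⟩ := c
  unfold clauseP
  simp only at h ⊢
  simp only [List.countP_cons, List.countP_nil]
  rw [ch_c1, ch_c2, ch_c3, ch_true τ act (p := (24 * j + 16, 2)) (by simp only; omega),
    ch_true τ act (p := (24 * j + 15, 1)) (by simp only; omega),
    ch_true τ act (p := (24 * j + 17, 1)) (by simp only; omega), ch_c4, ch_c5,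
    ch_true τ act (p := (24 * j + 19, 5)) (by simp only; omega), ch_c6, ch_c7,
    ch_true τ act (p := (24 * j + 22, 0)) (by simp only; omega),
    ch_true τ act (p := (24 * j + 12, 2)) (by simp only; omega),
    ch_true τ act (p := (24 * j + 18, 0)) (by simp only; omega),
    ch_true τ act (p := (24 * j + 19, 3)) (by simp only; omega),
    ch_true τ act (p := (24 * j + 25, 1)) (by simp only; omega),
    ch_true τ act (p := attP l1 (3 * j)) (by unfold attP; simp only; omega),
    ch_true τ act (p := attP l2 (3 * j + 1)) (by unfold attP; simp only; omega),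
    ch_true τ act (p := attP l3 (3 * j + 2)) (by unfold attP; simp only; omega)]
  rcases h with ⟨h1, h2, h3⟩ | ⟨h1, h2, h3⟩ | ⟨h1, h2, h3⟩ <;> rw [h1, h2, h3] <;> rfl

theorem cnt_conn (m : ℕ) : (connL m).countP (chosen τ act) = 3 * m * 4 := by
  unfold connL
  rw [List.countP_flatMap]
  have h2 : (List.map (List.countP (chosen τ act) ∘ fun v =>
      [(2, 16 * v + 10), (2, 16 * v + 14), (2, 16 * v + 12), (3, 16 * v + 9), (3, 16 * v + 15)])
      (List.range (3 * m))) = List.map (fun _ => 4) (List.range (3 * m)) := by
    refine List.map_congr_left fun v _ => ?_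
    show List.countP (chosen τ act)
      [(2, 16 * v + 10), (2, 16 * v + 14), (2, 16 * v + 12), (3, 16 * v + 9), (3, 16 * v + 15)] = 4
    simp only [List.countP_cons, List.countP_nil]
    rw [ch_v1, ch_v2, ch_true τ act (p := (2, 16 * v + 12)) (by simp only; omega),
      ch_true τ act (p := (3, 16 * v + 9)) (by norm_num),
      ch_true τ act (p := (3, 16 * v + 15)) (by norm_num)]
    cases τ v <;> rfl
  rw [h2, List.map_const', List.sum_replicate, List.length_range, smul_eq_mul]

end

/-- S8 -/
theorem chosen_card (m : ℕ) (φ : Form) (hφ : Norm m φ) (τ act : ℕ → Bool) (h : Act φ τ act) :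
    ((core φ).filter (chosen τ act)).length = target m := by
  obtain ⟨hm, hlen, -⟩ := hφ
  rw [← List.countP_eq_length_filter]
  unfold core
  rw [List.countP_append, List.countP_append, List.countP_append, List.countP_append, hlen,
    cnt_rows, cnt_cross, cnt_cols, cnt_conn, List.countP_flatMap]
  have h2 : List.map (List.countP (chosen τ act) ∘ clauseP) φ.zipIdx =
      List.map (fun _ => 15) φ.zipIdx := by
    refine List.map_congr_left fun c hc => ?_
    refine cnt_clause τ act c (h.one c.2 ?_)
    have := List.mem_zipIdx (x := c.1) (i := c.2) (k := 0) (xs := φ) hc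
    omega
  rw [h2, List.map_const', List.sum_replicate, List.length_zipIdx, hlen, smul_eq_mul]
  unfold target
  ring

end Pool.Agent.CK
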