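import Pool.Agent.H671R2.CK.CDefs

/-! Definitions `Perfect`, `chosen`, `Act` of the tasks S4 - S9 (copied verbatim from `Stubs`, in the
namespace `Pool.Agent.CK`). -/

namespace Pool.Agent.CK

open Pool.Agent.NPC

/-- what a selection of maximal size satisfies -/
structure Perfect (m : ℕ) (φ : Form) (T : Finset (ℕ × ℕ)) : Prop where
  row : ∀ ρ < 6 * m, ∀ j < 3 * m + 1, (8 * j + 4, 8 * ρ + 8) ∈ T ∨ (8 * j + 8, 8 * ρ + 8) ∈ T
  cross : ∀ ρ < 6 * m, ∀ e < 3 * m, (8 * e + 10, 8 * ρ + 8) ∈ T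
  col : ∀ e < 3 * m, ∀ i < 6 * m + 1, ¬ (i = 0 ∧ e % 3 = 1) →
    (8 * e + 10, 8 * i + 2) ∈ T ∨ (8 * e + 10, 8 * i + 6) ∈ T
  tri : ∀ j < m, (24 * j + 14, 2) ∈ T ∨ (24 * j + 18, 2) ∈ T ∨ (24 * j + 16, 0) ∈ T
  p1 : ∀ j < m, (24 * j + 20, 4) ∈ T ∨ (24 * j + 18, 6) ∈ T
  p2 : ∀ j < m, (24 * j + 20, 0) ∈ T ∨ (24 * j + 24, 0) ∈ T
  s1 : ∀ j < m, (24 * j + 12, 2) ∈ T
  s2 : ∀ j < m, (24 * j + 18, 0) ∈ T
  s3 : ∀ j < m, (24 * j + 19, 3) ∈ T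
  s4 : ∀ j < m, (24 * j + 25, 1) ∈ T
  att : ∀ c ∈ φ.zipIdx, attP c.1.1 (3 * c.2) ∈ T ∧ attP c.1.2.1 (3 * c.2 + 1) ∈ T ∧
    attP c.1.2.2 (3 * c.2 + 2) ∈ T
  con : ∀ v < 3 * m, (2, 16 * v + 10) ∈ T ∨ (2, 16 * v + 14) ∈ T
  c1 : ∀ v < 3 * m, (3, 16 * v + 9) ∈ T
  c2 : ∀ v < 3 * m, (3, 16 * v + 15) ∈ T

/-- the selected grid points, for an assignment `τ` and for the set `act` of active columns -/
def chosen (τ : ℕ → Bool) (act : ℕ → Bool) (p : ℕ × ℕ) : Bool :=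
  if p.1 % 2 = 1 ∨ (p.1 + p.2) % 4 = 2 then true
  else if p.1 = 2 then (if p.2 % 16 = 10 then !τ ((p.2 - 10) / 16) else τ ((p.2 - 14) / 16))
  else if p.2 = 0 then
    (if p.1 % 24 = 16 then act (3 * ((p.1 - 16) / 24) + 2)
      else if p.1 % 24 = 20 then !act (3 * ((p.1 - 20) / 24) + 2)
      else act (3 * ((p.1 - 24) / 24) + 2))
  else if p.2 = 4 then !act (3 * ((p.1 - 20) / 24) + 1)
  else if p.2 % 4 = 0 then
    (decide (p.1 % 8 = 4) == (τ ((p.2 - 8) / 16) == decide ((p.2 - 8) % 16 = 0)))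
  else if p.2 = 2 ∧ p.1 % 8 = 6 then act (3 * ((p.1 - 14) / 24))
  else if p.2 = 2 ∧ p.1 % 24 = 18 then act (3 * ((p.1 - 18) / 24) + 1)
  else (decide (p.2 % 8 = 6) == act ((p.1 - 10) / 8))

/-- one true literal of every clause is active, no false literal is active, and no two columns of a
clause are active -/
structure Act (φ : Form) (τ : ℕ → Bool) (act : ℕ → Bool) : Prop where
  lit : ∀ c ∈ φ.zipIdx, (act (3 * c.2) = true → τ c.1.1.2 = c.1.1.1) ∧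
    (act (3 * c.2 + 1) = true → τ c.1.2.1.2 = c.1.2.1.1) ∧
    (act (3 * c.2 + 2) = true → τ c.1.2.2.2 = c.1.2.2.1)
  one : ∀ j < φ.length,
    (act (3 * j) = true ∧ act (3 * j + 1) = false ∧ act (3 * j + 2) = false) ∨
    (act (3 * j) = false ∧ act (3 * j + 1) = true ∧ act (3 * j + 2) = false) ∨
    (act (3 * j) = false ∧ act (3 * j + 1) = false ∧ act (3 * j + 2) = true)

end Pool.Agent.CK
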