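import Pool.Agent.H671R2.CK.S2
import Pool.Agent.H671R2.CK.S4
import Pool.Agent.H671R2.CK.S5
import Pool.Agent.H671R2.CK.S6
import Pool.Agent.H671R2.CK.S7
import Pool.Agent.H671R2.CK.S8
import Pool.Agent.H671R2.CK.SDefs
import Pool.Agent.H671R2.CK.CDefs
import Pool.Agent.H671R2.PolyAuto
import Pool.Agent.NPC.Dec

/-! S9: the core decides satisfiability -/

namespace Pool.Agent.CK

open Pool.Agent.NPC Finset

/-- S9 -/
theorem core_iff (m : ℕ) (φ : Form) (hφ : Norm m φ) :
    SAT3 φ ↔ ∃ T ⊆ (core φ).toFinset, Valid T ∧ target m ≤ T.card := by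
  constructor
  · intro h
    obtain ⟨τ, act, ha⟩ := exists_act φ h
    refine ⟨(core φ).toFinset.filter (fun p => chosen τ act p = true), filter_subset _ _,
      chosen_valid m φ hφ τ act ha, ?_⟩
    have h1 : (core φ).toFinset.filter (fun p => chosen τ act p = true) =
        ((core φ).filter (chosen τ act)).toFinset := by
      ext p
      simp only [mem_filter, List.mem_toFinset, List.mem_filter]
    rw [h1, List.toFinset_card_of_nodup ((core_nodup φ).filter _),
      chosen_card m φ hφ τ act ha]
  · rintro ⟨T, hT, hv, hc⟩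
    exact sat_of_perfect m φ hφ T hv (perfect_of_card m φ hφ T hT hv hc)

end Pool.Agent.CK
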