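import Pool.Agent.H671R2.CK.G21
import Pool.Agent.H671R2.CK.K3
import Pool.Agent.H671R2.CK.S1
import Pool.Agent.H671R2.CK.S2
import Pool.Agent.H671R2.CK.S3
import Pool.Agent.H671R2.CK.S9
import Pool.Agent.H671R2.CK.CDefs
import Pool.Agent.H671R2.PolyAuto
import Pool.Agent.NPC.Dec
import Pool.Agent.H671R2.CK.S10

/-! S11: the instance is equivalent to the disjunction -/

namespace Pool.Agent.CK

open Pool.Agent.NPC

theorem S11_foldl (fs : List Form) : ∀ a : ℕ, a ≤ fs.foldl (fun a φ => max a φ.length) a ∧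
    ∀ φ ∈ fs, φ.length ≤ fs.foldl (fun a φ => max a φ.length) a := by
  induction fs with
  | nil => intro a; simp
  | cons ψ fs ih =>
    intro a
    obtain ⟨h1, h2⟩ := ih (max a ψ.length)
    refine ⟨(le_max_left _ _).trans h1, ?_⟩
    intro φ hφ
    rcases List.mem_cons.mp hφ with rfl | hφ
    · exact (le_max_right _ _).trans h1
    · exact h2 φ hφ

theorem S11_max_pos (fs : List Form) : 1 ≤ maxLen fs := (S11_foldl fs 1).1

theorem S11_max_le (fs : List Form) (φ : Form) (h : φ ∈ fs) : φ.length ≤ maxLen fs :=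
  (S11_foldl fs 1).2 φ h

/-- S11 -/
theorem inst_iff (fs : List Form) (hb : ∀ φ ∈ fs, Bounded3 φ) :
    IsInstance (inst fs) (instK fs) ∧
      (HasConvexSubset (inst fs) (instK fs) ↔ ∃ φ ∈ fs, SAT3 φ) := by
  have hm := S11_max_pos fs
  have hnorm : ∀ φ ∈ fs, Norm (maxLen fs) (padTo (maxLen fs) φ) := fun φ hφ =>
    padTo_norm _ _ (hb φ hφ) hm (S11_max_le fs φ hφ)
  have h := arr_iff (fs.map fun φ => core (padTo (maxLen fs) φ)) (coreSize (maxLen fs))
    (radius (maxLen fs)) (target (maxLen fs))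
    (by unfold coreSize; nlinarith) (by unfold radius; omega) (by unfold target; nlinarith) (by
      intro C hC
      obtain ⟨φ, hφ, rfl⟩ := List.mem_map.mp hC
      exact ⟨core_length _ _ (hnorm φ hφ).2.1 hm, core_nodup _, core_bounds _ _ (hnorm φ hφ)⟩)
  rw [List.length_map] at h
  refine ⟨h.1, h.2.trans ?_⟩
  constructor
  · rintro ⟨C, hC, T, hT⟩
    obtain ⟨φ, hφ, rfl⟩ := List.mem_map.mp hC
    exact ⟨φ, hφ, (padTo_sat _ _).mp ((core_iff _ _ (hnorm φ hφ)).mpr ⟨T, hT⟩)⟩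
  · rintro ⟨φ, hφ, hs⟩
    obtain ⟨T, hT⟩ := (core_iff _ _ (hnorm φ hφ)).mp ((padTo_sat _ _).mpr hs)
    exact ⟨_, List.mem_map.mpr ⟨φ, hφ, rfl⟩, T, hT⟩

end Pool.Agent.CK
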