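import Pool.Agent.H671R2.CK.K14
import Pool.Agent.H671R2.CK.K15
import Pool.Agent.H671R2.CK.K3
import Pool.Agent.H671R2.CK.K5
import Pool.Agent.H671R2.CK.K6
import Pool.Agent.H671R2.CK.O8
import Pool.Agent.H671R2.CK.S11
import Pool.Agent.H671R2.CK.CDefs
import Pool.Agent.H671R2.PolyAuto
import Pool.Agent.NPC.Dec
import Pool.Agent.H622R2.CoNP
import Pool.Agent.H671R2.Search

/-!
# Assembly
-/

namespace Pool.Agent.CK

open Pool.Agent.NPC Pool.Agent.H622R2 Pool.Agent.NPC.R671

/-- The kernelization applied to the instance of a list of strings, summarized. -/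
def comp (F : List Bool → List Bool) (red : List Bool → Form) (xs : List (List Bool)) :
    Option (ℕ × ℕ × List (Bool × Bool)) :=
  (unbits (List RPt × ℕ) (F (bits (inst (xs.map red), instK (xs.map red))))).map summary

theorem poly_comp {F : List Bool → List Bool} {red : List Bool → Form} (hF : PolyTime F)
    (hred : Poly red) : Poly (comp F red) := by
  have h1 : Poly (fun xs : List (List Bool) => xs.map red) :=
    NPC.Poly.map (F := fun _ x => red x) NPC.Poly.id (hred.comp (NPC.Poly.snd NPC.Poly.id))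
  have h2 : Poly (fun xs : List (List Bool) => (inst (xs.map red), instK (xs.map red))) :=
    poly_inst h1
  have h3 : Poly (fun xs : List (List Bool) => bits (inst (xs.map red), instK (xs.map red))) :=
    poly_bits.comp h2
  have h4 := (poly_of_polyTime hF).comp h3
  have h5 := (poly_unbits (α := List RPt × ℕ)).comp h4
  exact NPC.Poly.optMap_fp (h := fun _ x => summary x) h5 (poly_summary.comp (NPC.Poly.snd NPC.Poly.id))

theorem eval_mono' (p : Polynomial ℕ) {a b : ℕ} (h : a ≤ b) : p.eval a ≤ p.eval b := by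
  rw [Polynomial.eval_eq_sum, Polynomial.eval_eq_sum]
  exact Finset.sum_le_sum fun i _ => Nat.mul_le_mul_left _ (Nat.pow_le_pow_left h i)

theorem main (h : HasPolyKernel) : CoNPSubsetNPPoly := by
  obtain ⟨F, f, g, -, hF, hker⟩ := h
  intro L hL
  obtain ⟨red, hred, hpr, hL'⟩ := hardPr_SAT3b Lᶜ hL
  have hredP : Poly red := PC.comp (g := red) (f := fun x => x) hred rawOut
  obtain ⟨p, hp⟩ := hredP.sz_le
  obtain ⟨q1, hq1⟩ := instK_bound
  obtain ⟨q2, hq2⟩ := summary_size
  -- the output of the kernelization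
  have key : ∀ xs : List (List Bool), ∃ (S' : List QPt) (k' : ℕ),
      comp F red xs = some (summary (S'.map raw, k')) ∧ IsInstance S' k' ∧
      (HasConvexSubset S' k' ↔ ∃ x ∈ xs, x ∉ L) ∧ S'.length ≤ g.eval (instK (xs.map red)) := by
    intro xs
    have hb : ∀ φ ∈ xs.map red, Bounded3 φ := by
      intro φ hφ
      obtain ⟨x, -, rfl⟩ := List.mem_map.1 hφ
      exact (hpr x).2.1
    obtain ⟨h1, h2⟩ := inst_iff (xs.map red) hb
    obtain ⟨S', k', h3, h4, h5, -, h6⟩ := hker _ _ h1
    refine ⟨S', k', ?_, h4, ?_, h6⟩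
    · unfold comp
      rw [h3, bits_raw, unbits_bits]
      rfl
    · rw [← h5, h2]
      constructor
      · rintro ⟨φ, hφ, hs⟩
        obtain ⟨x, hx, rfl⟩ := List.mem_map.1 hφ
        exact ⟨x, hx, (hL' x).2 hs⟩
      · rintro ⟨x, hx, hxL⟩
        exact ⟨red x, List.mem_map_of_mem hx, (hL' x).1 hxL⟩
  refine fs L (comp F red) (poly_comp hF hredP)
    (fun y => ∃ S' k', IsInstance S' k' ∧ HasConvexSubset S' k' ∧
      y = some (summary (S'.map raw, k')))
    (q2.comp (g.comp (q1.comp (p.comp (Polynomial.C 4 * Polynomial.X + 1) + Polynomial.X))) +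
      Polynomial.C 2) ?_ ?_
  · intro n xs _ hn
    obtain ⟨S', k', h1, h2, h3, h4⟩ := key xs
    have hlen : ∀ φ ∈ xs.map red, φ.length ≤ p.eval (4 * n + 1) := by
      intro φ hφ
      obtain ⟨x, hx, rfl⟩ := List.mem_map.1 hφ
      have e1 := length_lt_sz (red x)
      have e2 := hp x
      have e3 := sz_listBool_le x
      rw [hn x hx] at e3
      have e4 := eval_mono' p e3
      omega
    have h5 := hq1 (xs.map red) _ hlen
    rw [List.length_map] at h5
    have h6 := hq2 (S'.map raw, k')
    rw [List.length_map] at h6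
    rw [h1, sz_some]
    simp only [Polynomial.eval_add, Polynomial.eval_comp, Polynomial.eval_mul, Polynomial.eval_C,
      Polynomial.eval_X, Polynomial.eval_one]
    refine Nat.add_le_add_right (h6.trans (eval_mono' q2 (h4.trans (eval_mono' g
      (h5.trans (eval_mono' q1 ?_)))))) 2
    have e5 : p.eval (4 * n + 1) ≤ p.eval (4 * (n + xs.length.size) + 1) :=
      eval_mono' p (by omega)
    omega
  · intro n xs _ _
    obtain ⟨S', k', h1, h2, h3, h4⟩ := key xs
    rw [h1]
    constructor
    · rintro ⟨S'', k'', i1, i2, i3⟩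
      rw [Option.some.injEq] at i3
      exact h3.1 ((summary_eq h2 i1 i3).2 i2)
    · intro hx
      exact ⟨S', k', h2, h3.2 hx, rfl⟩

end Pool.Agent.CK
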