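import Pool.Agent.H671R2.CK.GDefs

namespace Pool.Agent.CK

open Pool.Agent.NPC

private theorem g1_dir (a b : ℝ) : ∃ k < 3, a * (dx k : ℝ) + b * (dy k : ℝ) ≤ -(|a| + |b|) / 2 := by
  have d0 : (dx 0 : ℝ) = 2 ∧ (dy 0 : ℝ) = 1 := by simp [dx, dy]
  have d1 : (dx 1 : ℝ) = -1 ∧ (dy 1 : ℝ) = 2 := by simp [dx, dy]
  have d2 : (dx 2 : ℝ) = -1 ∧ (dy 2 : ℝ) = -3 := by simp [dx, dy]
  rcases le_total 0 a with ha | ha
  · rcases le_total 0 b with hb | hb
    · refine ⟨2, by norm_num, ?_⟩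
      rw [d2.1, d2.2, abs_of_nonneg ha, abs_of_nonneg hb]; linarith
    · refine ⟨1, by norm_num, ?_⟩
      rw [d1.1, d1.2, abs_of_nonneg ha, abs_of_nonpos hb]; linarith
  · rcases le_total 0 b with hb | hb
    · rcases le_total b (-a) with hab | hab
      · refine ⟨0, by norm_num, ?_⟩
        rw [d0.1, d0.2, abs_of_nonpos ha, abs_of_nonneg hb]; linarith
      · refine ⟨2, by norm_num, ?_⟩
        rw [d2.1, d2.2, abs_of_nonpos ha, abs_of_nonneg hb]; linarith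
    · refine ⟨0, by norm_num, ?_⟩
      rw [d0.1, d0.2, abs_of_nonpos ha, abs_of_nonpos hb]; linarith

/-- G1 -/
theorem cone (X : Set (ℝ × ℝ × ℝ)) (hX : X.Finite) (x y : ℝ × ℝ × ℝ) (w : ℕ → ℝ × ℝ × ℝ)
    (G K : ℝ) (hG : 0 < G) (hK : 0 < K) (hx : x ∈ convexHull ℝ X)
    (hw : ∀ k < 3, |(w k).1 - y.1 - G * (dx k : ℝ)| ≤ G / 4 ∧
      |(w k).2.1 - y.2.1 - G * (dy k : ℝ)| ≤ G / 4 ∧ |(w k).2.2 - y.2.2 - G * K| ≤ G * K)
    (h1 : 8 * K * |y.1 - x.1| ≤ y.2.2 - x.2.2) (h2 : 8 * K * |y.2.1 - x.2.1| ≤ y.2.2 - x.2.2) :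
    y ∈ convexHull ℝ (X ∪ {w 0, w 1, w 2}) := by
  by_contra hy
  have hfin : (X ∪ {w 0, w 1, w 2}).Finite := hX.union (Set.toFinite _)
  have hcl : IsClosed (convexHull ℝ (X ∪ {w 0, w 1, w 2})) := hfin.isClosed_convexHull ℝ
  obtain ⟨f, u, hu1, hu2⟩ := geometric_hahn_banach_point_closed (convex_convexHull ℝ _) hcl hy
  have hf : ∀ p : ℝ × ℝ × ℝ, f p = f (1, 0, 0) * p.1 + f (0, 1, 0) * p.2.1 + f (0, 0, 1) * p.2.2 := by
    intro p
    have e : p = p.1 • ((1, 0, 0) : ℝ × ℝ × ℝ) + p.2.1 • ((0, 1, 0) : ℝ × ℝ × ℝ) +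
        p.2.2 • ((0, 0, 1) : ℝ × ℝ × ℝ) := by
      ext <;> simp
    conv_lhs => rw [e]
    rw [map_add, map_add, map_smul, map_smul, map_smul, smul_eq_mul, smul_eq_mul, smul_eq_mul]
    ring
  set a := f (1, 0, 0) with ha
  set b := f (0, 1, 0) with hb
  set c := f (0, 0, 1) with hc
  have hxh : x ∈ convexHull ℝ (X ∪ {w 0, w 1, w 2}) :=
    convexHull_mono Set.subset_union_left hx
  have hwh : ∀ k < 3, w k ∈ convexHull ℝ (X ∪ {w 0, w 1, w 2}) := by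
    intro k hk
    apply subset_convexHull
    right
    interval_cases k <;> simp
  have fx := hu1.trans (hu2 x hxh)
  rw [hf, hf] at fx
  obtain ⟨k, hk, hdir⟩ := g1_dir a b
  have fw := hu1.trans (hu2 (w k) (hwh k hk))
  rw [hf, hf] at fw
  obtain ⟨w1, w2, w3⟩ := hw k hk
  set W1 := (w k).1 - y.1 with hW1
  set W2 := (w k).2.1 - y.2.1 with hW2
  set W3 := (w k).2.2 - y.2.2 with hW3
  have e1 : 0 < a * W1 + b * W2 + c * W3 := by rw [hW1, hW2, hW3]; linarith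
  have e2 : a * (W1 - G * (dx k : ℝ)) ≤ |a| * (G / 4) := by
    calc a * (W1 - G * (dx k : ℝ)) ≤ |a * (W1 - G * (dx k : ℝ))| := le_abs_self _
      _ = |a| * |W1 - G * (dx k : ℝ)| := abs_mul _ _
      _ ≤ |a| * (G / 4) := mul_le_mul_of_nonneg_left w1 (abs_nonneg _)
  have e3 : b * (W2 - G * (dy k : ℝ)) ≤ |b| * (G / 4) := by
    calc b * (W2 - G * (dy k : ℝ)) ≤ |b * (W2 - G * (dy k : ℝ))| := le_abs_self _
      _ = |b| * |W2 - G * (dy k : ℝ)| := abs_mul _ _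
      _ ≤ |b| * (G / 4) := mul_le_mul_of_nonneg_left w2 (abs_nonneg _)
  have e4 : G * (a * (dx k : ℝ) + b * (dy k : ℝ)) ≤ G * (-(|a| + |b|) / 2) :=
    mul_le_mul_of_nonneg_left hdir hG.le
  have e5 : G * (|a| + |b|) / 4 < c * W3 := by nlinarith
  have s0 : 0 ≤ |a| + |b| := by positivity
  obtain ⟨w4, w5⟩ := abs_le.1 w3
  have w6 : 0 ≤ W3 := by linarith
  have w7 : W3 ≤ 2 * (G * K) := by linarith
  have hcW : 0 < c * W3 := lt_of_le_of_lt (by positivity) e5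
  have hcpos : 0 < c := by
    by_contra hcn
    have : c * W3 ≤ 0 := mul_nonpos_of_nonpos_of_nonneg (not_lt.1 hcn) w6
    linarith
  have e6 : |a| + |b| < 8 * K * c := by
    have e7 : c * W3 ≤ c * (2 * (G * K)) := mul_le_mul_of_nonneg_left w7 hcpos.le
    have e8 : G * (|a| + |b|) < G * (8 * K * c) := by nlinarith
    exact lt_of_mul_lt_mul_left e8 hG.le
  -- the contradiction
  set p := y.1 - x.1 with hp
  set q := y.2.1 - x.2.1 with hq
  set z := y.2.2 - x.2.2 with hz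
  have e9 : a * p + b * q + c * z < 0 := by rw [hp, hq, hz]; linarith
  have e10 : -(|a| * |p|) ≤ a * p := by
    rw [← abs_mul]; exact neg_abs_le _
  have e11 : -(|b| * |q|) ≤ b * q := by
    rw [← abs_mul]; exact neg_abs_le _
  have hmax : 8 * K * max |p| |q| ≤ z := by
    rcases max_choice |p| |q| with h | h <;> rw [h] <;> assumption
  have hm0 : 0 ≤ max |p| |q| := le_max_of_le_left (abs_nonneg _)
  have e12 : (|a| + |b|) * max |p| |q| ≤ c * z := by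
    calc (|a| + |b|) * max |p| |q| ≤ (8 * K * c) * max |p| |q| :=
          mul_le_mul_of_nonneg_right e6.le hm0
      _ = c * (8 * K * max |p| |q|) := by ring
      _ ≤ c * z := mul_le_mul_of_nonneg_left hmax hcpos.le
  have e13 : |a| * |p| ≤ |a| * max |p| |q| := mul_le_mul_of_nonneg_left (le_max_left _ _) (abs_nonneg _)
  have e14 : |b| * |q| ≤ |b| * max |p| |q| := mul_le_mul_of_nonneg_left (le_max_right _ _) (abs_nonneg _)
  nlinarith

end Pool.Agent.CK
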