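import Pool.Agent.H671R2.CK.GDefs

/-! G9: the counting lemma. -/

namespace Pool.Agent.CK

open Finset

/-- an alternating sequence of `n` branching levels of `i` below `D`, the highest one has the
digit `b` -/
def G9_Alt (J : Finset ℕ) (i : ℕ) : ℕ → Bool → ℕ → Prop
  | 0, _, _ => True
  | n + 1, b, D => ∃ k < D, (∃ i' ∈ J, Top i i' k) ∧ i.testBit k = b ∧ G9_Alt J i n (!b) k

/-- the bound -/
def G9_a : ℕ → ℕ → ℕ
  | 0, _ => 0
  | _ + 1, 0 => 1
  | n + 1, D + 1 => G9_a (n + 1) D + G9_a n D

theorem G9_Alt_mono {J J' : Finset ℕ} (hJ : J' ⊆ J) {i : ℕ} : ∀ {n : ℕ} {b : Bool} {D D' : ℕ},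
    D' ≤ D → G9_Alt J' i n b D' → G9_Alt J i n b D := by
  intro n
  induction n with
  | zero =>
    intro b D D' _ _
    exact trivial
  | succ n ih =>
    intro b D D' hD h
    obtain ⟨k, hk, ⟨i', hi', ht⟩, hb, ha⟩ := h
    exact ⟨k, hk.trans_le hD, ⟨i', hJ hi', ht⟩, hb, ih le_rfl ha⟩

theorem G9_a0 (D : ℕ) : G9_a 0 D = 0 := by
  cases D <;> simp [G9_a]

theorem G9_a_mono (n D : ℕ) : G9_a n D ≤ G9_a n (D + 1) := by
  cases n with
  | zero =>
    rw [G9_a0]
    exact Nat.zero_le _
  | succ n =>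
    show G9_a (n + 1) D ≤ G9_a (n + 1) D + G9_a n D
    exact Nat.le_add_right _ _

/-- elements which agree above `D` -/
def G9_Agree (J : Finset ℕ) (D : ℕ) : Prop := ∀ i ∈ J, ∀ j ∈ J, i / 2 ^ D = j / 2 ^ D

theorem G9_split {J : Finset ℕ} {D : ℕ} (h : G9_Agree J (D + 1)) (b : Bool) :
    G9_Agree (J.filter (fun i => i.testBit D = b)) D := by
  intro i hi j hj
  rw [mem_filter] at hi hj
  have h1 := h i hi.1 j hj.1
  have h2 : i.testBit D = j.testBit D := by rw [hi.2, hj.2]
  rw [pow_succ, ← Nat.div_div_eq_div_mul, ← Nat.div_div_eq_div_mul] at h1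
  rw [Nat.testBit_eq_decide_div_mod_eq, Nat.testBit_eq_decide_div_mod_eq, decide_eq_decide] at h2
  omega

theorem G9_card_split (J : Finset ℕ) (D : ℕ) (b : Bool) :
    J.card = (J.filter (fun i => i.testBit D = b)).card +
      (J.filter (fun i => i.testBit D = !b)).card := by
  rw [← card_filter_add_card_filter_not (s := J) (fun i => i.testBit D = b)]
  congr 2
  ext i
  simp only [mem_filter]
  refine and_congr_right fun _ => ?_
  cases i.testBit D <;> cases b <;> simp

theorem G9_agree_of_empty {J : Finset ℕ} {D : ℕ} {b : Bool} (h : G9_Agree J (D + 1))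
    (he : J.filter (fun i => i.testBit D = b) = ∅) : G9_Agree J D := by
  have h1 : J = J.filter (fun i => i.testBit D = !b) := by
    rw [eq_comm, filter_eq_self]
    intro i hi
    rw [filter_eq_empty_iff] at he
    have := he hi
    revert this
    cases i.testBit D <;> cases b <;> simp
  rw [h1]
  exact G9_split h _

theorem G9_bound : ∀ (D n : ℕ) (b : Bool) (J : Finset ℕ), G9_Agree J D →
    (∀ i ∈ J, ¬ G9_Alt J i n b D) → J.card ≤ G9_a n D := by
  intro D
  induction D with
  | zero =>
    intro n b J hJ h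
    cases n with
    | zero =>
      have : J = ∅ := by
        rw [eq_empty_iff_forall_notMem]
        intro i hi
        exact h i hi trivial
      rw [this, card_empty]
      exact Nat.zero_le _
    | succ n =>
      show J.card ≤ 1
      rw [card_le_one]
      intro i hi j hj
      have := hJ i hi j hj
      simpa using this
  | succ D ih =>
    intro n b J hJ h
    cases n with
    | zero =>
      have : J = ∅ := by
        rw [eq_empty_iff_forall_notMem]
        intro i hi
        exact h i hi trivial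
      rw [this, card_empty]
      exact Nat.zero_le _
    | succ n =>
      by_cases h1 : J.filter (fun i => i.testBit D = b) = ∅
      · refine (ih (n + 1) b J (G9_agree_of_empty hJ h1) ?_).trans (G9_a_mono _ _)
        intro i hi ha
        exact h i hi (G9_Alt_mono (Subset.refl _) (Nat.le_succ _) ha)
      by_cases h2 : J.filter (fun i => i.testBit D = !b) = ∅
      · refine (ih (n + 1) b J (G9_agree_of_empty hJ h2) ?_).trans (G9_a_mono _ _)
        intro i hi ha
        exact h i hi (G9_Alt_mono (Subset.refl _) (Nat.le_succ _) ha)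
      obtain ⟨j, hj⟩ := nonempty_iff_ne_empty.2 h2
      rw [mem_filter] at hj
      rw [G9_card_split J D b]
      show _ ≤ G9_a (n + 1) D + G9_a n D
      have hb : (J.filter (fun i => i.testBit D = b)).card ≤ G9_a n D := by
        refine ih n (!b) _ (G9_split hJ b) ?_
        intro i hi ha
        rw [mem_filter] at hi
        refine h i hi.1 ⟨D, Nat.lt_succ_self D, ⟨j, hj.1, hJ i hi.1 j hj.1, ?_⟩, hi.2,
          G9_Alt_mono (filter_subset _ _) le_rfl ha⟩
        rw [hi.2, hj.2]
        cases b <;> simp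
      have hnb : (J.filter (fun i => i.testBit D = !b)).card ≤ G9_a (n + 1) D := by
        refine ih (n + 1) b _ (G9_split hJ _) ?_
        intro i hi ha
        rw [mem_filter] at hi
        exact h i hi.1 (G9_Alt_mono (filter_subset _ _) (Nat.le_succ _) ha)
      omega

theorem G9_bound2 (n : ℕ) : ∀ (D : ℕ) (J : Finset ℕ), G9_Agree J D →
    (∀ i ∈ J, ∀ b, ¬ G9_Alt J i (n + 2) b D) → J.card ≤ 2 * G9_a (n + 1) D := by
  intro D
  induction D with
  | zero =>
    intro J hJ h
    have h1 : J.card ≤ 1 := by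
      rw [card_le_one]
      intro i hi j hj
      have := hJ i hi j hj
      simpa using this
    have h2 : G9_a (n + 1) 0 = 1 := rfl
    omega
  | succ D ih =>
    intro J hJ h
    have hmono := G9_a_mono (n + 1) D
    by_cases h1 : J.filter (fun i => i.testBit D = true) = ∅
    · refine (ih J (G9_agree_of_empty hJ h1) ?_).trans (by omega)
      intro i hi b ha
      exact h i hi b (G9_Alt_mono (Subset.refl _) (Nat.le_succ _) ha)
    by_cases h2 : J.filter (fun i => i.testBit D = !true) = ∅
    · refine (ih J (G9_agree_of_empty hJ h2) ?_).trans (by omega)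
      intro i hi b ha
      exact h i hi b (G9_Alt_mono (Subset.refl _) (Nat.le_succ _) ha)
    obtain ⟨j, hj⟩ := nonempty_iff_ne_empty.2 h2
    obtain ⟨j', hj'⟩ := nonempty_iff_ne_empty.2 h1
    rw [mem_filter] at hj hj'
    rw [G9_card_split J D true]
    have hb : (J.filter (fun i => i.testBit D = true)).card ≤ G9_a (n + 1) D := by
      refine G9_bound D (n + 1) (!true) _ (G9_split hJ true) ?_
      intro i hi ha
      rw [mem_filter] at hi
      refine h i hi.1 true ⟨D, Nat.lt_succ_self D, ⟨j, hj.1, hJ i hi.1 j hj.1, ?_⟩, hi.2,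
        G9_Alt_mono (filter_subset _ _) le_rfl ha⟩
      rw [hi.2, hj.2]
      simp
    have hnb : (J.filter (fun i => i.testBit D = !true)).card ≤ G9_a (n + 1) D := by
      refine G9_bound D (n + 1) true _ (G9_split hJ _) ?_
      intro i hi ha
      rw [mem_filter] at hi
      refine h i hi.1 (!true) ⟨D, Nat.lt_succ_self D, ⟨j', hj'.1, hJ i hi.1 j' hj'.1, ?_⟩, hi.2,
        G9_Alt_mono (filter_subset _ _) le_rfl (by rwa [Bool.not_not])⟩
      rw [hi.2, hj'.2]
      simp
    omega

theorem G9_a1 (D : ℕ) : G9_a 1 D = 1 := by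
  induction D with
  | zero => rfl
  | succ D ih =>
    show G9_a 1 D + G9_a 0 D = 1
    rw [ih, G9_a0]

theorem G9_a2 (D : ℕ) : G9_a 2 D = D + 1 := by
  induction D with
  | zero => rfl
  | succ D ih =>
    show G9_a 2 D + G9_a 1 D = D + 1 + 1
    rw [ih, G9_a1]

theorem G9_a3 (D : ℕ) : G9_a 3 D ≤ (D + 1) ^ 2 := by
  induction D with
  | zero => exact le_rfl
  | succ D ih =>
    show G9_a 3 D + G9_a 2 D ≤ (D + 1 + 1) ^ 2
    rw [G9_a2]
    nlinarith

/-- G9: counting -/
theorem count_levels (d : ℕ) (I : Finset ℕ) (hI : ∀ i ∈ I, i < 2 ^ d)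
    (h : ∀ i ∈ I, ∀ k i' : Fin 4 → ℕ, StrictMono k → (∀ m, i' m ∈ I) → (∀ m, Top i (i' m) (k m)) →
      ¬ ∀ m : Fin 3, i.testBit (k m.castSucc) ≠ i.testBit (k m.succ)) :
    I.card ≤ 2 * (d + 1) ^ 2 := by
  have h1 : G9_Agree I d := by
    intro i hi j hj
    rw [Nat.div_eq_of_lt (hI i hi), Nat.div_eq_of_lt (hI j hj)]
  refine (G9_bound2 2 d I h1 ?_).trans (Nat.mul_le_mul_left 2 (G9_a3 d))
  rintro i hi b ⟨k3, -, ⟨i3, hi3, t3⟩, b3, k2, hk2, ⟨i2, hi2, t2⟩, b2, k1, hk1, ⟨i1, hi1, t1⟩, b1,
    k0, hk0, ⟨i0, hi0, t0⟩, b0, -⟩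
  refine h i hi ![k0, k1, k2, k3] ![i0, i1, i2, i3] ?_ ?_ ?_ ?_
  · rw [Fin.strictMono_iff_lt_succ]
    intro m
    fin_cases m
    · exact hk0
    · exact hk1
    · exact hk2
  · intro m
    fin_cases m
    · exact hi0
    · exact hi1
    · exact hi2
    · exact hi3
  · intro m
    fin_cases m
    · exact t0
    · exact t1
    · exact t2
    · exact t3
  · intro m
    fin_cases m
    · show i.testBit k0 ≠ i.testBit k1
      rw [b0, b1]
      cases b <;> simp
    · show i.testBit k1 ≠ i.testBit k2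
      rw [b1, b2]
      cases b <;> simp
    · show i.testBit k2 ≠ i.testBit k3
      rw [b2, b3]
      cases b <;> simp

end Pool.Agent.CK
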