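import Pool.Agent.H671R2.CK.G8
import Pool.Agent.H671R2.CK.CDefs
import Pool.Agent.H671R2.PolyAuto
import Pool.Agent.NPC.Dec
import Pool.Agent.H671R2.CK.G9

/-! G10: the number of touched clusters. -/

namespace Pool.Agent.CK

open Pool.Agent.NPC

theorem G10_top_lt {i j k d : ℕ} (hi : i < 2 ^ d) (hj : j < 2 ^ d) (h : Top i j k) : k < d := by
  by_contra hcon
  rw [not_lt] at hcon
  have h1 : i.testBit k = false :=
    Nat.testBit_eq_false_of_lt (hi.trans_le (Nat.pow_le_pow_right (by norm_num) hcon))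
  have h2 : j.testBit k = false :=
    Nat.testBit_eq_false_of_lt (hj.trans_le (Nat.pow_le_pow_right (by norm_num) hcon))
  exact h.2 (by rw [h1, h2])

set_option linter.unusedVariables false in
/-- G10 -/
theorem touched_card (P : Par) (co : ℕ → ℕ → ℕ × ℕ) (ok : P.Ok co) (I : Finset ℕ)
    (hI : ∀ a ∈ I, a < P.n) (hF : P.Free co I) :
    ((I.filter (· < P.t * P.s)).image (· / P.s)).card ≤ 2 * (P.d + 1) ^ 2 := by
  have hs : 0 < P.s := P.hs
  have hmem : ∀ i ∈ (I.filter (· < P.t * P.s)).image (· / P.s),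
      ∃ a ∈ I, a < P.t * P.s ∧ a / P.s = i := by
    intro i hi
    obtain ⟨a, ha, rfl⟩ := Finset.mem_image.1 hi
    rw [Finset.mem_filter] at ha
    exact ⟨a, ha.1, ha.2, rfl⟩
  have hlt : ∀ i ∈ (I.filter (· < P.t * P.s)).image (· / P.s), i < P.t := by
    intro i hi
    obtain ⟨a, -, ha, rfl⟩ := hmem i hi
    exact (Nat.div_lt_iff_lt_mul hs).2 ha
  refine Pool.Agent.CK.count_levels P.d _ (fun i hi => (hlt i hi).trans P.ht) ?_
  intro i hi k i' hk hi' hT halt
  obtain ⟨a, haI, hat, hai⟩ := hmem i hi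
  choose a' ha'I ha't ha'i using fun m => hmem (i' m) (hi' m)
  have hexp : ∀ x : ℕ, x / P.s * P.s + x % P.s = x := fun x => Nat.div_add_mod' x P.s
  have h1 := alt_cluster P co ok (hlt i hi) (Nat.mod_lt a hs) k i' (fun m => a' m % P.s) hk
    (fun m => G10_top_lt ((hlt i hi).trans P.ht) ((hlt _ (hi' m)).trans P.ht) (hT m))
    (fun m => hlt _ (hi' m)) (fun m => Nat.mod_lt _ hs) hT halt
  rw [← hai, hexp] at h1
  refine hF a haI (convexHull_mono ?_ h1)
  rintro _ ⟨m, rfl⟩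
  refine ⟨a' m, ⟨ha'I m, ?_⟩, ?_⟩
  · intro h2
    have h3 : a' m = a := h2
    apply (hT m).2
    rw [← ha'i m, h3, hai]
  · show P.pt co (a' m) = P.pt co (i' m * P.s + a' m % P.s)
    rw [← ha'i m, hexp]

end Pool.Agent.CK
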