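import Pool.Agent.H671R2.CK.GDefs

/-! G11: an integer functional with a margin separates -/

namespace Pool.Agent.CK

theorem G11_arith (c M N u v f1 f2 f3 d1 d2 d3 : ℤ) (hc : 0 < c) (hM : 0 < M) (hN : N = 4 * (c * M))
    (h1 : |f1| ≤ c) (h2 : |f2| ≤ c) (h3 : |f3| ≤ c) (e1 : |d1| ≤ M) (e2 : |d2| ≤ M) (e3 : |d3| ≤ M)
    (huv : u < v) : 0 < N * (v - u) + (f1 * d1 + f2 * d2 + f3 * d3) := by
  have hcM : 0 < c * M := mul_pos hc hM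
  have g : ∀ f d : ℤ, |f| ≤ c → |d| ≤ M → -(c * M) ≤ f * d := by
    intro f d hf hd
    have : |f * d| ≤ c * M := by
      rw [abs_mul]
      exact mul_le_mul hf hd (abs_nonneg _) hc.le
    exact (abs_le.1 this).1
  have k1 := g f1 d1 h1 e1
  have k2 := g f2 d2 h2 e2
  have k3 := g f3 d3 h3 e3
  have k4 : N * 1 ≤ N * (v - u) := by
    apply mul_le_mul_of_nonneg_left (by omega)
    rw [hN]; positivity
  rw [mul_one] at k4
  rw [hN] at k4 ⊢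
  linarith

theorem G11_pow {a x n : ℕ} (ha : a < n) (hx : x < n) (j : ℕ) (hj : j ≤ 6) :
    |(a : ℤ) ^ j - (x : ℤ) ^ j| ≤ ((n : ℤ) + 1) ^ 6 := by
  have h : ∀ b : ℕ, b < n → (0 : ℤ) ≤ (b : ℤ) ^ j ∧ (b : ℤ) ^ j ≤ ((n : ℤ) + 1) ^ 6 := by
    intro b hb
    refine ⟨by positivity, ?_⟩
    calc (b : ℤ) ^ j ≤ ((n : ℤ) + 1) ^ j := by
          apply pow_le_pow_left₀ (by positivity)
          exact_mod_cast (by omega : b ≤ n + 1)
      _ ≤ ((n : ℤ) + 1) ^ 6 := by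
          apply pow_le_pow_right₀ _ hj
          exact_mod_cast (by omega : 1 ≤ n + 1)
  obtain ⟨a1, a2⟩ := h a ha
  obtain ⟨b1, b2⟩ := h x hx
  rw [abs_le]
  constructor <;> linarith

/-- G11: an integer functional with a margin separates -/
theorem ext_of_margin (P : Par) (co : ℕ → ℕ → ℕ × ℕ) {x : ℕ} (hx : x < P.n) (I : Set ℕ)
    (hI : ∀ a ∈ I, a < P.n) (f1 f2 f3 : ℤ)
    (h1 : |f1| ≤ 4096 * P.r * P.A) (h2 : |f2| ≤ 4096 * P.r * P.A) (h3 : |f3| ≤ 4096 * P.r * P.A)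
    (h : ∀ a ∈ I, f1 * (P.Q co x).1 + f2 * (P.Q co x).2.1 + f3 * (P.Q co x).2.2 <
      f1 * (P.Q co a).1 + f2 * (P.Q co a).2.1 + f3 * (P.Q co a).2.2) :
    P.pt co x ∉ convexHull ℝ (P.pt co '' I) := by
  have hA : 1 ≤ P.A := by
    have h1 := P.hA
    have h2 := P.hg
    omega
  have hc : (0 : ℤ) < 4096 * P.r * P.A := by
    have := P.hr
    positivity
  have hM : (0 : ℤ) < ((P.n : ℤ) + 1) ^ 6 := by positivity
  have hN : (P.N : ℤ) = 4 * ((4096 * P.r * P.A) * ((P.n : ℤ) + 1) ^ 6) := by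
    rw [P.hN]
    push_cast
    ring
  have key : ∀ a ∈ I, f1 * (P.pos co x).1 + f2 * (P.pos co x).2.1 + f3 * (P.pos co x).2.2 <
      f1 * (P.pos co a).1 + f2 * (P.pos co a).2.1 + f3 * (P.pos co a).2.2 := by
    intro a ha
    have k := G11_arith _ _ _ _ _ f1 f2 f3 ((a : ℤ) ^ 1 - (x : ℤ) ^ 1) ((a : ℤ) ^ 2 - (x : ℤ) ^ 2) 
      ((a : ℤ) ^ 3 - (x : ℤ) ^ 3) hc hM hN h1 h2 h3 (G11_pow (hI a ha) hx 1 (by norm_num)) 
      (G11_pow (hI a ha) hx 2 (by norm_num)) (G11_pow (hI a ha) hx 3 (by norm_num)) (h a ha)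
    unfold Par.pos
    dsimp only
    linarith
  intro hmem
  let f : ℝ × ℝ × ℝ →ₗ[ℝ] ℝ := (f1 : ℝ) • LinearMap.fst ℝ ℝ (ℝ × ℝ) + 
    (f2 : ℝ) • (LinearMap.fst ℝ ℝ ℝ ∘ₗ LinearMap.snd ℝ ℝ (ℝ × ℝ)) + 
    (f3 : ℝ) • (LinearMap.snd ℝ ℝ ℝ ∘ₗ LinearMap.snd ℝ ℝ (ℝ × ℝ))
  have hf : ∀ a, f (P.pt co a) = ((f1 * (P.pos co a).1 + f2 * (P.pos co a).2.1 + 
      f3 * (P.pos co a).2.2 : ℤ) : ℝ) := by
    intro a
    simp [f, Par.pt]
  have hconv : Convex ℝ {z : ℝ × ℝ × ℝ | f (P.pt co x) < f z} := 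
    convex_halfSpace_gt f.isLinear _
  have hsub : P.pt co '' I ⊆ {z : ℝ × ℝ × ℝ | f (P.pt co x) < f z} := by
    rintro _ ⟨a, ha, rfl⟩
    show f (P.pt co x) < f (P.pt co a)
    rw [hf, hf]
    exact_mod_cast key a ha
  have h9 : f (P.pt co x) < f (P.pt co x) := convexHull_min hsub hconv hmem
  exact lt_irrefl _ h9

end Pool.Agent.CK
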