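import Pool.Agent.H671R2.CK.GDefs

/-! G12b: the functional for the main sites. -/

namespace Pool.Agent.CK

theorem G12b_sv (s v : ℤ) (hs : s = 1 ∨ s = -1) : -(v ^ 2) ≤ s * v := by
  rcases hs with rfl | rfl
  · rcases lt_trichotomy v 0 with h | h | h
    · nlinarith
    · rw [h]; norm_num
    · nlinarith
  · rcases lt_trichotomy v 0 with h | h | h
    · nlinarith
    · rw [h]; norm_num
    · nlinarith

theorem G12b_cases (v1 v2 : ℤ) (h1 : v1 % 2 = 0) (h2 : v2 % 2 = 0) (h3 : (v1 + v2) % 4 = 2) :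
    (v1 = 2 ∧ v2 = 0) ∨ (v1 = -2 ∧ v2 = 0) ∨ (v1 = 0 ∧ v2 = 2) ∨
      (v1 = 0 ∧ v2 = -2) ∨ 4 ≤ v1 ∨ v1 ≤ -4 ∨ 4 ≤ v2 ∨ v2 ≤ -4 := by
  by_cases g1 : 4 ≤ v1
  · tauto
  by_cases g2 : v1 ≤ -4
  · tauto
  by_cases g3 : 4 ≤ v2
  · tauto
  by_cases g4 : v2 ≤ -4
  · tauto
  have e1 : v1 = -2 ∨ v1 = 0 ∨ v1 = 2 := by omega
  rcases e1 with e | e | e
  · right; left
    exact ⟨e, by omega⟩
  · have e2 : v2 = -2 ∨ v2 = 2 := by omega
    rcases e2 with e' | e'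
    · exact Or.inr (Or.inr (Or.inr (Or.inl ⟨e, e'⟩)))
    · exact Or.inr (Or.inr (Or.inl ⟨e, e'⟩))
  · left
    exact ⟨e, by omega⟩

/-- G12b -/
theorem fun_main {r : ℕ} (hr : 1 ≤ r) (T : Finset (ℕ × ℕ)) (hT : Valid T)
    (h1 : ∀ p ∈ T, p.1 ≤ r) (h2 : ∀ p ∈ T, p.2 ≤ r) (hpar : ∀ p ∈ T, p.1 % 2 = p.2 % 2)
    (q : ℕ × ℕ) (hq : q ∈ T) (hq0 : q.1 % 2 = 0) (hq1 : (q.1 + q.2) % 4 = 2) :
    ∃ f1 f2 f3 : ℤ, 1 ≤ f3 ∧ f3 ≤ 1024 ∧ |f1| ≤ 3 * r * f3 ∧ |f2| ≤ 3 * r * f3 ∧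
      ∀ p ∈ T, p ≠ q → f3 * (loc q).2.2 - f1 * (loc q).1 - f2 * (loc q).2.1 <
        f3 * (loc p).2.2 - f1 * (loc p).1 - f2 * (loc p).2.1 := by
  obtain ⟨s1, hs1, hs1a, hs1b⟩ : ∃ s : ℤ, (s = 1 ∨ s = -1) ∧
      ((q.1 + 2, q.2) ∈ T → s = 1) ∧ ((q.1 + 2, q.2) ∉ T → s = -1) := by
    by_cases h : (q.1 + 2, q.2) ∈ T
    · exact ⟨1, Or.inl rfl, fun _ => rfl, fun h' => absurd h h'⟩
    · exact ⟨-1, Or.inr rfl, fun h' => absurd h' h, fun _ => rfl⟩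
  obtain ⟨s2, hs2, hs2a, hs2b⟩ : ∃ s : ℤ, (s = 1 ∨ s = -1) ∧
      ((q.1, q.2 + 2) ∈ T → s = 1) ∧ ((q.1, q.2 + 2) ∉ T → s = -1) := by
    by_cases h : (q.1, q.2 + 2) ∈ T
    · exact ⟨1, Or.inl rfl, fun _ => rfl, fun h' => absurd h h'⟩
    · exact ⟨-1, Or.inr rfl, fun h' => absurd h' h, fun _ => rfl⟩
  have hr' : (1 : ℤ) ≤ r := by exact_mod_cast hr
  have hqr1 : (q.1 : ℤ) ≤ r := by exact_mod_cast h1 q hq
  have hqr2 : (q.2 : ℤ) ≤ r := by exact_mod_cast h2 q hq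
  have hlq : loc q = (1024 * (q.1 : ℤ), 1024 * (q.2 : ℤ),
      1024 * ((q.1 : ℤ) ^ 2 + (q.2 : ℤ) ^ 2 + 4) + 1) := by
    unfold loc
    rw [if_neg (by omega), if_neg (by omega)]
  refine ⟨2048 * q.1 - s1, 2048 * q.2 - s2, 1024, by norm_num, by norm_num, ?_, ?_, ?_⟩
  · rw [abs_le]
    rcases hs1 with h | h <;> rw [h] <;> constructor <;> nlinarith
  · rw [abs_le]
    rcases hs2 with h | h <;> rw [h] <;> constructor <;> nlinarith
  intro p hp hpq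
  rw [hlq]
  obtain ⟨v1, hv1⟩ : ∃ v1 : ℤ, v1 = (p.1 : ℤ) - q.1 := ⟨_, rfl⟩
  obtain ⟨v2, hv2⟩ : ∃ v2 : ℤ, v2 = (p.2 : ℤ) - q.2 := ⟨_, rfl⟩
  have hp1 : (p.1 : ℤ) = q.1 + v1 := by rw [hv1]; ring
  have hp2 : (p.2 : ℤ) = q.2 + v2 := by rw [hv2]; ring
  have e1 := G12b_sv s1 v1 hs1
  have e2 := G12b_sv s2 v2 hs2
  have hpp := hpar p hp
  by_cases c1 : p.1 % 2 = 1
  · -- attached
    have hlp : loc p = (1024 * (p.1 : ℤ), 1024 * (p.2 : ℤ),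
        1024 * ((p.1 : ℤ) ^ 2 + (p.2 : ℤ) ^ 2 + 2) + 8) := by
      unfold loc
      rw [if_pos c1]
    rw [hlp]
    show 1024 * (1024 * ((q.1 : ℤ) ^ 2 + (q.2 : ℤ) ^ 2 + 4) + 1) -
        (2048 * (q.1 : ℤ) - s1) * (1024 * (q.1 : ℤ)) - (2048 * (q.2 : ℤ) - s2) *
          (1024 * (q.2 : ℤ)) <
      1024 * (1024 * ((p.1 : ℤ) ^ 2 + (p.2 : ℤ) ^ 2 + 2) + 8) -
        (2048 * (q.1 : ℤ) - s1) * (1024 * (p.1 : ℤ)) - (2048 * (q.2 : ℤ) - s2) *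
          (1024 * (p.2 : ℤ))
    rw [hp1, hp2]
    have g1 : 1 ≤ v1 ^ 2 := by
      have : v1 ≤ -1 ∨ 1 ≤ v1 := by omega
      rcases this with h | h <;> nlinarith
    have g2 : 1 ≤ v2 ^ 2 := by
      have : v2 ≤ -1 ∨ 1 ≤ v2 := by omega
      rcases this with h | h <;> nlinarith
    linarith
  · by_cases c2 : (p.1 + p.2) % 4 = 0
    · -- local
      have hlp : loc p = (1024 * (p.1 : ℤ), 1024 * (p.2 : ℤ),
          1024 * ((p.1 : ℤ) ^ 2 + (p.2 : ℤ) ^ 2)) := by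
        unfold loc
        rw [if_neg c1, if_pos c2]
      rw [hlp]
      show 1024 * (1024 * ((q.1 : ℤ) ^ 2 + (q.2 : ℤ) ^ 2 + 4) + 1) -
          (2048 * (q.1 : ℤ) - s1) * (1024 * (q.1 : ℤ)) - (2048 * (q.2 : ℤ) - s2) *
            (1024 * (q.2 : ℤ)) <
        1024 * (1024 * ((p.1 : ℤ) ^ 2 + (p.2 : ℤ) ^ 2)) -
          (2048 * (q.1 : ℤ) - s1) * (1024 * (p.1 : ℤ)) - (2048 * (q.2 : ℤ) - s2) *
            (1024 * (p.2 : ℤ))
      have hcases := G12b_cases v1 v2 (by omega) (by omega) (by omega)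
      have hbig : ∀ hb : 16 ≤ v1 ^ 2 + v2 ^ 2, 1024 * (1024 * ((q.1 : ℤ) ^ 2 + (q.2 : ℤ) ^ 2 + 4)
          + 1) - (2048 * (q.1 : ℤ) - s1) * (1024 * (q.1 : ℤ)) - (2048 * (q.2 : ℤ) - s2) *
            (1024 * (q.2 : ℤ)) <
        1024 * (1024 * ((p.1 : ℤ) ^ 2 + (p.2 : ℤ) ^ 2)) -
          (2048 * (q.1 : ℤ) - s1) * (1024 * (p.1 : ℤ)) - (2048 * (q.2 : ℤ) - s2) *
            (1024 * (p.2 : ℤ)) := by
        intro hb
        rw [hp1, hp2]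
        linarith
      rcases hcases with ⟨h, h'⟩ | ⟨h, h'⟩ | ⟨h, h'⟩ | ⟨h, h'⟩ | h | h | h | h
      · have hpe : p = (q.1 + 2, q.2) := Prod.ext (by show p.1 = q.1 + 2; omega)
          (by show p.2 = q.2; omega)
        have hs := hs1a (hpe ▸ hp)
        rw [hp1, hp2, h, h', hs]
        ring_nf
        linarith
      · have hs : s1 = -1 := hs1b (fun hcon => by
          refine hT (q.1 + 2, q.2) hcon q hq p hp ?_
          left
          refine ⟨hq0, hq1, rfl, ?_, rfl, ?_⟩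
          · omega
          · omega)
        rw [hp1, hp2, h, h', hs]
        ring_nf
        linarith
      · have hpe : p = (q.1, q.2 + 2) := Prod.ext (by show p.1 = q.1; omega)
          (by show p.2 = q.2 + 2; omega)
        have hs := hs2a (hpe ▸ hp)
        rw [hp1, hp2, h, h', hs]
        ring_nf
        linarith
      · have hs : s2 = -1 := hs2b (fun hcon => by
          refine hT (q.1, q.2 + 2) hcon q hq p hp ?_
          right; left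
          refine ⟨hq0, hq1, rfl, ?_, rfl, ?_⟩
          · omega
          · omega)
        rw [hp1, hp2, h, h', hs]
        ring_nf
        linarith
      · exact hbig (by nlinarith [sq_nonneg v2])
      · exact hbig (by nlinarith [sq_nonneg v2])
      · exact hbig (by nlinarith [sq_nonneg v1])
      · exact hbig (by nlinarith [sq_nonneg v1])
    · -- main
      have hlp : loc p = (1024 * (p.1 : ℤ), 1024 * (p.2 : ℤ),
          1024 * ((p.1 : ℤ) ^ 2 + (p.2 : ℤ) ^ 2 + 4) + 1) := by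
        unfold loc
        rw [if_neg c1, if_neg c2]
      rw [hlp]
      show 1024 * (1024 * ((q.1 : ℤ) ^ 2 + (q.2 : ℤ) ^ 2 + 4) + 1) -
          (2048 * (q.1 : ℤ) - s1) * (1024 * (q.1 : ℤ)) - (2048 * (q.2 : ℤ) - s2) *
            (1024 * (q.2 : ℤ)) <
        1024 * (1024 * ((p.1 : ℤ) ^ 2 + (p.2 : ℤ) ^ 2 + 4) + 1) -
          (2048 * (q.1 : ℤ) - s1) * (1024 * (p.1 : ℤ)) - (2048 * (q.2 : ℤ) - s2) *
            (1024 * (p.2 : ℤ))
      rw [hp1, hp2]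
      have hne : v1 ≠ 0 ∨ v2 ≠ 0 := by
        by_contra hcon
        push Not at hcon
        apply hpq
        refine Prod.ext ?_ ?_
        · omega
        · omega
      have g1 : 1 ≤ v1 ^ 2 + v2 ^ 2 := by
        rcases hne with h | h
        · have : 0 < v1 ^ 2 := by positivity
          nlinarith [sq_nonneg v2]
        · have : 0 < v2 ^ 2 := by positivity
          nlinarith [sq_nonneg v1]
      linarith

end Pool.Agent.CK
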