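import Pool.Agent.H671R2.CK.GDefs

/-!
# G12c: functional for attached sites
-/

namespace Pool.Agent.CK

namespace G12c

theorem consec (x a : ℤ) (ha : a = 1 ∨ a = -1) : 0 ≤ x ^ 2 + a * x := by
  rcases ha with rfl | rfl
  · rcases le_or_gt 0 x with h | h
    · positivity
    · nlinarith
  · rcases le_or_gt x 0 with h | h
    · nlinarith
    · nlinarith

/-- the inequality for one point -/
theorem core (q p : ℕ × ℕ) (hq0 : q.1 % 2 = 1) (hqp : q.1 % 2 = q.2 % 2) (hpp : p.1 % 2 = p.2 % 2)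
    (hne : p ≠ q) (a b : ℤ) (ha : a = 1 ∨ a = -1) (hb : b = 1 ∨ b = -1)
    (hloc : p.1 % 2 = 0 → (p.1 + p.2) % 4 = 0 →
      ((p.1 : ℤ) - q.1 = 1 ∨ (p.1 : ℤ) - q.1 = -1) → ((p.2 : ℤ) - q.2 = 1 ∨ (p.2 : ℤ) - q.2 = -1) →
      a * ((p.1 : ℤ) - q.1) + b * ((p.2 : ℤ) - q.2) = 2) :
    1024 * (loc q).2.2 - (2048 * (q.1 : ℤ) - 8 * a) * (loc q).1 -
        (2048 * (q.2 : ℤ) - 8 * b) * (loc q).2.1 <
      1024 * (loc p).2.2 - (2048 * (q.1 : ℤ) - 8 * a) * (loc p).1 -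
        (2048 * (q.2 : ℤ) - 8 * b) * (loc p).2.1 := by
  obtain ⟨q1, q2⟩ := q
  obtain ⟨p1, p2⟩ := p
  simp only at hq0 hqp hpp hloc ⊢
  have hne' : ¬ (p1 = q1 ∧ p2 = q2) := by
    rintro ⟨rfl, rfl⟩; exact hne rfl
  obtain ⟨v1, hv1⟩ : ∃ v1 : ℤ, v1 = (p1 : ℤ) - q1 := ⟨_, rfl⟩
  obtain ⟨v2, hv2⟩ : ∃ v2 : ℤ, v2 = (p2 : ℤ) - q2 := ⟨_, rfl⟩
  rw [← hv1, ← hv2] at hloc
  have hp1 : (p1 : ℤ) = q1 + v1 := by omega
  have hp2 : (p2 : ℤ) = q2 + v2 := by omega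
  have c1 := consec v1 a ha
  have c2 := consec v2 b hb
  have s1 : 0 ≤ v1 ^ 2 := sq_nonneg _
  have s2 : 0 ≤ v2 ^ 2 := sq_nonneg _
  unfold loc
  simp only [if_pos hq0]
  by_cases h1 : p1 % 2 = 1
  · -- attached
    simp only [if_pos h1]
    rw [hp1, hp2]
    have hv : 1 ≤ v1 ^ 2 + v2 ^ 2 := by
      by_contra hlt
      have e1 : v1 ^ 2 = 0 := by omega
      have e2 : v2 ^ 2 = 0 := by omega
      have e1' : v1 = 0 := by simpa using e1
      have e2' : v2 = 0 := by simpa using e2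
      apply hne'
      omega
    have h : 0 < 1024 * (v1 ^ 2 + v2 ^ 2) + 8 * (a * v1 + b * v2) := by linarith
    linarith
  · simp only [if_neg h1]
    by_cases h2 : (p1 + p2) % 4 = 0
    · simp only [if_pos h2]
      rw [hp1, hp2]
      have o1 : v1 % 2 = 1 := by omega
      have o2 : v2 % 2 = 1 := by omega
      have key : (v1 ^ 2 + v2 ^ 2 = 2 ∧ a * v1 + b * v2 = 2) ∨ 10 ≤ v1 ^ 2 + v2 ^ 2 := by
        have t1 : v1 = 1 ∨ v1 = -1 ∨ 3 ≤ v1 ∨ v1 ≤ -3 := by omega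
        have t2 : v2 = 1 ∨ v2 = -1 ∨ 3 ≤ v2 ∨ v2 ≤ -3 := by omega
        rcases t1 with t1 | t1 | t1 | t1 <;> rcases t2 with t2 | t2 | t2 | t2
        · left; exact ⟨by rw [t1, t2]; norm_num, hloc (by omega) h2 (Or.inl t1) (Or.inl t2)⟩
        · left; exact ⟨by rw [t1, t2]; norm_num, hloc (by omega) h2 (Or.inl t1) (Or.inr t2)⟩
        · right; nlinarith
        · right; nlinarith
        · left; exact ⟨by rw [t1, t2]; norm_num, hloc (by omega) h2 (Or.inr t1) (Or.inl t2)⟩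
        · left; exact ⟨by rw [t1, t2]; norm_num, hloc (by omega) h2 (Or.inr t1) (Or.inr t2)⟩
        · right; nlinarith
        · right; nlinarith
        · right; nlinarith
        · right; nlinarith
        · right; nlinarith
        · right; nlinarith
        · right; nlinarith
        · right; nlinarith
        · right; nlinarith
        · right; nlinarith
      rcases key with ⟨k1, k2⟩ | k
      · have h : 0 < 1024 * (v1 ^ 2 + v2 ^ 2 - 2) - 8 + 8 * (a * v1 + b * v2) := by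
          rw [k1, k2]; norm_num
        linarith
      · have h : 0 < 1024 * (v1 ^ 2 + v2 ^ 2 - 2) - 8 + 8 * (a * v1 + b * v2) := by linarith
        linarith
    · simp only [if_neg h2]
      rw [hp1, hp2]
      have h : 0 < 1024 * (v1 ^ 2 + v2 ^ 2 + 2) - 7 + 8 * (a * v1 + b * v2) := by linarith
      linarith

end G12c

open G12c in
/-- G12 for attached sites -/
theorem fun_att {r : ℕ} (hr : 1 ≤ r) (T : Finset (ℕ × ℕ)) (hT : Valid T)
    (h1 : ∀ p ∈ T, p.1 ≤ r) (h2 : ∀ p ∈ T, p.2 ≤ r) (hpar : ∀ p ∈ T, p.1 % 2 = p.2 % 2)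
    (q : ℕ × ℕ) (hq : q ∈ T) (hq0 : q.1 % 2 = 1) :
    ∃ f1 f2 f3 : ℤ, 1 ≤ f3 ∧ f3 ≤ 1024 ∧ |f1| ≤ 3 * r * f3 ∧ |f2| ≤ 3 * r * f3 ∧
      ∀ p ∈ T, p ≠ q → f3 * (loc q).2.2 - f1 * (loc q).1 - f2 * (loc q).2.1 <
        f3 * (loc p).2.2 - f1 * (loc p).1 - f2 * (loc p).2.1 := by
  obtain ⟨a, b, ha, hb, hab⟩ : ∃ a b : ℤ, (a = 1 ∨ a = -1) ∧ (b = 1 ∨ b = -1) ∧
      ∀ p ∈ T, p.1 % 2 = 0 → (p.1 + p.2) % 4 = 0 →
      ((p.1 : ℤ) - q.1 = 1 ∨ (p.1 : ℤ) - q.1 = -1) → ((p.2 : ℤ) - q.2 = 1 ∨ (p.2 : ℤ) - q.2 = -1) →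
      a * ((p.1 : ℤ) - q.1) + b * ((p.2 : ℤ) - q.2) = 2 := by
    have hqp := hpar q hq
    by_cases hD : (q.1 + q.2) % 4 = 2
    · by_cases hs : ∃ p ∈ T, p.1 = q.1 + 1 ∧ p.2 = q.2 + 1
      · obtain ⟨p', hp', e1, e2⟩ := hs
        refine ⟨1, 1, Or.inl rfl, Or.inl rfl, ?_⟩
        intro p hp g1 g2 g3 g4
        by_contra hne
        have k1 : q.1 = p.1 + 1 := by omega
        have k2 : q.2 = p.2 + 1 := by omega
        exact hT p' hp' q hq p hp (Or.inr (Or.inr (Or.inl ⟨hq0, hD, e1, k1, e2, k2⟩)))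
      · refine ⟨-1, -1, Or.inr rfl, Or.inr rfl, ?_⟩
        intro p hp g1 g2 g3 g4
        by_contra hne
        apply hs
        exact ⟨p, hp, by omega, by omega⟩
    · have hD' : (q.1 + q.2) % 4 = 0 := by omega
      by_cases hs : ∃ p ∈ T, p.1 = q.1 + 1 ∧ q.2 = p.2 + 1
      · obtain ⟨p', hp', e1, e2⟩ := hs
        refine ⟨1, -1, Or.inl rfl, Or.inr rfl, ?_⟩
        intro p hp g1 g2 g3 g4
        by_contra hne
        have k1 : q.1 = p.1 + 1 := by omega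
        have k2 : p.2 = q.2 + 1 := by omega
        exact hT p' hp' q hq p hp (Or.inr (Or.inr (Or.inr ⟨hq0, hD', e1, k1, e2, k2⟩)))
      · refine ⟨-1, 1, Or.inr rfl, Or.inl rfl, ?_⟩
        intro p hp g1 g2 g3 g4
        by_contra hne
        apply hs
        exact ⟨p, hp, by omega, by omega⟩
  refine ⟨2048 * (q.1 : ℤ) - 8 * a, 2048 * (q.2 : ℤ) - 8 * b, 1024, by norm_num, le_rfl, ?_, ?_, ?_⟩
  · have := h1 q hq
    rw [abs_le]
    constructor <;> omega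
  · have := h2 q hq
    rw [abs_le]
    constructor <;> omega
  · intro p hp hne
    exact core q p hq0 (hpar q hq) (hpar p hp) hne a b ha hb (hab p hp)

end Pool.Agent.CK
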