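import Pool.Agent.H671R2.CK.G12a
import Pool.Agent.H671R2.CK.G12b
import Pool.Agent.H671R2.CK.G12c

/-!
# G12: every member of a valid set has a functional
-/

namespace Pool.Agent.CK

theorem fun_valid {r : ℕ} (hr : 1 ≤ r) (T : Finset (ℕ × ℕ)) (hT : Valid T)
    (h1 : ∀ p ∈ T, p.1 ≤ r) (h2 : ∀ p ∈ T, p.2 ≤ r) (hpar : ∀ p ∈ T, p.1 % 2 = p.2 % 2)
    (q : ℕ × ℕ) (hq : q ∈ T) :
    ∃ f1 f2 f3 : ℤ, 1 ≤ f3 ∧ f3 ≤ 1024 ∧ |f1| ≤ 3 * r * f3 ∧ |f2| ≤ 3 * r * f3 ∧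
      ∀ p ∈ T, p ≠ q → f3 * (loc q).2.2 - f1 * (loc q).1 - f2 * (loc q).2.1 <
        f3 * (loc p).2.2 - f1 * (loc p).1 - f2 * (loc p).2.1 := by
  by_cases h : q.1 % 2 = 1
  · exact fun_att hr T hT h1 h2 hpar q hq h
  · have h0 : q.1 % 2 = 0 := by omega
    have hqp := hpar q hq
    by_cases h' : (q.1 + q.2) % 4 = 0
    · exact fun_loc hr T hT h1 h2 hpar q hq h0 h'
    · exact fun_main hr T hT h1 h2 hpar q hq h0 (by omega)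

end Pool.Agent.CK
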