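import Pool.Agent.H671R2.CK.GDefs

/-!
# Task G12a: the functional for local points
-/

namespace Pool.Agent.CK

/-- G12a: the statement of `fun_valid` for local points `q`. -/
theorem fun_loc {r : ℕ} (hr : 1 ≤ r) (T : Finset (ℕ × ℕ)) (hT : Valid T)
    (h1 : ∀ p ∈ T, p.1 ≤ r) (h2 : ∀ p ∈ T, p.2 ≤ r) (hpar : ∀ p ∈ T, p.1 % 2 = p.2 % 2)
    (q : ℕ × ℕ) (hq : q ∈ T) (hq0 : q.1 % 2 = 0) (hq1 : (q.1 + q.2) % 4 = 0) :
    ∃ f1 f2 f3 : ℤ, 1 ≤ f3 ∧ f3 ≤ 1024 ∧ |f1| ≤ 3 * r * f3 ∧ |f2| ≤ 3 * r * f3 ∧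
      ∀ p ∈ T, p ≠ q → f3 * (loc q).2.2 - f1 * (loc q).1 - f2 * (loc q).2.1 <
        f3 * (loc p).2.2 - f1 * (loc p).1 - f2 * (loc p).2.1 := by
  have hq1r : (q.1 : ℤ) ≤ r := by exact_mod_cast h1 q hq
  have hq2r : (q.2 : ℤ) ≤ r := by exact_mod_cast h2 q hq
  have hq10 : (0 : ℤ) ≤ q.1 := Int.natCast_nonneg _
  have hq20 : (0 : ℤ) ≤ q.2 := Int.natCast_nonneg _
  refine ⟨2 * q.1, 2 * q.2, 1, le_refl _, by norm_num, ?_, ?_, ?_⟩
  · rw [abs_of_nonneg (by positivity)]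
    linarith
  · rw [abs_of_nonneg (by positivity)]
    linarith
  · intro p hp hne
    have hlq : loc q = (1024 * (q.1 : ℤ), 1024 * (q.2 : ℤ),
        1024 * ((q.1 : ℤ) ^ 2 + (q.2 : ℤ) ^ 2)) := by
      unfold loc
      rw [if_neg (by omega), if_pos hq1]
    have hd : (1 : ℤ) ≤ ((p.1 : ℤ) - q.1) ^ 2 + ((p.2 : ℤ) - q.2) ^ 2 := by
      by_contra hcon
      push Not at hcon
      have e1 : ((p.1 : ℤ) - q.1) ^ 2 = 0 := by
        nlinarith [sq_nonneg ((p.1 : ℤ) - q.1), sq_nonneg ((p.2 : ℤ) - q.2)]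
      have e2 : ((p.2 : ℤ) - q.2) ^ 2 = 0 := by
        nlinarith [sq_nonneg ((p.1 : ℤ) - q.1), sq_nonneg ((p.2 : ℤ) - q.2)]
      have e3 : (p.1 : ℤ) = q.1 := by
        have := pow_eq_zero_iff (two_ne_zero) |>.1 e1
        linarith
      have e4 : (p.2 : ℤ) = q.2 := by
        have := pow_eq_zero_iff (two_ne_zero) |>.1 e2
        linarith
      exact hne (Prod.ext (by exact_mod_cast e3) (by exact_mod_cast e4))
    have hlp1 : (loc p).1 = 1024 * (p.1 : ℤ) := rfl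
    have hlp2 : (loc p).2.1 = 1024 * (p.2 : ℤ) := rfl
    have hlp3 : 1024 * ((p.1 : ℤ) ^ 2 + (p.2 : ℤ) ^ 2) ≤ (loc p).2.2 := by
      unfold loc
      dsimp only
      split_ifs <;> linarith
    rw [hlq, hlp1, hlp2]
    dsimp only
    nlinarith

end Pool.Agent.CK
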