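import Pool.Agent.H671R2.CK.Basic
import Pool.Agent.H671R2.CK.CDefs
import Pool.Agent.H671R2.PolyAuto
import Pool.Agent.NPC.Dec

/-! G13: the guards are above the planes (helper152) -/

namespace Pool.Agent.CK

open Pool.Agent.NPC

namespace G13

theorem mul_le_abs (f X K : ℤ) (h : |f| ≤ K) : f * X ≤ K * |X| := by
  calc f * X ≤ |f * X| := le_abs_self _
    _ = |f| * |X| := abs_mul _ _
    _ ≤ K * |X| := mul_le_mul_of_nonneg_right h (abs_nonneg _)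

/-- the horizontal size of the guards -/
theorem guard_size (r A G k j : ℕ) (hk : k < 3) (hj : j ≤ A) :
    |(guard r A G k j).1| + |(guard r A G k j).2.1| ≤ 4 * ((G : ℤ) + 2 * (A : ℤ) ^ 2) := by
  have hj' : (j : ℤ) ≤ A := by exact_mod_cast hj
  have h0 : (0 : ℤ) ≤ j := Int.natCast_nonneg _
  have hA0 : (0 : ℤ) ≤ A := Int.natCast_nonneg _
  have hG0 : (0 : ℤ) ≤ G := Int.natCast_nonneg _
  have h1 : (j : ℤ) * A ≤ (A : ℤ) ^ 2 := by nlinarith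
  have h2 : (j : ℤ) ^ 2 ≤ (A : ℤ) ^ 2 := by nlinarith
  have h3 : (0 : ℤ) ≤ (j : ℤ) * A := mul_nonneg h0 hA0
  have h4 : (0 : ℤ) ≤ (j : ℤ) ^ 2 := sq_nonneg _
  unfold guard
  dsimp only
  interval_cases k
  · simp only [dx, dy, if_true]
    rcases abs_cases ((G : ℤ) * 2 - j * A * 1 - (j : ℤ) ^ 2 * 2) with ⟨e1, _⟩ | ⟨e1, _⟩ <;>
    rcases abs_cases ((G : ℤ) * 1 + j * A * 2 - (j : ℤ) ^ 2 * 1) with ⟨e2, _⟩ | ⟨e2, _⟩ <;>
    rw [e1, e2] <;> linarith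
  · simp only [dx, dy, one_ne_zero, if_true, if_false]
    rcases abs_cases ((G : ℤ) * -1 - j * A * 2 - (j : ℤ) ^ 2 * -1) with ⟨e1, _⟩ | ⟨e1, _⟩ <;>
    rcases abs_cases ((G : ℤ) * 2 + j * A * -1 - (j : ℤ) ^ 2 * 2) with ⟨e2, _⟩ | ⟨e2, _⟩ <;>
    rw [e1, e2] <;> linarith
  · simp only [dx, dy, OfNat.ofNat_ne_zero, OfNat.ofNat_ne_one, if_false]
    rcases abs_cases ((G : ℤ) * -1 - j * A * -3 - (j : ℤ) ^ 2 * -1) with ⟨e1, _⟩ | ⟨e1, _⟩ <;>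
    rcases abs_cases ((G : ℤ) * -3 + j * A * -1 - (j : ℤ) ^ 2 * -3) with ⟨e2, _⟩ | ⟨e2, _⟩ <;>
    rw [e1, e2] <;> linarith

end G13

open G13 in
/-- G13: the guards are far above the planes of the functionals of `fun_valid` -/
theorem guard_above (P : Par) (co : ℕ → ℕ → ℕ × ℕ) (ok : P.Ok co) {y : ℕ} (hy : y < P.t * P.s)
    {k j : ℕ} (hk : k < 3) (hj : j < P.g) (f1 f2 f3 : ℤ) (h3 : 1 ≤ f3)
    (h1 : |f1| ≤ 3 * P.r * f3) (h2 : |f2| ≤ 3 * P.r * f3) :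
    f3 * (P.Q co y).2.2 - f1 * (P.Q co y).1 - f2 * (P.Q co y).2.1 <
      f3 * (P.Q co (P.w k j)).2.2 - f1 * (P.Q co (P.w k j)).1 - f2 * (P.Q co (P.w k j)).2.1 := by
  rw [Q_guard P co hk hj]
  obtain ⟨b1, b2, b3, b4, b5, b6⟩ := cluster_bound P co ok hy
  have hA : P.A = 100 * P.g := P.hA
  have hG : (P.G : ℤ) = 64 * ((P.A : ℤ) ^ 2 + P.B) := by
    have := P.hG
    exact_mod_cast this
  have hjA : j ≤ P.A := by omega
  have hsz := guard_size P.r P.A P.G k j hk hjA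
  have hz : (guard P.r P.A P.G k j).2.2 = 16 * P.r * P.G := rfl
  obtain ⟨X, hX⟩ : ∃ X, X = (guard P.r P.A P.G k j).1 := ⟨_, rfl⟩
  obtain ⟨Y, hY⟩ : ∃ Y, Y = (guard P.r P.A P.G k j).2.1 := ⟨_, rfl⟩
  rw [hz, ← hX, ← hY]
  rw [← hX, ← hY] at hsz
  have hR : (1 : ℤ) ≤ P.r := by exact_mod_cast P.hr
  have hA1 : (1 : ℤ) ≤ P.A := by
    have : 1 ≤ P.A := by omega
    exact_mod_cast this
  have hB0 : (0 : ℤ) ≤ P.B := Int.natCast_nonneg _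
  have hK : (0 : ℤ) ≤ 3 * P.r * f3 := (abs_nonneg _).trans h1
  have m1 := mul_le_abs f1 X _ h1
  have m2 := mul_le_abs f2 Y _ h2
  have m3 : -(f1 * (P.Q co y).1) ≤ 3 * P.r * f3 * P.B := by
    have h := mul_le_abs (-f1) (P.Q co y).1 (3 * P.r * f3) (by rwa [abs_neg])
    rw [abs_of_nonneg b1] at h
    have h' := mul_le_mul_of_nonneg_left b2 hK
    linarith
  have m4 : -(f2 * (P.Q co y).2.1) ≤ 3 * P.r * f3 * P.B := by
    have h := mul_le_abs (-f2) (P.Q co y).2.1 (3 * P.r * f3) (by rwa [abs_neg])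
    rw [abs_of_nonneg b3] at h
    have h' := mul_le_mul_of_nonneg_left b4 hK
    linarith
  have m5 : f3 * (P.Q co y).2.2 ≤ f3 * P.B := mul_le_mul_of_nonneg_left b6 (by linarith)
  have m6 : 3 * P.r * f3 * (|X| + |Y|) ≤ 3 * P.r * f3 * (4 * ((P.G : ℤ) + 2 * (P.A : ℤ) ^ 2)) :=
    mul_le_mul_of_nonneg_left hsz hK
  have m7 : f3 * P.B ≤ P.r * f3 * P.B := by
    have : 0 ≤ f3 * P.B := mul_nonneg (by linarith) hB0
    nlinarith
  have m8 : 0 < P.r * f3 * (P.A : ℤ) ^ 2 := by positivity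
  have m9 : 0 ≤ P.r * f3 * (P.B : ℤ) := by positivity
  have e1 : (3 * P.r * f3 * (4 * ((P.G : ℤ) + 2 * (P.A : ℤ) ^ 2))) =
      12 * 66 * (P.r * f3 * (P.A : ℤ) ^ 2) + 12 * 64 * (P.r * f3 * P.B) := by
    rw [hG]; ring
  have e2 : f3 * (16 * P.r * (P.G : ℤ)) =
      16 * 64 * (P.r * f3 * (P.A : ℤ) ^ 2) + 16 * 64 * (P.r * f3 * P.B) := by
    rw [hG]; ring
  rw [e2]
  nlinarith [m1, m2, m3, m4, m5, m6, m7, m8, m9, e1]

end Pool.Agent.CK
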