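import Pool.Agent.H671R2.CK.Basic
import Pool.Agent.H671R2.CK.CDefs
import Pool.Agent.H671R2.PolyAuto
import Pool.Agent.NPC.Dec

/-! G14 -/

namespace Pool.Agent.CK

open Pool.Agent.NPC

private theorem g14_case (g G j j' : ℤ) (k l : ℕ) (hk : k < 3) (hl : l < 3) (hj0 : 0 ≤ j)
    (hj : j < g) (hj0' : 0 ≤ j') (hj' : j' < g) (hG : 640000 * g ^ 2 ≤ G)
    (hne : k = l → j ≠ j') :
    -(100 * g * dx k - 2 * j * dy k) * (G * dx k - j * (100 * g) * dy k - j ^ 2 * dx k) -
        (100 * g * dy k + 2 * j * dx k) * (G * dy k + j * (100 * g) * dx k - j ^ 2 * dy k) <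
      -(100 * g * dx k - 2 * j * dy k) * (G * dx l - j' * (100 * g) * dy l - j' ^ 2 * dx l) -
        (100 * g * dy k + 2 * j * dx k) * (G * dy l + j' * (100 * g) * dx l - j' ^ 2 * dy l) := by
  have hg : 0 < g := by linarith
  have b1 : 0 ≤ g * j ^ 2 := by positivity
  have b1' : g * j ^ 2 ≤ g ^ 3 := by
    have : j ^ 2 ≤ g ^ 2 := pow_le_pow_left₀ hj0 hj.le 2
    nlinarith
  have b2 : 0 ≤ g * j' ^ 2 := by positivity
  have b2' : g * j' ^ 2 ≤ g ^ 3 := by
    have : j' ^ 2 ≤ g ^ 2 := pow_le_pow_left₀ hj0' hj'.le 2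
    nlinarith
  have b3 : 0 ≤ g ^ 2 * j' := by positivity
  have b3' : g ^ 2 * j' ≤ g ^ 3 := by
    have : g ^ 2 * j' ≤ g ^ 2 * g := mul_le_mul_of_nonneg_left hj'.le (by positivity)
    nlinarith
  have b4 : 0 ≤ j * j' ^ 2 := by positivity
  have b4' : j * j' ^ 2 ≤ g ^ 3 := by
    have h1 : j' ^ 2 ≤ g ^ 2 := pow_le_pow_left₀ hj0' hj'.le 2
    have h2 : j * j' ^ 2 ≤ g * g ^ 2 := mul_le_mul hj.le h1 (by positivity) hg.le
    nlinarith
  have b5 : 0 ≤ j * j' * g := by positivity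
  have b5' : j * j' * g ≤ g ^ 3 := by
    have h1 : j * j' ≤ g * g := mul_le_mul hj.le hj'.le hj0' hg.le
    have h2 := mul_le_mul_of_nonneg_right h1 hg.le
    nlinarith
  have hGp : 0 < G := by nlinarith [pow_pos hg 2]
  have b6 : 0 ≤ j * G := by positivity
  have b6' : j * G ≤ g * G := mul_le_mul_of_nonneg_right hj.le hGp.le
  have b7 : 640000 * g ^ 3 ≤ g * G := by
    have := mul_le_mul_of_nonneg_left hG hg.le
    nlinarith
  have b8 : 0 < g ^ 3 := by positivity
  by_cases hkl : k = l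
  · subst hkl
    have hd : 0 < (j' - j) ^ 2 := by
      have : j' - j ≠ 0 := sub_ne_zero.mpr (hne rfl).symm
      positivity
    have hd' : 0 < g * (j' - j) ^ 2 := by positivity
    interval_cases k <;> simp only [dx, dy] <;> norm_num <;> nlinarith
  · interval_cases k <;> interval_cases l <;> first
      | exact absurd rfl hkl
      | (simp only [dx, dy]; norm_num; nlinarith)

/-- G14: a functional for every guard -/
theorem fun_guard (P : Par) (co : ℕ → ℕ → ℕ × ℕ) (ok : P.Ok co) {k j : ℕ} (hk : k < 3)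
    (hj : j < P.g) {a : ℕ} (ha : a < P.n) (hne : a ≠ P.w k j) :
    -(P.A * dx k - 2 * j * dy k) * (P.Q co (P.w k j)).1 -
        (P.A * dy k + 2 * j * dx k) * (P.Q co (P.w k j)).2.1 <
      -(P.A * dx k - 2 * j * dy k) * (P.Q co a).1 -
        (P.A * dy k + 2 * j * dx k) * (P.Q co a).2.1 := by
  have hA : (P.A : ℤ) = 100 * P.g := by rw [P.hA]; push_cast; ring
  have hG : (P.G : ℤ) = 64 * ((P.A : ℤ) ^ 2 + P.B) := by rw [P.hG]; push_cast; ring
  have hB : (0:ℤ) ≤ P.B := Int.natCast_nonneg _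
  have hj0 : (0:ℤ) ≤ j := Int.natCast_nonneg _
  have hjg : (j:ℤ) < P.g := by exact_mod_cast hj
  have hG' : 640000 * (P.g : ℤ) ^ 2 ≤ P.G := by
    rw [hG, hA]; nlinarith
  rw [Q_guard P co hk hj]
  rcases index_cases P ha with ⟨i, hi, c, hc, rfl⟩ | ⟨l, hl, j', hj', rfl⟩
  · obtain ⟨h1, h2, h3, h4, -, -⟩ := cluster_bound P co ok (cluster_lt P hi hc)
    generalize (P.Q co (i * P.s + c)).1 = x at h1 h2
    generalize (P.Q co (i * P.s + c)).2.1 = y at h3 h4
    have hg : (0:ℤ) < P.g := by linarith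
    have hA0 : (0:ℤ) < P.A := by rw [hA]; linarith
    have t1 : (0:ℤ) ≤ P.A * x := by positivity
    have t2 : (0:ℤ) ≤ P.A * y := by positivity
    have t3 : (P.A : ℤ) * x ≤ P.A * P.B := mul_le_mul_of_nonneg_left h2 hA0.le
    have t4 : (P.A : ℤ) * y ≤ P.A * P.B := mul_le_mul_of_nonneg_left h4 hA0.le
    have t5 : 0 ≤ (j:ℤ) * x := by positivity
    have t6 : 0 ≤ (j:ℤ) * y := by positivity
    have hjA : 100 * (j:ℤ) ≤ P.A := by rw [hA]; linarith
    have t7 : 100 * ((j:ℤ) * x) ≤ P.A * x := by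
      have := mul_le_mul_of_nonneg_right hjA h1
      linarith
    have t8 : 100 * ((j:ℤ) * y) ≤ P.A * y := by
      have := mul_le_mul_of_nonneg_right hjA h3
      linarith
    have t9 : 64 * ((P.A:ℤ) * P.B) < P.A * P.G := by
      have : 64 * (P.B:ℤ) < P.G := by rw [hG]; nlinarith [pow_pos hA0 2]
      have := mul_lt_mul_of_pos_left this hA0
      linarith
    have t10 : (0:ℤ) ≤ P.A * (j:ℤ) ^ 2 := by positivity
    have t11 : (0:ℤ) ≤ P.A * P.B := by positivity
    interval_cases k <;> simp only [guard, dx, dy] <;> norm_num <;> nlinarith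
  · rw [Q_guard P co hl hj']
    have hne' : k = l → (j:ℤ) ≠ j' := by
      rintro rfl h
      exact hne (by rw [Int.natCast_inj.mp h])
    have := g14_case P.g P.G j j' k l hk hl hj0 hjg (Int.natCast_nonneg _) (by exact_mod_cast hj')
      hG' hne'
    simp only [guard, hA]
    exact this

end Pool.Agent.CK
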