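import Pool.Agent.H671R2.CK.Basic
import Pool.Agent.H671R2.CK.G11
import Pool.Agent.H671R2.CK.G12
import Pool.Agent.H671R2.CK.G13
import Pool.Agent.H671R2.CK.G14
import Pool.Agent.H671R2.CK.CDefs
import Pool.Agent.H671R2.PolyAuto
import Pool.Agent.NPC.Dec

/-!
# G15: a valid set of a cluster together with all guards is in convex position
-/

namespace Pool.Agent.CK

theorem G15_dx_abs (k : ℕ) : |dx k| ≤ 2 := by
  unfold dx
  split_ifs <;> norm_num

theorem G15_dy_abs (k : ℕ) : |dy k| ≤ 3 := by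
  unfold dy
  split_ifs <;> norm_num

theorem G15_g_pos (P : Par) : 1 ≤ P.g := by
  rw [P.hg]
  omega

/-- G15 -/
theorem free_of_valid (P : Par) (co : ℕ → ℕ → ℕ × ℕ) (ok : P.Ok co) {i : ℕ} (hi : i < P.t)
    (J : Finset ℕ) (hJ : ∀ c ∈ J, c < P.s) (hv : Valid (J.image (co i))) :
    P.Free co (J.image (fun c => i * P.s + c) ∪ Finset.Ico (P.t * P.s) P.n) := by
  have hn := P.hn
  have hg := G15_g_pos P
  have hg' : (1 : ℤ) ≤ P.g := by exact_mod_cast hg
  have hr' : (1 : ℤ) ≤ P.r := by exact_mod_cast P.hr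
  have hA : (P.A : ℤ) = 100 * P.g := by exact_mod_cast P.hA
  have hrg : (P.g : ℤ) ≤ P.r * P.g := by nlinarith
  have hrA : (P.r : ℤ) * P.A = 100 * (P.r * P.g) := by rw [hA]; ring
  have hlt : ∀ b ∈ ((J.image (fun c => i * P.s + c) ∪ Finset.Ico (P.t * P.s) P.n : Finset ℕ) : Set ℕ),
      b < P.n := by
    intro b hb
    rw [Finset.mem_coe, Finset.mem_union, Finset.mem_image, Finset.mem_Ico] at hb
    rcases hb with ⟨c, hc, rfl⟩ | hb
    · have := cluster_lt P hi (hJ c hc)
      omega
    · exact hb.2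
  intro a ha
  have hguard : ∀ b, P.t * P.s ≤ b → b < P.n → ∃ k < 3, ∃ j < P.g, b = P.w k j := by
    intro b h1 h2
    rcases index_cases P h2 with ⟨i', hi', c', hc', rfl⟩ | h
    · have := cluster_lt P hi' hc'
      omega
    · exact h
  rw [Finset.mem_union, Finset.mem_image, Finset.mem_Ico] at ha
  rcases ha with ⟨c, hc, rfl⟩ | ⟨ha1, ha2⟩
  · have hcs := hJ c hc
    have hal := cluster_lt P hi hcs
    obtain ⟨f1, f2, f3, h3, h4, h5, h6, h7⟩ := fun_valid P.hr (J.image (co i)) hv
      (by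
        intro p hp
        obtain ⟨c', hc', rfl⟩ := Finset.mem_image.1 hp
        exact ok.le1 i hi c' (hJ c' hc'))
      (by
        intro p hp
        obtain ⟨c', hc', rfl⟩ := Finset.mem_image.1 hp
        exact ok.le2 i hi c' (hJ c' hc'))
      (by
        intro p hp
        obtain ⟨c', hc', rfl⟩ := Finset.mem_image.1 hp
        exact ok.par i hi c' (hJ c' hc'))
      (co i c) (Finset.mem_image_of_mem _ hc)
    have hb3 : (3 : ℤ) * P.r * f3 ≤ 4096 * P.r * P.A := by
      have : (P.r : ℤ) * f3 ≤ P.r * 1024 := mul_le_mul_of_nonneg_left h4 (by linarith)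
      nlinarith
    refine ext_of_margin P co (by omega) _ (fun b hb => hlt b hb.1) (-f1) (-f2) f3
      (by rw [abs_neg]; linarith) (by rw [abs_neg]; linarith) ?_ ?_
    · rw [abs_of_nonneg (by linarith)]
      nlinarith
    · rintro b ⟨hb1, hb2⟩
      rw [Set.mem_singleton_iff] at hb2
      rw [Finset.mem_coe, Finset.mem_union, Finset.mem_image, Finset.mem_Ico] at hb1
      rcases hb1 with ⟨c', hc', rfl⟩ | ⟨hb3, hb4⟩
      · have hne : co i c' ≠ co i c := by
          intro h
          exact hb2 (by rw [ok.inj i hi c' (hJ c' hc') c hcs h])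
        have h8 := h7 (co i c') (Finset.mem_image_of_mem _ hc') hne
        rw [Q_cluster P co hi hcs, Q_cluster P co hi (hJ c' hc')]
        simp only [Prod.fst_add, Prod.snd_add]
        linarith
      · obtain ⟨k, hk, j, hj, rfl⟩ := hguard b hb3 hb4
        have h8 := guard_above P co ok hal hk hj f1 f2 f3 h3 h5 h6
        linarith
  · obtain ⟨k, hk, j, hj, rfl⟩ := hguard a ha1 ha2
    have hj' : (j : ℤ) ≤ P.g := by exact_mod_cast hj.le
    have hj0 : (0 : ℤ) ≤ j := Int.natCast_nonneg j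
    have hA0 : (0 : ℤ) ≤ P.A := Int.natCast_nonneg _
    have hdx := G15_dx_abs k
    have hdy := G15_dy_abs k
    refine ext_of_margin P co ha2 _ (fun b hb => hlt b hb.1) (-(P.A * dx k - 2 * j * dy k))
      (-(P.A * dy k + 2 * j * dx k)) 0 ?_ ?_ ?_ ?_
    · rw [abs_neg]
      refine (abs_sub _ _).trans ?_
      rw [abs_mul, abs_mul, abs_mul, abs_of_nonneg hA0, abs_of_nonneg hj0, abs_two]
      nlinarith
    · rw [abs_neg]
      refine (abs_add_le _ _).trans ?_
      rw [abs_mul, abs_mul, abs_mul, abs_of_nonneg hA0, abs_of_nonneg hj0, abs_two]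
      nlinarith
    · rw [abs_zero]
      positivity
    · rintro b ⟨hb1, hb2⟩
      rw [Set.mem_singleton_iff] at hb2
      have h8 := fun_guard P co ok hk hj (hlt b hb1) hb2
      linarith

end Pool.Agent.CK
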