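import Pool.Agent.H671R2.CK.G3
import Pool.Agent.H671R2.CK.CDefs
import Pool.Agent.H671R2.PolyAuto
import Pool.Agent.NPC.Dec

namespace Pool.Agent.CK

open Pool.Agent.NPC

theorem G16_ne {a c b : ℕ × ℕ} (h : Conf a c b) : a ≠ c ∧ b ≠ c := by
  unfold Conf at h
  constructor
  · rintro rfl
    omega
  · rintro rfl
    omega

/-- G16 -/
theorem valid_of_free (P : Par) (co : ℕ → ℕ → ℕ × ℕ) (ok : P.Ok co) {i : ℕ} (hi : i < P.t)
    (I : Finset ℕ) (hF : P.Free co I) {j : ℕ → ℕ} (hj : ∀ k < 3, j k < P.g)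
    (hw : ∀ k < 3, P.w k (j k) ∈ I) :
    Valid (((Finset.range P.s).filter (fun c => i * P.s + c ∈ I)).image (co i)) := by
  intro a0 ha0 c0 hc0 b0 hb0 hconf
  obtain ⟨a, ha, rfl⟩ := Finset.mem_image.mp ha0
  obtain ⟨c, hc, rfl⟩ := Finset.mem_image.mp hc0
  obtain ⟨b, hb, rfl⟩ := Finset.mem_image.mp hb0
  rw [Finset.mem_filter, Finset.mem_range] at ha hc hb
  have hne := G16_ne hconf
  have hac : a ≠ c := fun h => hne.1 (by rw [h])
  have hbc : b ≠ c := fun h => hne.2 (by rw [h])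
  refine hF (i * P.s + c) hc.2 (convexHull_mono ?_ (site_hull P co ok hi ha.1 hc.1 hb.1 hconf hj))
  have hlt : i * P.s + c < P.t * P.s := by
    have h1 : (i + 1) * P.s ≤ P.t * P.s := Nat.mul_le_mul_right _ hi
    have h2 : (i + 1) * P.s = i * P.s + P.s := by ring
    omega
  have hgw : ∀ k < 3, P.pt co (P.w k (j k)) ∈
      P.pt co '' ((I : Set ℕ) \ {i * P.s + c}) := by
    intro k hk
    refine ⟨_, ⟨Finset.mem_coe.mpr (hw k hk), ?_⟩, rfl⟩
    intro h
    have h3 : P.w k (j k) = i * P.s + c := h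
    unfold Par.w at h3
    omega
  intro y hy
  simp only [Set.mem_insert_iff, Set.mem_singleton_iff] at hy
  rcases hy with rfl | rfl | rfl | rfl | rfl
  · refine ⟨_, ⟨Finset.mem_coe.mpr ha.2, ?_⟩, rfl⟩
    intro h
    have h3 : i * P.s + a = i * P.s + c := h
    exact hac (by omega)
  · refine ⟨_, ⟨Finset.mem_coe.mpr hb.2, ?_⟩, rfl⟩
    intro h
    have h3 : i * P.s + b = i * P.s + c := h
    exact hbc (by omega)
  · exact hgw 0 (by norm_num)
  · exact hgw 1 (by norm_num)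
  · exact hgw 2 (by norm_num)

end Pool.Agent.CK
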