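import Pool.Agent.H671R2.CK.Basic

/-!
# G2: guard estimate
-/

namespace Pool.Agent.CK

open Pool.Agent.NPC

theorem G2_lin (X Y W Z N a q y u v : ℤ) (hu : u = 2 ∨ u = -1) (hv : v = 1 ∨ v = 2 ∨ v = -3)
    (m1 : 100 * X ≤ W) (m2 : 10000 * Y ≤ W) (m3 : 0 ≤ X) (m4 : 0 ≤ Y) (m5 : N ≤ W) (m6 : 0 ≤ Z)
    (a0 : 0 ≤ a) (a1 : a ≤ N) (q0 : 0 ≤ q) (q1 : q ≤ Z) (y0 : 0 ≤ y) (y1 : y ≤ N) :
    |-4 * X * v - 4 * Y * u + 4 * a - 4 * q - 4 * y| ≤ 64 * W + 64 * Z := by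
  rw [abs_le]
  rcases hu with h | h <;> rcases hv with h' | h' | h' <;> rw [h, h'] <;>
      constructor <;> linarith

theorem G2_lin' (X Y W Z N a q y u v : ℤ) (hu : u = 2 ∨ u = -1) (hv : v = 1 ∨ v = 2 ∨ v = -3)
    (m1 : 100 * X ≤ W) (m2 : 10000 * Y ≤ W) (m3 : 0 ≤ X) (m4 : 0 ≤ Y) (m5 : N ≤ W) (m6 : 0 ≤ Z)
    (a0 : 0 ≤ a) (a1 : a ≤ N) (q0 : 0 ≤ q) (q1 : q ≤ Z) (y0 : 0 ≤ y) (y1 : y ≤ N) :
    |4 * X * u - 4 * Y * v + 4 * a - 4 * q - 4 * y| ≤ 64 * W + 64 * Z := by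
  rw [abs_le]
  rcases hu with h | h <;> rcases hv with h' | h' | h' <;> rw [h, h'] <;>
      constructor <;> linarith

/-- integer version -/
theorem G2_int (N A B G g n j a y r : ℕ) (k : ℕ) (q1 q2 q3 : ℤ) (hr : 1 ≤ r) (hg : 1 ≤ g)
    (hA : A = 100 * g) (hG : G = 64 * (A ^ 2 + B)) (hN : N = 2 ^ 14 * r * A * (n + 1) ^ 6)
    (hj : j < g) (ha : a < n) (hy : y < n) (h1 : 0 ≤ q1 ∧ q1 ≤ B) (h2 : 0 ≤ q2 ∧ q2 ≤ B)
    (h3 : 0 ≤ q3 ∧ q3 ≤ B) :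
    |4 * (((N : ℤ) * ((G : ℤ) * dx k - j * A * dy k - (j : ℤ) ^ 2 * dx k) + a) - (N * q1 + y)
        - N * G * dx k)| ≤ (N : ℤ) * G ∧
    |4 * (((N : ℤ) * ((G : ℤ) * dy k + j * A * dx k - (j : ℤ) ^ 2 * dy k) + (a : ℤ) ^ 2)
        - (N * q2 + (y : ℤ) ^ 2) - N * G * dy k)| ≤ (N : ℤ) * G ∧
    |((N : ℤ) * (16 * (r : ℤ) * G) + (a : ℤ) ^ 3) - (N * q3 + (y : ℤ) ^ 3) - N * G * (16 * r)| ≤
      (N : ℤ) * G * (16 * r) := by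
  have hNn : ((n : ℤ) + 1) ^ 6 ≤ N := by
    have h4 : 1 ≤ 2 ^ 14 * r * A := by
      have : 1 ≤ A := by omega
      have h5 : 1 ≤ r * A := Nat.mul_le_mul hr this
      nlinarith
    have h5 : (n + 1) ^ 6 ≤ N := by
      rw [hN]
      exact Nat.le_mul_of_pos_left _ h4
    exact_mod_cast h5
  have hn0 : (0 : ℤ) ≤ n := Int.natCast_nonneg n
  have e1 : ((n : ℤ) + 1) ≤ ((n : ℤ) + 1) ^ 6 := le_self_pow₀ (by linarith) (by norm_num)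
  have e2 : ((n : ℤ) + 1) ^ 2 ≤ ((n : ℤ) + 1) ^ 6 := pow_le_pow_right₀ (by linarith) (by norm_num)
  have e3 : ((n : ℤ) + 1) ^ 3 ≤ ((n : ℤ) + 1) ^ 6 := pow_le_pow_right₀ (by linarith) (by norm_num)
  have ha0 : (0 : ℤ) ≤ a := Int.natCast_nonneg a
  have hy0 : (0 : ℤ) ≤ y := Int.natCast_nonneg y
  have ha' : (a : ℤ) ≤ n := by exact_mod_cast ha.le
  have hy' : (y : ℤ) ≤ n := by exact_mod_cast hy.le
  have a1 : (a : ℤ) ≤ N := by linarith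
  have y1 : (y : ℤ) ≤ N := by linarith
  have a2 : (a : ℤ) ^ 2 ≤ N := (pow_le_pow_left₀ ha0 (by linarith) 2).trans (e2.trans hNn)
  have y2 : (y : ℤ) ^ 2 ≤ N := (pow_le_pow_left₀ hy0 (by linarith) 2).trans (e2.trans hNn)
  have a3 : (a : ℤ) ^ 3 ≤ N := (pow_le_pow_left₀ ha0 (by linarith) 3).trans (e3.trans hNn)
  have y3 : (y : ℤ) ^ 3 ≤ N := (pow_le_pow_left₀ hy0 (by linarith) 3).trans (e3.trans hNn)
  have a2' : (0 : ℤ) ≤ (a : ℤ) ^ 2 := by positivity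
  have y2' : (0 : ℤ) ≤ (y : ℤ) ^ 2 := by positivity
  have a3' : (0 : ℤ) ≤ (a : ℤ) ^ 3 := by positivity
  have y3' : (0 : ℤ) ≤ (y : ℤ) ^ 3 := by positivity
  have hN0 : (0 : ℤ) ≤ N := Int.natCast_nonneg N
  have hB0 : (0 : ℤ) ≤ B := Int.natCast_nonneg B
  have hA1 : (1 : ℤ) ≤ A := by
    have : 1 ≤ A := by omega
    exact_mod_cast this
  have hj0 : (0 : ℤ) ≤ j := Int.natCast_nonneg j
  have hjA : 100 * (j : ℤ) ≤ A := by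
    have : 100 * j ≤ A := by omega
    exact_mod_cast this
  have hG' : (G : ℤ) = 64 * ((A : ℤ) ^ 2 + B) := by exact_mod_cast hG
  have hr1 : (1 : ℤ) ≤ r := by exact_mod_cast hr
  have p1 : 100 * ((j : ℤ) * A) ≤ (A : ℤ) ^ 2 := by nlinarith only [hjA, hA1]
  have p2 : 10000 * (j : ℤ) ^ 2 ≤ (A : ℤ) ^ 2 := by nlinarith only [hjA, hA1, hj0]
  have p3 : (0 : ℤ) ≤ (j : ℤ) * A := by positivity
  have p4 : (0 : ℤ) ≤ (j : ℤ) ^ 2 := by positivity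
  have p5 : (1 : ℤ) ≤ (A : ℤ) ^ 2 := one_le_pow₀ hA1
  have hdx : dx k = 2 ∨ dx k = -1 := by
    unfold dx
    split_ifs <;> simp
  have hdy : dy k = 1 ∨ dy k = 2 ∨ dy k = -3 := by
    unfold dy
    split_ifs <;> simp
  have hNq1 : (0 : ℤ) ≤ N * q1 := mul_nonneg hN0 h1.1
  have hNq1' : (N : ℤ) * q1 ≤ N * B := mul_le_mul_of_nonneg_left h1.2 hN0
  have hNq2 : (0 : ℤ) ≤ N * q2 := mul_nonneg hN0 h2.1
  have hNq2' : (N : ℤ) * q2 ≤ N * B := mul_le_mul_of_nonneg_left h2.2 hN0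
  have hNq3 : (0 : ℤ) ≤ N * q3 := mul_nonneg hN0 h3.1
  have hNq3' : (N : ℤ) * q3 ≤ N * B := mul_le_mul_of_nonneg_left h3.2 hN0
  have m1 : 100 * ((N : ℤ) * ((j : ℤ) * A)) ≤ N * (A : ℤ) ^ 2 := by
    have := mul_le_mul_of_nonneg_left p1 hN0
    linarith only [this]
  have m2 : 10000 * ((N : ℤ) * (j : ℤ) ^ 2) ≤ N * (A : ℤ) ^ 2 := by
    have := mul_le_mul_of_nonneg_left p2 hN0
    linarith only [this]
  have m3 : (0 : ℤ) ≤ N * ((j : ℤ) * A) := by positivity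
  have m4 : (0 : ℤ) ≤ N * (j : ℤ) ^ 2 := by positivity
  have m5 : (N : ℤ) ≤ N * (A : ℤ) ^ 2 := le_mul_of_one_le_right hN0 p5
  have hNG : (N : ℤ) * G = 64 * (N * (A : ℤ) ^ 2) + 64 * (N * B) := by
    rw [hG']
    ring
  have m6 : (0 : ℤ) ≤ N * B := by positivity
  refine ⟨?_, ?_, ?_⟩
  · have key : 4 * (((N : ℤ) * ((G : ℤ) * dx k - j * A * dy k - (j : ℤ) ^ 2 * dx k) + a) - (N * q1 + y)
        - N * G * dx k) = -4 * (N * ((j : ℤ) * A)) * dy k - 4 * (N * (j : ℤ) ^ 2) * dx k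
          + 4 * a - 4 * (N * q1) - 4 * y := by ring
    rw [key, hNG]
    exact G2_lin _ _ _ _ _ _ _ _ _ _ hdx hdy m1 m2 m3 m4 m5 m6 ha0 a1 hNq1 hNq1' hy0 y1 
  · have key : 4 * (((N : ℤ) * ((G : ℤ) * dy k + j * A * dx k - (j : ℤ) ^ 2 * dy k) + (a : ℤ) ^ 2)
        - (N * q2 + (y : ℤ) ^ 2) - N * G * dy k) =
          4 * (N * ((j : ℤ) * A)) * dx k - 4 * (N * (j : ℤ) ^ 2) * dy k
          + 4 * (a : ℤ) ^ 2 - 4 * (N * q2) - 4 * (y : ℤ) ^ 2 := by ring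
    rw [key, hNG]
    exact G2_lin' _ _ _ _ _ _ _ _ _ _ hdx hdy m1 m2 m3 m4 m5 m6 a2' a2 hNq2 hNq2' y2' y2
  · have key : ((N : ℤ) * (16 * (r : ℤ) * G) + (a : ℤ) ^ 3) - (N * q3 + (y : ℤ) ^ 3)
        - N * G * (16 * r) = (a : ℤ) ^ 3 - N * q3 - (y : ℤ) ^ 3 := by ring
    have hb : (N : ℤ) * G ≤ N * G * (16 * r) := by
      have : (0 : ℤ) ≤ N * G := by positivity
      nlinarith only [this, hr1]
    have hc : (N : ℤ) + N * B ≤ N * G := by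
      rw [hNG]
      linarith only [m5, m6, hN0]
    rw [key, abs_le]
    constructor
    · linarith only [hb, hc, a3', hNq3', y3]
    · linarith only [hb, hc, a3, hNq3, y3', m6]

/-- G2, from the two basic facts -/
theorem G2_aux (P : Par) (co : ℕ → ℕ → ℕ × ℕ) {y : ℕ} (hy : y < P.t * P.s)
    {k j : ℕ} (hk : k < 3) (hj : j < P.g)
    (hQ : P.Q co (P.w k j) = guard P.r P.A P.G k j)
    (hb : 0 ≤ (P.Q co y).1 ∧ (P.Q co y).1 ≤ P.B ∧ 0 ≤ (P.Q co y).2.1 ∧ (P.Q co y).2.1 ≤ P.B ∧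
      0 ≤ (P.Q co y).2.2 ∧ (P.Q co y).2.2 ≤ P.B) :
    |(P.pt co (P.w k j)).1 - (P.pt co y).1 - (P.N * P.G : ℝ) * (dx k : ℝ)| ≤ (P.N * P.G : ℝ) / 4 ∧
    |(P.pt co (P.w k j)).2.1 - (P.pt co y).2.1 - (P.N * P.G : ℝ) * (dy k : ℝ)| ≤
      (P.N * P.G : ℝ) / 4 ∧
    |(P.pt co (P.w k j)).2.2 - (P.pt co y).2.2 - (P.N * P.G : ℝ) * (16 * P.r)| ≤
      (P.N * P.G : ℝ) * (16 * P.r) := by
  have hg1 : 1 ≤ P.g := by omega
  have hwn : P.w k j < P.n := by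
    rw [Par.w, P.hn]
    have h1 : k * P.g + P.g ≤ 3 * P.g := by nlinarith
    omega
  have hyn : y < P.n := by
    rw [P.hn]
    omega
  obtain ⟨b1, b2, b3, b4, b5, b6⟩ := hb
  obtain ⟨c1, c2, c3⟩ := G2_int P.N P.A P.B P.G P.g P.n j (P.w k j) y P.r k _ _ _ P.hr hg1 P.hA P.hG
    P.hN hj hwn hyn ⟨b1, b2⟩ ⟨b3, b4⟩ ⟨b5, b6⟩
  have d1 := (Int.cast_le (R := ℝ)).2 c1
  have d2 := (Int.cast_le (R := ℝ)).2 c2
  have d3 := (Int.cast_le (R := ℝ)).2 c3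
  rw [Int.cast_abs] at d1 d2 d3
  refine ⟨?_, ?_, ?_⟩
  · rw [Par.pt, Par.pt, Par.pos, Par.pos, hQ, guard]
    rw [abs_le] at d1 ⊢
    push_cast at d1 ⊢
    constructor <;> linarith [d1.1, d1.2]
  · rw [Par.pt, Par.pt, Par.pos, Par.pos, hQ, guard]
    rw [abs_le] at d2 ⊢
    push_cast at d2 ⊢
    constructor <;> linarith [d2.1, d2.2]
  · rw [Par.pt, Par.pt, Par.pos, Par.pos, hQ, guard]
    rw [abs_le] at d3 ⊢
    push_cast at d3 ⊢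
    constructor <;> linarith [d3.1, d3.2]

/-- G2 -/
theorem guard_est (P : Par) (co : ℕ → ℕ → ℕ × ℕ) (ok : P.Ok co) {y : ℕ} (hy : y < P.t * P.s)
    {k j : ℕ} (hk : k < 3) (hj : j < P.g) :
    |(P.pt co (P.w k j)).1 - (P.pt co y).1 - (P.N * P.G : ℝ) * (dx k : ℝ)| ≤ (P.N * P.G : ℝ) / 4 ∧
    |(P.pt co (P.w k j)).2.1 - (P.pt co y).2.1 - (P.N * P.G : ℝ) * (dy k : ℝ)| ≤
      (P.N * P.G : ℝ) / 4 ∧
    |(P.pt co (P.w k j)).2.2 - (P.pt co y).2.2 - (P.N * P.G : ℝ) * (16 * P.r)| ≤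
      (P.N * P.G : ℝ) * (16 * P.r) :=
  G2_aux P co hy hk hj (Q_guard P co hk hj) (cluster_bound P co ok hy)

end Pool.Agent.CK
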