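import Pool.Agent.H671R2.CK.Basic
import Pool.Agent.H671R2.CK.CDefs
import Pool.Agent.H671R2.PolyAuto
import Pool.Agent.NPC.Dec

/-! # G4: differences of points of different clusters -/

namespace Pool.Agent.CK

open Pool.Agent.NPC

namespace G4

theorem core {N Q D l l' x x' : ℤ} (hN : 0 ≤ N) (hQ : 1 ≤ Q) (h1 : 4 * (D - Q) ≤ Q)
    (h2 : -Q ≤ 4 * (D - Q)) (hl : 0 ≤ l) (hl2 : 16 * l ≤ Q) (hl' : 0 ≤ l') (hl2' : 16 * l' ≤ Q)
    (hx : 0 ≤ x) (hx2 : 16 * x ≤ N) (hx' : 0 ≤ x') (hx2' : 16 * x' ≤ N) :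
    N * Q ≤ 2 * (N * (D + (l' - l)) + (x' - x)) ∧ N * (D + (l' - l)) + (x' - x) ≤ 2 * (N * Q) := by
  have e1 : N ≤ N * Q := by nlinarith
  have e2 : N * (11 * Q) ≤ N * (16 * (D + (l' - l))) :=
    mul_le_mul_of_nonneg_left (by linarith) hN
  have e3 : N * (16 * (D + (l' - l))) ≤ N * (21 * Q) :=
    mul_le_mul_of_nonneg_left (by linarith) hN
  constructor <;> linarith

/-- digits -/
theorem digits {i i' k j : ℕ} (h : i / 2 ^ (k + 1) = i' / 2 ^ (k + 1)) (hj : k < j) :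
    i'.testBit j = i.testBit j := by
  obtain ⟨m, rfl⟩ := Nat.exists_eq_add_of_lt hj
  have e1 := Nat.testBit_div_two_pow (n := k + 1) i m
  have e2 := Nat.testBit_div_two_pow (n := k + 1) i' m
  rw [← h, e1] at e2
  have h3 : m + (k + 1) = k + m + 1 := by omega
  rw [h3] at e2
  exact e2.symm

/-- the difference of the centres -/
theorem cen_diff (P : Par) {i i' k : ℕ} (hk : k < P.d) (h : i / 2 ^ (k + 1) = i' / 2 ^ (k + 1))
    (h0 : i.testBit k = false) (h1 : i'.testBit k = true) (q : ℕ) (hq : 1 ≤ q) :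
    4 * ((∑ j ∈ Finset.range P.d, if i'.testBit j then (P.E j : ℤ) ^ q else 0) -
      (∑ j ∈ Finset.range P.d, if i.testBit j then (P.E j : ℤ) ^ q else 0) - (P.E k : ℤ) ^ q) ≤
        (P.E k : ℤ) ^ q ∧
    -(P.E k : ℤ) ^ q ≤
      4 * ((∑ j ∈ Finset.range P.d, if i'.testBit j then (P.E j : ℤ) ^ q else 0) -
      (∑ j ∈ Finset.range P.d, if i.testBit j then (P.E j : ℤ) ^ q else 0) - (P.E k : ℤ) ^ q) := by
  rw [← Finset.sum_sub_distrib]
  have hsub : Finset.range (k + 1) ⊆ Finset.range P.d := Finset.range_subset_range.2 hk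
  rw [← Finset.sum_subset hsub (by
    intro j _ hj
    rw [Finset.mem_range, not_lt] at hj
    rw [digits h (by omega), sub_self])]
  rw [Finset.sum_range_succ, h0, h1]
  have hS := E_sum P k q hq
  have hS' : 4 * ∑ j ∈ Finset.range k, (P.E j : ℤ) ^ q ≤ (P.E k : ℤ) ^ q := by exact_mod_cast hS
  have b1 : ∑ j ∈ Finset.range k, ((if i'.testBit j then (P.E j : ℤ) ^ q else 0) -
      (if i.testBit j then (P.E j : ℤ) ^ q else 0)) ≤ ∑ j ∈ Finset.range k, (P.E j : ℤ) ^ q := by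
    apply Finset.sum_le_sum
    intro j _
    have : (0 : ℤ) ≤ (P.E j : ℤ) ^ q := by positivity
    split_ifs <;> linarith
  have b2 : -(∑ j ∈ Finset.range k, (P.E j : ℤ) ^ q) ≤
      ∑ j ∈ Finset.range k, ((if i'.testBit j then (P.E j : ℤ) ^ q else 0) -
      (if i.testBit j then (P.E j : ℤ) ^ q else 0)) := by
    rw [← Finset.sum_neg_distrib]
    apply Finset.sum_le_sum
    intro j _
    have : (0 : ℤ) ≤ (P.E j : ℤ) ^ q := by positivity
    split_ifs <;> linarith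
  simp only [if_true, Bool.false_eq_true, if_false, sub_zero]
  constructor <;> linarith

/-- sizes of the perturbations -/
theorem pert (P : Par) {a p : ℕ} (ha : a < P.n) (hp : p ≤ 3) : 16 * (a : ℤ) ^ p ≤ P.N := by
  have h1 : a ^ p ≤ (P.n + 1) ^ 6 := by
    calc a ^ p ≤ (P.n + 1) ^ p := Nat.pow_le_pow_left (by omega) p
      _ ≤ (P.n + 1) ^ 6 := Nat.pow_le_pow_right (by omega) (by omega)
  have hA : 1 ≤ P.A := by
    rw [P.hA, P.hg]
    omega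
  have h2 : 16 * (P.n + 1) ^ 6 ≤ P.N := by
    rw [P.hN]
    have h3 : 16 ≤ 2 ^ 14 * P.r * P.A := by
      have := P.hr
      calc 16 ≤ 2 ^ 14 * 1 * 1 := by norm_num
        _ ≤ 2 ^ 14 * P.r * P.A := by gcongr
    exact Nat.mul_le_mul_right _ h3
  have h4 : 16 * a ^ p ≤ P.N := le_trans (Nat.mul_le_mul_left _ h1) h2
  exact_mod_cast h4

end G4

/-- G4: differences of points of different clusters -/
theorem diff_est (P : Par) (co : ℕ → ℕ → ℕ × ℕ) (ok : P.Ok co) {i i' k c c' : ℕ} (hi : i < P.t)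
    (hi' : i' < P.t) (hk : k < P.d) (h : i / 2 ^ (k + 1) = i' / 2 ^ (k + 1))
    (h0 : i.testBit k = false) (h1 : i'.testBit k = true) (hc : c < P.s) (hc' : c' < P.s) :
    ((P.N * P.E k : ℝ) / 2 ≤ (P.pt co (i' * P.s + c')).1 - (P.pt co (i * P.s + c)).1 ∧
      (P.pt co (i' * P.s + c')).1 - (P.pt co (i * P.s + c)).1 ≤ 2 * (P.N * P.E k : ℝ)) ∧
    ((P.N * P.E k ^ 2 : ℝ) / 2 ≤ (P.pt co (i' * P.s + c')).2.1 - (P.pt co (i * P.s + c)).2.1 ∧
      (P.pt co (i' * P.s + c')).2.1 - (P.pt co (i * P.s + c)).2.1 ≤ 2 * (P.N * P.E k ^ 2 : ℝ)) ∧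
    ((P.N * P.E k ^ 4 : ℝ) / 2 ≤ (P.pt co (i' * P.s + c')).2.2 - (P.pt co (i * P.s + c)).2.2 ∧
      (P.pt co (i' * P.s + c')).2.2 - (P.pt co (i * P.s + c)).2.2 ≤ 2 * (P.N * P.E k ^ 4 : ℝ)) := by
  have hr := P.hr
  have hEn := E_ge P k
  have hE : (2 : ℤ) ^ 17 * (P.r : ℤ) ^ 2 ≤ (P.E k : ℤ) := by exact_mod_cast hEn
  have hr1 : (1 : ℤ) ≤ (P.r : ℤ) := by exact_mod_cast hr
  have hr2 : (P.r : ℤ) ≤ (P.r : ℤ) ^ 2 := by nlinarith
  have hE1 : (1 : ℤ) ≤ (P.E k : ℤ) := by nlinarith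
  have hEq : ∀ q : ℕ, 1 ≤ q → (P.E k : ℤ) ≤ (P.E k : ℤ) ^ q := fun q hq =>
    le_self_pow₀ hE1 (by omega)
  have hts : P.t * P.s ≤ P.n := by rw [P.hn]; omega
  have ha := (cluster_lt P hi hc).trans_le hts
  have ha' := (cluster_lt P hi' hc').trans_le hts
  obtain ⟨l1, l2, l3, l4, l5, l6⟩ := loc_bounds hr (ok.le1 i hi c hc) (ok.le2 i hi c hc)
  obtain ⟨m1, m2, m3, m4, m5, m6⟩ := loc_bounds hr (ok.le1 i' hi' c' hc') (ok.le2 i' hi' c' hc')
  have hQ := Q_cluster P co hi hc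
  have hQ' := Q_cluster P co hi' hc'
  have hN : (0 : ℤ) ≤ (P.N : ℤ) := by positivity
  have e1 := hEq 1 le_rfl
  have e2 := hEq 2 (by norm_num)
  have e4 := hEq 4 (by norm_num)
  have d1 := G4.cen_diff P hk h h0 h1 1 le_rfl
  have d2 := G4.cen_diff P hk h h0 h1 2 (by norm_num)
  have d4 := G4.cen_diff P hk h h0 h1 4 (by norm_num)
  have k1 := G4.core hN (hE1.trans e1) d1.1 d1.2 l1 (by linarith) m1 (by linarith)
    (by positivity) (G4.pert P ha (p := 1) (by norm_num)) (by positivity)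
    (G4.pert P ha' (p := 1) (by norm_num))
  have k2 := G4.core hN (hE1.trans e2) d2.1 d2.2 l3 (by linarith) m3 (by linarith)
    (by positivity) (G4.pert P ha (p := 2) (by norm_num)) (by positivity)
    (G4.pert P ha' (p := 2) (by norm_num))
  have k4 := G4.core hN (hE1.trans e4) d4.1 d4.2 l5 (by linarith) m5 (by linarith)
    (by positivity) (G4.pert P ha (p := 3) (by norm_num)) (by positivity)
    (G4.pert P ha' (p := 3) (by norm_num))
  have p1 : (P.pos co (i' * P.s + c')).1 - (P.pos co (i * P.s + c)).1 =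
      (P.N : ℤ) * ((∑ j ∈ Finset.range P.d, if i'.testBit j then (P.E j : ℤ) ^ 1 else 0) -
      (∑ j ∈ Finset.range P.d, if i.testBit j then (P.E j : ℤ) ^ 1 else 0) +
      ((loc (co i' c')).1 - (loc (co i c)).1)) +
      (((i' * P.s + c' : ℕ) : ℤ) ^ 1 - ((i * P.s + c : ℕ) : ℤ) ^ 1) := by
    simp only [Par.pos, hQ, hQ', cen, Prod.fst_add, pow_one]
    ring
  have p2 : (P.pos co (i' * P.s + c')).2.1 - (P.pos co (i * P.s + c)).2.1 =
      (P.N : ℤ) * ((∑ j ∈ Finset.range P.d, if i'.testBit j then (P.E j : ℤ) ^ 2 else 0) -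
      (∑ j ∈ Finset.range P.d, if i.testBit j then (P.E j : ℤ) ^ 2 else 0) +
      ((loc (co i' c')).2.1 - (loc (co i c)).2.1)) +
      (((i' * P.s + c' : ℕ) : ℤ) ^ 2 - ((i * P.s + c : ℕ) : ℤ) ^ 2) := by
    simp only [Par.pos, hQ, hQ', cen, Prod.fst_add, Prod.snd_add]
    ring
  have p4 : (P.pos co (i' * P.s + c')).2.2 - (P.pos co (i * P.s + c)).2.2 =
      (P.N : ℤ) * ((∑ j ∈ Finset.range P.d, if i'.testBit j then (P.E j : ℤ) ^ 4 else 0) -
      (∑ j ∈ Finset.range P.d, if i.testBit j then (P.E j : ℤ) ^ 4 else 0) +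
      ((loc (co i' c')).2.2 - (loc (co i c)).2.2)) +
      (((i' * P.s + c' : ℕ) : ℤ) ^ 3 - ((i * P.s + c : ℕ) : ℤ) ^ 3) := by
    simp only [Par.pos, hQ, hQ', cen, Prod.snd_add]
    ring
  rw [← p1, pow_one] at k1
  rw [← p2] at k2
  rw [← p4] at k4
  have c1 : ((P.N : ℝ) * (P.E k : ℝ)) ≤
      2 * (((P.pos co (i' * P.s + c')).1 : ℝ) - ((P.pos co (i * P.s + c)).1 : ℝ)) := by
    exact_mod_cast k1.1
  have c1' : (((P.pos co (i' * P.s + c')).1 : ℝ) - ((P.pos co (i * P.s + c)).1 : ℝ)) ≤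
      2 * ((P.N : ℝ) * (P.E k : ℝ)) := by
    exact_mod_cast k1.2
  have c2 : ((P.N : ℝ) * (P.E k : ℝ) ^ 2) ≤
      2 * (((P.pos co (i' * P.s + c')).2.1 : ℝ) - ((P.pos co (i * P.s + c)).2.1 : ℝ)) := by
    exact_mod_cast k2.1
  have c2' : (((P.pos co (i' * P.s + c')).2.1 : ℝ) - ((P.pos co (i * P.s + c)).2.1 : ℝ)) ≤
      2 * ((P.N : ℝ) * (P.E k : ℝ) ^ 2) := by
    exact_mod_cast k2.2
  have c4 : ((P.N : ℝ) * (P.E k : ℝ) ^ 4) ≤
      2 * (((P.pos co (i' * P.s + c')).2.2 : ℝ) - ((P.pos co (i * P.s + c)).2.2 : ℝ)) := by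
    exact_mod_cast k4.1
  have c4' : (((P.pos co (i' * P.s + c')).2.2 : ℝ) - ((P.pos co (i * P.s + c)).2.2 : ℝ)) ≤
      2 * ((P.N : ℝ) * (P.E k : ℝ) ^ 4) := by
    exact_mod_cast k4.2
  refine ⟨⟨?_, ?_⟩, ⟨?_, ?_⟩, ⟨?_, ?_⟩⟩ <;> simp only [Par.pt] <;> linarith

end Pool.Agent.CK
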