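import Pool.Agent.H671R2.CK.Basic
import Pool.Agent.H671R2.CK.G1
import Pool.Agent.H671R2.CK.G2
import Pool.Agent.H671R2.CK.G4
import Pool.Agent.H671R2.CK.CDefs
import Pool.Agent.H671R2.PolyAuto
import Pool.Agent.NPC.Dec

/-! G5 -/

namespace Pool.Agent.CK

open Pool.Agent.NPC

/-- the highest binary digit where two different numbers differ -/
theorem G5_exists_top {i i' d : ℕ} (h : i < i') (h' : i' < 2 ^ d) :
    ∃ k < d, i / 2 ^ (k + 1) = i' / 2 ^ (k + 1) ∧ i.testBit k = false ∧ i'.testBit k = true := by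
  classical
  have hex : ∃ m, i / 2 ^ m = i' / 2 ^ m := ⟨d, by
    rw [Nat.div_eq_of_lt h', Nat.div_eq_of_lt (h.trans h')]⟩
  have hm := Nat.find_spec hex
  have hmin := fun k (hk : k < Nat.find hex) => Nat.find_min hex hk
  have hle : Nat.find hex ≤ d := Nat.find_min' hex (by
    rw [Nat.div_eq_of_lt h', Nat.div_eq_of_lt (h.trans h')])
  generalize Nat.find hex = m at hm hmin hle
  rcases m with _ | k
  · simp at hm
    omega
  · refine ⟨k, by omega, hm, ?_⟩
    have h1 := hmin k (by omega)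
    have h2 : i / 2 ^ k ≤ i' / 2 ^ k := Nat.div_le_div_right h.le
    rw [pow_succ, ← Nat.div_div_eq_div_mul, ← Nat.div_div_eq_div_mul] at hm
    rw [Nat.testBit_eq_decide_div_mod_eq, Nat.testBit_eq_decide_div_mod_eq]
    generalize i / 2 ^ k = a at h1 h2 hm
    generalize i' / 2 ^ k = b at h1 h2 hm
    constructor
    · rw [decide_eq_false_iff_not]; omega
    · rw [decide_eq_true_iff]; omega

theorem G5_N_pos (P : Par) : 0 < P.N := by
  rw [P.hN, P.hA, P.hg]
  have := P.hr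
  positivity

theorem G5_G_pos (P : Par) : 0 < P.G := by
  rw [P.hG, P.hA, P.hg]
  positivity

/-- G5: the point of a higher cluster is in the hull of a point of a lower cluster and of three
guards -/
theorem lower_hull (P : Par) (co : ℕ → ℕ → ℕ × ℕ) (ok : P.Ok co) {i i' c c' : ℕ} (hii : i < i')
    (hi' : i' < P.t) (hc : c < P.s) (hc' : c' < P.s) {j : ℕ → ℕ} (hj : ∀ k < 3, j k < P.g) :
    P.pt co (i' * P.s + c') ∈ convexHull ℝ {P.pt co (i * P.s + c),
      P.pt co (P.w 0 (j 0)), P.pt co (P.w 1 (j 1)), P.pt co (P.w 2 (j 2))} := by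
  obtain ⟨k, hk, h, h0, h1⟩ := G5_exists_top hii (hi'.trans P.ht)
  obtain ⟨⟨a1, a2⟩, ⟨b1, b2⟩, c1, _⟩ :=
    diff_est P co ok (hii.trans hi') hi' hk h h0 h1 hc hc'
  have hN : (0 : ℝ) < P.N := by exact_mod_cast G5_N_pos P
  have hG : (0 : ℝ) < P.G := by exact_mod_cast G5_G_pos P
  have hr : (1 : ℝ) ≤ P.r := by exact_mod_cast P.hr
  have hE : (2 : ℝ) ^ 17 * P.r ^ 2 ≤ P.E k := by exact_mod_cast E_ge P k
  set E : ℝ := (P.E k : ℝ) with hEdef
  have hEr : 512 * (P.r : ℝ) ≤ E := by nlinarith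
  have hE1 : 1 ≤ E := by linarith
  have hE2 : E ≤ E ^ 2 := by nlinarith
  have hNE : 0 < P.N * E := by positivity
  have hNE2 : 0 < P.N * E ^ 2 := by positivity
  have f1 : 512 * (P.r : ℝ) * (P.N * E ^ 2) ≤ P.N * E ^ 4 := by
    have : P.N * E ^ 4 = E ^ 2 * (P.N * E ^ 2) := by ring
    rw [this]
    exact mul_le_mul_of_nonneg_right (hEr.trans hE2) hNE2.le
  have f2 : P.N * E ≤ P.N * E ^ 2 := mul_le_mul_of_nonneg_left hE2 hN.le
  have key := cone {P.pt co (i * P.s + c)} (Set.finite_singleton _)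
    (P.pt co (i * P.s + c)) (P.pt co (i' * P.s + c'))
    (fun k => P.pt co (P.w k (j k))) (P.N * P.G) (16 * P.r) (mul_pos hN hG) (by positivity)
    (subset_convexHull ℝ _ rfl)
    (fun k hk => guard_est P co ok (cluster_lt P hi' hc') hk (hj k hk)) ?_ ?_
  · have e : ({P.pt co (i * P.s + c)} ∪ {P.pt co (P.w 0 (j 0)), P.pt co (P.w 1 (j 1)),
        P.pt co (P.w 2 (j 2))} : Set (ℝ × ℝ × ℝ)) = {P.pt co (i * P.s + c),
        P.pt co (P.w 0 (j 0)), P.pt co (P.w 1 (j 1)), P.pt co (P.w 2 (j 2))} := rfl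
    rw [← e]
    exact key
  · rw [abs_of_nonneg (by linarith)]
    have : 8 * (16 * (P.r : ℝ)) * ((P.pt co (i' * P.s + c')).1 - (P.pt co (i * P.s + c)).1) ≤
        8 * (16 * (P.r : ℝ)) * (2 * (P.N * E ^ 2)) :=
      mul_le_mul_of_nonneg_left (by linarith) (by positivity)
    linarith
  · rw [abs_of_nonneg (by linarith)]
    have : 8 * (16 * (P.r : ℝ)) * ((P.pt co (i' * P.s + c')).2.1 - (P.pt co (i * P.s + c)).2.1) ≤
        8 * (16 * (P.r : ℝ)) * (2 * (P.N * E ^ 2)) :=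
      mul_le_mul_of_nonneg_left b2 (by positivity)
    linarith

end Pool.Agent.CK
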