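import Pool.Agent.H671R2.CK.Basic
import Pool.Agent.H671R2.CK.G10
import Pool.Agent.H671R2.CK.G5
import Pool.Agent.H671R2.CK.CDefs
import Pool.Agent.H671R2.PolyAuto
import Pool.Agent.NPC.Dec

/-!
# Only one cluster
-/

namespace Pool.Agent.CK

open Pool.Agent.NPC
/-- G17 -/
theorem one_cluster (P : Par) (co : ℕ → ℕ → ℕ × ℕ) (ok : P.Ok co) (I : Finset ℕ)
    (hI : ∀ a ∈ I, a < P.n) (hF : P.Free co I) (K : ℕ) (hK : 1 ≤ K) (hcard : 3 * P.g + K ≤ I.card) :
    ∃ i < P.t, (∃ j : ℕ → ℕ, (∀ k < 3, j k < P.g) ∧ ∀ k < 3, P.w k (j k) ∈ I) ∧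
      K ≤ ((Finset.range P.s).filter (fun c => i * P.s + c ∈ I)).card := by
  classical
  have hs := P.hs
  -- the cluster indices
  have htouch := touched_card P co ok I hI hF
  set C := I.filter (· < P.t * P.s) with hC
  have hCcard : C.card ≤ P.s * (C.image (· / P.s)).card := by
    refine Finset.card_le_mul_card_image C P.s fun a ha => ?_
    calc ((C.filter fun x => x / P.s = a)).card ≤ (Finset.Ico (a * P.s) (a * P.s + P.s)).card := by
          refine Finset.card_le_card fun x hx => ?_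
          rw [Finset.mem_filter] at hx
          rw [Finset.mem_Ico, ← hx.2]
          have h1 := Nat.div_add_mod x P.s
          have h2 := Nat.mod_lt x (show 0 < P.s by omega)
          rw [mul_comm] at h1
          omega
      _ = P.s := by rw [Nat.card_Ico]; omega
  have hCg : C.card + 1 ≤ P.g := by
    have h1 : P.s * (C.image (· / P.s)).card ≤ P.s * (2 * (P.d + 1) ^ 2) :=
      Nat.mul_le_mul_left _ htouch
    have h2 := P.hg
    have h3 : P.s * (2 * (P.d + 1) ^ 2) = 2 * (P.d + 1) ^ 2 * P.s := by ring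
    omega
  -- the guards
  let Gk : ℕ → Finset ℕ := fun k => I.filter fun a => ∃ j < P.g, a = P.w k j
  have hGk : ∀ k, (Gk k).card ≤ P.g := by
    intro k
    calc (Gk k).card ≤ ((Finset.range P.g).image (P.w k)).card := by
          refine Finset.card_le_card fun x hx => ?_
          obtain ⟨_, j, hj, rfl⟩ := Finset.mem_filter.1 hx
          exact Finset.mem_image_of_mem _ (Finset.mem_range.2 hj)
      _ ≤ (Finset.range P.g).card := Finset.card_image_le
      _ = P.g := Finset.card_range _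
  have hcover : I ⊆ C ∪ (Gk 0 ∪ (Gk 1 ∪ Gk 2)) := by
    intro a ha
    rcases index_cases P (hI a ha) with ⟨i, hi, c, hc, rfl⟩ | ⟨k, hk, j, hj, rfl⟩
    · exact Finset.mem_union_left _ (Finset.mem_filter.2 ⟨ha, cluster_lt P hi hc⟩)
    · refine Finset.mem_union_right _ ?_
      have hm : P.w k j ∈ Gk k := Finset.mem_filter.2 ⟨ha, j, hj, rfl⟩
      interval_cases k
      · exact Finset.mem_union_left _ hm
      · exact Finset.mem_union_right _ (Finset.mem_union_left _ hm)
      · exact Finset.mem_union_right _ (Finset.mem_union_right _ hm)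
  have hsum : I.card ≤ C.card + ((Gk 0).card + ((Gk 1).card + (Gk 2).card)) := by
    refine (Finset.card_le_card hcover).trans ((Finset.card_union_le _ _).trans ?_)
    refine Nat.add_le_add_left ((Finset.card_union_le _ _).trans ?_) _
    exact Nat.add_le_add_left (Finset.card_union_le _ _) _
  have h0 := hGk 0
  have h1 := hGk 1
  have h2 := hGk 2
  have hne : ∀ k < 3, (Gk k).Nonempty := by
    intro k hk
    rw [← Finset.card_pos]
    interval_cases k <;> omega
  have hj : ∀ k, ∃ j, k < 3 → j < P.g ∧ P.w k j ∈ I := by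
    intro k
    by_cases hk : k < 3
    · obtain ⟨a, ha⟩ := hne k hk
      obtain ⟨haI, j, hj, rfl⟩ := Finset.mem_filter.1 ha
      exact ⟨j, fun _ => ⟨hj, haI⟩⟩
    · exact ⟨0, fun h => absurd h hk⟩
  choose j hj using hj
  have hCK : K ≤ C.card := by omega
  obtain ⟨a, ha⟩ : C.Nonempty := by rw [← Finset.card_pos]; omega
  have hdiv : ∀ b ∈ C, b / P.s < P.t ∧ b % P.s < P.s ∧ b = b / P.s * P.s + b % P.s ∧ b ∈ I := by
    intro b hb
    obtain ⟨hbI, hb2⟩ := Finset.mem_filter.1 hb
    refine ⟨Nat.div_lt_of_lt_mul (by rwa [mul_comm] at hb2), Nat.mod_lt _ (by omega), ?_, hbI⟩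
    have := Nat.div_add_mod b P.s
    rw [mul_comm] at this
    exact this.symm
  -- two clusters are impossible
  have key : ∀ b ∈ C, ∀ b' ∈ C, ¬ b / P.s < b' / P.s := by
    intro b hb b' hb' hlt
    obtain ⟨_, e2, e3, e4⟩ := hdiv b hb
    obtain ⟨f1, f2, f3, f4⟩ := hdiv b' hb'
    have h := lower_hull P co ok hlt f1 e2 f2 (fun k hk => (hj k hk).1)
    refine hF b' f4 ?_
    have hb'2 : b' < P.t * P.s := (Finset.mem_filter.1 hb').2
    rw [← f3, ← e3] at h
    refine convexHull_mono ?_ h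
    have hw : ∀ k < 3, P.pt co (P.w k (j k)) ∈ P.pt co '' ((I : Set ℕ) \ {b'}) := by
      intro k hk
      refine ⟨P.w k (j k), ⟨(hj k hk).2, ?_⟩, rfl⟩
      intro h
      have h : P.w k (j k) = b' := h
      unfold Par.w at h
      omega
    intro x hx
    simp only [Set.mem_insert_iff, Set.mem_singleton_iff] at hx
    rcases hx with rfl | rfl | rfl | rfl
    · refine ⟨b, ⟨e4, ?_⟩, rfl⟩
      intro h
      have h : b = b' := h
      rw [h] at hlt
      exact lt_irrefl _ hlt
    · exact hw 0 (by norm_num)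
    · exact hw 1 (by norm_num)
    · exact hw 2 (by norm_num)
  obtain ⟨a1, -, -, -⟩ := hdiv a ha
  refine ⟨a / P.s, a1, ⟨j, fun k hk => (hj k hk).1, fun k hk => (hj k hk).2⟩, ?_⟩
  refine hCK.trans ?_
  refine Finset.card_le_card_of_injOn (fun b => b % P.s) (fun b hb => ?_) ?_
  · obtain ⟨b1, b2, b3, b4⟩ := hdiv b hb
    have hq : b / P.s = a / P.s :=
      le_antisymm (not_lt.1 (key a ha b hb)) (not_lt.1 (key b hb a ha))
    refine Finset.mem_coe.2 (Finset.mem_filter.2 ⟨Finset.mem_range.2 b2, ?_⟩)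
    rw [← hq, ← b3]
    exact b4
  · intro b hb b' hb' h
    obtain ⟨b1, b2, b3, b4⟩ := hdiv b hb
    obtain ⟨c1, c2, c3, c4⟩ := hdiv b' hb'
    have hq : b / P.s = b' / P.s :=
      le_antisymm (not_lt.1 (key b' hb' b hb)) (not_lt.1 (key b hb b' hb'))
    have h : b % P.s = b' % P.s := h
    rw [b3, c3, hq, h]

end Pool.Agent.CK
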