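import Pool.Agent.H671R2.CK.Basic
import Pool.Agent.H671R2.CK.G15
import Pool.Agent.H671R2.CK.G16
import Pool.Agent.H671R2.CK.CDefs
import Pool.Agent.H671R2.PolyAuto
import Pool.Agent.NPC.Dec
import Pool.Agent.H671R2.CK.G17

/-!
# The geometric equivalence
-/

namespace Pool.Agent.CK

open Pool.Agent.NPC
theorem Valid.mono {T T' : Finset (ℕ × ℕ)} (h : Valid T) (hT : T' ⊆ T) : Valid T' :=
  fun a ha c hc b hb => h a (hT ha) c (hT hc) b (hT hb)

/-- G18 -/
theorem geo_iff (P : Par) (co : ℕ → ℕ → ℕ × ℕ) (ok : P.Ok co) (K : ℕ) (hK : 1 ≤ K) :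
    (∃ I : Finset ℕ, (∀ a ∈ I, a < P.n) ∧ I.card = 3 * P.g + K ∧ P.Free co I) ↔
      ∃ i < P.t, ∃ T ⊆ (Finset.range P.s).image (co i), Valid T ∧ K ≤ T.card := by
  classical
  constructor
  · rintro ⟨I, hI, hcard, hF⟩
    obtain ⟨i, hi, ⟨j, hj, hw⟩, hc⟩ := Pool.Agent.CK.one_cluster P co ok I hI hF K hK hcard.ge
    refine ⟨i, hi, ((Finset.range P.s).filter (fun c => i * P.s + c ∈ I)).image (co i),
      Finset.image_subset_image (Finset.filter_subset _ _),
      valid_of_free P co ok hi I hF hj hw, ?_⟩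
    rw [Finset.card_image_of_injOn]
    · exact hc
    · intro c hc c' hc' h
      have h1 := Finset.mem_range.1 (Finset.mem_filter.1 (Finset.mem_coe.1 hc)).1
      have h2 := Finset.mem_range.1 (Finset.mem_filter.1 (Finset.mem_coe.1 hc')).1
      exact ok.inj i hi c h1 c' h2 h
  · rintro ⟨i, hi, T, hT, hv, hKT⟩
    obtain ⟨T', hT', hcard⟩ := Finset.exists_subset_card_eq hKT
    set J := (Finset.range P.s).filter (fun c => co i c ∈ T') with hJ
    have hJs : ∀ c ∈ J, c < P.s := fun c hc => Finset.mem_range.1 (Finset.mem_filter.1 hc).1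
    have himg : J.image (co i) = T' := by
      ext p
      rw [Finset.mem_image]
      constructor
      · rintro ⟨c, hc, rfl⟩
        exact (Finset.mem_filter.1 hc).2
      · intro hp
        obtain ⟨c, hc, rfl⟩ := Finset.mem_image.1 (hT (hT' hp))
        exact ⟨c, Finset.mem_filter.2 ⟨hc, hp⟩, rfl⟩
    have hJcard : J.card = K := by
      rw [← hcard, ← himg, Finset.card_image_of_injOn]
      intro c hc c' hc' h
      exact ok.inj i hi c (hJs c (Finset.mem_coe.1 hc)) c' (hJs c' (Finset.mem_coe.1 hc')) h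
    have hn := P.hn
    refine ⟨J.image (fun c => i * P.s + c) ∪ Finset.Ico (P.t * P.s) P.n, ?_, ?_, ?_⟩
    · intro a ha
      rcases Finset.mem_union.1 ha with ha | ha
      · obtain ⟨c, hc, rfl⟩ := Finset.mem_image.1 ha
        have := cluster_lt P hi (hJs c hc)
        omega
      · exact (Finset.mem_Ico.1 ha).2
    · rw [Finset.card_union_of_disjoint, Finset.card_image_of_injective, hJcard, Nat.card_Ico]
      · omega
      · intro c c' h
        have h : i * P.s + c = i * P.s + c' := h
        omega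
      · rw [Finset.disjoint_left]
        intro a ha ha'
        obtain ⟨c, hc, rfl⟩ := Finset.mem_image.1 ha
        have h1 := cluster_lt P hi (hJs c hc)
        have h2 := (Finset.mem_Ico.1 ha').1
        omega
    · refine free_of_valid P co ok hi J hJs ?_
      rw [himg]
      exact Valid.mono hv hT'

end Pool.Agent.CK
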