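import Pool.Agent.H671R2.CK.G20

namespace Pool.Agent.CK

/-- the determinant of three vectors, over any commutative ring -/
def dd {R : Type*} [CommRing R] (u v w : R × R × R) : R :=
  u.1 * (v.2.1 * w.2.2 - v.2.2 * w.2.1) - u.2.1 * (v.1 * w.2.2 - v.2.2 * w.1) +
    u.2.2 * (v.1 * w.2.1 - v.2.1 * w.1)

theorem dd_zero (u v w : ℝ × ℝ × ℝ) (α β γ : ℝ) (h : α ≠ 0 ∨ β ≠ 0 ∨ γ ≠ 0)
    (hu : α * u.1 + β * u.2.1 + γ * u.2.2 = 0) (hv : α * v.1 + β * v.2.1 + γ * v.2.2 = 0)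
    (hw : α * w.1 + β * w.2.1 + γ * w.2.2 = 0) : dd u v w = 0 := by
  unfold dd
  rcases h with h | h | h
  · apply (mul_eq_zero.1 _).resolve_left h
    linear_combination (v.2.1 * w.2.2 - v.2.2 * w.2.1) * hu
      - (u.2.1 * w.2.2 - u.2.2 * w.2.1) * hv + (u.2.1 * v.2.2 - u.2.2 * v.2.1) * hw
  · apply (mul_eq_zero.1 _).resolve_left h
    linear_combination -(v.1 * w.2.2 - v.2.2 * w.1) * hu
      + (u.1 * w.2.2 - u.2.2 * w.1) * hv - (u.1 * v.2.2 - u.2.2 * v.1) * hw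
  · apply (mul_eq_zero.1 _).resolve_left h
    linear_combination (v.1 * w.2.1 - v.2.1 * w.1) * hu
      - (u.1 * w.2.1 - u.2.1 * w.1) * hv + (u.1 * v.2.1 - u.2.1 * v.1) * hw

/-- G19: no four points of the arrangement are on a plane -/
theorem no_plane (P : Par) (co : ℕ → ℕ → ℕ × ℕ) {a b c e : ℕ} (ha : a < P.n) (hb : b < P.n)
    (hc : c < P.n) (he : e < P.n) (hab : a ≠ b) (hac : a ≠ c) (hae : a ≠ e) (hbc : b ≠ c)
    (hbe : b ≠ e) (hce : c ≠ e) (α β γ δ : ℝ) (h : α ≠ 0 ∨ β ≠ 0 ∨ γ ≠ 0) :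
    ¬ ∀ x ∈ [a, b, c, e],
      α * (P.pt co x).1 + β * (P.pt co x).2.1 + γ * (P.pt co x).2.2 = δ := by
  intro hall
  have h0 := hall a (by simp)
  have h1 := hall b (by simp)
  have h2 := hall c (by simp)
  have h3 := hall e (by simp)
  have hd : ∀ x, α * (P.pt co x).1 + β * (P.pt co x).2.1 + γ * (P.pt co x).2.2 = δ →
      α * ((P.pt co x).1 - (P.pt co a).1) + β * ((P.pt co x).2.1 - (P.pt co a).2.1)
        + γ * ((P.pt co x).2.2 - (P.pt co a).2.2) = 0 := by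
    intro x hx
    linear_combination hx - h0
  set U : ℕ → ℤ × ℤ × ℤ := fun x => ((P.pos co x).1 - (P.pos co a).1,
    (P.pos co x).2.1 - (P.pos co a).2.1, (P.pos co x).2.2 - (P.pos co a).2.2) with hU
  have hR := dd_zero ((P.pt co b).1 - (P.pt co a).1, (P.pt co b).2.1 - (P.pt co a).2.1,
      (P.pt co b).2.2 - (P.pt co a).2.2)
    ((P.pt co c).1 - (P.pt co a).1, (P.pt co c).2.1 - (P.pt co a).2.1,
      (P.pt co c).2.2 - (P.pt co a).2.2)
    ((P.pt co e).1 - (P.pt co a).1, (P.pt co e).2.1 - (P.pt co a).2.1,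
      (P.pt co e).2.2 - (P.pt co a).2.2) α β γ h (hd b h1) (hd c h2) (hd e h3)
  have hZ : dd (U b) (U c) (U e) = 0 := by
    have : ((dd (U b) (U c) (U e) : ℤ) : ℝ) = 0 := by
      rw [← hR]
      simp only [dd, hU, Par.pt]
      push_cast
      ring
    exact_mod_cast this
  have hN := n_lt_N P
  set V : ℤ := ((b : ℤ) - a) * ((c : ℤ) - a) * ((e : ℤ) - a) * ((c : ℤ) - b) * ((e : ℤ) - b) *
    ((e : ℤ) - c) with hV
  have hdvd : (P.N : ℤ) ∣ V := by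
    rw [← ZMod.intCast_zmod_eq_zero_iff_dvd]
    have h4 : ((dd (U b) (U c) (U e) : ℤ) : ZMod P.N) = 0 := by rw [hZ]; simp
    rw [← h4]
    simp only [dd, hU, Par.pos, hV]
    push_cast
    simp only [CharP.cast_eq_zero, zero_mul, zero_add]
    ring
  have hne : V ≠ 0 := by
    have e1 : ((b : ℤ) - a) ≠ 0 := by omega
    have e2 : ((c : ℤ) - a) ≠ 0 := by omega
    have e3 : ((e : ℤ) - a) ≠ 0 := by omega
    have e4 : ((c : ℤ) - b) ≠ 0 := by omega
    have e5 : ((e : ℤ) - b) ≠ 0 := by omega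
    have e6 : ((e : ℤ) - c) ≠ 0 := by omega
    exact mul_ne_zero (mul_ne_zero (mul_ne_zero (mul_ne_zero (mul_ne_zero e1 e2) e3) e4) e5) e6
  apply hne
  apply Int.eq_zero_of_abs_lt_dvd hdvd
  have habs : ∀ x y : ℕ, x < P.n → y < P.n → |((x : ℤ) - y)| ≤ P.n := by
    intro x y hx hy
    rw [abs_le]
    constructor <;> omega
  rw [hV, abs_mul, abs_mul, abs_mul, abs_mul, abs_mul]
  have hb1 := habs b a hb ha
  have hb2 := habs c a hc ha
  have hb3 := habs e a he ha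
  have hb4 := habs c b hc hb
  have hb5 := habs e b he hb
  have hb6 := habs e c he hc
  calc |((b : ℤ) - a)| * |((c : ℤ) - a)| * |((e : ℤ) - a)| * |((c : ℤ) - b)| * |((e : ℤ) - b)| *
      |((e : ℤ) - c)| ≤ (P.n : ℤ) * P.n * P.n * P.n * P.n * P.n := by gcongr
    _ = (P.n : ℤ) ^ 6 := by ring
    _ < ((P.n : ℤ) + 1) ^ 6 := by
      apply pow_lt_pow_left₀ (by omega) (by omega) (by norm_num)
    _ ≤ P.N := by exact_mod_cast hN

end Pool.Agent.CK
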