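import Pool.Agent.H671R2.CK.GDefs

namespace Pool.Agent.CK

theorem n_lt_N (P : Par) : (P.n + 1) ^ 6 ≤ P.N := by
  have hr := P.hr
  have hA : 1 ≤ P.A := by rw [P.hA, P.hg]; omega
  rw [P.hN]
  have h1 : 1 ≤ 2 ^ 14 * P.r * P.A := by
    have : 0 < 2 ^ 14 * P.r * P.A := by positivity
    exact this
  calc (P.n + 1) ^ 6 = 1 * (P.n + 1) ^ 6 := (one_mul _).symm
    _ ≤ 2 ^ 14 * P.r * P.A * (P.n + 1) ^ 6 := Nat.mul_le_mul_right _ h1

/-- G20 -/
theorem pos_inj (P : Par) (co : ℕ → ℕ → ℕ × ℕ) {a b : ℕ} (ha : a < P.n) (hb : b < P.n)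
    (h : P.pos co a = P.pos co b) : a = b := by
  have hN := n_lt_N P
  have hn : P.n < P.N := by
    have : P.n + 1 ≤ (P.n + 1) ^ 6 := Nat.le_self_pow (by norm_num) _
    omega
  have h1 : (P.N : ℤ) * (P.Q co a).1 + a = P.N * (P.Q co b).1 + b := congrArg Prod.fst h
  have h2 : (P.N : ℤ) ∣ ((b : ℤ) - a) := ⟨(P.Q co a).1 - (P.Q co b).1, by linear_combination -h1⟩
  have h3 : ((b : ℤ) - a) = 0 := by
    apply Int.eq_zero_of_abs_lt_dvd h2
    rw [abs_lt]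
    constructor <;> omega
  omega

end Pool.Agent.CK
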