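import Pool.Agent.H671R2.CK.G21a
import Pool.Agent.H671R2.CK.G18
import Pool.Agent.H671R2.CK.G19
import Pool.Agent.H671R2.CK.G20

/-!
# G21: the list version
-/

set_option autoImplicit false

namespace Pool.Agent.CK

open Pool.Agent.NPC

/-- G21: the list version -/
theorem arr_iff (cores : List (List (ℕ × ℕ))) (s r K : ℕ) (hs : 1 ≤ s) (hr : 1 ≤ r) (hK : 1 ≤ K)
    (h : ∀ C ∈ cores, C.length = s ∧ C.Nodup ∧
      ∀ p ∈ C, p.1 % 2 = p.2 % 2 ∧ p.1 ≤ r ∧ p.2 ≤ r) :
    IsInstance (arr cores s r) (3 * cg cores.length s + K) ∧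
      (HasConvexSubset (arr cores s r) (3 * cg cores.length s + K) ↔
        ∃ C ∈ cores, ∃ T ⊆ C.toFinset, Valid T ∧ K ≤ T.card) :=
  arr_iff_of cores s r K hs hr hK h (fun P co ok K hK => geo_iff P co ok K hK)
    (fun P co _ _ _ _ ha hb hc he hab hac hae hbc hbe hce α β γ δ h =>
      no_plane P co ha hb hc he hab hac hae hbc hbe hce α β γ δ h)
    (fun P co _ _ ha hb hab => pos_inj P co ha hb hab)

end Pool.Agent.CK
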