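import Pool.Agent.H671R2.CK.CDefs

/-!
# G21: the list version
-/

set_option autoImplicit false

namespace Pool.Agent.CK

open Pool.Agent.NPC

theorem toQ_inj {x y : ℤ × ℤ × ℤ} (h : toQ x = toQ y) : x = y := by
  unfold toQ at h
  rw [Prod.mk.injEq, Prod.mk.injEq] at h
  obtain ⟨h1, h2, h3⟩ := h
  ext
  · exact_mod_cast h1
  · exact_mod_cast h2
  · exact_mod_cast h3

theorem toR_toQ (P : Par) (co : ℕ → ℕ → ℕ × ℕ) (a : ℕ) : toR (toQ (P.pos co a)) = P.pt co a := by
  unfold toR toQ Par.pt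
  simp

theorem coOf_mem (cores : List (List (ℕ × ℕ))) {i c : ℕ} (hi : i < cores.length)
    (hc : c < (cores[i]).length) : coOf cores i c = (cores[i])[c] := by
  unfold coOf
  rw [List.getD_eq_getElem _ _ hi, List.getD_eq_getElem _ _ hc]

theorem ok_of (cores : List (List (ℕ × ℕ))) (s r : ℕ) (hs : 1 ≤ s) (hr : 1 ≤ r)
    (h : ∀ C ∈ cores, C.length = s ∧ C.Nodup ∧
      ∀ p ∈ C, p.1 % 2 = p.2 % 2 ∧ p.1 ≤ r ∧ p.2 ≤ r) :
    (par cores.length s r hr hs).Ok (coOf cores) := by
  have key : ∀ i < cores.length, ∀ c < s, coOf cores i c ∈ cores.getD i [] ∧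
      cores.getD i [] ∈ cores := by
    intro i hi c hc
    have hC : cores[i] ∈ cores := List.getElem_mem hi
    have hc' : c < (cores[i]).length := by rw [(h _ hC).1]; exact hc
    rw [coOf_mem cores hi hc', List.getD_eq_getElem _ _ hi]
    exact ⟨List.getElem_mem hc', hC⟩
  refine ⟨fun i hi c hc => ?_, fun i hi c hc => ?_, fun i hi c hc => ?_,
    fun i hi c hc c' hc' he => ?_⟩
  · obtain ⟨h1, h2⟩ := key i hi c hc
    exact ((h _ h2).2.2 _ h1).1
  · obtain ⟨h1, h2⟩ := key i hi c hc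
    exact ((h _ h2).2.2 _ h1).2.1
  · obtain ⟨h1, h2⟩ := key i hi c hc
    exact ((h _ h2).2.2 _ h1).2.2
  · have hi0 : i < cores.length := hi
    have hC : cores[i] ∈ cores := List.getElem_mem hi0
    have hc1 : c < (cores[i]).length := by rw [(h _ hC).1]; exact hc
    have hc2 : c' < (cores[i]).length := by rw [(h _ hC).1]; exact hc'
    rw [coOf_mem cores hi0 hc1, coOf_mem cores hi0 hc2] at he
    exact (List.Nodup.getElem_inj_iff (h _ hC).2.1).1 he

theorem arr_iff_of (cores : List (List (ℕ × ℕ))) (s r K : ℕ) (hs : 1 ≤ s) (hr : 1 ≤ r) (hK : 1 ≤ K)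
    (h : ∀ C ∈ cores, C.length = s ∧ C.Nodup ∧
      ∀ p ∈ C, p.1 % 2 = p.2 % 2 ∧ p.1 ≤ r ∧ p.2 ≤ r)
    (geo : ∀ (P : Par) (co : ℕ → ℕ → ℕ × ℕ) (_ : P.Ok co) (K : ℕ) (_ : 1 ≤ K),
      (∃ I : Finset ℕ, (∀ a ∈ I, a < P.n) ∧ I.card = 3 * P.g + K ∧ P.Free co I) ↔
        ∃ i < P.t, ∃ T ⊆ (Finset.range P.s).image (co i), Valid T ∧ K ≤ T.card)
    (plane : ∀ (P : Par) (co : ℕ → ℕ → ℕ × ℕ) {a b c e : ℕ} (_ : a < P.n) (_ : b < P.n)
      (_ : c < P.n) (_ : e < P.n) (_ : a ≠ b) (_ : a ≠ c) (_ : a ≠ e) (_ : b ≠ c)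
      (_ : b ≠ e) (_ : c ≠ e) (α β γ δ : ℝ) (_ : α ≠ 0 ∨ β ≠ 0 ∨ γ ≠ 0),
      ¬ ∀ x ∈ [a, b, c, e],
        α * (P.pt co x).1 + β * (P.pt co x).2.1 + γ * (P.pt co x).2.2 = δ)
    (inj : ∀ (P : Par) (co : ℕ → ℕ → ℕ × ℕ) {a b : ℕ} (_ : a < P.n) (_ : b < P.n)
      (_ : P.pos co a = P.pos co b), a = b) :
    IsInstance (arr cores s r) (3 * cg cores.length s + K) ∧
      (HasConvexSubset (arr cores s r) (3 * cg cores.length s + K) ↔
        ∃ C ∈ cores, ∃ T ⊆ C.toFinset, Valid T ∧ K ≤ T.card) := by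
  classical
  set P := par cores.length s r hr hs with hP
  set co := coOf cores with hco
  have ok : P.Ok co := ok_of cores s r hs hr h
  have harr : arr cores s r = (List.range P.n).map (fun a => toQ (P.pos co a)) := rfl
  have hfinj : ∀ a < P.n, ∀ b < P.n, toQ (P.pos co a) = toQ (P.pos co b) → a = b :=
    fun a ha b hb hab => inj P co ha hb (toQ_inj hab)
  have hmem : ∀ p, p ∈ arr cores s r ↔ ∃ a < P.n, toQ (P.pos co a) = p := by
    intro p
    rw [harr, List.mem_map]
    simp only [List.mem_range]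
  have hg : 3 * cg cores.length s + K = 3 * P.g + K := rfl
  refine ⟨⟨?_, ?_, ?_⟩, ?_⟩
  · rw [harr]
    refine List.Nodup.map_on ?_ List.nodup_range
    intro a ha b hb hab
    exact hfinj a (List.mem_range.1 ha) b (List.mem_range.1 hb) hab
  · intro a ha b hb c hc d hd hab hac had hbc hbd hcd
    rw [hmem] at ha hb hc hd
    obtain ⟨a', ha', rfl⟩ := ha
    obtain ⟨b', hb', rfl⟩ := hb
    obtain ⟨c', hc', rfl⟩ := hc
    obtain ⟨d', hd', rfl⟩ := hd
    rintro ⟨α, β, γ, δ, hne, hpl⟩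
    refine plane P co ha' hb' hc' hd' (fun e => hab (by rw [e])) (fun e => hac (by rw [e]))
      (fun e => had (by rw [e])) (fun e => hbc (by rw [e])) (fun e => hbd (by rw [e]))
      (fun e => hcd (by rw [e])) α β γ δ hne ?_
    intro x hx
    have h1 := hpl (toQ (P.pos co x)) (by
      simp only [List.mem_cons, List.not_mem_nil, or_false] at hx ⊢
      rcases hx with hx | hx | hx | hx <;> rw [hx] <;> simp)
    have h2 := toR_toQ P co x
    rw [← h2]
    exact h1
  · omega
  · rw [hg]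
    have step1 : HasConvexSubset (arr cores s r) (3 * P.g + K) ↔
        ∃ I : Finset ℕ, (∀ a ∈ I, a < P.n) ∧ I.card = 3 * P.g + K ∧ P.Free co I := by
      constructor
      · rintro ⟨Q, hQ, hcard, hconv⟩
        refine ⟨(Finset.range P.n).filter (fun a => toQ (P.pos co a) ∈ Q), ?_, ?_, ?_⟩
        · intro a ha
          exact Finset.mem_range.1 (Finset.mem_filter.1 ha).1
        · rw [← hcard]
          refine Finset.card_bij (fun a _ => toQ (P.pos co a)) ?_ ?_ ?_
          · intro a ha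
            exact (Finset.mem_filter.1 ha).2
          · intro a ha b hb hab
            exact hfinj a (Finset.mem_range.1 (Finset.mem_filter.1 ha).1) b
              (Finset.mem_range.1 (Finset.mem_filter.1 hb).1) hab
          · intro q hq
            obtain ⟨a, ha, rfl⟩ := (hmem q).1 (hQ q hq)
            exact ⟨a, Finset.mem_filter.2 ⟨Finset.mem_range.2 ha, hq⟩, rfl⟩
        · intro a ha hcon
          have ha1 := Finset.mem_range.1 (Finset.mem_filter.1 ha).1
          apply hconv (toQ (P.pos co a)) (Finset.mem_filter.1 ha).2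
          rw [toR_toQ]
          refine convexHull_mono ?_ hcon
          rintro _ ⟨b, ⟨hb1, hb2⟩, rfl⟩
          have hb3 := Finset.mem_filter.1 (Finset.mem_coe.1 hb1)
          refine ⟨toQ (P.pos co b), ⟨hb3.2, fun e => hb2 ?_⟩, toR_toQ P co b⟩
          exact hfinj b (Finset.mem_range.1 hb3.1) a ha1 e
      · rintro ⟨I, hI, hcard, hfree⟩
        refine ⟨I.image (fun a => toQ (P.pos co a)), ?_, ?_, ?_⟩
        · intro p hp
          obtain ⟨a, ha, rfl⟩ := Finset.mem_image.1 hp
          exact (hmem _).2 ⟨a, hI a ha, rfl⟩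
        · rw [Finset.card_image_of_injOn, hcard]
          intro a ha b hb hab
          exact hfinj a (hI a ha) b (hI b hb) hab
        · intro p hp hcon
          obtain ⟨a, ha, rfl⟩ := Finset.mem_image.1 hp
          apply hfree a ha
          rw [toR_toQ] at hcon
          refine convexHull_mono ?_ hcon
          rintro _ ⟨q, ⟨hq1, hq2⟩, rfl⟩
          obtain ⟨b, hb, rfl⟩ := Finset.mem_image.1 (Finset.mem_coe.1 hq1)
          refine ⟨b, ⟨hb, fun e => hq2 ?_⟩, (toR_toQ P co b).symm⟩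
          have e' : b = a := e
          rw [e']
          rfl
    rw [step1, geo P co ok K hK]
    have himg : ∀ i, ∀ hi : i < cores.length, (Finset.range P.s).image (co i) = (cores[i]).toFinset := by
      intro i hi
      have hC : cores[i] ∈ cores := List.getElem_mem hi
      have hlen := (h _ hC).1
      ext x
      rw [Finset.mem_image, List.mem_toFinset, List.mem_iff_getElem]
      constructor
      · rintro ⟨c, hc, rfl⟩
        have hc' : c < (cores[i]).length := by rw [hlen]; exact Finset.mem_range.1 hc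
        exact ⟨c, hc', (coOf_mem cores hi hc').symm⟩
      · rintro ⟨c, hc, rfl⟩
        refine ⟨c, Finset.mem_range.2 ?_, coOf_mem cores hi hc⟩
        rw [hlen] at hc
        exact hc
    constructor
    · rintro ⟨i, hi, T, hT, hv, hc⟩
      have hi' : i < cores.length := hi
      rw [himg i hi'] at hT
      exact ⟨cores[i], List.getElem_mem hi', T, hT, hv, hc⟩
    · rintro ⟨C, hC, T, hT, hv, hc⟩
      obtain ⟨i, hi, rfl⟩ := List.mem_iff_getElem.1 hC
      refine ⟨i, hi, T, ?_, hv, hc⟩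
      rw [himg i hi]
      exact hT

end Pool.Agent.CK
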