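import Pool.Agent.H671R2.CK.GDefs
import Pool.Agent.H671R2.CK.Basic
import Pool.Agent.H671R2.CK.G1
import Pool.Agent.H671R2.CK.G2
import Pool.Agent.H671R2.CK.CDefs
import Pool.Agent.H671R2.PolyAuto
import Pool.Agent.NPC.Dec

/-! Task G3: a site is in the hull of the ends of its diameter and three guards. -/

namespace Pool.Agent.CK

open Pool.Agent.NPC
theorem G3_loc_mid {a c b : ℕ × ℕ} (h : Conf a c b) :
    2 * (loc c).1 = (loc a).1 + (loc b).1 ∧ 2 * (loc c).2.1 = (loc a).2.1 + (loc b).2.1 ∧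
      (loc a).2.2 + (loc b).2.2 + 2 ≤ 2 * (loc c).2.2 := by
  obtain ⟨a1, a2⟩ := a
  obtain ⟨b1, b2⟩ := b
  obtain ⟨c1, c2⟩ := c
  rcases h with ⟨h1, h2, h3, h4, h5, h6⟩ | ⟨h1, h2, h3, h4, h5, h6⟩ | ⟨h1, h2, h3, h4, h5, h6⟩ |
    ⟨h1, h2, h3, h4, h5, h6⟩
  · simp only at h1 h2 h3 h4 h5 h6
    subst h3 h4 h5 h6
    have e1 : ¬ (b1 + 2 + 2) % 2 = 1 := by omega
    have e2 : (b1 + 2 + 2 + b2) % 4 = 0 := by omega
    have e3 : ¬ b1 % 2 = 1 := by omega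
    have e4 : (b1 + b2) % 4 = 0 := by omega
    have e5 : ¬ (b1 + 2) % 2 = 1 := by omega
    have e6 : ¬ (b1 + 2 + b2) % 4 = 0 := by omega
    simp only [loc, if_neg e1, if_pos e2, if_neg e3, if_pos e4, if_neg e5, if_neg e6]
    push_cast
    refine ⟨by ring, by ring, by nlinarith⟩
  · simp only at h1 h2 h3 h4 h5 h6
    subst h3 h4 h6
    have h5' : a2 = b2 + 2 + 2 := h5
    subst h5'
    have e1 : ¬ b1 % 2 = 1 := by omega
    have e2 : (b1 + (b2 + 2 + 2)) % 4 = 0 := by omega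
    have e4 : (b1 + b2) % 4 = 0 := by omega
    have e6 : ¬ (b1 + (b2 + 2)) % 4 = 0 := by omega
    simp only [loc, if_neg e1, if_pos e2, if_pos e4, if_neg e6]
    push_cast
    refine ⟨by ring, by ring, by nlinarith⟩
  · simp only at h1 h2 h3 h4 h5 h6
    subst h3 h4 h5 h6
    have e1 : ¬ (b1 + 1 + 1) % 2 = 1 := by omega
    have e2 : (b1 + 1 + 1 + (b2 + 1 + 1)) % 4 = 0 := by omega
    have e3 : ¬ b1 % 2 = 1 := by omega
    have e4 : (b1 + b2) % 4 = 0 := by omega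
    have e5 : (b1 + 1) % 2 = 1 := by omega
    simp only [loc, if_neg e1, if_pos e2, if_neg e3, if_pos e4, if_pos e5]
    push_cast
    refine ⟨by ring, by ring, by nlinarith⟩
  · simp only at h1 h2 h3 h4 h5 h6
    subst h3 h4 h5 h6
    have e1 : ¬ (b1 + 1 + 1) % 2 = 1 := by omega
    have e2 : (b1 + 1 + 1 + a2) % 4 = 0 := by omega
    have e3 : ¬ b1 % 2 = 1 := by omega
    have e4 : (b1 + (a2 + 1 + 1)) % 4 = 0 := by omega
    have e5 : (b1 + 1) % 2 = 1 := by omega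
    simp only [loc, if_neg e1, if_pos e2, if_neg e3, if_pos e4, if_pos e5]
    push_cast
    refine ⟨by ring, by ring, by nlinarith⟩

/-- G3 -/
theorem site_hull (P : Par) (co : ℕ → ℕ → ℕ × ℕ) (ok : P.Ok co) {i a c b : ℕ} (hi : i < P.t)
    (ha : a < P.s) (hc : c < P.s) (hb : b < P.s) (h : Conf (co i a) (co i c) (co i b))
    {j : ℕ → ℕ} (hj : ∀ k < 3, j k < P.g) :
    P.pt co (i * P.s + c) ∈ convexHull ℝ {P.pt co (i * P.s + a), P.pt co (i * P.s + b),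
      P.pt co (P.w 0 (j 0)), P.pt co (P.w 1 (j 1)), P.pt co (P.w 2 (j 2))} := by
  obtain ⟨m1, m2, m3⟩ := G3_loc_mid h
  have qa := Q_cluster P co hi ha
  have qb := Q_cluster P co hi hb
  have qc := Q_cluster P co hi hc
  have ia := cluster_lt P hi ha
  have ib := cluster_lt P hi hb
  have ic := cluster_lt P hi hc
  have hnn : P.t * P.s ≤ P.n := by rw [P.hn]; omega
  obtain ⟨a', ha'⟩ : ∃ a', a' = i * P.s + a := ⟨_, rfl⟩
  obtain ⟨b', hb'⟩ : ∃ b', b' = i * P.s + b := ⟨_, rfl⟩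
  obtain ⟨c', hc'⟩ : ∃ c', c' = i * P.s + c := ⟨_, rfl⟩
  rw [← ha'] at qa ia ⊢
  rw [← hb'] at qb ib ⊢
  rw [← hc'] at qc ic ⊢
  have na : a' ≤ P.n := by omega
  have nb : b' ≤ P.n := by omega
  have nc : c' ≤ P.n := by omega
  have na2 : a' ^ 2 ≤ P.n ^ 2 := Nat.pow_le_pow_left na 2
  have nb2 : b' ^ 2 ≤ P.n ^ 2 := Nat.pow_le_pow_left nb 2
  have nc2 : c' ^ 2 ≤ P.n ^ 2 := Nat.pow_le_pow_left nc 2
  have na3 : a' ^ 3 ≤ P.n ^ 3 := Nat.pow_le_pow_left na 3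
  have nb3 : b' ^ 3 ≤ P.n ^ 3 := Nat.pow_le_pow_left nb 3
  -- the integer facts
  have z1 : 2 * (P.pos co c').1 - (P.pos co a').1 - (P.pos co b').1 =
      2 * (c' : ℤ) - a' - b' := by
    simp only [Par.pos, qa, qb, qc, Prod.fst_add]
    linear_combination (P.N : ℤ) * m1
  have z2 : 2 * (P.pos co c').2.1 - (P.pos co a').2.1 - (P.pos co b').2.1 =
      2 * (c' : ℤ) ^ 2 - (a' : ℤ) ^ 2 - (b' : ℤ) ^ 2 := by
    simp only [Par.pos, qa, qb, qc, Prod.fst_add, Prod.snd_add]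
    linear_combination (P.N : ℤ) * m2
  have z3 : 2 * (P.N : ℤ) + 2 * (c' : ℤ) ^ 3 - (a' : ℤ) ^ 3 - (b' : ℤ) ^ 3 ≤
      2 * (P.pos co c').2.2 - (P.pos co a').2.2 - (P.pos co b').2.2 := by
    simp only [Par.pos, qa, qb, qc, Prod.snd_add]
    have hN : (0 : ℤ) ≤ P.N := by positivity
    nlinarith [mul_le_mul_of_nonneg_left m3 hN]
  -- real versions
  have r1 : 2 * (P.pt co c').1 - (P.pt co a').1 - (P.pt co b').1 =
      2 * (c' : ℝ) - a' - b' := by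
    simp only [Par.pt]
    exact_mod_cast z1
  have r2 : 2 * (P.pt co c').2.1 - (P.pt co a').2.1 - (P.pt co b').2.1 =
      2 * (c' : ℝ) ^ 2 - (a' : ℝ) ^ 2 - (b' : ℝ) ^ 2 := by
    simp only [Par.pt]
    exact_mod_cast z2
  have r3 : 2 * (P.N : ℝ) + 2 * (c' : ℝ) ^ 3 - (a' : ℝ) ^ 3 - (b' : ℝ) ^ 3 ≤
      2 * (P.pt co c').2.2 - (P.pt co a').2.2 - (P.pt co b').2.2 := by
    simp only [Par.pt]
    exact_mod_cast z3
  -- size of N
  have hNbig : 128 * P.r * P.n ^ 2 + 128 * P.r * P.n + P.n ^ 3 ≤ P.N := by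
    rw [P.hN]
    have hA1 : 1 ≤ P.A := by rw [P.hA, P.hg]; omega
    have hr1 := P.hr
    have e1 : P.r ≤ P.r * P.A := Nat.le_mul_of_pos_right _ hA1
    have e0 : 1 ≤ P.r * P.A := hr1.trans e1
    have e2 : P.n ^ 2 ≤ (P.n + 1) ^ 6 :=
      (Nat.pow_le_pow_left (Nat.le_succ _) 2).trans (Nat.pow_le_pow_right (by omega) (by omega))
    have e3 : P.n ^ 3 ≤ (P.n + 1) ^ 6 :=
      (Nat.pow_le_pow_left (Nat.le_succ _) 3).trans (Nat.pow_le_pow_right (by omega) (by omega))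
    have e4 : P.n ≤ (P.n + 1) ^ 6 :=
      (Nat.le_succ _).trans (Nat.le_self_pow (by omega) _)
    have f1 : P.r * P.n ^ 2 ≤ P.r * P.A * (P.n + 1) ^ 6 := Nat.mul_le_mul e1 e2
    have f2 : P.r * P.n ≤ P.r * P.A * (P.n + 1) ^ 6 := Nat.mul_le_mul e1 e4
    have f3 : 1 * P.n ^ 3 ≤ P.r * P.A * (P.n + 1) ^ 6 := Nat.mul_le_mul e0 e3
    have f4 : 2 ^ 14 * P.r * P.A * (P.n + 1) ^ 6 = 2 ^ 14 * (P.r * P.A * (P.n + 1) ^ 6) := by ring
    rw [f4]
    nlinarith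
  have hNr : 128 * (P.r : ℝ) * (P.n : ℝ) ^ 2 + 128 * (P.r : ℝ) * P.n + (P.n : ℝ) ^ 3 ≤ P.N := by
    exact_mod_cast hNbig
  have hN0 : (0 : ℝ) < P.N := by
    have h1 : 0 < P.N := by
      rw [P.hN, P.hA, P.hg]
      have := P.hr
      positivity
    exact_mod_cast h1
  have hG0 : (0 : ℝ) < P.G := by
    have h1 : 0 < P.G := by
      rw [P.hG, P.hA, P.hg]
      positivity
    exact_mod_cast h1
  have hr0 : (1 : ℝ) ≤ P.r := by exact_mod_cast P.hr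
  have na' : (a' : ℝ) ≤ P.n := by exact_mod_cast na
  have nb' : (b' : ℝ) ≤ P.n := by exact_mod_cast nb
  have nc' : (c' : ℝ) ≤ P.n := by exact_mod_cast nc
  have na2' : (a' : ℝ) ^ 2 ≤ (P.n : ℝ) ^ 2 := by exact_mod_cast na2
  have nb2' : (b' : ℝ) ^ 2 ≤ (P.n : ℝ) ^ 2 := by exact_mod_cast nb2
  have nc2' : (c' : ℝ) ^ 2 ≤ (P.n : ℝ) ^ 2 := by exact_mod_cast nc2
  have na3' : (a' : ℝ) ^ 3 ≤ (P.n : ℝ) ^ 3 := by exact_mod_cast na3
  have nb3' : (b' : ℝ) ^ 3 ≤ (P.n : ℝ) ^ 3 := by exact_mod_cast nb3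
  have pa : (0 : ℝ) ≤ a' := by positivity
  have pb : (0 : ℝ) ≤ b' := by positivity
  have pc : (0 : ℝ) ≤ c' := by positivity
  have pa2 : (0 : ℝ) ≤ (a' : ℝ) ^ 2 := by positivity
  have pb2 : (0 : ℝ) ≤ (b' : ℝ) ^ 2 := by positivity
  have pc2 : (0 : ℝ) ≤ (c' : ℝ) ^ 2 := by positivity
  have pc3 : (0 : ℝ) ≤ (c' : ℝ) ^ 3 := by positivity
  have pn : (0 : ℝ) ≤ P.n := by positivity
  have pn2 : (0 : ℝ) ≤ (P.n : ℝ) ^ 2 := by positivity
  set X : Set (ℝ × ℝ × ℝ) := {P.pt co a', P.pt co b'} with hX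
  set x : ℝ × ℝ × ℝ := (1 / 2 : ℝ) • P.pt co a' + (1 / 2 : ℝ) • P.pt co b' with hx
  have hxX : x ∈ convexHull ℝ X := by
    apply (convex_convexHull ℝ X) (subset_convexHull ℝ X (by simp [hX]))
      (subset_convexHull ℝ X (by simp [hX])) <;> norm_num
  have x1 : (P.pt co c').1 - x.1 = (2 * (c' : ℝ) - a' - b') / 2 := by
    rw [← r1, hx]
    simp
    ring
  have x2 : (P.pt co c').2.1 - x.2.1 = (2 * (c' : ℝ) ^ 2 - (a' : ℝ) ^ 2 - (b' : ℝ) ^ 2) / 2 := by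
    rw [← r2, hx]
    simp
    ring
  have x3 : (P.N : ℝ) - (P.n : ℝ) ^ 3 ≤ (P.pt co c').2.2 - x.2.2 := by
    have : (P.pt co c').2.2 - x.2.2 =
        (2 * (P.pt co c').2.2 - (P.pt co a').2.2 - (P.pt co b').2.2) / 2 := by
      rw [hx]
      simp
      ring
    rw [this]
    linarith
  have y1 : |(P.pt co c').1 - x.1| ≤ P.n := by
    rw [x1, abs_le]
    constructor <;> linarith
  have y2 : |(P.pt co c').2.1 - x.2.1| ≤ (P.n : ℝ) ^ 2 := by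
    rw [x2, abs_le]
    constructor <;> linarith
  have main := cone X (by simp [hX]) x (P.pt co c')
    (fun k => P.pt co (P.w k (j k))) (P.N * P.G) (16 * P.r) (by positivity) (by positivity) hxX
    (fun k hk => guard_est P co ok ic hk (hj k hk))
    (by
      have : 8 * (16 * (P.r : ℝ)) * |(P.pt co c').1 - x.1| ≤ 8 * (16 * (P.r : ℝ)) * P.n :=
        mul_le_mul_of_nonneg_left y1 (by positivity)
      have h0 : 0 ≤ 128 * (P.r : ℝ) * (P.n : ℝ) ^ 2 := by positivity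
      linarith)
    (by
      have : 8 * (16 * (P.r : ℝ)) * |(P.pt co c').2.1 - x.2.1| ≤
          8 * (16 * (P.r : ℝ)) * (P.n : ℝ) ^ 2 :=
        mul_le_mul_of_nonneg_left y2 (by positivity)
      have h0 : 0 ≤ 128 * (P.r : ℝ) * (P.n : ℝ) := by positivity
      linarith)
  have hset : X ∪ {P.pt co (P.w 0 (j 0)), P.pt co (P.w 1 (j 1)), P.pt co (P.w 2 (j 2))} =
      {P.pt co a', P.pt co b', P.pt co (P.w 0 (j 0)), P.pt co (P.w 1 (j 1)),
        P.pt co (P.w 2 (j 2))} := by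
    rw [hX, Set.insert_union, Set.singleton_union]
  rw [← hset]
  exact main

end Pool.Agent.CK
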