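import Mathlib

/-! G6: a positive 3x3 determinant -/

namespace Pool.Agent.CK

theorem G6_lo {a b c x y z : ℝ} (hx : 0 < x) (hy : 0 < y) (hz : 0 < z) (ha : x / 2 ≤ a)
    (hb : y / 2 ≤ b) (hc : z / 2 ≤ c) : x * y * z / 8 ≤ a * b * c := by
  have h1 : x * y * z / 8 = (x / 2) * (y / 2) * (z / 2) := by ring
  rw [h1]
  have : 0 < a := by linarith
  have : 0 < b := by linarith
  gcongr

theorem G6_up {a b c x y z : ℝ} (ha0 : 0 < a) (hb0 : 0 < b) (hc0 : 0 < c)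
    (ha : a ≤ 2 * x) (hb : b ≤ 2 * y) (hc : c ≤ 2 * z) : a * b * c ≤ 8 * (x * y * z) := by
  have h1 : 8 * (x * y * z) = (2 * x) * (2 * y) * (2 * z) := by ring
  rw [h1]
  have : 0 < 2 * x := by linarith
  have : 0 < 2 * y := by linarith
  gcongr

/-- G6 -/
theorem det_pos (M E1 E2 E3 : ℝ) (hM : 0 < M) (hE1 : 2 ^ 17 ≤ E1) (hE2 : E1 ^ 8 ≤ E2)
    (hE3 : E2 ^ 8 ≤ E3) (u v w : ℝ × ℝ × ℝ)
    (hu : (M * E1 / 2 ≤ u.1 ∧ u.1 ≤ 2 * (M * E1)) ∧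
      (M * E1 ^ 2 / 2 ≤ u.2.1 ∧ u.2.1 ≤ 2 * (M * E1 ^ 2)) ∧
      (M * E1 ^ 4 / 2 ≤ u.2.2 ∧ u.2.2 ≤ 2 * (M * E1 ^ 4)))
    (hv : (M * E2 / 2 ≤ v.1 ∧ v.1 ≤ 2 * (M * E2)) ∧
      (M * E2 ^ 2 / 2 ≤ v.2.1 ∧ v.2.1 ≤ 2 * (M * E2 ^ 2)) ∧
      (M * E2 ^ 4 / 2 ≤ v.2.2 ∧ v.2.2 ≤ 2 * (M * E2 ^ 4)))
    (hw : (M * E3 / 2 ≤ w.1 ∧ w.1 ≤ 2 * (M * E3)) ∧
      (M * E3 ^ 2 / 2 ≤ w.2.1 ∧ w.2.1 ≤ 2 * (M * E3 ^ 2)) ∧
      (M * E3 ^ 4 / 2 ≤ w.2.2 ∧ w.2.2 ≤ 2 * (M * E3 ^ 4))) :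
    0 < u.1 * (v.2.1 * w.2.2 - v.2.2 * w.2.1) - u.2.1 * (v.1 * w.2.2 - v.2.2 * w.1) +
      u.2.2 * (v.1 * w.2.1 - v.2.1 * w.1) := by
  obtain ⟨⟨u1, u1'⟩, ⟨u2, u2'⟩, ⟨u3, u3'⟩⟩ := hu
  obtain ⟨⟨v1, v1'⟩, ⟨v2, v2'⟩, ⟨v3, v3'⟩⟩ := hv
  obtain ⟨⟨w1, w1'⟩, ⟨w2, w2'⟩, ⟨w3, w3'⟩⟩ := hw
  have e1 : 0 < E1 := lt_of_lt_of_le (by norm_num) hE1
  have e12 : 256 * E1 ≤ E2 := by
    refine le_trans ?_ hE2
    have h1 : (256 : ℝ) ≤ E1 ^ 7 := by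
      calc (256 : ℝ) ≤ (2 ^ 17) ^ 7 := by norm_num
        _ ≤ E1 ^ 7 := by gcongr
    calc 256 * E1 ≤ E1 ^ 7 * E1 := by gcongr
      _ = E1 ^ 8 := by ring
  have e2 : 0 < E2 := by linarith
  have e23 : 256 * E2 ≤ E3 := by
    refine le_trans ?_ hE3
    have h1 : (256 : ℝ) ≤ E2 ^ 7 := by
      calc (256 : ℝ) ≤ (2 ^ 17) ^ 7 := by norm_num
        _ ≤ E2 ^ 7 := by
          gcongr
          linarith
    calc 256 * E2 ≤ E2 ^ 7 * E2 := by gcongr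
      _ = E2 ^ 8 := by ring
  have e3 : 0 < E3 := by linarith
  have pu1 : 0 < u.1 := lt_of_lt_of_le (by positivity) u1
  have pu2 : 0 < u.2.1 := lt_of_lt_of_le (by positivity) u2
  have pu3 : 0 < u.2.2 := lt_of_lt_of_le (by positivity) u3
  have pv1 : 0 < v.1 := lt_of_lt_of_le (by positivity) v1
  have pv2 : 0 < v.2.1 := lt_of_lt_of_le (by positivity) v2
  have pv3 : 0 < v.2.2 := lt_of_lt_of_le (by positivity) v3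
  have pw1 : 0 < w.1 := lt_of_lt_of_le (by positivity) w1
  have pw2 : 0 < w.2.1 := lt_of_lt_of_le (by positivity) w2
  have pw3 : 0 < w.2.2 := lt_of_lt_of_le (by positivity) w3
  have main := G6_lo (by positivity) (by positivity) (by positivity) u1 v2 w3
  have n1 := G6_up pu1 pv3 pw2 u1' v3' w2'
  have n2 := G6_up pu2 pv1 pw3 u2' v1' w3'
  have n3 := G6_up pu3 pv2 pw1 u3' v2' w1'
  set T : ℝ := M * E1 * (M * E2 ^ 2) * (M * E3 ^ 4) with hT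
  have hTpos : 0 < T := by positivity
  have k1 : 256 * (M * E1 * (M * E2 ^ 4) * (M * E3 ^ 2)) ≤ T := by
    have h1 : 256 * E2 ^ 2 ≤ E3 ^ 2 := by nlinarith
    calc 256 * (M * E1 * (M * E2 ^ 4) * (M * E3 ^ 2)) =
        M ^ 3 * E1 * E2 ^ 2 * E3 ^ 2 * (256 * E2 ^ 2) := by ring
      _ ≤ M ^ 3 * E1 * E2 ^ 2 * E3 ^ 2 * E3 ^ 2 := by gcongr
      _ = T := by rw [hT]; ring
  have k2 : 256 * (M * E1 ^ 2 * (M * E2) * (M * E3 ^ 4)) ≤ T := by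
    calc 256 * (M * E1 ^ 2 * (M * E2) * (M * E3 ^ 4)) =
        M ^ 3 * E1 * E2 * E3 ^ 4 * (256 * E1) := by ring
      _ ≤ M ^ 3 * E1 * E2 * E3 ^ 4 * E2 := by gcongr
      _ = T := by rw [hT]; ring
  have k3 : 256 * (M * E1 ^ 4 * (M * E2 ^ 2) * (M * E3)) ≤ T := by
    have h0 : 256 * E1 ≤ E3 := by linarith
    have h1 : 256 * E1 ^ 3 ≤ E3 ^ 3 := by
      calc 256 * E1 ^ 3 ≤ (256 * E1) ^ 3 := by
            have : 0 < E1 ^ 3 := by positivity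
            nlinarith
        _ ≤ E3 ^ 3 := by gcongr
    calc 256 * (M * E1 ^ 4 * (M * E2 ^ 2) * (M * E3)) =
        M ^ 3 * E1 * E2 ^ 2 * E3 * (256 * E1 ^ 3) := by ring
      _ ≤ M ^ 3 * E1 * E2 ^ 2 * E3 * E3 ^ 3 := by gcongr
      _ = T := by rw [hT]; ring
  have q1 : 0 < u.2.1 * v.2.2 * w.1 := by positivity
  have q2 : 0 < u.2.2 * v.1 * w.2.1 := by positivity
  have expand : u.1 * (v.2.1 * w.2.2 - v.2.2 * w.2.1) - u.2.1 * (v.1 * w.2.2 - v.2.2 * w.1) +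
      u.2.2 * (v.1 * w.2.1 - v.2.1 * w.1) = u.1 * v.2.1 * w.2.2 + u.2.1 * v.2.2 * w.1 +
      u.2.2 * v.1 * w.2.1 - u.1 * v.2.2 * w.2.1 - u.2.1 * v.1 * w.2.2 - u.2.2 * v.2.1 * w.1 := by
    ring
  rw [expand]
  linarith

end Pool.Agent.CK
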