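import Mathlib

set_option autoImplicit false

namespace Pool.Agent.CK

/-- G7: four points in the hull around `a`: if all the determinants of three of the four vectors
`u k = ± (b k - a)`, with alternating signs, are positive, then `a` is in the hull of the `b k`. -/
theorem alt_hull (a : ℝ × ℝ × ℝ) (b u : Fin 4 → ℝ × ℝ × ℝ) (ε : ℝ) (hε : ε = 1 ∨ ε = -1)
    (hb : ∀ k, b k = a + (ε * (-1) ^ (k : ℕ)) • u k)
    (hdet : ∀ i j k : Fin 4, i < j → j < k →
      0 < (u i).1 * ((u j).2.1 * (u k).2.2 - (u j).2.2 * (u k).2.1) -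
        (u i).2.1 * ((u j).1 * (u k).2.2 - (u j).2.2 * (u k).1) +
        (u i).2.2 * ((u j).1 * (u k).2.1 - (u j).2.1 * (u k).1)) :
    a ∈ convexHull ℝ (Set.range b) := by
  have p0 := hdet 1 2 3 (by decide) (by decide)
  have p1 := hdet 0 2 3 (by decide) (by decide)
  have p2 := hdet 0 1 3 (by decide) (by decide)
  have p3 := hdet 0 1 2 (by decide) (by decide)
  obtain ⟨L0, hL0⟩ : ∃ L0, L0 = (u 1).1 * ((u 2).2.1 * (u 3).2.2 - (u 2).2.2 * (u 3).2.1) -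
        (u 1).2.1 * ((u 2).1 * (u 3).2.2 - (u 2).2.2 * (u 3).1) +
        (u 1).2.2 * ((u 2).1 * (u 3).2.1 - (u 2).2.1 * (u 3).1) := ⟨_, rfl⟩
  obtain ⟨L1, hL1⟩ : ∃ L1, L1 = (u 0).1 * ((u 2).2.1 * (u 3).2.2 - (u 2).2.2 * (u 3).2.1) -
        (u 0).2.1 * ((u 2).1 * (u 3).2.2 - (u 2).2.2 * (u 3).1) +
        (u 0).2.2 * ((u 2).1 * (u 3).2.1 - (u 2).2.1 * (u 3).1) := ⟨_, rfl⟩
  obtain ⟨L2, hL2⟩ : ∃ L2, L2 = (u 0).1 * ((u 1).2.1 * (u 3).2.2 - (u 1).2.2 * (u 3).2.1) -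
        (u 0).2.1 * ((u 1).1 * (u 3).2.2 - (u 1).2.2 * (u 3).1) +
        (u 0).2.2 * ((u 1).1 * (u 3).2.1 - (u 1).2.1 * (u 3).1) := ⟨_, rfl⟩
  obtain ⟨L3, hL3⟩ : ∃ L3, L3 = (u 0).1 * ((u 1).2.1 * (u 2).2.2 - (u 1).2.2 * (u 2).2.1) -
        (u 0).2.1 * ((u 1).1 * (u 2).2.2 - (u 1).2.2 * (u 2).1) +
        (u 0).2.2 * ((u 1).1 * (u 2).2.1 - (u 1).2.1 * (u 2).1) := ⟨_, rfl⟩
  rw [← hL0] at p0
  rw [← hL1] at p1
  rw [← hL2] at p2
  rw [← hL3] at p3
  have k1 : L0 * (u 0).1 - L1 * (u 1).1 + L2 * (u 2).1 - L3 * (u 3).1 = 0 := by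
    rw [hL0, hL1, hL2, hL3]; ring
  have k2 : L0 * (u 0).2.1 - L1 * (u 1).2.1 + L2 * (u 2).2.1 - L3 * (u 3).2.1 = 0 := by
    rw [hL0, hL1, hL2, hL3]; ring
  have k3 : L0 * (u 0).2.2 - L1 * (u 1).2.2 + L2 * (u 2).2.2 - L3 * (u 3).2.2 = 0 := by
    rw [hL0, hL1, hL2, hL3]; ring
  have hS : 0 < L0 + L1 + L2 + L3 := by linarith
  set S := L0 + L1 + L2 + L3 with hSd
  have hmem : ∀ k : Fin 4, b k ∈ convexHull ℝ (Set.range b) := fun k =>
    subset_convexHull ℝ _ ⟨k, rfl⟩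
  have h := (convex_convexHull ℝ (Set.range b)).sum_mem (t := Finset.univ)
    (w := ![L0 / S, L1 / S, L2 / S, L3 / S]) (z := b) (by
      intro i _
      fin_cases i
      · exact div_nonneg p0.le hS.le
      · exact div_nonneg p1.le hS.le
      · exact div_nonneg p2.le hS.le
      · exact div_nonneg p3.le hS.le) (by
      rw [Fin.sum_univ_four]
      simp only [Matrix.cons_val]
      rw [← add_div, ← add_div, ← add_div, ← hSd, div_self hS.ne']) (fun i _ => hmem i)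
  have e : ∑ i, (![L0 / S, L1 / S, L2 / S, L3 / S] : Fin 4 → ℝ) i • b i = a := by
    rw [Fin.sum_univ_four]
    simp only [Matrix.cons_val]
    have q0 : b 0 = a + ε • u 0 := by rw [hb 0]; simp
    have q1 : b 1 = a - ε • u 1 := by rw [hb 1, sub_eq_add_neg, ← neg_smul]; simp
    have q2 : b 2 = a + ε • u 2 := by rw [hb 2]; simp
    have q3 : b 3 = a - ε • u 3 := by
      rw [hb 3, sub_eq_add_neg, ← neg_smul]
      have : ((3 : Fin 4) : ℕ) = 3 := rfl
      rw [this]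
      norm_num
    rw [q0, q1, q2, q3]
    have hS' : S ≠ 0 := hS.ne'
    refine Prod.ext ?_ (Prod.ext ?_ ?_)
    · simp only [Prod.fst_add, Prod.smul_fst, Prod.fst_sub, smul_eq_mul]
      field_simp
      rw [hSd]
      linear_combination ε * k1
    · simp only [Prod.fst_add, Prod.snd_add, Prod.smul_fst, Prod.smul_snd, Prod.fst_sub,
        Prod.snd_sub, smul_eq_mul]
      field_simp
      rw [hSd]
      linear_combination ε * k2
    · simp only [Prod.snd_add, Prod.smul_snd, Prod.snd_sub, smul_eq_mul]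
      field_simp
      rw [hSd]
      linear_combination ε * k3
  rw [e] at h
  exact h

end Pool.Agent.CK
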