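import Pool.Agent.H671R2.CK.Basic
import Pool.Agent.H671R2.CK.G4
import Pool.Agent.H671R2.CK.G6
import Pool.Agent.H671R2.CK.G7

/-! Task G8: a point of a cluster in the hull of four points of other clusters. -/

namespace Pool.Agent.CK

open Pool.Agent.NPC

namespace G8

/-- the sign of the difference -/
noncomputable def sg (b : Bool) : ℝ := if b then -1 else 1

theorem sg_sq (b : Bool) : sg b * sg b = 1 := by
  cases b <;> simp [sg]

theorem sg_ne {b b' : Bool} (h : b ≠ b') : sg b' = -sg b := by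
  cases b <;> cases b' <;> simp_all [sg]

theorem sg_pm (b : Bool) : sg b = 1 ∨ sg b = -1 := by
  cases b <;> simp [sg]

end G8

/-- G8: a point of cluster `i` is in the hull of four points of clusters which differ from `i` first
(from the top) at four levels where the binary digits of `i` alternate -/
theorem alt_cluster (P : Par) (co : ℕ → ℕ → ℕ × ℕ) (ok : P.Ok co) {i : ℕ} (hi : i < P.t)
    {c : ℕ} (hc : c < P.s) (k i' c' : Fin 4 → ℕ) (hk : StrictMono k) (hkd : ∀ m, k m < P.d)
    (hi' : ∀ m, i' m < P.t) (hc' : ∀ m, c' m < P.s) (hT : ∀ m, Top i (i' m) (k m))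
    (halt : ∀ m : Fin 3, i.testBit (k m.castSucc) ≠ i.testBit (k m.succ)) :
    P.pt co (i * P.s + c) ∈ convexHull ℝ (Set.range fun m => P.pt co (i' m * P.s + c' m)) := by
  set a := P.pt co (i * P.s + c) with ha
  set b : Fin 4 → ℝ × ℝ × ℝ := fun m => P.pt co (i' m * P.s + c' m) with hb
  let σ : Fin 4 → ℝ := fun m => G8.sg (i.testBit (k m))
  let u : Fin 4 → ℝ × ℝ × ℝ := fun m => σ m • (b m - a)
  have hE1 : ∀ m, (2 : ℝ) ^ 17 ≤ (P.E (k m) : ℝ) := by
    intro m
    have h1 := E_ge P (k m)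
    have h2 : 1 ≤ P.r ^ 2 := Nat.one_le_pow _ _ P.hr
    have h3 : 2 ^ 17 ≤ P.E (k m) := le_trans (by nlinarith) h1
    exact_mod_cast h3
  have hE2 : ∀ m m', m < m' → ((P.E (k m) : ℝ)) ^ 8 ≤ (P.E (k m') : ℝ) := by
    intro m m' h
    exact_mod_cast E_pow P (hk h)
  have hN : (0 : ℝ) < P.N := by
    have h1 : 0 < P.N := by
      rw [P.hN, P.hA, P.hg]
      have := P.hr
      positivity
    exact_mod_cast h1
  have hu : ∀ m, ((P.N : ℝ) * P.E (k m) / 2 ≤ (u m).1 ∧ (u m).1 ≤ 2 * (P.N * P.E (k m))) ∧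
      ((P.N : ℝ) * P.E (k m) ^ 2 / 2 ≤ (u m).2.1 ∧ (u m).2.1 ≤ 2 * (P.N * P.E (k m) ^ 2)) ∧
      ((P.N : ℝ) * P.E (k m) ^ 4 / 2 ≤ (u m).2.2 ∧ (u m).2.2 ≤ 2 * (P.N * P.E (k m) ^ 4)) := by
    intro m
    have hT1 := (hT m).1
    have hT2 := (hT m).2
    cases hb0 : i.testBit (k m) with
    | false =>
      have hb1 : (i' m).testBit (k m) = true := by
        rw [hb0] at hT2
        cases h : (i' m).testBit (k m) with
        | false => exact absurd h.symm hT2
        | true => rfl
      have h := diff_est P co ok hi (hi' m) (hkd m) hT1 hb0 hb1 hc (hc' m)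
      have e : u m = b m - a := by
        show G8.sg (i.testBit (k m)) • (b m - a) = _
        rw [hb0]
        simp [G8.sg]
      rw [e]
      exact h
    | true =>
      have hb1 : (i' m).testBit (k m) = false := by
        rw [hb0] at hT2
        cases h : (i' m).testBit (k m) with
        | false => rfl
        | true => exact absurd h.symm hT2
      have h := diff_est P co ok (hi' m) hi (hkd m) hT1.symm hb1 hb0 (hc' m) hc
      have e : u m = a - b m := by
        show G8.sg (i.testBit (k m)) • (b m - a) = _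
        rw [hb0]
        simp [G8.sg]
      rw [e]
      exact h
  have hσ : ∀ m : Fin 3, σ m.succ = -σ m.castSucc := fun m => G8.sg_ne (halt m)
  have h1 : σ 1 = -σ 0 := hσ 0
  have h2 : σ 2 = σ 0 := by
    have := hσ 1
    have h' : σ 2 = -σ 1 := this
    rw [h', h1, neg_neg]
  have h3 : σ 3 = -σ 0 := by
    have := hσ 2
    have h' : σ 3 = -σ 2 := this
    rw [h', h2]
  refine alt_hull a b u (σ 0) (G8.sg_pm _) ?_ ?_
  · intro m
    have e1 : σ 0 * (-1) ^ (m : ℕ) = σ m := by
      fin_cases m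
      · simp
      · simp [h1]
      · simp [h2]
      · simp only [Fin.reduceFinMk]
        rw [h3]
        norm_num
    rw [e1]
    show b m = a + σ m • (σ m • (b m - a))
    rw [smul_smul, G8.sg_sq, one_smul, add_sub_cancel]
  · intro m1 m2 m3 h12 h23
    exact det_pos P.N (P.E (k m1)) (P.E (k m2)) (P.E (k m3)) hN (hE1 m1) (hE2 m1 m2 h12)
      (hE2 m2 m3 h23) (u m1) (u m2) (u m3) (hu m1) (hu m2) (hu m3)

end Pool.Agent.CK
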