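import Pool.Agent.H671R2.CK.Defs

/-!
# The arrangement of gadgets
-/

namespace Pool.Agent.CK

open Pool.Agent.NPC

/-! ### Combinatorial side: grid points and conflicts

A grid point is a pair `p` with `p.1 % 2 = p.2 % 2`. It is of one of three kinds:
* local points: `p.1 % 2 = 0` and `(p.1 + p.2) % 4 = 0`;
* main sites: `p.1 % 2 = 0` and `(p.1 + p.2) % 4 = 2`;
* attached sites: `p.1 % 2 = 1`.
-/

/-- `a` and `b` are the ends of a diameter with midpoint (site) `c`. -/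
def Conf (a c b : ℕ × ℕ) : Prop :=
  (c.1 % 2 = 0 ∧ (c.1 + c.2) % 4 = 2 ∧ a.1 = c.1 + 2 ∧ c.1 = b.1 + 2 ∧ a.2 = c.2 ∧ b.2 = c.2) ∨
  (c.1 % 2 = 0 ∧ (c.1 + c.2) % 4 = 2 ∧ a.1 = c.1 ∧ b.1 = c.1 ∧ a.2 = c.2 + 2 ∧ c.2 = b.2 + 2) ∨
  (c.1 % 2 = 1 ∧ (c.1 + c.2) % 4 = 2 ∧ a.1 = c.1 + 1 ∧ c.1 = b.1 + 1 ∧ a.2 = c.2 + 1 ∧
    c.2 = b.2 + 1) ∨
  (c.1 % 2 = 1 ∧ (c.1 + c.2) % 4 = 0 ∧ a.1 = c.1 + 1 ∧ c.1 = b.1 + 1 ∧ c.2 = a.2 + 1 ∧
    b.2 = c.2 + 1)

instance (a c b : ℕ × ℕ) : Decidable (Conf a c b) := by unfold Conf; infer_instance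

/-- A set of grid points without conflicts. -/
def Valid (T : Finset (ℕ × ℕ)) : Prop := ∀ a ∈ T, ∀ c ∈ T, ∀ b ∈ T, ¬ Conf a c b

/-! ### Parameters -/

/-- The parameters of an arrangement: `t` clusters of `s` points with grid coordinates at most `r`,
`3 * g` guards, `n` points in total. -/
structure Par where
  (t s r d g A B G n N : ℕ)
  (E : ℕ → ℕ)
  (hr : 1 ≤ r)
  (hs : 1 ≤ s)
  (ht : t < 2 ^ d)
  (hg : g = 2 * (d + 1) ^ 2 * s + 1)
  (hA : A = 100 * g)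
  (hE0 : 2 ^ 17 * r ^ 2 ≤ E 0)
  (hE : ∀ k, E (k + 1) = E k ^ 8)
  (hB : B = E d ^ 4)
  (hG : G = 64 * (A ^ 2 + B))
  (hn : n = t * s + 3 * g)
  (hN : N = 2 ^ 14 * r * A * (n + 1) ^ 6)

/-! ### Positions -/

/-- The lifted position of a grid point inside a cluster. -/
def loc (p : ℕ × ℕ) : ℤ × ℤ × ℤ :=
  (1024 * (p.1 : ℤ), 1024 * (p.2 : ℤ),
    if p.1 % 2 = 1 then 1024 * ((p.1 : ℤ) ^ 2 + (p.2 : ℤ) ^ 2 + 2) + 8
    else if (p.1 + p.2) % 4 = 0 then 1024 * ((p.1 : ℤ) ^ 2 + (p.2 : ℤ) ^ 2)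
    else 1024 * ((p.1 : ℤ) ^ 2 + (p.2 : ℤ) ^ 2 + 4) + 1)

/-- The position of the cluster number `i`, for a sequence `E` and `d` levels. -/
def cen (E : ℕ → ℕ) (d i : ℕ) : ℤ × ℤ × ℤ :=
  (∑ k ∈ Finset.range d, if i.testBit k then (E k : ℤ) else 0,
    ∑ k ∈ Finset.range d, if i.testBit k then (E k : ℤ) ^ 2 else 0,
    ∑ k ∈ Finset.range d, if i.testBit k then (E k : ℤ) ^ 4 else 0)

/-- Horizontal directions of the three groups of guards, first coordinate. -/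
def dx (k : ℕ) : ℤ := if k = 0 then 2 else -1

/-- Horizontal directions of the three groups of guards, second coordinate. -/
def dy (k : ℕ) : ℤ := if k = 0 then 1 else if k = 1 then 2 else -3

/-- The position of the guard number `j` of the group `k`. -/
def guard (r A G k j : ℕ) : ℤ × ℤ × ℤ :=
  ((G : ℤ) * dx k - j * A * dy k - (j : ℤ) ^ 2 * dx k,
    (G : ℤ) * dy k + j * A * dx k - (j : ℤ) ^ 2 * dy k, 16 * r * G)

/-- The unperturbed position of the point number `a`. Here `co i c` is the `c`-th grid point of the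
cluster number `i`. -/
def Par.Q (P : Par) (co : ℕ → ℕ → ℕ × ℕ) (a : ℕ) : ℤ × ℤ × ℤ :=
  if a < P.t * P.s then cen P.E P.d (a / P.s) + loc (co (a / P.s) (a % P.s))
  else guard P.r P.A P.G ((a - P.t * P.s) / P.g) ((a - P.t * P.s) % P.g)

/-- The position of the point number `a`. -/
def Par.pos (P : Par) (co : ℕ → ℕ → ℕ × ℕ) (a : ℕ) : ℤ × ℤ × ℤ :=
  (P.N * (P.Q co a).1 + a, P.N * (P.Q co a).2.1 + (a : ℤ) ^ 2, P.N * (P.Q co a).2.2 + (a : ℤ) ^ 3)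

/-- The position of the point number `a`, in real space. -/
def Par.pt (P : Par) (co : ℕ → ℕ → ℕ × ℕ) (a : ℕ) : ℝ × ℝ × ℝ :=
  (((P.pos co a).1 : ℝ), ((P.pos co a).2.1 : ℝ), ((P.pos co a).2.2 : ℝ))

/-- The grid points of the clusters are as they should be. -/
structure Par.Ok (P : Par) (co : ℕ → ℕ → ℕ × ℕ) : Prop where
  par : ∀ i < P.t, ∀ c < P.s, (co i c).1 % 2 = (co i c).2 % 2
  le1 : ∀ i < P.t, ∀ c < P.s, (co i c).1 ≤ P.r
  le2 : ∀ i < P.t, ∀ c < P.s, (co i c).2 ≤ P.r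
  inj : ∀ i < P.t, ∀ c < P.s, ∀ c' < P.s, co i c = co i c' → c = c'

/-- The index of the guard `j` of group `k`. -/
def Par.w (P : Par) (k j : ℕ) : ℕ := P.t * P.s + k * P.g + j

/-- The points of the index set `I` are in convex position. -/
def Par.Free (P : Par) (co : ℕ → ℕ → ℕ × ℕ) (I : Finset ℕ) : Prop :=
  ∀ a ∈ I, P.pt co a ∉ convexHull ℝ (P.pt co '' ((I : Set ℕ) \ {a}))

/-- `k` is the highest binary digit where `i` and `j` differ. -/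
def Top (i j k : ℕ) : Prop := i / 2 ^ (k + 1) = j / 2 ^ (k + 1) ∧ i.testBit k ≠ j.testBit k

/-! ### The concrete arrangement -/

/-- the exponent of the scale -/
def e0 (r : ℕ) : ℕ := 2 * r.size + 17

/-- The parameters used for `t` clusters of `s` points with coordinates at most `r`. -/
def par (t s r : ℕ) (hr : 1 ≤ r) (hs : 1 ≤ s) : Par where
  t := t
  s := s
  r := r
  d := t.size
  g := 2 * (t.size + 1) ^ 2 * s + 1
  A := 100 * (2 * (t.size + 1) ^ 2 * s + 1)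
  B := (2 ^ (8 ^ t.size * e0 r)) ^ 4
  G := 64 * ((100 * (2 * (t.size + 1) ^ 2 * s + 1)) ^ 2 + (2 ^ (8 ^ t.size * e0 r)) ^ 4)
  n := t * s + 3 * (2 * (t.size + 1) ^ 2 * s + 1)
  N := 2 ^ 14 * r * (100 * (2 * (t.size + 1) ^ 2 * s + 1)) *
    (t * s + 3 * (2 * (t.size + 1) ^ 2 * s + 1) + 1) ^ 6
  E := fun k => 2 ^ (8 ^ k * e0 r)
  hr := hr
  hs := hs
  ht := Nat.lt_size_self t
  hg := rfl
  hA := rfl
  hE0 := by
    have h1 : r < 2 ^ r.size := Nat.lt_size_self r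
    have h2 : r ^ 2 ≤ (2 ^ r.size) ^ 2 := Nat.pow_le_pow_left h1.le 2
    simp only [pow_zero, one_mul, e0, pow_add]
    rw [mul_comm 2 r.size, pow_mul]
    nlinarith [h2]
  hE := fun k => by
    rw [← pow_mul, pow_succ]
    ring_nf
  hB := rfl
  hG := rfl
  hn := rfl
  hN := rfl

/-- The `c`-th point of the `i`-th list. -/
def coOf (cores : List (List (ℕ × ℕ))) (i c : ℕ) : ℕ × ℕ := (cores.getD i []).getD c (0, 0)

/-- The integer point as a rational point. -/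
def toQ (p : ℤ × ℤ × ℤ) : QPt := ((p.1 : ℚ), (p.2.1 : ℚ), (p.2.2 : ℚ))

end Pool.Agent.CK
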