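import Pool.Agent.H671R2.CK.CDefs

/-!
# K1: the counting argument of Fortnow and Santhanam (helper64)
-/

namespace Pool.Agent.CK

open Classical in
/-- one output covers half of the set -/
theorem K1_half {α β : Type} [DecidableEq α] [DecidableEq β] (S : Finset α) (s t : ℕ)
    (hS : S.Nonempty) (comp : (Fin t → α) → β) (R : Finset β) (hR : R.card ≤ 2 ^ s)
    (hcomp : ∀ v : Fin t → α, (∀ i, v i ∈ S) → comp v ∈ R) (ht : 1 ≤ t) (hst : s ≤ t) :
    ∃ y : β, S.card ≤ 2 * (S.filter fun x => ∃ v : Fin t → α, (∀ i, v i ∈ S) ∧ (∃ i, v i = x) ∧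
      comp v = y).card := by
  by_contra hcon
  push Not at hcon
  set C : β → Finset α := fun y => S.filter fun x => ∃ v : Fin t → α, (∀ i, v i ∈ S) ∧
    (∃ i, v i = x) ∧ comp v = y with hC
  set T : Finset (Fin t → α) := Fintype.piFinset fun _ : Fin t => S with hT
  have hTc : T.card = S.card ^ t := by rw [hT, Fintype.card_piFinset_const]
  have hTne : T.Nonempty := by
    obtain ⟨x, hx⟩ := hS
    exact ⟨fun _ => x, by rw [hT, Fintype.mem_piFinset]; exact fun _ => hx⟩
  have hmaps : ∀ v ∈ T, comp v ∈ R := by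
    intro v hv
    rw [hT, Fintype.mem_piFinset] at hv
    exact hcomp v hv
  have hRne : R.Nonempty := by
    obtain ⟨v, hv⟩ := hTne
    exact ⟨_, hmaps v hv⟩
  have hsum : T.card = ∑ y ∈ R, (T.filter fun v => comp v = y).card :=
    Finset.card_eq_sum_card_fiberwise hmaps
  have hfib : ∀ y ∈ R, 2 ^ t * (T.filter fun v => comp v = y).card < S.card ^ t := by
    intro y _
    have h1 : (T.filter fun v => comp v = y) ⊆ Fintype.piFinset fun _ : Fin t => C y := by
      intro v hv
      rw [Finset.mem_filter, hT, Fintype.mem_piFinset] at hv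
      rw [Fintype.mem_piFinset]
      intro i
      rw [hC, Finset.mem_filter]
      exact ⟨hv.1 i, v, hv.1, ⟨i, rfl⟩, hv.2⟩
    have h2 := Finset.card_le_card h1
    rw [Fintype.card_piFinset_const] at h2
    calc 2 ^ t * (T.filter fun v => comp v = y).card ≤ 2 ^ t * (C y).card ^ t :=
          Nat.mul_le_mul_left _ h2
      _ = (2 * (C y).card) ^ t := (mul_pow _ _ _).symm
      _ < S.card ^ t := Nat.pow_lt_pow_left (hcon y) (by omega)
  have h3 : 2 ^ t * T.card < R.card * S.card ^ t := by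
    rw [hsum, Finset.mul_sum, ← smul_eq_mul (a := R.card), ← Finset.sum_const]
    exact Finset.sum_lt_sum_of_nonempty hRne hfib
  rw [hTc] at h3
  have h4 : R.card * S.card ^ t ≤ 2 ^ t * S.card ^ t :=
    Nat.mul_le_mul_right _ (hR.trans (Nat.pow_le_pow_right (by norm_num) hst))
  omega

/-- K1: the counting argument of Fortnow and Santhanam -/
theorem cover {α β : Type} [DecidableEq α] [DecidableEq β] (S : Finset α) (n s t : ℕ)
    (hS : S.card ≤ 2 ^ n) (comp : (Fin t → α) → β) (R : Finset β) (hR : R.card ≤ 2 ^ s)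
    (hcomp : ∀ v : Fin t → α, (∀ i, v i ∈ S) → comp v ∈ R) (ht : 1 ≤ t) (hst : s ≤ t) :
    ∃ Y : Finset β, Y.card ≤ n + 1 ∧
      ∀ x ∈ S, ∃ v : Fin t → α, (∀ i, v i ∈ S) ∧ (∃ i, v i = x) ∧ comp v ∈ Y := by
  classical
  induction n generalizing S with
  | zero =>
    rcases S.eq_empty_or_nonempty with h | h
    · exact ⟨∅, by simp, fun x hx => by rw [h] at hx; simp at hx⟩
    · obtain ⟨x, hx⟩ := h
      refine ⟨{comp fun _ => x}, by simp, fun z hz => ?_⟩
      have hzx : z = x := Finset.card_le_one.1 (by simpa using hS) z hz x hx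
      exact ⟨fun _ => x, fun _ => hx, ⟨⟨0, by omega⟩, hzx.symm⟩, by simp⟩
  | succ n ih =>
    rcases S.eq_empty_or_nonempty with h | h
    · exact ⟨∅, by simp, fun x hx => by rw [h] at hx; simp at hx⟩
    · obtain ⟨y, hy⟩ := K1_half S s t h comp R hR hcomp ht hst
      set C : Finset α := S.filter fun x => ∃ v : Fin t → α, (∀ i, v i ∈ S) ∧
        (∃ i, v i = x) ∧ comp v = y with hC
      have hCS : C ⊆ S := Finset.filter_subset _ _
      have hcard : (S \ C).card ≤ 2 ^ n := by
        have h1 := Finset.card_sdiff_add_card_eq_card hCS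
        rw [pow_succ] at hS
        have h2 : S.card ≤ 2 * C.card := hy
        omega
      obtain ⟨Y, hY1, hY2⟩ := ih (S \ C) hcard
        (fun v hv => hcomp v fun i => (Finset.mem_sdiff.1 (hv i)).1)
      refine ⟨insert y Y, (Finset.card_insert_le _ _).trans (by omega), fun x hx => ?_⟩
      by_cases hxC : x ∈ C
      · rw [hC, Finset.mem_filter] at hxC
        obtain ⟨_, v, hv1, hv2, hv3⟩ := hxC
        exact ⟨v, hv1, hv2, by rw [hv3]; exact Finset.mem_insert_self _ _⟩
      · obtain ⟨v, hv1, hv2, hv3⟩ := hY2 x (Finset.mem_sdiff.2 ⟨hx, hxC⟩)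
        exact ⟨v, fun i => (Finset.mem_sdiff.1 (hv1 i)).1, hv2, Finset.mem_insert_of_mem hv3⟩

end Pool.Agent.CK
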