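import Pool.Agent.H671R2.CK.K4
import Pool.Agent.H671R2.CK.GDefs

/-! # K10: guards and local points are polynomial time -/

namespace Pool.Agent.CK

open Pool.Agent.NPC

variable {α : Type} [TEnc α]

theorem poly_zpow2 {x : α → ℤ} (hx : Poly x) : Poly (fun a => x a ^ 2) :=
  (poly_zmul hx hx).congr fun a => (sq (x a)).symm

theorem poly_dx {k : α → ℕ} (hk : Poly k) : Poly (fun a => dx (k a)) := by
  unfold dx
  exact Poly.ite (by fun_prop) (by fun_prop) (by fun_prop)

theorem poly_dy {k : α → ℕ} (hk : Poly k) : Poly (fun a => dy (k a)) := by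
  unfold dy
  exact Poly.ite (by fun_prop) (by fun_prop) (Poly.ite (by fun_prop) (by fun_prop) (by fun_prop))

theorem poly_guard {r A G k j : α → ℕ} (hr : Poly r) (hA : Poly A) (hG : Poly G) (hk : Poly k)
    (hj : Poly j) : Poly (fun a => guard (r a) (A a) (G a) (k a) (j a)) := by
  have zr := Poly.natCast_int hr
  have zA := Poly.natCast_int hA
  have zG := Poly.natCast_int hG
  have zj := Poly.natCast_int hj
  have zj2 := poly_zpow2 zj
  have hx := poly_dx hk
  have hy := poly_dy hk
  unfold guard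
  refine Poly.pair ?_ (Poly.pair ?_ ?_)
  · exact poly_zsub (poly_zsub (poly_zmul zG hx)
      (poly_zmul (poly_zmul zj zA) hy)) (poly_zmul zj2 hx)
  · exact poly_zsub (poly_zadd (poly_zmul zG hy)
      (poly_zmul (poly_zmul zj zA) hx)) (poly_zmul zj2 hy)
  · exact poly_zmul (poly_zmul (NPC.Poly.const _) zr) zG

theorem poly_loc {p : α → ℕ × ℕ} (hp : Poly p) : Poly (fun a => loc (p a)) := by
  have h1 : Poly (fun a => (p a).1) := Poly.fst hp
  have h2 : Poly (fun a => (p a).2) := Poly.snd hp
  have z1 := Poly.natCast_int h1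
  have z2 := Poly.natCast_int h2
  have q1 := poly_zpow2 z1
  have q2 := poly_zpow2 z2
  unfold loc
  refine Poly.pair ?_ (Poly.pair ?_ ?_)
  · exact poly_zmul (NPC.Poly.const _) z1
  · exact poly_zmul (NPC.Poly.const _) z2
  · refine Poly.ite (by fun_prop) ?_ (Poly.ite (by fun_prop) ?_ ?_)
    · exact poly_zadd (poly_zmul (NPC.Poly.const _) (poly_zadd (poly_zadd q1 q2)
        (NPC.Poly.const _))) (NPC.Poly.const _)
    · exact poly_zmul (NPC.Poly.const _) (poly_zadd q1 q2)
    · exact poly_zadd (poly_zmul (NPC.Poly.const _) (poly_zadd (poly_zadd q1 q2)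
        (NPC.Poly.const _))) (NPC.Poly.const _)

end Pool.Agent.CK
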