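import Pool.Agent.H671R2.CK.CDefs
import Pool.Agent.H671R2.PolyAuto
import Pool.Agent.NPC.Dec

/-!
# Powers of two in polynomial time
-/

namespace Pool.Agent.CK

open Pool.Agent.NPC

variable {α : Type} [TEnc α]

/-- K7: powers of two -/
theorem poly_pow2 {n : α → ℕ} (hn : UPoly n) : Poly (fun a => 2 ^ n a) := by
  have h1 : Poly (fun a => List.replicate (n a) false) :=
    (NPC.Poly.map (F := fun _ _ => false) hn (NPC.Poly.const false)).congr fun a => by simp
  exact (NPC.Poly.valBits (NPC.Poly.append h1 (NPC.Poly.const [true]))).congr fun a => by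
    rw [valB_replicate_false]
    simp

theorem upoly_size {n : α → ℕ} (hn : Poly n) : UPoly (fun a => (n a).size) := by
  have h1 := UPoly.length (NPC.Poly.natBits hn)
  have h2 : (fun a => (n a).bits.length) = (fun a => (n a).size) := by
    funext a
    exact Nat.size_eq_bits_len (n a)
  rw [← h2]
  exact h1

theorem two_pow_size_le (n : ℕ) : 2 ^ n.size ≤ 2 * n + 1 := by
  rcases Nat.eq_zero_or_pos n with rfl | h
  · simp
  · have h1 : 0 < n.size := Nat.size_pos.2 h
    obtain ⟨s, hs⟩ := Nat.exists_eq_succ_of_ne_zero h1.ne'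
    have h2 : 2 ^ s ≤ n := by
      rw [← Nat.lt_size]
      omega
    rw [hs, pow_succ]
    omega

/-- K8: numbers of polynomial size in unary -/
theorem upoly_pow8 {n : α → ℕ} (hn : UPoly n) : UPoly (fun a => 8 ^ (n a).size) := by
  have h1 : UPoly (fun a => 3 * (n a).size) := UPoly.mul (UPoly.const 3) (upoly_size hn.toPoly)
  have h2 : Poly (fun a => 8 ^ (n a).size) := (poly_pow2 h1).congr fun a => by
    rw [pow_mul]
    norm_num
  have h3 : UPoly (fun a => 2 * n a + 1) := UPoly.add (UPoly.mul (UPoly.const 2) hn) (UPoly.const 1)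
  refine UPoly.of_le h2 (UPoly.mul h3 (UPoly.mul h3 h3)) fun a => ?_
  have h4 := two_pow_size_le (n a)
  calc 8 ^ (n a).size = 2 ^ (n a).size * (2 ^ (n a).size * 2 ^ (n a).size) := by
        rw [← mul_pow, ← mul_pow]
        norm_num
    _ ≤ _ := Nat.mul_le_mul h4 (Nat.mul_le_mul h4 h4)

end Pool.Agent.CK
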