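import Pool.Agent.H671R2.CK.K7
import Pool.Agent.H671R2.CK.CDefs
import Pool.Agent.H671R2.PolyAuto
import Pool.Agent.NPC.Dec

/-! K9 -/

namespace Pool.Agent.CK

open Pool.Agent.NPC

section

variable {α : Type} [TEnc α]

theorem K9_sum {t r i : α → ℕ} (ht : UPoly t) (hr : Poly r) (hi : Poly i) (q : ℕ) :
    Poly (fun a => ((List.range (t a).size).map
      (fun k => if (i a).testBit k then (cE (r a) k) ^ q else 0)).sum) := by
  have hd : UPoly (fun a => (t a).size) := upoly_size ht.toPoly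
  have hm : UPoly (fun p : α × ℕ => min p.2 (t p.1).size) :=
    UPoly.of_le (NPC.Poly.min (NPC.Poly.snd NPC.Poly.id) (hd.toPoly.comp (NPC.Poly.fst NPC.Poly.id)))
      (hd.comp (NPC.Poly.fst NPC.Poly.id)) (fun _ => min_le_right _ _)
  have h8 : UPoly (fun p : α × ℕ => 8 ^ min p.2 (t p.1).size) := by
    refine UPoly.of_le (n := fun p : α × ℕ => 8 ^ (t p.1).size) ?_
      ((upoly_pow8 ht).comp (NPC.Poly.fst NPC.Poly.id))
      (fun p => Nat.pow_le_pow_right (by norm_num) (min_le_right _ _))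
    refine (poly_pow2 (UPoly.mul (UPoly.const 3) hm)).congr fun p => ?_
    rw [pow_mul]
    norm_num
  have he0 : UPoly (fun p : α × ℕ => e0 (r p.1)) := by
    unfold e0
    exact UPoly.add (UPoly.mul (UPoly.const 2)
      (upoly_size (hr.comp (NPC.Poly.fst NPC.Poly.id)))) (UPoly.const 17)
  have hE : Poly (fun p : α × ℕ => 2 ^ (8 ^ min p.2 (t p.1).size * e0 (r p.1) * q)) :=
    poly_pow2 (UPoly.mul (UPoly.mul h8 he0) (UPoly.const q))
  have hb : Poly (fun p : α × ℕ => decide (i p.1 / 2 ^ min p.2 (t p.1).size % 2 = 1)) :=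
    NPC.Poly.decide_eq (NPC.Poly.mod (NPC.Poly.div (hi.comp (NPC.Poly.fst NPC.Poly.id)) (poly_pow2 hm))
      (NPC.Poly.const 2)) (NPC.Poly.const 1)
  refine (NPC.Poly.sum (NPC.Poly.map hd.range (F := fun a k => bif decide (i a / 2 ^ min k (t a).size %
    2 = 1) then 2 ^ (8 ^ min k (t a).size * e0 (r a) * q) else 0)
    (NPC.Poly.cond hb hE (NPC.Poly.const 0)))).congr fun a => ?_
  congr 1
  apply List.map_congr_left
  intro k hk
  rw [List.mem_range] at hk
  rw [min_eq_left hk.le, Nat.testBit_eq_decide_div_mod_eq]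
  unfold cE
  rw [← pow_mul]
  by_cases h : i a / 2 ^ k % 2 = 1
  · simp [h]
  · simp [h]

theorem K9_cast (E : ℕ → ℕ) (d i q : ℕ) :
    ∑ k ∈ Finset.range d, (if i.testBit k then (E k : ℤ) ^ q else 0) =
      ((((List.range d).map (fun k => if i.testBit k then E k ^ q else 0)).sum : ℕ) : ℤ) := by
  induction d with
  | zero => simp
  | succ d ih =>
    rw [Finset.sum_range_succ, ih, List.range_succ, List.map_append, List.sum_append]
    push_cast
    simp

/-- K9 -/
theorem poly_cen {t r i : α → ℕ} (ht : UPoly t) (hr : Poly r) (hi : Poly i) :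
    Poly (fun a => cen (cE (r a)) (t a).size (i a)) := by
  refine (NPC.Poly.pair (NPC.Poly.natCast_int (K9_sum ht hr hi 1))
    (NPC.Poly.pair (NPC.Poly.natCast_int (K9_sum ht hr hi 2))
      (NPC.Poly.natCast_int (K9_sum ht hr hi 4)))).congr fun a => ?_
  unfold cen
  rw [← K9_cast, ← K9_cast, ← K9_cast]
  simp only [pow_one]

end

end Pool.Agent.CK
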