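import Pool.Agent.H671R2.CK.K10
import Pool.Agent.H671R2.CK.K4
import Pool.Agent.H671R2.CK.K7
import Pool.Agent.H671R2.CK.K9
import Pool.Agent.H671R2.CK.CDefs
import Pool.Agent.H671R2.PolyAuto
import Pool.Agent.NPC.Dec

/-!
# K11: the arrangement is computed in polynomial time
-/

namespace Pool.Agent.CK

open Pool.Agent.NPC

section

variable {α : Type} [TEnc α]

theorem K11_cg {t s : α → ℕ} (ht : UPoly t) (hs : UPoly s) : UPoly (fun a => cg (t a) (s a)) := by
  have h1 : UPoly (fun a => (t a).size + 1) := (upoly_size ht.toPoly).add (UPoly.const 1)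
  have h2 : UPoly (fun a => 2 * (((t a).size + 1) * ((t a).size + 1)) * s a + 1) :=
    (((UPoly.const 2).mul (h1.mul h1)).mul hs).add (UPoly.const 1)
  refine NPC.Poly.congr h2 fun a => ?_
  show List.replicate _ () = List.replicate (2 * ((t a).size + 1) ^ 2 * s a + 1) ()
  rw [pow_two]

theorem K11_cA {t s : α → ℕ} (ht : UPoly t) (hs : UPoly s) : UPoly (fun a => cA (t a) (s a)) :=
  (UPoly.const 100).mul (K11_cg ht hs)

theorem K11_cn {t s : α → ℕ} (ht : UPoly t) (hs : UPoly s) : UPoly (fun a => cn (t a) (s a)) :=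
  (ht.mul hs).add ((UPoly.const 3).mul (K11_cg ht hs))

theorem K11_cB {t r : α → ℕ} (ht : UPoly t) (hr : Poly r) : Poly (fun a => cB (t a) (r a)) := by
  have h1 : UPoly (fun a => e0 (r a)) := ((UPoly.const 2).mul (upoly_size hr)).add (UPoly.const 17)
  have h2 : UPoly (fun a => 8 ^ (t a).size * e0 (r a) * 4) :=
    ((upoly_pow8 ht).mul h1).mul (UPoly.const 4)
  refine (poly_pow2 h2).congr fun a => ?_
  rw [cB, ← pow_mul]

theorem K11_cG {t s r : α → ℕ} (ht : UPoly t) (hs : UPoly s) (hr : Poly r) :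
    Poly (fun a => cG (t a) (s a) (r a)) := by
  have h1 := (K11_cA ht hs).toPoly
  have h2 := K11_cB ht hr
  refine ((NPC.Poly.const 64).mul ((h1.mul h1).add h2)).congr fun a => ?_
  rw [cG, pow_two]

theorem K11_cN {t s r : α → ℕ} (ht : UPoly t) (hs : UPoly s) (hr : Poly r) :
    Poly (fun a => cN (t a) (s a) (r a)) := by
  have h1 := (K11_cA ht hs).toPoly
  have h2 := ((K11_cn ht hs).add (UPoly.const 1)).toPoly
  refine ((((NPC.Poly.const (2 ^ 14)).mul hr).mul h1).mul
    (h2.mul (h2.mul (h2.mul (h2.mul (h2.mul h2)))))).congr fun a => ?_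
  rw [cN]
  ring

theorem K11_add3 {x y : α → ℤ × ℤ × ℤ} (hx : Poly x) (hy : Poly y) : Poly (fun a => x a + y a) := by
  refine ((poly_zadd hx.fst hy.fst).pair ((poly_zadd hx.snd.fst hy.snd.fst).pair
    (poly_zadd hx.snd.snd hy.snd.snd))).congr fun a => ?_
  rfl

theorem K11_coOf {cores : α → List (List (ℕ × ℕ))} {i c : α → ℕ} (hc : Poly cores) (hi : Poly i)
    (hj : Poly c) : Poly (fun a => coOf (cores a) (i a) (c a)) :=
  NPC.Poly.getD (NPC.Poly.getD hc hi (NPC.Poly.const [])) hj (NPC.Poly.const (0, 0))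

theorem K11_cQ {cores : α → List (List (ℕ × ℕ))} {s r b : α → ℕ} (hc : Poly cores) (hs : UPoly s)
    (hr : Poly r) (hb : Poly b) : Poly (fun a => cQ (cores a) (s a) (r a) (b a)) := by
  have ht : UPoly (fun a => (cores a).length) := UPoly.length hc
  have h1 : Poly (fun a => cen (cE (r a)) (cores a).length.size (b a / s a)) :=
    poly_cen ht hr (hb.div hs.toPoly)
  have h2 : Poly (fun a => loc (coOf (cores a) (b a / s a) (b a % s a))) :=
    poly_loc (K11_coOf hc (hb.div hs.toPoly) (hb.mod hs.toPoly))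
  have hg : Poly (fun a => cg (cores a).length (s a)) := (K11_cg ht hs).toPoly
  have hd : Poly (fun a => b a - (cores a).length * s a) := hb.sub (ht.toPoly.mul hs.toPoly)
  have h3 : Poly (fun a => guard (r a) (cA (cores a).length (s a)) (cG (cores a).length (s a) (r a))
      ((b a - (cores a).length * s a) / cg (cores a).length (s a))
      ((b a - (cores a).length * s a) % cg (cores a).length (s a))) :=
    poly_guard hr (K11_cA ht hs).toPoly (K11_cG ht hs hr) (hd.div hg) (hd.mod hg)
  have h4 : Poly (fun a => decide (b a < (cores a).length * s a)) :=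
    NPC.Poly.decide_lt hb (ht.toPoly.mul hs.toPoly)
  refine (NPC.Poly.cond h4 (K11_add3 h1 h2) h3).congr fun a => ?_
  rw [cQ]
  by_cases h : b a < (cores a).length * s a
  · rw [if_pos h, decide_eq_true h, cond_true]
  · rw [if_neg h, decide_eq_false h, cond_false]

theorem K11_toQ {p : α → ℤ × ℤ × ℤ} (hp : Poly p) : Poly (fun a => toQ (p a)) :=
  (poly_zcast hp.fst).pair ((poly_zcast hp.snd.fst).pair (poly_zcast hp.snd.snd))

theorem K11_cpos {cores : α → List (List (ℕ × ℕ))} {s r b : α → ℕ} (hc : Poly cores) (hs : UPoly s)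
    (hr : Poly r) (hb : Poly b) : Poly (fun a => cpos (cores a) (s a) (r a) (b a)) := by
  have ht : UPoly (fun a => (cores a).length) := UPoly.length hc
  have hN : Poly (fun a => ((cN (cores a).length (s a) (r a) : ℕ) : ℤ)) :=
    NPC.Poly.natCast_int (K11_cN ht hs hr)
  have hQ := K11_cQ hc hs hr hb
  have hz : Poly (fun a => ((b a : ℕ) : ℤ)) := NPC.Poly.natCast_int hb
  refine ((poly_zadd (poly_zmul hN hQ.fst) hz).pair
    ((poly_zadd (poly_zmul hN hQ.snd.fst) (poly_zmul hz hz)).pair
    (poly_zadd (poly_zmul hN hQ.snd.snd) (poly_zmul hz (poly_zmul hz hz))))).congr fun a => ?_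
  rw [cpos, pow_two, pow_succ, pow_two, mul_assoc]

/-- K11 -/
theorem poly_arr {cores : α → List (List (ℕ × ℕ))} {s r : α → ℕ} (hc : Poly cores) (hs : UPoly s)
    (hr : Poly r) : Poly (fun a => arr (cores a) (s a) (r a)) := by
  have ht : UPoly (fun a => (cores a).length) := UPoly.length hc
  have h1 : Poly (fun a => List.range (cn (cores a).length (s a))) := (K11_cn ht hs).range
  have hf : Poly (fun p : α × ℕ => p.1) := NPC.Poly.fst NPC.Poly.id
  exact NPC.Poly.map (F := fun a b => toQ (cpos (cores a) (s a) (r a) b)) h1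
    (K11_toQ (K11_cpos (hc.comp hf) (hs.comp hf) (hr.comp hf) (NPC.Poly.snd NPC.Poly.id)))

end

end Pool.Agent.CK
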