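import Pool.Agent.H671R2.CK.CDefs
import Pool.Agent.H671R2.PolyAuto

/-! K12: the core is computable in polynomial time -/

namespace Pool.Agent.CK

open Pool.Agent.NPC

variable {α : Type} [TEnc α]

theorem K12_range {φ : α → Form} (hφ : Poly φ) (k l : ℕ) :
    Poly (fun a => List.range (k * (φ a).length + l)) := by
  have h1 : UPoly (fun a => (φ a).length) := UPoly.length hφ
  have h2 : UPoly (fun a => k * (φ a).length + l) := ((UPoly.const k).mul h1).add (UPoly.const l)
  exact h2.range

theorem K12_rows_aux {r1 r2 : α → List ℕ} (h1 : Poly r1) (h2 : Poly r2) :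
    Poly (fun a => (r1 a).flatMap fun ρ => (r2 a).flatMap fun j =>
      [(8 * j + 4, 8 * ρ + 8), (8 * j + 8, 8 * ρ + 8), (8 * j + 6, 8 * ρ + 8)]) := by
  fun_prop

theorem K12_rows {φ : α → Form} (hφ : Poly φ) : Poly (fun a => rowsL (φ a).length) := by
  have h1 := K12_range hφ 6 0
  have h2 := K12_range hφ 3 1
  simp only [add_zero] at h1
  exact K12_rows_aux h1 h2

theorem K12_cross_aux {r1 r2 : α → List ℕ} (h1 : Poly r1) (h2 : Poly r2) :
    Poly (fun a => (r1 a).flatMap fun ρ => (r2 a).map fun e => (8 * e + 10, 8 * ρ + 8)) := by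
  fun_prop

theorem K12_cross {φ : α → Form} (hφ : Poly φ) : Poly (fun a => crossL (φ a).length) := by
  have h1 := K12_range hφ 6 0
  have h2 := K12_range hφ 3 0
  simp only [add_zero] at h1 h2
  exact K12_cross_aux h1 h2

theorem K12_cols_aux {r1 r2 : α → List ℕ} (h1 : Poly r1) (h2 : Poly r2) :
    Poly (fun a => (r1 a).flatMap fun e => (r2 a).flatMap fun i =>
    if i = 0 ∧ e % 3 = 1 then []
    else [(8 * e + 10, 8 * i + 2), (8 * e + 10, 8 * i + 6), (8 * e + 10, 8 * i + 4)]) := by
  fun_prop

theorem K12_cols {φ : α → Form} (hφ : Poly φ) : Poly (fun a => colsL (φ a).length) := by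
  have h1 := K12_range hφ 6 1
  have h2 := K12_range hφ 3 0
  simp only [add_zero] at h2
  exact K12_cols_aux h2 h1

theorem K12_conn {φ : α → Form} (hφ : Poly φ) : Poly (fun a => connL (φ a).length) := by
  have h2 := K12_range hφ 3 0
  simp only [add_zero] at h2
  unfold connL
  fun_prop

theorem K12_clause {φ : α → Form} (hφ : Poly φ) : Poly (fun a => (φ a).zipIdx.flatMap clauseP) := by
  unfold clauseP attP rowOf
  fun_prop

/-- K12 -/
theorem poly_core {φ : α → Form} (hφ : Poly φ) : Poly (fun a => core (φ a)) := by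
  have h1 := K12_rows hφ
  have h2 := K12_cross hφ
  have h3 := K12_cols hφ
  have h4 := K12_conn hφ
  have h5 := K12_clause hφ
  unfold core
  fun_prop

end Pool.Agent.CK
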