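import Pool.Agent.H671R2.CK.K11
import Pool.Agent.H671R2.CK.K12
import Pool.Agent.H671R2.CK.K13
import Pool.Agent.H671R2.CK.K3
import Pool.Agent.H671R2.CK.K7
import Pool.Agent.H671R2.CK.CDefs
import Pool.Agent.H671R2.PolyAuto
import Pool.Agent.NPC.Dec

/-! K14: the instances are computed in polynomial time (helper152) -/

namespace Pool.Agent.CK

open Pool.Agent.NPC

section
variable {α : Type} [TEnc α]

theorem K14_upoly_coreSize {m : α → ℕ} (hm : UPoly m) : UPoly (fun a => coreSize (m a)) := by
  have h : UPoly (fun a => 126 * (m a * m a) + 58 * m a) :=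
    ((UPoly.const 126).mul (hm.mul hm)).add ((UPoly.const 58).mul hm)
  have e : (fun a => coreSize (m a)) = fun a => 126 * (m a * m a) + 58 * m a := by
    funext a
    unfold coreSize
    ring
  rw [e]
  exact h

theorem K14_poly_target {m : α → ℕ} (hm : Poly m) : Poly (fun a => target (m a)) := by
  have h : Poly (fun a => 90 * (m a * m a) + 43 * m a) := by fun_prop
  refine h.congr fun a => ?_
  unfold target
  ring

theorem K14_poly_radius {m : α → ℕ} (hm : Poly m) : Poly (fun a => radius (m a)) := by
  unfold radius
  fun_prop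

theorem K14_poly_cg {t s : α → ℕ} (ht : Poly t) (hs : Poly s) : Poly (fun a => cg (t a) (s a)) := by
  have h1 : Poly (fun a => (t a).size) := (upoly_size ht).toPoly
  have h : Poly (fun a => 2 * (((t a).size + 1) * ((t a).size + 1)) * s a + 1) := by fun_prop
  refine h.congr fun a => ?_
  unfold cg
  ring

/-- K14 -/
theorem poly_inst {fs : α → List Form} (hf : Poly fs) :
    Poly (fun a => (inst (fs a), instK (fs a))) := by
  have hm : UPoly (fun a => maxLen (fs a)) := upoly_maxLen hf
  have hcores : Poly (fun a => (fs a).map (fun φ => core (padTo (maxLen (fs a)) φ))) := by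
    refine NPC.Poly.map hf ?_
    exact poly_core (poly_padTo (hm.comp (NPC.Poly.fst NPC.Poly.id)) (NPC.Poly.snd NPC.Poly.id))
  have h1 : Poly (fun a => inst (fs a)) := by
    unfold inst
    exact poly_arr hcores (K14_upoly_coreSize hm) (K14_poly_radius hm.toPoly)
  have h2 : Poly (fun a => instK (fs a)) := by
    unfold instK
    exact (NPC.Poly.mul (NPC.Poly.const 3) (K14_poly_cg (NPC.Poly.length hf)
      (K14_upoly_coreSize hm).toPoly)).add (K14_poly_target hm.toPoly)
  exact NPC.Poly.pair h1 h2

end

end Pool.Agent.CK
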