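import Pool.Agent.H671R2.CK.CDefs

namespace Pool.Agent.CK

theorem flatMap_entry {α β : Type*} (f g : α → List β) (m : ℕ) (d : α) :
    ∀ (l l' : List α), l.length = l'.length → (∀ x ∈ l, (f x).length = m) →
      (∀ x ∈ l', (g x).length = m) → l.flatMap f = l'.flatMap g →
      ∀ i < l.length, f (l.getD i d) = g (l'.getD i d) := by
  intro l
  induction l with
  | nil => intro l' _ _ _ _ i hi; simp at hi
  | cons x l ih =>
    intro l' hl hf hg h i hi
    match l', hl, hg, h with
    | [], hl, _, _ => simp at hl
    | y :: l', hl, hg, h =>
      rw [List.flatMap_cons, List.flatMap_cons] at h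
      have hlen : (f x).length = (g y).length := by
        rw [hf x (by simp), hg y (by simp)]
      obtain ⟨h1, h2⟩ := List.append_inj h hlen
      cases i with
      | zero => simpa using h1
      | succ i =>
        have := ih l' (by simpa using hl) (fun z hz => hf z (by simp [hz]))
          (fun z hz => hg z (by simp [hz])) h2 i (by simpa using hi)
        simpa using this

theorem map_entry {α β : Type*} (f g : α → β) (d : α) (l l' : List α) (hl : l.length = l'.length)
    (h : l.map f = l'.map g) {i : ℕ} (hi : i < l.length) :
    f (l.getD i d) = g (l'.getD i d) := by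
  have hi' : i < l'.length := hl ▸ hi
  have h1 : (l.map f)[i]? = (l'.map g)[i]? := by rw [h]
  rw [List.getElem?_map, List.getElem?_map, List.getElem?_eq_getElem hi,
    List.getElem?_eq_getElem hi'] at h1
  rw [List.getD_eq_getElem _ _ hi, List.getD_eq_getElem _ _ hi']
  simpa using h1

/-- O1: equal tables, equal orientations -/
theorem sig_get {S S' : List RPt} (hlen : S.length = S'.length) (h : sig S = sig S')
    {i j k l : ℕ} (hi : i < S.length + 4) (hj : j < S.length + 4) (hk : k < S.length + 4)
    (hl : l < S.length + 4) (d : RPt) :
    sgn ((S ++ frame).getD i d) ((S ++ frame).getD j d) ((S ++ frame).getD k d)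
      ((S ++ frame).getD l d) =
    sgn ((S' ++ frame).getD i d) ((S' ++ frame).getD j d) ((S' ++ frame).getD k d)
      ((S' ++ frame).getD l d) := by
  have hL : (S ++ frame).length = S.length + 4 := by simp [frame]
  have hL' : (S' ++ frame).length = S'.length + 4 := by simp [frame]
  have hLL : (S ++ frame).length = (S' ++ frame).length := by rw [hL, hL', hlen]
  unfold sig at h
  set T := S ++ frame with hT
  set T' := S' ++ frame with hT'
  have h1 := flatMap_entry (fun a => T.flatMap fun b => T.flatMap fun c => T.map fun d => sgn a b c d)
    (fun a => T'.flatMap fun b => T'.flatMap fun c => T'.map fun d => sgn a b c d)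
    (T.length * (T.length * T.length)) d T T' hLL
    (by intro x _; simp [List.length_flatMap, List.map_const'])
    (by intro x _; simp [List.length_flatMap, List.map_const', hLL]) h i (hL ▸ hi)
  have h2 := flatMap_entry (fun b => T.flatMap fun c => T.map fun e => sgn (T.getD i d) b c e)
    (fun b => T'.flatMap fun c => T'.map fun e => sgn (T'.getD i d) b c e)
    (T.length * T.length) d T T' hLL
    (by intro x _; simp [List.length_flatMap, List.map_const'])
    (by intro x _; simp [List.length_flatMap, List.map_const', hLL]) h1 j (hL ▸ hj)
  have h3 := flatMap_entry (fun c => T.map fun e => sgn (T.getD i d) (T.getD j d) c e)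
    (fun c => T'.map fun e => sgn (T'.getD i d) (T'.getD j d) c e)
    (T.length) d T T' hLL
    (by intro x _; simp)
    (by intro x _; simp [hLL]) h2 k (hL ▸ hk)
  exact map_entry (fun e => sgn (T.getD i d) (T.getD j d) (T.getD k d) e)
    (fun e => sgn (T'.getD i d) (T'.getD j d) (T'.getD k d) e) d T T' hLL h3 (hL ▸ hl)

end Pool.Agent.CK
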