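import Pool.Agent.H671R2.CK.CDefs
import Pool.Agent.H671R2.PolyAuto
import Pool.Agent.NPC.Dec

/-! Statements of all tasks (in the namespace `Pool.Agent.CK.Stub`). Not used in the final proof. -/

namespace Pool.Agent.CK.Stub

open Pool.Agent.NPC Pool.Agent.CK

/-! ### B: basic facts (done by helper671) -/

theorem Q_cluster (P : Par) (co : ℕ → ℕ → ℕ × ℕ) {i c : ℕ} (hi : i < P.t) (hc : c < P.s) :
    P.Q co (i * P.s + c) = cen P.E P.d i + loc (co i c) := sorry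

theorem Q_guard (P : Par) (co : ℕ → ℕ → ℕ × ℕ) {k j : ℕ} (hk : k < 3) (hj : j < P.g) :
    P.Q co (P.w k j) = guard P.r P.A P.G k j := sorry

theorem cluster_lt (P : Par) {i c : ℕ} (hi : i < P.t) (hc : c < P.s) :
    i * P.s + c < P.t * P.s := sorry

theorem w_lt (P : Par) {k j : ℕ} (hk : k < 3) (hj : j < P.g) : P.w k j < P.n := sorry

/-- every index below `n` is a cluster index or a guard index -/
theorem index_cases (P : Par) {a : ℕ} (ha : a < P.n) :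
    (∃ i < P.t, ∃ c < P.s, a = i * P.s + c) ∨ (∃ k < 3, ∃ j < P.g, a = P.w k j) := sorry

theorem loc_bounds {r : ℕ} (hr : 1 ≤ r) {p : ℕ × ℕ} (h1 : p.1 ≤ r) (h2 : p.2 ≤ r) :
    0 ≤ (loc p).1 ∧ (loc p).1 ≤ 1024 * r ∧ 0 ≤ (loc p).2.1 ∧ (loc p).2.1 ≤ 1024 * r ∧
      0 ≤ (loc p).2.2 ∧ (loc p).2.2 ≤ 8192 * (r : ℤ) ^ 2 := sorry

theorem E_ge (P : Par) (k : ℕ) : 2 ^ 17 * P.r ^ 2 ≤ P.E k := sorry

theorem E_pow (P : Par) {j k : ℕ} (h : j < k) : P.E j ^ 8 ≤ P.E k := sorry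

theorem E_sum (P : Par) (k q : ℕ) (hq : 1 ≤ q) :
    4 * ∑ j ∈ Finset.range k, P.E j ^ q ≤ P.E k ^ q := sorry

/-- the coordinates of the cluster points are between `0` and `B` -/
theorem cluster_bound (P : Par) (co : ℕ → ℕ → ℕ × ℕ) (ok : P.Ok co) {a : ℕ} (ha : a < P.t * P.s) :
    0 ≤ (P.Q co a).1 ∧ (P.Q co a).1 ≤ P.B ∧ 0 ≤ (P.Q co a).2.1 ∧ (P.Q co a).2.1 ≤ P.B ∧
      0 ≤ (P.Q co a).2.2 ∧ (P.Q co a).2.2 ≤ P.B := sorry

/-! ### G: geometry -/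

/-- G1 -/
theorem cone (X : Set (ℝ × ℝ × ℝ)) (hX : X.Finite) (x y : ℝ × ℝ × ℝ) (w : ℕ → ℝ × ℝ × ℝ)
    (G K : ℝ) (hG : 0 < G) (hK : 0 < K) (hx : x ∈ convexHull ℝ X)
    (hw : ∀ k < 3, |(w k).1 - y.1 - G * (dx k : ℝ)| ≤ G / 4 ∧
      |(w k).2.1 - y.2.1 - G * (dy k : ℝ)| ≤ G / 4 ∧ |(w k).2.2 - y.2.2 - G * K| ≤ G * K)
    (h1 : 8 * K * |y.1 - x.1| ≤ y.2.2 - x.2.2) (h2 : 8 * K * |y.2.1 - x.2.1| ≤ y.2.2 - x.2.2) :
    y ∈ convexHull ℝ (X ∪ {w 0, w 1, w 2}) := sorry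

/-- G2 -/
theorem guard_est (P : Par) (co : ℕ → ℕ → ℕ × ℕ) (ok : P.Ok co) {y : ℕ} (hy : y < P.t * P.s)
    {k j : ℕ} (hk : k < 3) (hj : j < P.g) :
    |(P.pt co (P.w k j)).1 - (P.pt co y).1 - (P.N * P.G : ℝ) * (dx k : ℝ)| ≤ (P.N * P.G : ℝ) / 4 ∧
    |(P.pt co (P.w k j)).2.1 - (P.pt co y).2.1 - (P.N * P.G : ℝ) * (dy k : ℝ)| ≤
      (P.N * P.G : ℝ) / 4 ∧
    |(P.pt co (P.w k j)).2.2 - (P.pt co y).2.2 - (P.N * P.G : ℝ) * (16 * P.r)| ≤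
      (P.N * P.G : ℝ) * (16 * P.r) := sorry

/-- G3 -/
theorem site_hull (P : Par) (co : ℕ → ℕ → ℕ × ℕ) (ok : P.Ok co) {i a c b : ℕ} (hi : i < P.t)
    (ha : a < P.s) (hc : c < P.s) (hb : b < P.s) (h : Conf (co i a) (co i c) (co i b))
    {j : ℕ → ℕ} (hj : ∀ k < 3, j k < P.g) :
    P.pt co (i * P.s + c) ∈ convexHull ℝ {P.pt co (i * P.s + a), P.pt co (i * P.s + b),
      P.pt co (P.w 0 (j 0)), P.pt co (P.w 1 (j 1)), P.pt co (P.w 2 (j 2))} := sorry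

/-- G4: differences of points of different clusters -/
theorem diff_est (P : Par) (co : ℕ → ℕ → ℕ × ℕ) (ok : P.Ok co) {i i' k c c' : ℕ} (hi : i < P.t)
    (hi' : i' < P.t) (hk : k < P.d) (h : i / 2 ^ (k + 1) = i' / 2 ^ (k + 1))
    (h0 : i.testBit k = false) (h1 : i'.testBit k = true) (hc : c < P.s) (hc' : c' < P.s) :
    ((P.N * P.E k : ℝ) / 2 ≤ (P.pt co (i' * P.s + c')).1 - (P.pt co (i * P.s + c)).1 ∧
      (P.pt co (i' * P.s + c')).1 - (P.pt co (i * P.s + c)).1 ≤ 2 * (P.N * P.E k : ℝ)) ∧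
    ((P.N * P.E k ^ 2 : ℝ) / 2 ≤ (P.pt co (i' * P.s + c')).2.1 - (P.pt co (i * P.s + c)).2.1 ∧
      (P.pt co (i' * P.s + c')).2.1 - (P.pt co (i * P.s + c)).2.1 ≤ 2 * (P.N * P.E k ^ 2 : ℝ)) ∧
    ((P.N * P.E k ^ 4 : ℝ) / 2 ≤ (P.pt co (i' * P.s + c')).2.2 - (P.pt co (i * P.s + c)).2.2 ∧
      (P.pt co (i' * P.s + c')).2.2 - (P.pt co (i * P.s + c)).2.2 ≤ 2 * (P.N * P.E k ^ 4 : ℝ)) :=
  sorry

/-- G5: the point of a higher cluster is in the hull of a point of a lower cluster and of three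
guards -/
theorem lower_hull (P : Par) (co : ℕ → ℕ → ℕ × ℕ) (ok : P.Ok co) {i i' c c' : ℕ} (hii : i < i')
    (hi' : i' < P.t) (hc : c < P.s) (hc' : c' < P.s) {j : ℕ → ℕ} (hj : ∀ k < 3, j k < P.g) :
    P.pt co (i' * P.s + c') ∈ convexHull ℝ {P.pt co (i * P.s + c),
      P.pt co (P.w 0 (j 0)), P.pt co (P.w 1 (j 1)), P.pt co (P.w 2 (j 2))} := sorry

/-- G6 -/
theorem det_pos (M E1 E2 E3 : ℝ) (hM : 0 < M) (hE1 : 2 ^ 17 ≤ E1) (hE2 : E1 ^ 8 ≤ E2)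
    (hE3 : E2 ^ 8 ≤ E3) (u v w : ℝ × ℝ × ℝ)
    (hu : (M * E1 / 2 ≤ u.1 ∧ u.1 ≤ 2 * (M * E1)) ∧
      (M * E1 ^ 2 / 2 ≤ u.2.1 ∧ u.2.1 ≤ 2 * (M * E1 ^ 2)) ∧
      (M * E1 ^ 4 / 2 ≤ u.2.2 ∧ u.2.2 ≤ 2 * (M * E1 ^ 4)))
    (hv : (M * E2 / 2 ≤ v.1 ∧ v.1 ≤ 2 * (M * E2)) ∧
      (M * E2 ^ 2 / 2 ≤ v.2.1 ∧ v.2.1 ≤ 2 * (M * E2 ^ 2)) ∧
      (M * E2 ^ 4 / 2 ≤ v.2.2 ∧ v.2.2 ≤ 2 * (M * E2 ^ 4)))
    (hw : (M * E3 / 2 ≤ w.1 ∧ w.1 ≤ 2 * (M * E3)) ∧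
      (M * E3 ^ 2 / 2 ≤ w.2.1 ∧ w.2.1 ≤ 2 * (M * E3 ^ 2)) ∧
      (M * E3 ^ 4 / 2 ≤ w.2.2 ∧ w.2.2 ≤ 2 * (M * E3 ^ 4))) :
    0 < u.1 * (v.2.1 * w.2.2 - v.2.2 * w.2.1) - u.2.1 * (v.1 * w.2.2 - v.2.2 * w.1) +
      u.2.2 * (v.1 * w.2.1 - v.2.1 * w.1) := sorry

/-- G7: four points in the hull around `a`: if all the determinants of three of the four vectors
`u k = ± (b k - a)`, with alternating signs, are positive, then `a` is in the hull of the `b k`. -/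
theorem alt_hull (a : ℝ × ℝ × ℝ) (b u : Fin 4 → ℝ × ℝ × ℝ) (ε : ℝ) (hε : ε = 1 ∨ ε = -1)
    (hb : ∀ k, b k = a + (ε * (-1) ^ (k : ℕ)) • u k)
    (hdet : ∀ i j k : Fin 4, i < j → j < k →
      0 < (u i).1 * ((u j).2.1 * (u k).2.2 - (u j).2.2 * (u k).2.1) -
        (u i).2.1 * ((u j).1 * (u k).2.2 - (u j).2.2 * (u k).1) +
        (u i).2.2 * ((u j).1 * (u k).2.1 - (u j).2.1 * (u k).1)) :
    a ∈ convexHull ℝ (Set.range b) := sorry

/-- G8: a point of cluster `i` is in the hull of four points of clusters which differ from `i` first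
(from the top) at four levels where the binary digits of `i` alternate -/
theorem alt_cluster (P : Par) (co : ℕ → ℕ → ℕ × ℕ) (ok : P.Ok co) {i : ℕ} (hi : i < P.t)
    {c : ℕ} (hc : c < P.s) (k i' c' : Fin 4 → ℕ) (hk : StrictMono k) (hkd : ∀ m, k m < P.d)
    (hi' : ∀ m, i' m < P.t) (hc' : ∀ m, c' m < P.s) (hT : ∀ m, Top i (i' m) (k m))
    (halt : ∀ m : Fin 3, i.testBit (k m.castSucc) ≠ i.testBit (k m.succ)) :
    P.pt co (i * P.s + c) ∈ convexHull ℝ (Set.range fun m => P.pt co (i' m * P.s + c' m)) := sorry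

/-- G9: counting -/
theorem count_levels (d : ℕ) (I : Finset ℕ) (hI : ∀ i ∈ I, i < 2 ^ d)
    (h : ∀ i ∈ I, ∀ k i' : Fin 4 → ℕ, StrictMono k → (∀ m, i' m ∈ I) → (∀ m, Top i (i' m) (k m)) →
      ¬ ∀ m : Fin 3, i.testBit (k m.castSucc) ≠ i.testBit (k m.succ)) :
    I.card ≤ 2 * (d + 1) ^ 2 := sorry

/-- G10 -/
theorem touched_card (P : Par) (co : ℕ → ℕ → ℕ × ℕ) (ok : P.Ok co) (I : Finset ℕ)
    (hI : ∀ a ∈ I, a < P.n) (hF : P.Free co I) :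
    ((I.filter (· < P.t * P.s)).image (· / P.s)).card ≤ 2 * (P.d + 1) ^ 2 := sorry

/-- G11: an integer functional with a margin separates -/
theorem ext_of_margin (P : Par) (co : ℕ → ℕ → ℕ × ℕ) {x : ℕ} (hx : x < P.n) (I : Set ℕ)
    (hI : ∀ a ∈ I, a < P.n) (f1 f2 f3 : ℤ)
    (h1 : |f1| ≤ 4096 * P.r * P.A) (h2 : |f2| ≤ 4096 * P.r * P.A) (h3 : |f3| ≤ 4096 * P.r * P.A)
    (h : ∀ a ∈ I, f1 * (P.Q co x).1 + f2 * (P.Q co x).2.1 + f3 * (P.Q co x).2.2 <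
      f1 * (P.Q co a).1 + f2 * (P.Q co a).2.1 + f3 * (P.Q co a).2.2) :
    P.pt co x ∉ convexHull ℝ (P.pt co '' I) := sorry

/-- G12: a valid set of grid points: every member of the set has a functional with a margin, inside
the cluster. The functional is `z ↦ f3 * z.2.2 - f1 * z.1 - f2 * z.2.1`. -/
theorem fun_valid {r : ℕ} (hr : 1 ≤ r) (T : Finset (ℕ × ℕ)) (hT : Valid T)
    (h1 : ∀ p ∈ T, p.1 ≤ r) (h2 : ∀ p ∈ T, p.2 ≤ r) (hpar : ∀ p ∈ T, p.1 % 2 = p.2 % 2)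
    (q : ℕ × ℕ) (hq : q ∈ T) :
    ∃ f1 f2 f3 : ℤ, 1 ≤ f3 ∧ f3 ≤ 1024 ∧ |f1| ≤ 3 * r * f3 ∧ |f2| ≤ 3 * r * f3 ∧
      ∀ p ∈ T, p ≠ q → f3 * (loc q).2.2 - f1 * (loc q).1 - f2 * (loc q).2.1 <
        f3 * (loc p).2.2 - f1 * (loc p).1 - f2 * (loc p).2.1 := sorry

/-- G13: the guards are far above the planes of the functionals of `fun_valid` -/
theorem guard_above (P : Par) (co : ℕ → ℕ → ℕ × ℕ) (ok : P.Ok co) {y : ℕ} (hy : y < P.t * P.s)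
    {k j : ℕ} (hk : k < 3) (hj : j < P.g) (f1 f2 f3 : ℤ) (h3 : 1 ≤ f3)
    (h1 : |f1| ≤ 3 * P.r * f3) (h2 : |f2| ≤ 3 * P.r * f3) :
    f3 * (P.Q co y).2.2 - f1 * (P.Q co y).1 - f2 * (P.Q co y).2.1 <
      f3 * (P.Q co (P.w k j)).2.2 - f1 * (P.Q co (P.w k j)).1 - f2 * (P.Q co (P.w k j)).2.1 := sorry

/-- G14: a functional for every guard -/
theorem fun_guard (P : Par) (co : ℕ → ℕ → ℕ × ℕ) (ok : P.Ok co) {k j : ℕ} (hk : k < 3)
    (hj : j < P.g) {a : ℕ} (ha : a < P.n) (hne : a ≠ P.w k j) :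
    -(P.A * dx k - 2 * j * dy k) * (P.Q co (P.w k j)).1 -
        (P.A * dy k + 2 * j * dx k) * (P.Q co (P.w k j)).2.1 <
      -(P.A * dx k - 2 * j * dy k) * (P.Q co a).1 -
        (P.A * dy k + 2 * j * dx k) * (P.Q co a).2.1 := sorry

/-- G15 -/
theorem free_of_valid (P : Par) (co : ℕ → ℕ → ℕ × ℕ) (ok : P.Ok co) {i : ℕ} (hi : i < P.t)
    (J : Finset ℕ) (hJ : ∀ c ∈ J, c < P.s) (hv : Valid (J.image (co i))) :
    P.Free co (J.image (fun c => i * P.s + c) ∪ Finset.Ico (P.t * P.s) P.n) := sorry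

/-- G16 -/
theorem valid_of_free (P : Par) (co : ℕ → ℕ → ℕ × ℕ) (ok : P.Ok co) {i : ℕ} (hi : i < P.t)
    (I : Finset ℕ) (hF : P.Free co I) {j : ℕ → ℕ} (hj : ∀ k < 3, j k < P.g)
    (hw : ∀ k < 3, P.w k (j k) ∈ I) :
    Valid (((Finset.range P.s).filter (fun c => i * P.s + c ∈ I)).image (co i)) := sorry

/-- G17 -/
theorem one_cluster (P : Par) (co : ℕ → ℕ → ℕ × ℕ) (ok : P.Ok co) (I : Finset ℕ)
    (hI : ∀ a ∈ I, a < P.n) (hF : P.Free co I) (K : ℕ) (hK : 1 ≤ K) (hcard : 3 * P.g + K ≤ I.card) :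
    ∃ i < P.t, (∃ j : ℕ → ℕ, (∀ k < 3, j k < P.g) ∧ ∀ k < 3, P.w k (j k) ∈ I) ∧
      K ≤ ((Finset.range P.s).filter (fun c => i * P.s + c ∈ I)).card := sorry

/-- G18 -/
theorem geo_iff (P : Par) (co : ℕ → ℕ → ℕ × ℕ) (ok : P.Ok co) (K : ℕ) (hK : 1 ≤ K) :
    (∃ I : Finset ℕ, (∀ a ∈ I, a < P.n) ∧ I.card = 3 * P.g + K ∧ P.Free co I) ↔
      ∃ i < P.t, ∃ T ⊆ (Finset.range P.s).image (co i), Valid T ∧ K ≤ T.card := sorry

/-- G19: no four points of the arrangement are on a plane -/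
theorem no_plane (P : Par) (co : ℕ → ℕ → ℕ × ℕ) {a b c e : ℕ} (ha : a < P.n) (hb : b < P.n)
    (hc : c < P.n) (he : e < P.n) (hab : a ≠ b) (hac : a ≠ c) (hae : a ≠ e) (hbc : b ≠ c)
    (hbe : b ≠ e) (hce : c ≠ e) (α β γ δ : ℝ) (h : α ≠ 0 ∨ β ≠ 0 ∨ γ ≠ 0) :
    ¬ ∀ x ∈ [a, b, c, e],
      α * (P.pt co x).1 + β * (P.pt co x).2.1 + γ * (P.pt co x).2.2 = δ := sorry

/-- G20 -/
theorem pos_inj (P : Par) (co : ℕ → ℕ → ℕ × ℕ) {a b : ℕ} (ha : a < P.n) (hb : b < P.n)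
    (h : P.pos co a = P.pos co b) : a = b := sorry

/-- G21: the list version -/
theorem arr_iff (cores : List (List (ℕ × ℕ))) (s r K : ℕ) (hs : 1 ≤ s) (hr : 1 ≤ r) (hK : 1 ≤ K)
    (h : ∀ C ∈ cores, C.length = s ∧ C.Nodup ∧
      ∀ p ∈ C, p.1 % 2 = p.2 % 2 ∧ p.1 ≤ r ∧ p.2 ≤ r) :
    IsInstance (arr cores s r) (3 * cg cores.length s + K) ∧
      (HasConvexSubset (arr cores s r) (3 * cg cores.length s + K) ↔
        ∃ C ∈ cores, ∃ T ⊆ C.toFinset, Valid T ∧ K ≤ T.card) := sorry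

/-! ### S: satisfiability -/

/-- S1 -/
theorem core_length (m : ℕ) (φ : Form) (hφ : φ.length = m) (hm : 1 ≤ m) :
    (core φ).length = coreSize m := sorry

/-- S2 -/
theorem core_nodup (φ : Form) : (core φ).Nodup := sorry

/-- S3 -/
theorem core_bounds (m : ℕ) (φ : Form) (hφ : Norm m φ) :
    ∀ p ∈ core φ, p.1 % 2 = p.2 % 2 ∧ p.1 ≤ radius m ∧ p.2 ≤ radius m := sorry

/-- what a selection of maximal size satisfies -/
structure Perfect (m : ℕ) (φ : Form) (T : Finset (ℕ × ℕ)) : Prop where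
  row : ∀ ρ < 6 * m, ∀ j < 3 * m + 1, (8 * j + 4, 8 * ρ + 8) ∈ T ∨ (8 * j + 8, 8 * ρ + 8) ∈ T
  cross : ∀ ρ < 6 * m, ∀ e < 3 * m, (8 * e + 10, 8 * ρ + 8) ∈ T
  col : ∀ e < 3 * m, ∀ i < 6 * m + 1, ¬ (i = 0 ∧ e % 3 = 1) →
    (8 * e + 10, 8 * i + 2) ∈ T ∨ (8 * e + 10, 8 * i + 6) ∈ T
  tri : ∀ j < m, (24 * j + 14, 2) ∈ T ∨ (24 * j + 18, 2) ∈ T ∨ (24 * j + 16, 0) ∈ T
  p1 : ∀ j < m, (24 * j + 20, 4) ∈ T ∨ (24 * j + 18, 6) ∈ T
  p2 : ∀ j < m, (24 * j + 20, 0) ∈ T ∨ (24 * j + 24, 0) ∈ T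
  s1 : ∀ j < m, (24 * j + 12, 2) ∈ T
  s2 : ∀ j < m, (24 * j + 18, 0) ∈ T
  s3 : ∀ j < m, (24 * j + 19, 3) ∈ T
  s4 : ∀ j < m, (24 * j + 25, 1) ∈ T
  att : ∀ c ∈ φ.zipIdx, attP c.1.1 (3 * c.2) ∈ T ∧ attP c.1.2.1 (3 * c.2 + 1) ∈ T ∧
    attP c.1.2.2 (3 * c.2 + 2) ∈ T
  con : ∀ v < 3 * m, (2, 16 * v + 10) ∈ T ∨ (2, 16 * v + 14) ∈ T
  c1 : ∀ v < 3 * m, (3, 16 * v + 9) ∈ T
  c2 : ∀ v < 3 * m, (3, 16 * v + 15) ∈ T

/-- S4: counting -/
theorem perfect_of_card (m : ℕ) (φ : Form) (hφ : Norm m φ) (T : Finset (ℕ × ℕ))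
    (hT : T ⊆ (core φ).toFinset) (hv : Valid T) (hcard : target m ≤ T.card) : Perfect m φ T := sorry

/-- S5: a perfect selection gives a satisfying assignment -/
theorem sat_of_perfect (m : ℕ) (φ : Form) (hφ : Norm m φ) (T : Finset (ℕ × ℕ)) (hv : Valid T)
    (hp : Perfect m φ T) : SAT3 φ := sorry

/-- the selected grid points, for an assignment `τ` and for the set `act` of active columns -/
def chosen (τ : ℕ → Bool) (act : ℕ → Bool) (p : ℕ × ℕ) : Bool :=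
  if p.1 % 2 = 1 ∨ (p.1 + p.2) % 4 = 2 then true
  else if p.1 = 2 then (if p.2 % 16 = 10 then !τ ((p.2 - 10) / 16) else τ ((p.2 - 14) / 16))
  else if p.2 = 0 then
    (if p.1 % 24 = 16 then act (3 * ((p.1 - 16) / 24) + 2)
      else if p.1 % 24 = 20 then !act (3 * ((p.1 - 20) / 24) + 2)
      else act (3 * ((p.1 - 24) / 24) + 2))
  else if p.2 = 4 then !act (3 * ((p.1 - 20) / 24) + 1)
  else if p.2 % 4 = 0 then
    (decide (p.1 % 8 = 4) == (τ ((p.2 - 8) / 16) == decide ((p.2 - 8) % 16 = 0)))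
  else if p.2 = 2 ∧ p.1 % 8 = 6 then act (3 * ((p.1 - 14) / 24))
  else if p.2 = 2 ∧ p.1 % 24 = 18 then act (3 * ((p.1 - 18) / 24) + 1)
  else (decide (p.2 % 8 = 6) == act ((p.1 - 10) / 8))

/-- one true literal of every clause is active, no false literal is active, and no two columns of a
clause are active -/
structure Act (φ : Form) (τ : ℕ → Bool) (act : ℕ → Bool) : Prop where
  lit : ∀ c ∈ φ.zipIdx, (act (3 * c.2) = true → τ c.1.1.2 = c.1.1.1) ∧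
    (act (3 * c.2 + 1) = true → τ c.1.2.1.2 = c.1.2.1.1) ∧
    (act (3 * c.2 + 2) = true → τ c.1.2.2.2 = c.1.2.2.1)
  one : ∀ j < φ.length,
    (act (3 * j) = true ∧ act (3 * j + 1) = false ∧ act (3 * j + 2) = false) ∨
    (act (3 * j) = false ∧ act (3 * j + 1) = true ∧ act (3 * j + 2) = false) ∨
    (act (3 * j) = false ∧ act (3 * j + 1) = false ∧ act (3 * j + 2) = true)

/-- S6 -/
theorem exists_act (φ : Form) (h : SAT3 φ) : ∃ τ act, Act φ τ act := sorry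

/-- S7 -/
theorem chosen_valid (m : ℕ) (φ : Form) (hφ : Norm m φ) (τ act : ℕ → Bool) (h : Act φ τ act) :
    Valid ((core φ).toFinset.filter (fun p => chosen τ act p = true)) := sorry

/-- S8 -/
theorem chosen_card (m : ℕ) (φ : Form) (hφ : Norm m φ) (τ act : ℕ → Bool) (h : Act φ τ act) :
    ((core φ).filter (chosen τ act)).length = target m := sorry

/-- S9 -/
theorem core_iff (m : ℕ) (φ : Form) (hφ : Norm m φ) :
    SAT3 φ ↔ ∃ T ⊆ (core φ).toFinset, Valid T ∧ target m ≤ T.card := sorry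

/-- S10 -/
theorem padTo_sat (m : ℕ) (φ : Form) : SAT3 (padTo m φ) ↔ SAT3 φ := sorry

/-- S11 -/
theorem inst_iff (fs : List Form) (hb : ∀ φ ∈ fs, Bounded3 φ) :
    IsInstance (inst fs) (instK fs) ∧
      (HasConvexSubset (inst fs) (instK fs) ↔ ∃ φ ∈ fs, SAT3 φ) := sorry

/-! ### K: complexity -/

/-- K1: the counting argument of Fortnow and Santhanam -/
theorem cover {α β : Type} [DecidableEq α] [DecidableEq β] (S : Finset α) (n s t : ℕ)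
    (hS : S.card ≤ 2 ^ n) (comp : (Fin t → α) → β) (R : Finset β) (hR : R.card ≤ 2 ^ s)
    (hcomp : ∀ v : Fin t → α, (∀ i, v i ∈ S) → comp v ∈ R) (ht : 1 ≤ t) (hst : s ≤ t) :
    ∃ Y : Finset β, Y.card ≤ n + 1 ∧
      ∀ x ∈ S, ∃ v : Fin t → α, (∀ i, v i ∈ S) ∧ (∃ i, v i = x) ∧ comp v ∈ Y := sorry

/-- K2 -/
theorem threshold (q : Polynomial ℕ) :
    ∃ p : Polynomial ℕ, ∀ n, ∃ t, 1 ≤ t ∧ t ≤ p.eval n ∧ q.eval (n + t.size) + 1 ≤ t := sorry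

/-- K3: the lemma of Fortnow and Santhanam -/
theorem fs {β : Type} [TEnc β] [TDec β] [DecidableEq β] (L : Set (List Bool))
    (comp : List (List Bool) → β) (hc : Poly comp) (A : β → Prop) (q : Polynomial ℕ)
    (hq : ∀ n xs, xs ≠ [] → (∀ x ∈ xs, x.length = n) →
      sz (comp xs) ≤ q.eval (n + xs.length.size))
    (hA : ∀ n xs, xs ≠ [] → (∀ x ∈ xs, x.length = n) → (A (comp xs) ↔ ∃ x ∈ xs, x ∉ L)) :
    InNPPoly L := sorry

section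
variable {α : Type} [TEnc α]

/-- K4 -/
theorem poly_zneg {x : α → ℤ} (hx : Poly x) : Poly (fun a => - x a) := sorry
theorem poly_zadd {x y : α → ℤ} (hx : Poly x) (hy : Poly y) : Poly (fun a => x a + y a) := sorry
theorem poly_zsub {x y : α → ℤ} (hx : Poly x) (hy : Poly y) : Poly (fun a => x a - y a) := sorry
theorem poly_zmul {x y : α → ℤ} (hx : Poly x) (hy : Poly y) : Poly (fun a => x a * y a) := sorry
theorem poly_zpos {x : α → ℤ} (hx : Poly x) : Poly (fun a => decide (0 < x a)) := sorry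
theorem poly_zlt0 {x : α → ℤ} (hx : Poly x) : Poly (fun a => decide (x a < 0)) := sorry
theorem poly_zcast {x : α → ℤ} (hx : Poly x) : Poly (fun a => ((x a : ℤ) : ℚ)) := sorry

/-- K5 -/
theorem poly_summary : Poly summary := sorry

/-- K6 -/
theorem summary_size : ∃ q : Polynomial ℕ, ∀ x : List RPt × ℕ,
    sz (summary x) ≤ q.eval x.1.length := sorry

/-- K7: powers of two -/
theorem poly_pow2 {n : α → ℕ} (hn : UPoly n) : Poly (fun a => 2 ^ n a) := sorry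

/-- K8: numbers of polynomial size in unary -/
theorem upoly_pow8 {n : α → ℕ} (hn : UPoly n) : UPoly (fun a => 8 ^ (n a).size) := sorry
theorem upoly_size {n : α → ℕ} (hn : Poly n) : UPoly (fun a => (n a).size) := sorry

/-- K9 -/
theorem poly_cen {t r i : α → ℕ} (ht : UPoly t) (hr : Poly r) (hi : Poly i) :
    Poly (fun a => cen (cE (r a)) (t a).size (i a)) := sorry

/-- K10 -/
theorem poly_guard {r A G k j : α → ℕ} (hr : Poly r) (hA : Poly A) (hG : Poly G) (hk : Poly k)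
    (hj : Poly j) : Poly (fun a => guard (r a) (A a) (G a) (k a) (j a)) := sorry
theorem poly_loc {p : α → ℕ × ℕ} (hp : Poly p) : Poly (fun a => loc (p a)) := sorry

/-- K11 -/
theorem poly_arr {cores : α → List (List (ℕ × ℕ))} {s r : α → ℕ} (hc : Poly cores) (hs : UPoly s)
    (hr : Poly r) : Poly (fun a => arr (cores a) (s a) (r a)) := sorry

/-- K12 -/
theorem poly_core {φ : α → Form} (hφ : Poly φ) : Poly (fun a => core (φ a)) := sorry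

/-- K13 -/
theorem upoly_maxLen {fs : α → List Form} (hf : Poly fs) : UPoly (fun a => maxLen (fs a)) := sorry
theorem poly_padTo {m : α → ℕ} {φ : α → Form} (hm : UPoly m) (hφ : Poly φ) :
    Poly (fun a => padTo (m a) (φ a)) := sorry

/-- K14 -/
theorem poly_inst {fs : α → List Form} (hf : Poly fs) :
    Poly (fun a => (inst (fs a), instK (fs a))) := sorry

end

/-- K15 -/
theorem instK_bound : ∃ q : Polynomial ℕ, ∀ (fs : List Form) (m : ℕ), (∀ φ ∈ fs, φ.length ≤ m) →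
    instK fs ≤ q.eval (m + fs.length.size) := sorry

/-- K16 -/
theorem bits_raw (S : List QPt) (k : ℕ) : bits (S, k) = bits (S.map raw, k) := sorry

/-! ### O: order types -/

/-- O1: equal tables, equal orientations -/
theorem sig_get {S S' : List RPt} (hlen : S.length = S'.length) (h : sig S = sig S')
    {i j k l : ℕ} (hi : i < S.length + 4) (hj : j < S.length + 4) (hk : k < S.length + 4)
    (hl : l < S.length + 4) (d : RPt) :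
    sgn ((S ++ frame).getD i d) ((S ++ frame).getD j d) ((S ++ frame).getD k d)
      ((S ++ frame).getD l d) =
    sgn ((S' ++ frame).getD i d) ((S' ++ frame).getD j d) ((S' ++ frame).getD k d)
      ((S' ++ frame).getD l d) := sorry

/-- the real determinant of four points -/
def rdet (a b c d : QPt) : ℚ :=
  ((b.1 - a.1) * ((c.2.1 - a.2.1) * (d.2.2 - a.2.2) - (c.2.2 - a.2.2) * (d.2.1 - a.2.1)) -
    (b.2.1 - a.2.1) * ((c.1 - a.1) * (d.2.2 - a.2.2) - (c.2.2 - a.2.2) * (d.1 - a.1)) +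
    (b.2.2 - a.2.2) * ((c.1 - a.1) * (d.2.1 - a.2.1) - (c.2.1 - a.2.1) * (d.1 - a.1)))

/-- O2 -/
theorem sgn_raw (a b c d : QPt) :
    sgn (raw a) (raw b) (raw c) (raw d) = (decide (0 < rdet a b c d), decide (rdet a b c d < 0)) :=
  sorry

/-- O3 -/
theorem plane_iff (a b c d : QPt) : OnCommonPlane a b c d ↔ rdet a b c d = 0 := sorry

/-- O4: membership in a tetrahedron -/
theorem tet_iff (x a b c d : QPt) (h : rdet a b c d ≠ 0) (h1 : rdet x b c d ≠ 0)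
    (h2 : rdet a x c d ≠ 0) (h3 : rdet a b x d ≠ 0) (h4 : rdet a b c x ≠ 0) :
    toR x ∈ convexHull ℝ (toR '' {a, b, c, d}) ↔
      ((0 < rdet a b c d ∧ 0 < rdet x b c d ∧ 0 < rdet a x c d ∧ 0 < rdet a b x d ∧
          0 < rdet a b c x) ∨
        (rdet a b c d < 0 ∧ rdet x b c d < 0 ∧ rdet a x c d < 0 ∧ rdet a b x d < 0 ∧
          rdet a b c x < 0)) := sorry

/-- O5: Carathéodory in general position -/
theorem hull_iff (S : List QPt) (hS : GeneralPosition S) (hn : S.Nodup) (h4 : 4 ≤ S.length)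
    (Q : Finset QPt) (hQ : ∀ p ∈ Q, p ∈ S) (x : QPt) (hx : x ∈ Q) :
    toR x ∈ convexHull ℝ (toR '' ((Q : Set QPt) \ {x})) ↔
      ∃ a ∈ Q, ∃ b ∈ Q, ∃ c ∈ Q, ∃ d ∈ Q, a ≠ x ∧ b ≠ x ∧ c ≠ x ∧ d ≠ x ∧ a ≠ b ∧ a ≠ c ∧ a ≠ d ∧
        b ≠ c ∧ b ≠ d ∧ c ≠ d ∧ toR x ∈ convexHull ℝ (toR '' {a, b, c, d}) := sorry

/-- O6: three points -/
theorem three_iff (a b c : QPt) (hab : a ≠ b) (hac : a ≠ c) (hbc : b ≠ c) :
    HasConvexSubset [a, b, c] 3 ↔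
      ¬ ∀ w ∈ [((0, 0, 0) : QPt), (1, 0, 0), (0, 1, 0), (0, 0, 1)], rdet a b c w = 0 := sorry

/-- O7: at most two points -/
theorem two_pts (S : List QPt) (hn : S.Nodup) (k : ℕ) (hk : k ≤ 2) (h : k ≤ S.length) :
    HasConvexSubset S k := sorry

/-- O8: the summary determines the answer -/
theorem summary_eq {S S' : List QPt} {k k' : ℕ} (h : IsInstance S k) (h' : IsInstance S' k')
    (heq : summary (S.map raw, k) = summary (S'.map raw, k')) :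
    HasConvexSubset S k ↔ HasConvexSubset S' k' := sorry

end Pool.Agent.CK.Stub
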